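import Mathlib
import Pool.Agent.Helper941.Hyp.Ind

/-!
# A computably categorical structure with complicated orbits

The structure `AA` is obtained from the construction of `Pool.Agent.Helper941` for the tree `HT2`
of all sequences `(m, e, x₀, x₁, …)` such that `(x₀, x₁, …)` is an attempt to witness that `e`
belongs to the universal `Σ¹₁` set.
-/

set_option autoImplicit false
set_option maxHeartbeats 400000

namespace Pool.Agent.R621.HS

open Encodable Denumerable Nat.Partrec Pool.Agent.Helper941 Pool.Agent.Helper941.IsoProb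
open Pool.Agent.Helper941.Zeta Pool.Agent.Helper941.Dim Pool.Agent.Helper941.Hyp

/-- the sequence coded by `j` without its first two entries -/
def pre2 (j m : ℕ) : List ℕ := (List.range m).map fun i => dig j (i + 2)

/-- the tree of labels -/
def HT2 (j : ℕ) : Prop := ∀ m < len j - 1, ¬ haltsIn (ofNat Code (dig j 1))
  (Nat.pair (dig j 1) (encode (pre2 j m))) (len j - 2) = true

theorem th_HT2 : TH HT2 prn where
  zero := by
    intro m hm
    rw [len_zero] at hm
    omega
  up := by
    intro j hj h m hm hh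
    have h1 := len_prn hj
    have h2 : dig (prn j) 1 = dig j 1 := dig_prn hj (by omega)
    have h3 : pre2 (prn j) m = pre2 j m := by
      unfold pre2
      refine List.map_congr_left fun i hi => ?_
      have := List.mem_range.1 hi
      exact dig_prn hj (by omega)
    rw [h2, h3] at hh
    exact h m (by omega) (haltsIn_mono _ _ (by omega) hh)
  lt := fun _ hj => prn_lt hj

theorem p_HT2 : ComputablePred HT2 := by
  have h1 : Computable fun p : ℕ × ℕ => dig p.1 1 := c_dig (c_fst c_id) (c_const 1)
  have h2 : Computable fun p : ℕ × ℕ => encode (pre2 p.1 p.2) := by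
    refine Computable.encode.comp ?_
    exact c_tab (c_snd c_id) (c_dig (c_fst (c_fst c_id)) (c_succ (c_succ (c_snd c_id))))
  have h3 := c_halts (α := ℕ × ℕ) (a := fun p => dig p.1 1)
    (b := fun p => Nat.pair (dig p.1 1) (encode (pre2 p.1 p.2))) (c := fun p => len p.1 - 2)
    h1 (c_npair h1 h2) (c_sub (c_lenj (c_fst c_id)) (c_const 2))
  exact p_ball (c_sub (c_lenj c_id) (c_const 1)) (p_not (p_of_bool h3))

theorem HT2_nod (g : ℕ → ℕ) (n : ℕ) : HT2 (nod g (n + 2)) ↔
    UT (g 1) (g 1) ((List.range n).map fun i => g (i + 2)) := by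
  rw [ut_range]
  unfold HT2
  rw [len_nod, dig_nod g (by omega)]
  have h0 : n + 2 - 1 = n + 1 := by omega
  rw [h0]
  refine forall_congr' fun m => forall_congr' fun hm => ?_
  have : pre2 (nod g (n + 2)) m = (List.range m).map fun i => g (i + 2) := by
    unfold pre2
    refine List.map_congr_left fun i hi => ?_
    have := List.mem_range.1 hi
    exact dig_nod g (by omega)
  rw [this, Nat.add_sub_cancel]

theorem HT2_one (g : ℕ → ℕ) : HT2 (nod g 1) := by
  intro m hm
  rw [len_nod] at hm
  omega

/-- the label of the sequence `(m)` -/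
def lab1 (m : ℕ) : ℕ := nod (fun _ => m) 1

/-- the label of the sequence `(m, e)` -/
def lab2 (m e : ℕ) : ℕ := nod (fun i => if i = 0 then m else e) 2

theorem nod_one (g : ℕ → ℕ) : nod g 1 = lab1 (g 0) := by
  unfold lab1 nod
  simp

theorem nod_two (g : ℕ → ℕ) : nod g 2 = lab2 (g 0) (g 1) := by
  unfold lab2 nod
  simp [List.range_succ]

theorem dig_lab1 (m : ℕ) : dig (lab1 m) 0 = m := dig_nod _ (by omega)

theorem dig_lab2_zero (m e : ℕ) : dig (lab2 m e) 0 = m := by
  unfold lab2; rw [dig_nod _ (by omega)]; simp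

theorem dig_lab2_one (m e : ℕ) : dig (lab2 m e) 1 = e := by
  unfold lab2; rw [dig_nod _ (by omega)]; simp

theorem c_lab2 {α : Type} [Primcodable α] {f g : α → ℕ} (hf : Computable f)
    (hg : Computable g) : Computable fun a => lab2 (f a) (g a) := by
  have h : ∀ m e, lab2 m e = encode [e, m] := by
    intro m e
    unfold lab2 nod
    simp [List.range_succ]
  have h1 : Computable fun a => encode [g a, f a] :=
    Computable.encode.comp (Computable.list_cons.comp hg
      (Computable.list_cons.comp hf (c_const [])))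
  exact h1.of_eq fun a => (h _ _).symm

theorem prn_lab1 (m : ℕ) : prn (lab1 m) = 0 := by
  unfold lab1
  rw [prn_nod, nod_zero]

theorem prn_lab2 (m e : ℕ) : prn (lab2 m e) = lab1 m := by
  unfold lab2
  rw [prn_nod, nod_one]
  simp

/-- members of the universal set give paths -/
theorem path_exists (m e : ℕ) (h : UU1 e e) : ∃ l, IsPath HT2 prn l ∧ l 1 = lab1 m ∧
    l 2 = lab2 m e ∧ ∀ k, 1 ≤ k → dig (l k) 0 = m := by
  obtain ⟨f, hf⟩ := h
  let g : ℕ → ℕ := fun k => if k = 0 then m else if k = 1 then e else f (k - 2)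
  have h0 : g 0 = m := rfl
  have h1 : g 1 = e := rfl
  refine ⟨nod g, ⟨rfl, fun k => nod_pos g k, fun k => prn_nod g k, fun k => ?_⟩, ?_, ?_, ?_⟩
  · cases k with
    | zero => exact HT2_one g
    | succ k =>
      refine (HT2_nod g k).2 ?_
      rw [h1]
      have : (List.range k).map (fun i => g (i + 2)) = (List.range k).map f := by
        refine List.map_congr_left fun i _ => ?_
        show (if i + 2 = 0 then m else if i + 2 = 1 then e else f (i + 2 - 2)) = f i
        rw [if_neg (by omega), if_neg (by omega), Nat.add_sub_cancel]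
      rw [this]
      exact hf k
  · rw [nod_one, h0]
  · rw [nod_two, h0, h1]
  · intro k hk
    rw [dig_nod g (by omega), h0]

/-- paths give members of the universal set -/
theorem of_path {l : ℕ → ℕ} (hl : IsPath HT2 prn l) {m e : ℕ} (h : l 2 = lab2 m e) :
    UU1 e e := by
  obtain ⟨g, hg⟩ := path_nod hl
  have h1 : g 1 = e := by
    have := hg 2
    rw [h] at this
    have h2 : dig (lab2 m e) 1 = dig (nod g 2) 1 := by rw [this]
    rw [dig_lab2_one, dig_nod g (by omega)] at h2
    exact h2.symm
  refine ⟨fun i => g (i + 2), fun n => ?_⟩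
  have h3 := hl.mem (n + 1)
  rw [hg] at h3
  have h4 := (HT2_nod g n).1 h3
  rwa [h1] at h4

/-! ### flows -/

theorem Flow.xor {pa t t' : ℕ → ℕ} (h : Flow pa t) (h' : Flow pa t') :
    Flow pa fun v => t v ^^^ t' v where
  child := by
    intro v u hu
    rw [Nat.testBit_xor] at hu
    by_cases h1 : (t v).testBit u = true
    · exact h.child v u h1
    · simp only [Bool.not_eq_true] at h1
      rw [h1] at hu
      exact h'.child v u (by simpa using hu)
  par := by
    intro u hu
    rw [Nat.testBit_xor, par_xor, h.par u hu, h'.par u hu]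

/-- a path gives a flow supported by the true nodes of the path -/
theorem flow_path {T : ℕ → Prop} {pr l g : ℕ → ℕ} {d : Dat} (hS : Spec T pr d)
    (hT : TH T pr) (hg : TP d g) (h : IsPath T pr l) : ∃ t w : ℕ → ℕ, Flow d.pa t ∧
      (∀ k, Pers d g (w k) (l k)) ∧ (∀ k, 1 ≤ w (k + 1) ∧ d.pa (w (k + 1)) = w k) ∧
      (∀ k, t (w k) = 2 ^ w (k + 1)) ∧ ∀ v, (¬ ∃ k, w k = v) → t v = 0 := by
  classical
  choose w hw using fun k => pers_exists hS hg (l k) (h.memk hT k)
  have hpa : ∀ k, 1 ≤ w (k + 1) ∧ d.pa (w (k + 1)) = w k := by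
    intro k
    obtain ⟨h1, h2⟩ := (hw (k + 1)).pa hS hT (h.pos k)
    rw [h.prv] at h2
    exact ⟨h1, h2.uniq hS hT hg (hw k)⟩
  have h0 : w 0 = 0 := by
    have := hw 0
    rw [h.zero] at this
    exact this.uniq hS hT hg (pers_zero hS)
  have hmono : StrictMono w := by
    refine strictMono_nat_of_lt_succ fun k => ?_
    obtain ⟨h1, h2⟩ := hpa k
    have := hS.pa_lt hT h1
    omega
  let t : ℕ → ℕ := fun v => if hv : ∃ k, w k = v then 2 ^ w (hv.choose + 1) else 0
  have ht1 : ∀ k, t (w k) = 2 ^ w (k + 1) := by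
    intro k
    have hv : ∃ k', w k' = w k := ⟨k, rfl⟩
    show (if hv : ∃ k', w k' = w k then 2 ^ w (hv.choose + 1) else 0) = _
    rw [dif_pos hv]
    have := hmono.injective hv.choose_spec
    rw [this]
  have ht2 : ∀ v, (¬ ∃ k, w k = v) → t v = 0 := fun v hv => dif_neg hv
  refine ⟨t, w, ⟨?_, ?_⟩, hw, hpa, ht1, ht2⟩
  · intro v u hu
    by_cases hv : ∃ k, w k = v
    · obtain ⟨k, rfl⟩ := hv
      rw [ht1, Nat.testBit_two_pow] at hu
      have hu' : w (k + 1) = u := by simpa using hu
      rw [← hu']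
      exact hpa k
    · rw [ht2 v hv] at hu
      simp at hu
  · intro u hu
    by_cases hv : ∃ k, w k = u
    · obtain ⟨k, rfl⟩ := hv
      cases k with
      | zero => omega
      | succ k =>
        rw [(hpa k).2, ht1, ht1, par_two_pow, Nat.testBit_two_pow]
        simp
    · rw [ht2 u hv]
      by_contra hc
      have h1 : (t (d.pa u)).testBit u = true := by
        by_contra hc'
        simp only [Bool.not_eq_true] at hc'
        exact hc (by rw [hc']; rfl)
      by_cases hv' : ∃ k, w k = d.pa u
      · obtain ⟨k, hk⟩ := hv'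
        rw [← hk, ht1, Nat.testBit_two_pow] at h1
        exact hv ⟨k + 1, by simpa using h1⟩
      · rw [ht2 _ hv'] at h1
        simp at h1

/-- an odd chain starting at a node `w` with label `j` whose predecessor is the root -/
theorem path_of_flow_at {T : ℕ → Prop} {pr : ℕ → ℕ} {d : Dat} (hS : Spec T pr d)
    (hT : TH T pr) {t : ℕ → ℕ} (hF : Flow d.pa t) {w u j : ℕ} (hw : d.J w = j + 1)
    (hj : 1 ≤ j) (hTj : T j) (hpj : pr j = 0) (hu : (t w).testBit u = true) :
    ∃ l, IsPath T pr l ∧ l 1 = j ∧ d.J u = l 2 + 1 := by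
  have hnx : ∀ v, ∃ u, par (t v) = true → (t v).testBit u = true := by
    intro v
    by_cases h : par (t v) = true
    · obtain ⟨u, hu⟩ := exists_of_par h
      exact ⟨u, fun _ => hu⟩
    · exact ⟨0, fun h' => (h h').elim⟩
  choose nx hnx using hnx
  have hodd : ∀ v u, (t v).testBit u = true → par (t u) = true := by
    intro v u hu
    obtain ⟨h1, h2⟩ := hF.child v u hu
    rw [← hF.par u h1, h2, hu]
  let a : ℕ → ℕ := fun k => Nat.casesOn k w fun k => nx^[k] u
  have ha : ∀ k, par (t (nx^[k] u)) = true := by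
    intro k
    induction k with
    | zero => exact hodd _ _ hu
    | succ k ih =>
      rw [Function.iterate_succ_apply']
      exact hodd _ _ (hnx _ ih)
  have h1 : ∀ k, (t (a k)).testBit (a (k + 1)) = true := by
    intro k
    cases k with
    | zero => exact hu
    | succ k =>
      show (t (nx^[k] u)).testBit (nx^[k + 1] u) = true
      rw [Function.iterate_succ_apply']
      exact hnx _ (ha k)
  have hp : ∀ k, 1 ≤ a (k + 1) ∧ d.pa (a (k + 1)) = a k := fun k => hF.child _ _ (h1 k)
  have hw1 : 1 ≤ w := by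
    by_contra hc
    have h0 : w = 0 := by omega
    rw [h0, hS.zero.1] at hw
    omega
  have ha1 : ∀ k, 1 ≤ a k := by
    intro k
    cases k with
    | zero => exact hw1
    | succ k => exact (hp k).1
  have hJ : ∀ k, d.J (a k) ≠ 0 := by
    intro k hc
    obtain ⟨h2, h3⟩ := hp k
    by_cases h4 : d.J (a (k + 1)) = 0
    · have h5 := hS.leaf h2 h4
      have := ha1 k
      omega
    · obtain ⟨j, hj⟩ : ∃ j, d.J (a (k + 1)) = j + 1 :=
        ⟨d.J (a (k + 1)) - 1, by omega⟩
      obtain ⟨_, _, _, h5, _⟩ := hS.child hT h2 hj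
      have := h5.1
      rw [h3, hc] at this
      omega
  have hc : ∀ k, 1 ≤ d.J (a (k + 1)) - 1 ∧ T (d.J (a (k + 1)) - 1) ∧
      pr (d.J (a (k + 1)) - 1) = d.J (a k) - 1 := by
    intro k
    have h2 := hJ (k + 1)
    obtain ⟨h3, h4, _, h5, _⟩ := hS.child hT (hp k).1
      (show d.J (a (k + 1)) = (d.J (a (k + 1)) - 1) + 1 by omega)
    refine ⟨h3, h4, ?_⟩
    have := h5.1
    rw [(hp k).2] at this
    omega
  have hJw : d.J (a 0) - 1 = j := by
    show d.J w - 1 = j
    omega
  refine ⟨fun k => Nat.casesOn k 0 fun k => d.J (a k) - 1, ⟨rfl, fun k => ?_, fun k => ?_,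
    fun k => ?_⟩, hJw, ?_⟩
  · cases k with
    | zero => show 1 ≤ d.J (a 0) - 1; omega
    | succ k => exact (hc k).1
  · cases k with
    | zero => show pr (d.J (a 0) - 1) = 0; rw [hJw]; exact hpj
    | succ k => exact (hc k).2.2
  · cases k with
    | zero => show T (d.J (a 0) - 1); rw [hJw]; exact hTj
    | succ k => exact (hc k).2.1
  · show d.J u = (d.J (a 1) - 1) + 1
    have h2 : d.J (a 1) ≠ 0 := hJ 1
    have h3 : a 1 = u := rfl
    rw [h3] at h2 ⊢
    omega

/-! ### the data -/

/-- the data for the structure -/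
noncomputable def dK : Dat := con HT2 prn

noncomputable def pK : ℕ → ℕ := dK.pa

theorem c_pK : Computable pK := con_pa p_HT2 c_prn

theorem c_JK : Computable dK.J := con_J p_HT2 c_prn c_id

theorem spec_K : Spec HT2 prn dK := con_spec HT2 prn

theorem exists_g : ∃ g, TP dK g := exists_tp (d := dK) spec_K.O_le

/-- the true path -/
noncomputable def gK : ℕ → ℕ := exists_g.choose

theorem tp_K : TP dK gK := exists_g.choose_spec

theorem HT2_lab1 (m : ℕ) : HT2 (lab1 m) := HT2_one _

theorem lab1_pos (m : ℕ) : 1 ≤ lab1 m := nod_pos _ _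

theorem exists_w (m : ℕ) : ∃ a, Pers dK gK a (lab1 m) := pers_exists spec_K tp_K _ (HT2_lab1 m)

/-- the true node with label `(m)` -/
noncomputable def wn (m : ℕ) : ℕ := (exists_w m).choose

theorem wn_pers (m : ℕ) : Pers dK gK (wn m) (lab1 m) := (exists_w m).choose_spec

theorem exists_u (m e : ℕ) (h : UU1 e e) : ∃ a, Pers dK gK a (lab2 m e) := by
  obtain ⟨l, hl, _, h2, _⟩ := path_exists m e h
  refine pers_exists spec_K tp_K _ ?_
  rw [← h2]
  exact hl.mem 1

/-- the flow determined by two members of the universal set -/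
theorem flow_two (m e e' : ℕ) (h : UU1 e e) (h' : UU1 e' e') {u u' : ℕ}
    (hu : Pers dK gK u (lab2 m e)) (hu' : Pers dK gK u' (lab2 m e')) :
    ∃ s, Flow pK s ∧ s (wn m) = 2 ^ u ^^^ 2 ^ u' ∧
      ∀ v, s v ≠ 0 → dig (dK.J v - 1) 0 = m := by
  obtain ⟨l, hl, h1, h2, h3⟩ := path_exists m e h
  obtain ⟨l', hl', h1', h2', h3'⟩ := path_exists m e' h'
  obtain ⟨t, w, hF, hw, hp, ht, hz⟩ := flow_path spec_K th_HT2 tp_K hl
  obtain ⟨t', w', hF', hw', hp', ht', hz'⟩ := flow_path spec_K th_HT2 tp_K hl'
  have e0 : ∀ {w l : ℕ → ℕ}, (∀ k, Pers dK gK (w k) (l k)) → IsPath HT2 prn l → w 0 = 0 := by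
    intro w l hw hl
    have := hw 0
    rw [hl.zero] at this
    exact this.uniq spec_K th_HT2 tp_K (pers_zero spec_K)
  have e1 : ∀ {w l : ℕ → ℕ}, (∀ k, Pers dK gK (w k) (l k)) → l 1 = lab1 m → w 1 = wn m := by
    intro w l hw hl
    have := hw 1
    rw [hl] at this
    exact this.uniq spec_K th_HT2 tp_K (wn_pers m)
  have e2 : w 2 = u := by
    have := hw 2
    rw [h2] at this
    exact this.uniq spec_K th_HT2 tp_K hu
  have e2' : w' 2 = u' := by
    have := hw' 2
    rw [h2'] at this
    exact this.uniq spec_K th_HT2 tp_K hu'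
  refine ⟨fun v => t v ^^^ t' v, Flow.xor hF hF', ?_, ?_⟩
  · show t (wn m) ^^^ t' (wn m) = _
    have a1 : t (wn m) = 2 ^ u := by rw [← e1 hw h1, ht, e2]
    have a2 : t' (wn m) = 2 ^ u' := by rw [← e1 hw' h1', ht', e2']
    rw [a1, a2]
  · intro v hv
    have hz0 : t 0 ^^^ t' 0 = 0 := by
      have a1 : t 0 = 2 ^ wn m := by
        have := ht 0
        rw [e0 hw hl, e1 hw h1] at this
        exact this
      have a2 : t' 0 = 2 ^ wn m := by
        have := ht' 0
        rw [e0 hw' hl', e1 hw' h1'] at this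
        exact this
      rw [a1, a2, Nat.xor_self]
    have hv0 : v ≠ 0 := by
      rintro rfl
      exact hv hz0
    by_cases hk : ∃ k, w k = v
    · obtain ⟨k, rfl⟩ := hk
      have hk1 : 1 ≤ k := by
        by_contra hc
        have : k = 0 := by omega
        subst this
        exact hv0 (e0 hw hl)
      rw [(hw k).1, Nat.add_sub_cancel]
      exact h3 k hk1
    · by_cases hk' : ∃ k, w' k = v
      · obtain ⟨k, rfl⟩ := hk'
        have hk1 : 1 ≤ k := by
          by_contra hc
          have : k = 0 := by omega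
          subst this
          exact hv0 (e0 hw' hl')
        rw [(hw' k).1, Nat.add_sub_cancel]
        exact h3' k hk1
      · exfalso
        apply hv
        show t v ^^^ t' v = 0
        rw [hz v hk, hz' v hk', Nat.xor_self]

/-- a flow through a node with label `(m, e)` gives a member of the universal set -/
theorem of_flow {t : ℕ → ℕ} (hF : Flow pK t) {m e w u : ℕ} (hw : dK.J w = lab1 m + 1)
    (hu : (t w).testBit u = true) (hJ : dK.J u = lab2 m e + 1) : UU1 e e := by
  obtain ⟨l, hl, _, h2⟩ := path_of_flow_at spec_K th_HT2 hF hw (lab1_pos m) (HT2_lab1 m)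
    (prn_lab1 m) hu
  exact of_path (m := m) hl (by omega)

theorem not_sigma_diag : ¬ Sigma11 fun e => ¬ UU1 e e := by
  intro h
  obtain ⟨e, he⟩ := universal11 h
  have := he e
  tauto

theorem exists_UU1 : ∃ e, UU1 e e := by
  by_contra hc
  push Not at hc
  refine not_sigma_diag ((Sigma11.of_computable (P := fun _ : ℕ => True) ?_).of_iff fun e => ?_)
  · exact ComputablePred.computable_iff.2 ⟨fun _ => true, Computable.const _, by funext a; simp⟩
  · simp [hc e]

/-- a fixed member of the universal set -/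
noncomputable def e1 : ℕ := exists_UU1.choose

theorem e1_mem : UU1 e1 e1 := exists_UU1.choose_spec

/-- the true node with label `(m, e1)` -/
noncomputable def un (m : ℕ) : ℕ := (exists_u m e1 e1_mem).choose

theorem un_pers (m : ℕ) : Pers dK gK (un m) (lab2 m e1) := (exists_u m e1 e1_mem).choose_spec

/-- The complicated set cannot be separated by a `Π¹₁` set: the set of the `u` such that some
flow, supported below the node `(m)`, has the value `{u, un m}` at this node. -/
theorem no_sep (m : ℕ) (D : ℕ → Prop) (hD : Sigma11 fun u => ¬ D u)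
    (h1 : ∀ u, (∃ s, Flow pK s ∧ s (wn m) = 2 ^ u ^^^ 2 ^ un m ∧
      ∀ v, s v ≠ 0 → dig (dK.J v - 1) 0 = m) → D u)
    (h2 : ∀ u, D u → ∃ t, Flow pK t ∧ t (wn m) = 2 ^ u ^^^ 2 ^ un m) : False := by
  refine not_sigma_diag ?_
  have hc : Sigma11 fun p : ℕ × ℕ => ¬ (pK p.2 = wn m ∧ dK.J p.2 = lab2 m p.1 + 1) ∨
      (¬ p.2 = un m ∧ ¬ D p.2) := by
    refine Sigma11.or (Sigma11.of_computable (p_not (p_and (p_eq (c_pK.comp (c_snd c_id))
      (c_const _)) (p_eq (c_JK.comp (c_snd c_id)) (c_succ (c_lab2 (c_const m) (c_fst c_id)))))))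
      (Sigma11.and (Sigma11.of_computable (p_not (p_eq (c_snd c_id) (c_const _)))) ?_)
    exact Sigma11.comp hD (c_snd c_id)
  refine hc.all.of_iff fun e => ?_
  constructor
  · intro hne u
    show ¬ (pK u = wn m ∧ dK.J u = lab2 m e + 1) ∨ (¬ u = un m ∧ ¬ D u)
    by_cases hu : pK u = wn m ∧ dK.J u = lab2 m e + 1
    · refine Or.inr ⟨fun h3 => hne ?_, fun h3 => hne ?_⟩
      · have h4 := hu.2
        rw [h3, (un_pers m).1] at h4
        have h5 : lab2 m e1 = lab2 m e := by omega
        have h6 : e1 = e := by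
          rw [← dig_lab2_one m e1, h5, dig_lab2_one]
        rw [← h6]
        exact e1_mem
      · by_cases h4 : u = un m
        · have h4' := hu.2
          rw [h4, (un_pers m).1] at h4'
          have h5 : lab2 m e1 = lab2 m e := by omega
          have h6 : e1 = e := by
            rw [← dig_lab2_one m e1, h5, dig_lab2_one]
          rw [← h6]
          exact e1_mem
        · obtain ⟨t, hF, ht⟩ := h2 u h3
          refine of_flow hF (wn_pers m).1 (u := u) ?_ hu.2
          rw [ht, Nat.testBit_xor, Nat.testBit_two_pow, Nat.testBit_two_pow]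
          simp [Ne.symm h4]
    · exact Or.inl hu
  · intro hall he
    obtain ⟨u, hu⟩ := exists_u m e he
    have hpa : pK u = wn m := by
      obtain ⟨_, h3⟩ := hu.pa spec_K th_HT2 (nod_pos _ _)
      rw [prn_lab2] at h3
      exact h3.uniq spec_K th_HT2 tp_K (wn_pers m)
    rcases hall u with h3 | h3
    · exact h3 ⟨hpa, hu.1⟩
    · exact h3.2 (h1 u (flow_two m e e1 he e1_mem hu (un_pers m)))

end Pool.Agent.R621.HS
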