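import Mathlib
import Pool.Agent.R621.HS.Tree

/-!
# The structure `AA`: computable categoricity and automorphisms
-/

set_option autoImplicit false
set_option maxHeartbeats 400000

namespace Pool.Agent.R621.HS

open Encodable Denumerable Nat.Partrec Pool.Agent.Helper941 Pool.Agent.Helper941.IsoProb
open Pool.Agent.Helper941.Zeta Pool.Agent.Helper941.Dim Pool.Agent.Helper941.Hyp

/-- the structure -/
def AA : Str := fun i x y => i ≠ 0 ∧ Rel pK false i (el pK x) (el pK y)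

theorem aa_comp : IsComp AA :=
  p_and (p_not (p_eq (c_fst c_id) (c_const 0)))
    (computablePred_comp (P := fun q : ℕ × ℕ × ℕ => Rel pK false q.1 q.2.1 q.2.2)
      (p_rel c_pK false) (c_pair (c_fst c_id) (c_pair ((c_el c_pK).comp (c_fst (c_snd c_id)))
        ((c_el c_pK).comp (c_snd (c_snd c_id))))))

theorem isIso_aa {B : Str} {f : ℕ ≃ ℕ} : IsIso AA B f ↔ RedIso pK B f ∧ ∀ x y, ¬ B 0 x y := by
  constructor
  · intro h
    refine ⟨fun i x y hi => ?_, fun x y hB => ?_⟩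
    · rw [← h i x y]
      exact ⟨fun h1 => ⟨hi, h1⟩, fun h1 => h1.2⟩
    · have := (h 0 (f.symm x) (f.symm y)).2 (by simpa using hB)
      exact this.1 rfl
  · rintro ⟨h1, h2⟩ i x y
    by_cases hi : i = 0
    · subst hi
      exact ⟨fun h3 => (h3.1 rfl).elim, fun h3 => (h2 _ _ h3).elim⟩
    · rw [← h1 i x y hi]
      exact ⟨fun h3 => h3.2, fun h3 => ⟨hi, h3⟩⟩

/-- `AA` is computably categorical -/
theorem cc_aa {B : Str} (hB : IsComp B) (h : ∃ f : ℕ ≃ ℕ, IsIso AA B f) : CompIso AA B := by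
  obtain ⟨f, hf⟩ := h
  obtain ⟨h1, h2⟩ := isIso_aa.1 hf
  obtain ⟨k, h3, h4⟩ := cc p_HT2 c_prn th_HT2 hB h1
  exact ⟨k, isIso_aa.2 ⟨h3, h2⟩, h4⟩

/-! ### flows and automorphisms -/

/-- flows give automorphisms -/
theorem aut_of_flow {t : ℕ → ℕ} (hF : Flow pK t) : ∃ f : ℕ ≃ ℕ, IsIso AA AA f ∧
    ∀ x, el pK (f x) = sh t (el pK x) := by
  let F : ℕ → ℕ := fun x => idx pK (sh t (el pK x))
  have hel : ∀ x, el pK (F x) = sh t (el pK x) := fun x =>
    el_idx (sh_valid hF (el_valid pK x))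
  have hFF : ∀ x, F (F x) = x := by
    intro x
    show idx pK (sh t (el pK (F x))) = x
    rw [hel, sh_sh, idx_el]
  refine ⟨⟨F, F, hFF, hFF⟩, fun i x y => ?_, hel⟩
  show AA i x y ↔ AA i (F x) (F y)
  unfold AA
  refine and_congr_right fun hi => ?_
  rw [hel, hel, sh_rel hF, rel_ne (c := false) hi]

/-- relation preserving maps give flows -/
theorem flow_of_emb {ψ : ℕ → ℕ} (h : ∀ i x y, AA i x y ↔ AA i (ψ x) (ψ y)) :
    ∃ t, Flow pK t ∧ ∀ v, el pK (ψ (idx pK (Nat.pair v 0))) = Nat.pair v (t v) := by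
  let φ : ℕ → ℕ := fun p => el pK (ψ (idx pK p))
  have hφv : ∀ p, Valid pK (φ p) := fun p => el_valid pK _
  have hrel : ∀ i p q, i ≠ 0 → Valid pK p → Valid pK q →
      (Rel pK false i p q ↔ Rel pK false i (φ p) (φ q)) := by
    intro i p q hi hp hq
    have := h i (idx pK p) (idx pK q)
    unfold AA at this
    rw [el_idx hp, el_idx hq] at this
    constructor
    · intro h1
      exact (this.1 ⟨hi, h1⟩).2
    · intro h1
      exact (this.2 ⟨hi, h1⟩).2
  let t : ℕ → ℕ := fun v => (φ (Nat.pair v 0)).unpair.2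
  have hb : ∀ v, φ (Nat.pair v 0) = Nat.pair v (t v) := by
    intro v
    have h1 := (hrel (Nat.pair 1 v) _ _ (pair_ne_zero (by omega)) (valid_base _ v)
      (valid_base _ v)).1 (rel_one.2 ⟨rfl, by rw [Nat.unpair_pair]⟩)
    refine unpair_inj ?_ ?_
    · rw [Nat.unpair_pair]; exact (rel_one.1 h1).2
    · rw [Nat.unpair_pair]
  refine ⟨t, ⟨?_, ?_⟩, hb⟩
  · intro v u hu
    have := hφv (Nat.pair v 0) u
    rw [hb, Nat.unpair_pair] at this
    exact this hu
  · intro u hu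
    have h1 := (hrel (Nat.pair 3 u) (Nat.pair (pK u) 0) (Nat.pair u 0)
      (pair_ne_zero (by omega)) (valid_base _ _) (valid_base _ _)).1 (rel_three.2 (by
        rw [Nat.unpair_pair, Nat.unpair_pair]
        exact ⟨hu, rfl, rfl, by rw [Nat.zero_testBit]; rfl⟩))
    rw [hb, hb] at h1
    have h2 := (rel_three.1 h1).2.2.2
    rw [Nat.unpair_pair, Nat.unpair_pair] at h2
    exact h2

/-- the base point of the sort `wn m` -/
noncomputable def bs (m : ℕ) : ℕ := idx pK (Nat.pair (wn m) 0)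

theorem el_bs (m : ℕ) : el pK (bs m) = Nat.pair (wn m) 0 := el_idx (valid_base _ _)

/-- the element of the sort `wn m` with coordinates `{u, un m}` -/
noncomputable def pt (m u : ℕ) : ℕ := idx pK (Nat.pair (wn m) (2 ^ u ^^^ 2 ^ un m))

theorem c_pt (m : ℕ) : Computable (pt m) :=
  (c_idx c_pK).comp (c_npair (c_const _) (c_xor (c_pow c_id) (c_const _)))

/-- the orbit relation on single elements is complicated -/
theorem not_sigma_orb1 (m : ℕ) : ¬ Sigma11 fun p : ℕ × ℕ =>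
    ¬ ∃ f : ℕ ≃ ℕ, IsIso AA AA f ∧ f p.1 = p.2 := by
  intro h
  refine no_sep m (fun u => Valid pK (Nat.pair (wn m) (2 ^ u ^^^ 2 ^ un m)) ∧
    ∃ f : ℕ ≃ ℕ, IsIso AA AA f ∧ f (bs m) = pt m u) ?_ ?_ ?_
  · have h1 : Sigma11 fun u : ℕ => ¬ Valid pK (Nat.pair (wn m) (2 ^ u ^^^ 2 ^ un m)) :=
      Sigma11.of_computable (p_not (computablePred_comp (p_valid c_pK)
        (c_npair (c_const _) (c_xor (c_pow c_id) (c_const _)))))
    have h2 : Sigma11 fun u : ℕ => ¬ ∃ f : ℕ ≃ ℕ, IsIso AA AA f ∧ f (bs m) = pt m u :=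
      h.comp (f := fun u : ℕ => (bs m, pt m u)) (c_pair (c_const _) (c_pt m))
    exact (h1.or h2).of_iff fun u => not_and_or
  · rintro u ⟨s, hs, hs1, _⟩
    have hv : Valid pK (Nat.pair (wn m) (2 ^ u ^^^ 2 ^ un m)) := by
      intro x hx
      rw [Nat.unpair_pair] at hx ⊢
      rw [← hs1] at hx
      exact hs.child _ _ hx
    obtain ⟨f, hf, hf2⟩ := aut_of_flow hs
    refine ⟨hv, f, hf, ?_⟩
    have h1 := hf2 (bs m)
    rw [el_bs] at h1
    have h2 : sh s (Nat.pair (wn m) 0) = Nat.pair (wn m) (2 ^ u ^^^ 2 ^ un m) := by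
      refine unpair_inj ?_ ?_
      · rw [sh_fst, Nat.unpair_pair, Nat.unpair_pair]
      · rw [sh_snd, Nat.unpair_pair, Nat.unpair_pair]
        show 0 ^^^ s (wn m) = _
        rw [Nat.zero_xor, hs1]
    rw [h2] at h1
    rw [← idx_el pK (f (bs m)), h1]
    rfl
  · rintro u ⟨hv, f, hf, hf2⟩
    obtain ⟨t, hF, ht⟩ := flow_of_emb (ψ := f) hf
    refine ⟨t, hF, ?_⟩
    have h1 := ht (wn m)
    have h2 : f (idx pK (Nat.pair (wn m) 0)) = pt m u := hf2
    rw [h2] at h1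
    unfold pt at h1
    rw [el_idx hv] at h1
    exact ((Nat.pair_eq_pair.1 h1).2).symm

end Pool.Agent.R621.HS
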