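import Mathlib
import Pool.Agent.R621.HS.Struct
import Pool.Agent.Helper941.Hyp.Cls

/-!
# The isomorphism class of `AA` is hyperarithmetic
-/

set_option autoImplicit false
set_option maxHeartbeats 400000

namespace Pool.Agent.R621.HS

open Encodable Denumerable Nat.Partrec Pool.Agent.Helper941 Pool.Agent.Helper941.IsoProb
open Pool.Agent.Helper941.Zeta Pool.Agent.Helper941.Dim Pool.Agent.Helper941.Hyp

/-- `k` is an index of a computable isomorphism from `AA` onto the structure with index `e` -/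
def IP (e k : ℕ) : Prop :=
  (∀ x, ∃ y, EvE k x y) ∧ (∀ y, ∃ x, EvE k x y) ∧
  (∀ q : ℕ × ℕ × ℕ, EvE k q.1 q.2.2 → EvE k q.2.1 q.2.2 → q.1 = q.2.1) ∧
  (∀ q : ℕ × ℕ × ℕ × ℕ × ℕ, EvE k q.2.1 q.2.2.2.1 → EvE k q.2.2.1 q.2.2.2.2 →
    (AA q.1 q.2.1 q.2.2.1 ↔ SI e q.1 q.2.2.2.1 q.2.2.2.2))

theorem iso_iff_ip {e : ℕ} (he : Idx e) : (∃ f : ℕ ≃ ℕ, IsIso AA (SI e) f) ↔ ∃ k, IP e k := by
  constructor
  · intro h
    obtain ⟨f, hf, hfc⟩ := cc_aa (comp_SI he) h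
    obtain ⟨c, hc⟩ := Code.exists_code.1 (Partrec.nat_iff.1 hfc.partrec)
    have hev : ∀ x y, EvE (encode c) x y ↔ f x = y := by
      intro x y
      unfold EvE
      rw [ofNat_encode, hc]
      exact Part.some_inj
    refine ⟨encode c, fun x => ⟨f x, (hev _ _).2 rfl⟩, fun y => ⟨f.symm y, (hev _ _).2 (by simp)⟩,
      fun q hq1 hq2 => ?_, fun q hq1 hq2 => ?_⟩
    · rw [hev] at hq1 hq2
      exact f.injective (hq1.trans hq2.symm)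
    · rw [hev] at hq1 hq2
      rw [← hq1, ← hq2]
      exact hf _ _ _
  · rintro ⟨k, h3, h4, h5, h6⟩
    choose f hf using h3
    have hbij : Function.Bijective f := by
      constructor
      · intro x y hxy
        refine h5 (x, y, f x) (hf x) ?_
        show EvE k y (f x)
        rw [hxy]
        exact hf y
      · intro y
        obtain ⟨x, hx⟩ := h4 y
        refine ⟨x, ?_⟩
        exact Part.some_inj.1 ((hf x).symm.trans hx)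
    exact ⟨Equiv.ofBijective f hbij, fun i x y => h6 (i, x, y, f x, f y) (hf x) (hf y)⟩

theorem delta_IP : Delta11 fun p : ℕ × ℕ => IP p.1 p.2 := by
  have h3 : Delta11 fun r : ℕ × ℕ => ∀ x, ∃ y, EvE r.2 x y :=
    Delta11.all (P := fun s : (ℕ × ℕ) × ℕ => ∃ y, EvE s.1.2 s.2 y)
      (Delta11.ex (P := fun s : ((ℕ × ℕ) × ℕ) × ℕ => EvE s.1.1.2 s.1.2 s.2)
        (delta_EvE (c_snd (c_fst (c_fst c_id))) (c_snd (c_fst c_id)) (c_snd c_id)))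
  have h4 : Delta11 fun r : ℕ × ℕ => ∀ y, ∃ x, EvE r.2 x y :=
    Delta11.all (P := fun s : (ℕ × ℕ) × ℕ => ∃ x, EvE s.1.2 x s.2)
      (Delta11.ex (P := fun s : ((ℕ × ℕ) × ℕ) × ℕ => EvE s.1.1.2 s.2 s.1.2)
        (delta_EvE (c_snd (c_fst (c_fst c_id))) (c_snd c_id) (c_snd (c_fst c_id))))
  have h5 : Delta11 fun r : ℕ × ℕ => ∀ q : ℕ × ℕ × ℕ,
      EvE r.2 q.1 q.2.2 → EvE r.2 q.2.1 q.2.2 → q.1 = q.2.1 := by
    refine Delta11.all' (P := fun s : (ℕ × ℕ) × ℕ × ℕ × ℕ =>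
      EvE s.1.2 s.2.1 s.2.2.2 → EvE s.1.2 s.2.2.1 s.2.2.2 → s.2.1 = s.2.2.1) ?_
    have hk : Computable fun s : (ℕ × ℕ) × ℕ × ℕ × ℕ => s.1.2 := c_snd (c_fst c_id)
    have ha : Computable fun s : (ℕ × ℕ) × ℕ × ℕ × ℕ => s.2.1 := c_fst (c_snd c_id)
    have hb : Computable fun s : (ℕ × ℕ) × ℕ × ℕ × ℕ => s.2.2.1 := c_fst (c_snd (c_snd c_id))
    have hc : Computable fun s : (ℕ × ℕ) × ℕ × ℕ × ℕ => s.2.2.2 := c_snd (c_snd (c_snd c_id))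
    exact (delta_EvE hk ha hc).imp ((delta_EvE hk hb hc).imp
      (Delta11.of_computable (p_eq ha hb)))
  have h6 : Delta11 fun r : ℕ × ℕ => ∀ q : ℕ × ℕ × ℕ × ℕ × ℕ,
      EvE r.2 q.2.1 q.2.2.2.1 → EvE r.2 q.2.2.1 q.2.2.2.2 →
      (AA q.1 q.2.1 q.2.2.1 ↔ SI r.1 q.1 q.2.2.2.1 q.2.2.2.2) := by
    refine Delta11.all' (P := fun s : (ℕ × ℕ) × ℕ × ℕ × ℕ × ℕ × ℕ =>
      EvE s.1.2 s.2.2.1 s.2.2.2.2.1 → EvE s.1.2 s.2.2.2.1 s.2.2.2.2.2 →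
      (AA s.2.1 s.2.2.1 s.2.2.2.1 ↔ SI s.1.1 s.2.1 s.2.2.2.2.1 s.2.2.2.2.2)) ?_
    have hk : Computable fun s : (ℕ × ℕ) × ℕ × ℕ × ℕ × ℕ × ℕ => s.1.2 := c_snd (c_fst c_id)
    have he : Computable fun s : (ℕ × ℕ) × ℕ × ℕ × ℕ × ℕ × ℕ => s.1.1 := c_fst (c_fst c_id)
    have hi : Computable fun s : (ℕ × ℕ) × ℕ × ℕ × ℕ × ℕ × ℕ => s.2.1 := c_fst (c_snd c_id)
    have hx : Computable fun s : (ℕ × ℕ) × ℕ × ℕ × ℕ × ℕ × ℕ => s.2.2.1 :=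
      c_fst (c_snd (c_snd c_id))
    have hy : Computable fun s : (ℕ × ℕ) × ℕ × ℕ × ℕ × ℕ × ℕ => s.2.2.2.1 :=
      c_fst (c_snd (c_snd (c_snd c_id)))
    have hx' : Computable fun s : (ℕ × ℕ) × ℕ × ℕ × ℕ × ℕ × ℕ => s.2.2.2.2.1 :=
      c_fst (c_snd (c_snd (c_snd (c_snd c_id))))
    have hy' : Computable fun s : (ℕ × ℕ) × ℕ × ℕ × ℕ × ℕ × ℕ => s.2.2.2.2.2 :=
      c_snd (c_snd (c_snd (c_snd (c_snd c_id))))
    have hR : ComputablePred fun s : (ℕ × ℕ) × ℕ × ℕ × ℕ × ℕ × ℕ =>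
        AA s.2.1 s.2.2.1 s.2.2.2.1 :=
      computablePred_comp (P := fun q : ℕ × ℕ × ℕ => AA q.1 q.2.1 q.2.2) aa_comp
        (c_pair hi (c_pair hx hy))
    exact (delta_EvE hk hx hx').imp ((delta_EvE hk hy hy').imp
      ((Delta11.of_computable hR).iff (delta_SI he hi hx' hy')))
  exact h3.and (h4.and (h5.and h6))

/-- the class of the computable structures isomorphic to `AA` -/
def KAA : Set (Struct ar2) := {S | IsComputable S ∧ Iso (toS AA) S}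

theorem iso_aa_iff {B : Str} : Iso (toS AA) (toS B) ↔ ∃ f : ℕ ≃ ℕ, IsIso AA B f := iso_toS

theorem idx_kaa (e : ℕ) : IndexSet KAA e ↔ Idx e ∧ ∃ k, IP e k := by
  constructor
  · rintro ⟨A, ⟨_, hA⟩, he⟩
    obtain ⟨h1, h2⟩ := eq_of_index he
    rw [h2] at hA
    exact ⟨h1, (iso_iff_ip h1).1 (iso_aa_iff.1 hA)⟩
  · rintro ⟨h1, h2⟩
    exact ⟨toS (SI e), ⟨⟨e, idx_of h1⟩, iso_aa_iff.2 ((iso_iff_ip h1).2 h2)⟩, idx_of h1⟩

theorem kaa_hyp : HypClass KAA := by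
  refine ⟨⟨fun A hA => hA.1, ?_⟩, ?_⟩
  · rintro A ⟨_, hA⟩ B hB hAB
    exact ⟨hB, hA.trans hAB⟩
  · exact (delta_Idx.and delta_IP.ex).of_iff idx_kaa

/-- `AA` has an index -/
theorem aa_computable : IsComputable (toS AA) := by
  obtain ⟨g, _, hgi⟩ := exists_idx (β := ℕ) (M := fun _ => AA)
    (computablePred_comp (P := fun q : ℕ × ℕ × ℕ => AA q.1 q.2.1 q.2.2) aa_comp (c_snd c_id))
  exact ⟨g 0, hgi 0⟩

theorem aa_mem : toS AA ∈ KAA := ⟨aa_computable, Iso.refl _⟩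

end Pool.Agent.R621.HS
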