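import Mathlib
import Pool.Agent.Helper941.Hyp.Sig

/-!
# Closed games define `Σ¹₁` predicates
-/

set_option autoImplicit false
set_option maxHeartbeats 400000

namespace Pool.Agent.R621.HS

open Encodable Denumerable Nat.Partrec Pool.Agent.Helper941 Pool.Agent.Helper941.IsoProb
open Pool.Agent.Helper941.Zeta Pool.Agent.Helper941.Hyp

variable {α β γ δ : Type} [Primcodable α] [Primcodable β] [Primcodable γ] [Primcodable δ]

theorem p_opt_all {o : α → Option β} (ho : Computable o) {Q : α × β → Prop}
    (hQ : ComputablePred Q) : ComputablePred fun a => ∀ t ∈ o a, Q (a, t) := by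
  obtain ⟨b, hb, e⟩ := ComputablePred.computable_iff.1 hQ
  refine ComputablePred.computable_iff.2
    ⟨fun a => Option.casesOn (o a) true fun t => b (a, t), ?_, ?_⟩
  · exact Computable.option_casesOn ho (Computable.const true) hb.to₂
  · funext a
    have e' : ∀ q, Q q ↔ b q = true := fun q => by rw [e]
    show (∀ t ∈ o a, Q (a, t)) = ((Option.casesOn (o a) true fun t => b (a, t) : Bool) = true)
    cases o a with
    | none => simp
    | some t => simp [e']

theorem p_opt_ex {o : α → Option β} (ho : Computable o) {Q : α × β → Prop}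
    (hQ : ComputablePred Q) : ComputablePred fun a => ∃ t ∈ o a, Q (a, t) := by
  refine (p_not (p_opt_all ho (p_not hQ))).of_eq fun a => ?_
  push Not
  rfl

theorem c_opt_nat {o : α → Option β} (ho : Computable o) {f : α × β → ℕ}
    (hf : Computable f) : Computable fun a => (Option.casesOn (o a) 0 fun t => f (a, t) : ℕ) :=
  Computable.option_casesOn ho (Computable.const 0) hf.to₂

/-- Closed games: the second player, who moves first by some `r` which passes the check, can
survive forever against the moves `d` of the first player. -/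
def Win (Chk : α × β × γ → Prop) (nx : α × β × γ × δ → β) (a : α) (q₀ : β) : Prop :=
  ∃ Z : β → Prop, Z q₀ ∧ ∀ q, Z q → ∃ r, Chk (a, q, r) ∧ ∀ d, Z (nx (a, q, r, d))

omit [Primcodable α] [Primcodable β] [Primcodable γ] [Primcodable δ] in
theorem Win.unfold {Chk : α × β × γ → Prop} {nx : α × β × γ × δ → β} {a : α} {q : β}
    (h : Win Chk nx a q) : ∃ r, Chk (a, q, r) ∧ ∀ d, Win Chk nx a (nx (a, q, r, d)) := by
  obtain ⟨Z, h1, h2⟩ := h
  obtain ⟨r, h3, h4⟩ := h2 q h1
  exact ⟨r, h3, fun d => ⟨Z, h4 d, h2⟩⟩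

omit [Primcodable α] [Primcodable β] [Primcodable γ] [Primcodable δ] in
theorem Win.coind {Chk : α × β × γ → Prop} {nx : α × β × γ × δ → β} {a : α} {Z : β → Prop}
    (h : ∀ q, Z q → ∃ r, Chk (a, q, r) ∧ ∀ d, Z (nx (a, q, r, d))) {q : β} (hq : Z q) :
    Win Chk nx a q := ⟨Z, hq, h⟩

theorem sigma_win [Inhabited γ] [Inhabited δ] {Chk : α × β × γ → Prop}
    (hc : ComputablePred Chk) {nx : α × β × γ × δ → β} (hn : Computable nx) :
    Sigma11 fun p : α × β => Win Chk nx p.1 p.2 := by
  classical
  let dc : ℕ → Option (β × γ × δ) := fun n => decode n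
  have hdc : Computable dc := Computable.decode
  let u : (α × β) × ℕ → ℕ := fun p => encode p.1.2 + p.2 +
    (Option.casesOn (dc p.2) 0 fun t => encode t.1 + encode (nx (p.1.1, t.1, t.2.1, t.2.2))) + 1
  have hu : Computable u := by
    refine c_succ (c_add (c_add (Computable.encode.comp (c_snd (c_fst c_id))) (c_snd c_id)) ?_)
    refine c_opt_nat (o := fun p : (α × β) × ℕ => dc p.2) (hdc.comp (c_snd c_id))
      (f := fun s : ((α × β) × ℕ) × β × γ × δ => encode s.2.1 +
        encode (nx (s.1.1.1, s.2.1, s.2.2.1, s.2.2.2))) ?_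
    refine c_add (Computable.encode.comp (c_fst (c_snd c_id))) (Computable.encode.comp
      (hn.comp ?_))
    exact c_pair (c_fst (c_fst (c_fst c_id))) (c_pair (c_fst (c_snd c_id)) (c_pair
      (c_fst (c_snd (c_snd c_id))) (c_snd (c_snd (c_snd c_id)))))
  let R : (α × β) × ℕ × List ℕ → Prop := fun p =>
    (¬ gt p.2.2 (encode p.1.2) = 0 ∧
      (¬ gt p.2.2 p.2.1 = 0 → ∃ r ∈ (decode (α := γ) (gt p.2.2 p.2.1 - 1)),
        encode r + 1 = gt p.2.2 p.2.1)) ∧
    ∀ t ∈ dc p.2.1, gt p.2.2 (encode t.1) = encode t.2.1 + 1 →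
      Chk (p.1.1, t.1, t.2.1) ∧ ¬ gt p.2.2 (encode (nx (p.1.1, t.1, t.2.1, t.2.2))) = 0
  have hR : ComputablePred R := by
    have hl : Computable fun p : (α × β) × ℕ × List ℕ => p.2.2 := c_snd (c_snd c_id)
    have hg1 : Computable fun p : (α × β) × ℕ × List ℕ => gt p.2.2 p.2.1 :=
      c_gt hl (c_fst (c_snd c_id))
    refine p_and (p_and (p_not (p_eq (c_gt hl (Computable.encode.comp (c_snd (c_fst c_id))))
      (c_const 0))) (p_imp (p_not (p_eq hg1 (c_const 0))) ?_)) ?_
    · exact p_opt_ex (o := fun p : (α × β) × ℕ × List ℕ =>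
        decode (α := γ) (gt p.2.2 p.2.1 - 1)) (Computable.decode.comp (c_sub hg1 (c_const 1)))
        (Q := fun s : ((α × β) × ℕ × List ℕ) × γ => encode s.2 + 1 = gt s.1.2.2 s.1.2.1)
        (p_eq (c_succ (Computable.encode.comp (c_snd c_id))) (hg1.comp (c_fst c_id)))
    · refine p_opt_all (o := fun p : (α × β) × ℕ × List ℕ => dc p.2.1)
        (hdc.comp (c_fst (c_snd c_id)))
        (Q := fun s : ((α × β) × ℕ × List ℕ) × β × γ × δ =>
          gt s.1.2.2 (encode s.2.1) = encode s.2.2.1 + 1 →
          Chk (s.1.1.1, s.2.1, s.2.2.1) ∧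
            ¬ gt s.1.2.2 (encode (nx (s.1.1.1, s.2.1, s.2.2.1, s.2.2.2))) = 0) ?_
      have ha : Computable fun s : ((α × β) × ℕ × List ℕ) × β × γ × δ => s.1.1.1 :=
        c_fst (c_fst (c_fst c_id))
      have hσ : Computable fun s : ((α × β) × ℕ × List ℕ) × β × γ × δ => s.1.2.2 :=
        c_snd (c_snd (c_fst c_id))
      have hq : Computable fun s : ((α × β) × ℕ × List ℕ) × β × γ × δ => s.2.1 :=
        c_fst (c_snd c_id)
      have hr : Computable fun s : ((α × β) × ℕ × List ℕ) × β × γ × δ => s.2.2.1 :=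
        c_fst (c_snd (c_snd c_id))
      have hd : Computable fun s : ((α × β) × ℕ × List ℕ) × β × γ × δ => s.2.2.2 :=
        c_snd (c_snd (c_snd c_id))
      refine p_imp (p_eq (c_gt hσ (Computable.encode.comp hq)) (c_succ
        (Computable.encode.comp hr))) (p_and (computablePred_comp hc (c_pair ha
          (c_pair hq hr))) (p_not (p_eq (c_gt hσ (Computable.encode.comp (hn.comp (c_pair ha
            (c_pair hq (c_pair hr hd)))))) (c_const 0))))
  refine sigma11_gen (R := R) hR hu fun p => ?_
  obtain ⟨a, q₀⟩ := p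
  have hdce : ∀ t : β × γ × δ, dc (encode t) = some t := fun t => encodek t
  constructor
  · rintro ⟨Z, h1, h2⟩
    choose! r hr using h2
    let f : ℕ → ℕ := fun n => Option.casesOn (decode (α := β) n) 0 fun q =>
      if Z q then encode (r q) + 1 else 0
    have hf : ∀ q, f (encode q) = if Z q then encode (r q) + 1 else 0 := by
      intro q
      have h0 : decode (α := β) (encode q) = some q := encodek q
      simp only [f, h0]
    have hf1 : ∀ q, Z q → f (encode q) = encode (r q) + 1 := fun q hq => by rw [hf, if_pos hq]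
    refine ⟨f, fun n => ?_⟩
    have hu1 : encode q₀ < u ((a, q₀), n) ∧ n < u ((a, q₀), n) ∧
        ∀ t ∈ dc n, encode t.1 < u ((a, q₀), n) ∧
          encode (nx (a, t.1, t.2.1, t.2.2)) < u ((a, q₀), n) := by
      refine ⟨by show _ < encode q₀ + n + _ + 1; omega, by
        show _ < encode q₀ + n + _ + 1; omega, fun t ht => ?_⟩
      have h3 : u ((a, q₀), n) = encode q₀ + n +
          (encode t.1 + encode (nx (a, t.1, t.2.1, t.2.2))) + 1 := by
        have h0 : dc n = some t := ht
        simp only [u, h0]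
      rw [h3]
      omega
    have hgt : ∀ i, i < u ((a, q₀), n) → gt ((List.range (u ((a, q₀), n))).map f) i = f i :=
      fun i hi => gt_range f hi
    refine ⟨⟨?_, ?_⟩, ?_⟩
    · show ¬ gt ((List.range (u ((a, q₀), n))).map f) (encode q₀) = 0
      rw [hgt _ hu1.1, hf1 q₀ h1]
      omega
    · show ¬ gt ((List.range (u ((a, q₀), n))).map f) n = 0 →
        ∃ r ∈ (decode (α := γ) (gt ((List.range (u ((a, q₀), n))).map f) n - 1)),
          encode r + 1 = gt ((List.range (u ((a, q₀), n))).map f) n
      rw [hgt _ hu1.2.1]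
      intro h3
      cases h4 : decode (α := β) n with
      | none => exact (h3 (by simp only [f, h4])).elim
      | some q =>
        have h5 : f n = if Z q then encode (r q) + 1 else 0 := by
          simp only [f, h4]
        by_cases hZ : Z q
        · rw [if_pos hZ] at h5
          rw [h5, Nat.add_sub_cancel, encodek]
          exact ⟨r q, rfl, rfl⟩
        · rw [if_neg hZ] at h5
          exact (h3 h5).elim
    · intro t ht
      show gt ((List.range (u ((a, q₀), n))).map f) (encode t.1) = encode t.2.1 + 1 →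
        Chk (a, t.1, t.2.1) ∧
        ¬ gt ((List.range (u ((a, q₀), n))).map f) (encode (nx (a, t.1, t.2.1, t.2.2))) = 0
      obtain ⟨h3, h4⟩ := hu1.2.2 t ht
      rw [hgt _ h3, hgt _ h4, hf]
      by_cases hZ : Z t.1
      · rw [if_pos hZ]
        intro h5
        have h6 : r t.1 = t.2.1 := encode_injective (by omega)
        obtain ⟨h7, h8⟩ := hr t.1 hZ
        rw [h6] at h7 h8
        refine ⟨h7, ?_⟩
        rw [hf1 _ (h8 _)]
        omega
      · rw [if_neg hZ]
        intro h5
        omega
  · rintro ⟨f, hf⟩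
    have hu1 : ∀ n, encode q₀ < u ((a, q₀), n) ∧ n < u ((a, q₀), n) ∧
        ∀ t ∈ dc n, encode t.1 < u ((a, q₀), n) ∧
          encode (nx (a, t.1, t.2.1, t.2.2)) < u ((a, q₀), n) := by
      intro n
      refine ⟨by show _ < encode q₀ + n + _ + 1; omega, by
        show _ < encode q₀ + n + _ + 1; omega, fun t ht => ?_⟩
      have h3 : u ((a, q₀), n) = encode q₀ + n +
          (encode t.1 + encode (nx (a, t.1, t.2.1, t.2.2))) + 1 := by
        have h0 : dc n = some t := ht
        simp only [u, h0]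
      rw [h3]
      omega
    have h0 : ¬ f (encode q₀) = 0 := by
      have h1 := (hf 0).1.1
      simp only at h1
      rwa [gt_range f (hu1 0).1] at h1
    have h1 : ∀ n, ¬ f n = 0 → ∃ r ∈ (decode (α := γ) (f n - 1)), encode r + 1 = f n := by
      intro n
      have h2 := (hf n).1.2
      simp only at h2
      rwa [gt_range f (hu1 n).2.1] at h2
    have h2 : ∀ t : β × γ × δ, f (encode t.1) = encode t.2.1 + 1 →
        Chk (a, t.1, t.2.1) ∧ ¬ f (encode (nx (a, t.1, t.2.1, t.2.2))) = 0 := by
      intro t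
      have h3 := (hf (encode t)).2 t (hdce t)
      simp only at h3
      obtain ⟨h4, h5⟩ := (hu1 (encode t)).2.2 t (hdce t)
      rwa [gt_range f h4, gt_range f h5] at h3
    refine ⟨fun q => ¬ f (encode q) = 0, h0, fun q hq => ?_⟩
    obtain ⟨r, _, hr⟩ := h1 _ hq
    exact ⟨r, (h2 (q, r, default) hr.symm).1, fun d => (h2 (q, r, d) hr.symm).2⟩

end Pool.Agent.R621.HS
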