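import Mathlib
import Pool.Agent.Helper941.Hyp.Defs

/-!
# Computable ordinals, back-and-forth relations and Scott rank
-/

set_option autoImplicit false

namespace Pool.Agent.R621.HS

open Pool.Agent.Helper941.Hyp

/-- The ordinal `α` is computable: it is the order type of a computable well-ordering of a
computable set of natural numbers. -/
def ComputableOrd (α : Ordinal.{0}) : Prop :=
  ∃ (D : ℕ → Prop) (R : ℕ → ℕ → Prop), ComputablePred D ∧
    (ComputablePred fun p : ℕ × ℕ => R p.1 p.2) ∧
    ∃ _ : IsWellOrder {n : ℕ // D n} (fun x y => R x.1 y.1),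
      Ordinal.type (fun x y : {n : ℕ // D n} => R x.1 y.1) = α

variable {ar : ℕ → ℕ}

/-- The tuples `a` in `A` and `b` in `B` have the same length and satisfy the same atomic
formulas (hence the same quantifier-free formulas). -/
def AtEq (A B : Struct ar) (a b : List ℕ) : Prop :=
  a.length = b.length ∧
  (∀ j k, j < a.length → k < a.length →
    (a.getD j 0 = a.getD k 0 ↔ b.getD j 0 = b.getD k 0)) ∧
  ∀ i (s : Fin (ar i) → ℕ), (∀ k, s k < a.length) →
    (A i (fun k => a.getD (s k) 0) ↔ B i fun k => b.getD (s k) 0)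

/-- The back-and-forth relations `(A, a) ≡^α (B, b)`: for `α = 0` the tuples satisfy the same
quantifier-free formulas; for `α > 0`, for all `β < α` and each tuple `c` in `A` there is a tuple
`d` in `B` with `(A, a c) ≡^β (B, b d)`, and for each tuple `d` in `B` there is a tuple `c` in `A`
with the same property. -/
def BF (A B : Struct ar) (α : Ordinal.{0}) (a b : List ℕ) : Prop :=
  AtEq A B a b ∧ ∀ β, β < α →
    (∀ c : List ℕ, ∃ d : List ℕ, d.length = c.length ∧ BF A B β (a ++ c) (b ++ d)) ∧
    ∀ d : List ℕ, ∃ c : List ℕ, c.length = d.length ∧ BF A B β (a ++ c) (b ++ d)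
termination_by α

/-- `f` is an isomorphism from `A` onto `B` -/
def IsIsoS (A B : Struct ar) (f : ℕ ≃ ℕ) : Prop := ∀ i v, A i v ↔ B i fun k => f (v k)

/-- the tuples `a` and `b` of `A` are automorphic -/
def Orb (A : Struct ar) (a b : List ℕ) : Prop := ∃ f : ℕ ≃ ℕ, IsIsoS A A f ∧ b = a.map f

/-- The Scott rank of `A`: the least ordinal greater than the ranks of all tuples of `A`, where
the rank of a tuple `a` is the least `β` such that every tuple `b` with `a ≡^β b` is automorphic
to `a`. -/
noncomputable def SR (A : Struct ar) : Ordinal.{0} :=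
  sInf {α | ∀ a, ∃ β < α, ∀ b, BF A A β a b → Orb A a b}

theorem bf_iff {A B : Struct ar} {α : Ordinal.{0}} {a b : List ℕ} : BF A B α a b ↔
    AtEq A B a b ∧ ∀ β, β < α →
    (∀ c : List ℕ, ∃ d : List ℕ, d.length = c.length ∧ BF A B β (a ++ c) (b ++ d)) ∧
    ∀ d : List ℕ, ∃ c : List ℕ, c.length = d.length ∧ BF A B β (a ++ c) (b ++ d) := by
  rw [BF]

theorem BF.mono {A B : Struct ar} {α β : Ordinal.{0}} {a b : List ℕ} (h : BF A B α a b)
    (hb : β ≤ α) : BF A B β a b := by
  rw [bf_iff] at h ⊢
  exact ⟨h.1, fun γ hγ => h.2 γ (lt_of_lt_of_le hγ hb)⟩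

theorem atEq_of_iso {A B : Struct ar} {f : ℕ ≃ ℕ} (hf : IsIsoS A B f) (a : List ℕ) :
    AtEq A B a (a.map f) := by
  have hg : ∀ j, j < a.length → (a.map f).getD j 0 = f (a.getD j 0) := by
    intro j hj
    simp [List.getD_eq_getElem?_getD, hj]
  refine ⟨by simp, fun j k hj hk => ?_, fun i s hs => ?_⟩
  · rw [hg j hj, hg k hk, f.injective.eq_iff]
  · rw [hf]
    have : (fun k => (a.map f).getD (s k) 0) = fun k => f (a.getD (s k) 0) := by
      funext k
      exact hg _ (hs k)
    rw [this]

theorem bf_of_iso {A B : Struct ar} {f : ℕ ≃ ℕ} (hf : IsIsoS A B f) (α : Ordinal.{0})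
    (a : List ℕ) : BF A B α a (a.map f) := by
  induction α using WellFoundedLT.induction generalizing a with
  | _ α ih =>
    rw [bf_iff]
    refine ⟨atEq_of_iso hf a, fun β hβ => ⟨fun c => ⟨c.map f, by simp, ?_⟩, fun d =>
      ⟨d.map f.symm, by simp, ?_⟩⟩⟩
    · rw [← List.map_append]
      exact ih β hβ _
    · have : d = (d.map f.symm).map f := by
        rw [List.map_map]
        conv_lhs => rw [← List.map_id d]
        refine List.map_congr_left fun x _ => by simp
      conv => rhs; rw [this]
      rw [← List.map_append]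
      exact ih β hβ _

theorem bf_of_orb {A : Struct ar} {a b : List ℕ} (h : Orb A a b) (α : Ordinal.{0}) :
    BF A A α a b := by
  obtain ⟨f, hf, rfl⟩ := h
  exact bf_of_iso hf α a

/-! ### the back-and-forth construction of isomorphisms -/

/-- A nonempty family of pairs of tuples with the back-and-forth property yields an isomorphism
extending a given pair. -/
theorem iso_of_family {A B : Struct ar} {I : List ℕ → List ℕ → Prop}
    (hat : ∀ a b, I a b → AtEq A B a b)
    (hforth : ∀ a b, I a b → ∀ c, ∃ d, I (a ++ [c]) (b ++ [d]))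
    (hback : ∀ a b, I a b → ∀ d, ∃ c, I (a ++ [c]) (b ++ [d])) {a b : List ℕ} (h : I a b) :
    ∃ f : ℕ ≃ ℕ, IsIsoS A B f ∧ b = a.map f := by
  classical
  choose! F hF using hforth
  choose! G hG using hback
  let st : ℕ → List ℕ × List ℕ := fun n => Nat.rec (a, b) (fun n p =>
    let d := F p.1 p.2 n
    let a' := p.1 ++ [n]
    let b' := p.2 ++ [d]
    (a' ++ [G a' b' n], b' ++ [n])) n
  have hst : ∀ n, st (n + 1) = ((st n).1 ++ [n] ++ [G ((st n).1 ++ [n])
      ((st n).2 ++ [F (st n).1 (st n).2 n]) n], (st n).2 ++ [F (st n).1 (st n).2 n] ++ [n]) :=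
    fun n => rfl
  have hst0 : st 0 = (a, b) := rfl
  clear_value st
  have hI : ∀ n, I (st n).1 (st n).2 := by
    intro n
    induction n with
    | zero => rw [hst0]; exact h
    | succ n ih =>
      rw [hst]
      exact hG _ _ (hF _ _ ih n) n
  have hlen : ∀ n, (st n).1.length = (st n).2.length := fun n => (hat _ _ (hI n)).1
  have hpre1 : ∀ n m, n ≤ m → (st n).1 <+: (st m).1 := by
    intro n m hnm
    induction m, hnm using Nat.le_induction with
    | base => exact List.prefix_refl _
    | succ m _ ih =>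
      refine ih.trans ?_
      rw [hst]
      simp only [List.append_assoc]
      exact List.prefix_append _ _
  have hpre2 : ∀ n m, n ≤ m → (st n).2 <+: (st m).2 := by
    intro n m hnm
    induction m, hnm using Nat.le_induction with
    | base => exact List.prefix_refl _
    | succ m _ ih =>
      refine ih.trans ?_
      rw [hst]
      simp only [List.append_assoc]
      exact List.prefix_append _ _
  have hget : ∀ {l l' : List ℕ}, l <+: l' → ∀ i, i < l.length → l'.getD i 0 = l.getD i 0 := by
    rintro l _ ⟨t, rfl⟩ i hi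
    simp [List.getD_eq_getElem?_getD, List.getElem?_append_left hi]
  -- positions
  have hp1 : ∀ x, ∃ i, i < (st (x + 1)).1.length ∧ (st (x + 1)).1.getD i 0 = x := by
    intro x
    refine ⟨(st x).1.length, ?_, ?_⟩
    · rw [hst]; simp
    · rw [hst]
      simp [List.getD_eq_getElem?_getD]
  have hp2 : ∀ y, ∃ i, i < (st (y + 1)).2.length ∧ (st (y + 1)).2.getD i 0 = y := by
    intro y
    refine ⟨(st y).2.length + 1, ?_, ?_⟩
    · rw [hst]; simp
    · rw [hst]
      have : (st y).2 ++ [F (st y).1 (st y).2 y] ++ [y] =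
        ((st y).2 ++ [F (st y).1 (st y).2 y]) ++ [y] := rfl
      simp [List.getD_eq_getElem?_getD]
  choose p1 hp1a hp1b using hp1
  choose p2 hp2a hp2b using hp2
  let f : ℕ → ℕ := fun x => (st (x + 1)).2.getD (p1 x) 0
  let g : ℕ → ℕ := fun y => (st (y + 1)).1.getD (p2 y) 0
  -- at any later stage, equal entries correspond
  have hcorr : ∀ n i j, i < (st n).1.length → j < (st n).1.length →
      ((st n).1.getD i 0 = (st n).1.getD j 0 ↔ (st n).2.getD i 0 = (st n).2.getD j 0) :=
    fun n i j hi hj => (hat _ _ (hI n)).2.1 i j hi hj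
  have hf : ∀ n i, i < (st n).1.length → f ((st n).1.getD i 0) = (st n).2.getD i 0 := by
    intro n i hi
    set x := (st n).1.getD i 0 with hx
    let m := max n (x + 1)
    have h1 : (st m).1.getD i 0 = x := hget (hpre1 n m (le_max_left _ _)) i hi
    have h2 : (st m).1.getD (p1 x) 0 = x := by
      rw [hget (hpre1 (x + 1) m (le_max_right _ _)) _ (hp1a x), hp1b]
    have hlm : (st n).1.length ≤ (st m).1.length := (hpre1 n m (le_max_left _ _)).length_le
    have hlm' : (st (x + 1)).1.length ≤ (st m).1.length :=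
      (hpre1 (x + 1) m (le_max_right _ _)).length_le
    have hpx := hp1a x
    have h3 := (hcorr m (p1 x) i (by omega) (by omega)).1 (by rw [h1, h2])
    have h4 : (st m).2.getD (p1 x) 0 = f x :=
      hget (hpre2 (x + 1) m (le_max_right _ _)) _ (by rw [← hlen]; exact hpx)
    have h5 : (st m).2.getD i 0 = (st n).2.getD i 0 :=
      hget (hpre2 n m (le_max_left _ _)) i (by rw [← hlen]; exact hi)
    rw [← h4, h3, h5]
  have hg : ∀ n i, i < (st n).1.length → g ((st n).2.getD i 0) = (st n).1.getD i 0 := by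
    intro n i hi
    set y := (st n).2.getD i 0 with hy
    let m := max n (y + 1)
    have hi2 : i < (st n).2.length := by rw [← hlen]; exact hi
    have h1 : (st m).2.getD i 0 = y := hget (hpre2 n m (le_max_left _ _)) i hi2
    have h2 : (st m).2.getD (p2 y) 0 = y := by
      rw [hget (hpre2 (y + 1) m (le_max_right _ _)) _ (hp2a y), hp2b]
    have hlm : (st n).1.length ≤ (st m).1.length := (hpre1 n m (le_max_left _ _)).length_le
    have hlm' : (st (y + 1)).2.length ≤ (st m).2.length :=
      (hpre2 (y + 1) m (le_max_right _ _)).length_le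
    have hpy := hp2a y
    have hlm2 := hlen m
    have h3 := (hcorr m (p2 y) i (by omega) (by omega)).2 (by rw [h1, h2])
    have h4 : (st m).1.getD (p2 y) 0 = g y :=
      hget (hpre1 (y + 1) m (le_max_right _ _)) _ (by rw [hlen]; exact hpy)
    have h5 : (st m).1.getD i 0 = (st n).1.getD i 0 := hget (hpre1 n m (le_max_left _ _)) i hi
    rw [← h4, h3, h5]
  have hgf : ∀ x, g (f x) = x := by
    intro x
    have h1 := hp1a x
    have h2 := hf (x + 1) (p1 x) h1
    rw [hp1b] at h2
    rw [h2, hg _ _ h1, hp1b]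
  have hfg : ∀ y, f (g y) = y := by
    intro y
    have h1 := hp2a y
    have h1' : p2 y < (st (y + 1)).1.length := by rw [hlen]; exact h1
    have h2 := hg (y + 1) (p2 y) h1'
    rw [hp2b] at h2
    rw [h2, hf _ _ h1', hp2b]
  refine ⟨⟨f, g, hgf, hfg⟩, fun i v => ?_, ?_⟩
  · -- a stage containing all the entries of `v`
    have hx : ∃ n, ∀ k, v k + 1 ≤ n := by
      refine ⟨∑ k, (v k + 1), fun k => ?_⟩
      exact Finset.single_le_sum (f := fun k => v k + 1) (fun _ _ => Nat.zero_le _)
        (Finset.mem_univ k)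
    obtain ⟨n, hn⟩ := hx
    have h1 : ∀ k, p1 (v k) < (st n).1.length := fun k =>
      lt_of_lt_of_le (hp1a (v k)) (hpre1 _ _ (hn k)).length_le
    have h2 := (hat _ _ (hI n)).2.2 i (fun k => p1 (v k)) h1
    have h3 : (fun k => (st n).1.getD (p1 (v k)) 0) = v := by
      funext k
      rw [hget (hpre1 _ _ (hn k)) _ (hp1a _), hp1b]
    have h4 : (fun k => (st n).2.getD (p1 (v k)) 0) = fun k => f (v k) := by
      funext k
      have h5 : (st n).1.getD (p1 (v k)) 0 = v k := congrFun h3 k
      rw [← hf n _ (h1 k), h5]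
    rw [h3, h4] at h2
    exact h2
  · have h0 : a.length = b.length := by have := hlen 0; rwa [hst0] at this
    refine List.ext_getElem (by simp [h0]) fun i h1 h2 => ?_
    have h3 := hf 0 i (by rw [hst0]; show i < a.length; omega)
    rw [hst0] at h3
    have h4 : a.getD i 0 = a[i]'(by omega) := by
      simp [List.getD_eq_getElem?_getD, show i < a.length by omega]
    have h5 : b.getD i 0 = b[i] := by
      simp [List.getD_eq_getElem?_getD, h1]
    have h3' : f (a.getD i 0) = b.getD i 0 := h3
    rw [h4, h5] at h3'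
    have h3 := h3'
    rw [List.getElem_map]
    exact h3.symm

/-- Scott's theorem: for a large enough ordinal the back-and-forth relation is the orbit
relation. -/
theorem exists_rank (A : Struct ar) : ∃ α : Ordinal.{0}, ∀ a b, BF A A α a b → Orb A a b := by
  classical
  have hch : ∀ p : List ℕ × List ℕ, ∃ α : Ordinal.{0}, BF A A α p.1 p.2 →
      ∀ β, BF A A β p.1 p.2 := by
    intro p
    by_cases h : ∀ β, BF A A β p.1 p.2
    · exact ⟨0, fun _ => h⟩
    · push Not at h
      obtain ⟨β, hβ⟩ := h
      exact ⟨β, fun h' => (hβ h').elim⟩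
  choose r hr using hch
  let γ : Ordinal.{0} := ⨆ p, r p
  have hγ : ∀ p, r p ≤ γ := fun p => Ordinal.le_iSup r p
  have hall : ∀ a b, BF A A γ a b → ∀ β, BF A A β a b := fun a b h =>
    hr (a, b) (h.mono (hγ (a, b)))
  refine ⟨γ, fun a b h => ?_⟩
  have hs : ∀ a b, (∀ β, BF A A β a b) → BF A A (Order.succ γ) a b := fun a b h => h _
  obtain ⟨f, hf, e⟩ := iso_of_family (A := A) (B := A) (I := fun a b => ∀ β, BF A A β a b)
    (fun a b h => (bf_iff.1 (h 0)).1)
    (fun a b h c => by
      obtain ⟨d, hd, h1⟩ := ((bf_iff.1 (hs a b h)).2 γ (Order.lt_succ γ)).1 [c]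
      obtain ⟨d', rfl⟩ : ∃ d', d = [d'] := List.length_eq_one_iff.1 (by simpa using hd)
      exact ⟨d', hall _ _ h1⟩)
    (fun a b h d => by
      obtain ⟨c, hc, h1⟩ := ((bf_iff.1 (hs a b h)).2 γ (Order.lt_succ γ)).2 [d]
      obtain ⟨c', rfl⟩ : ∃ c', c = [c'] := List.length_eq_one_iff.1 (by simpa using hc)
      exact ⟨c', hall _ _ h1⟩) (hall a b h)
  exact ⟨f, hf, e⟩

/-- the definition of the Scott rank is meaningful -/
theorem sr_mem (A : Struct ar) : ∀ a, ∃ β < SR A, ∀ b, BF A A β a b → Orb A a b := by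
  have h : (sInf {α : Ordinal.{0} | ∀ a, ∃ β < α, ∀ b, BF A A β a b → Orb A a b}) ∈
      {α : Ordinal.{0} | ∀ a, ∃ β < α, ∀ b, BF A A β a b → Orb A a b} := by
    refine csInf_mem ?_
    obtain ⟨α, hα⟩ := exists_rank A
    exact ⟨Order.succ α, fun a => ⟨α, Order.lt_succ α, fun b => hα a b⟩⟩
  exact h

end Pool.Agent.R621.HS
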