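import Mathlib
import Pool.Agent.R621.HS.Struct
import Pool.Agent.R621.HS.Game
import Pool.Agent.R621.HS.Rank

/-!
# No computable ordinal captures the orbits of `AA`
-/

set_option autoImplicit false
set_option maxHeartbeats 400000

namespace Pool.Agent.R621.HS

open Encodable Denumerable Nat.Partrec Pool.Agent.Helper941 Pool.Agent.Helper941.IsoProb
open Pool.Agent.Helper941.Zeta Pool.Agent.Helper941.Dim Pool.Agent.Helper941.Hyp

theorem gt_eq (l : List ℕ) (i : ℕ) : gt l i = l.getD i 0 := by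
  simp [gt, List.getD_eq_getElem?_getD]

/-- atomic equivalence in the binary language -/
theorem atEq_toS {A B : Str} {a b : List ℕ} : AtEq (toS A) (toS B) a b ↔
    a.length = b.length ∧ (∀ j k, j < a.length → k < a.length →
      (gt a j = gt a k ↔ gt b j = gt b k)) ∧
    ∀ i j k, j < a.length → k < a.length → (A i (gt a j) (gt a k) ↔ B i (gt b j) (gt b k)) := by
  unfold AtEq
  simp only [gt_eq]
  refine and_congr_right fun _ => and_congr_right fun _ => ?_
  constructor
  · intro h i j k hj hk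
    have := h i ![j, k] (by
      intro x
      fin_cases x
      · exact hj
      · exact hk)
    exact this
  · intro h i s hs
    exact h i (s 0) (s 1) (hs 0) (hs 1)

theorem isIsoS_toS {A B : Str} {f : ℕ ≃ ℕ} : IsIsoS (toS A) (toS B) f ↔ IsIso A B f := by
  constructor
  · intro h i x y
    exact h i ![x, y]
  · intro h i v
    exact h i (v 0) (v 1)

/-- a reason for two tuples not to be atomically equivalent -/
def Diff (A B : Str) (a b : List ℕ) (r : ℕ × ℕ × ℕ × ℕ) : Prop :=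
  (r.1 = 0 ∧ ¬ a.length = b.length) ∨
  (r.1 = 1 ∧ r.2.2.1 < a.length ∧ r.2.2.2 < a.length ∧
    ¬ (gt a r.2.2.1 = gt a r.2.2.2 ↔ gt b r.2.2.1 = gt b r.2.2.2)) ∨
  (r.1 = 2 ∧ r.2.2.1 < a.length ∧ r.2.2.2 < a.length ∧
    ¬ (A r.2.1 (gt a r.2.2.1) (gt a r.2.2.2) ↔ B r.2.1 (gt b r.2.2.1) (gt b r.2.2.2)))

theorem diff_iff {A B : Str} {a b : List ℕ} : (∃ r, Diff A B a b r) ↔
    ¬ AtEq (toS A) (toS B) a b := by
  rw [atEq_toS]
  constructor
  · rintro ⟨r, h | h | h⟩ ⟨h1, h2, h3⟩
    · exact h.2 h1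
    · exact h.2.2.2 (h2 _ _ h.2.1 h.2.2.1)
    · exact h.2.2.2 (h3 _ _ _ h.2.1 h.2.2.1)
  · intro h
    by_contra hc
    push Not at hc
    apply h
    refine ⟨?_, ?_, ?_⟩
    · by_contra h1
      exact hc (0, 0, 0, 0) (Or.inl ⟨rfl, h1⟩)
    · intro j k hj hk
      by_contra h1
      exact hc (1, 0, j, k) (Or.inr (Or.inl ⟨rfl, hj, hk, h1⟩))
    · intro i j k hj hk
      by_contra h1
      exact hc (2, i, j, k) (Or.inr (Or.inr ⟨rfl, hj, hk, h1⟩))

theorem c_llen {α : Type} [Primcodable α] {f : α → List ℕ} (hf : Computable f) :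
    Computable fun a => (f a).length := Computable.list_length.comp hf

theorem c_app {α : Type} [Primcodable α] {f g : α → List ℕ} (hf : Computable f)
    (hg : Computable g) : Computable fun a => f a ++ g a := Computable.list_append.comp hf hg

theorem p_diff {A B : Str} (hA : IsComp A) (hB : IsComp B) {α : Type} [Primcodable α]
    {a b : α → List ℕ} {r : α → ℕ × ℕ × ℕ × ℕ} (ha : Computable a) (hb : Computable b)
    (hr : Computable r) : ComputablePred fun x => Diff A B (a x) (b x) (r x) := by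
  have hi : Computable fun x => (r x).2.1 := c_fst (c_snd hr)
  have hj : Computable fun x => (r x).2.2.1 := c_fst (c_snd (c_snd hr))
  have hk : Computable fun x => (r x).2.2.2 := c_snd (c_snd (c_snd hr))
  refine p_or (p_and (p_eq (c_fst hr) (c_const 0)) (p_not (p_eq (c_llen ha) (c_llen hb))))
    (p_or (p_and (p_eq (c_fst hr) (c_const 1)) (p_and (p_lt hj (c_llen ha)) (p_and
      (p_lt hk (c_llen ha)) (p_not (p_iff (p_eq (c_gt ha hj) (c_gt ha hk))
        (p_eq (c_gt hb hj) (c_gt hb hk))))))) (p_and (p_eq (c_fst hr) (c_const 2))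
          (p_and (p_lt hj (c_llen ha)) (p_and (p_lt hk (c_llen ha)) (p_not (p_iff ?_ ?_))))))
  · exact computablePred_comp (P := fun q : ℕ × ℕ × ℕ => A q.1 q.2.1 q.2.2) hA
      (c_pair hi (c_pair (c_gt ha hj) (c_gt ha hk)))
  · exact computablePred_comp (P := fun q : ℕ × ℕ × ℕ => B q.1 q.2.1 q.2.2) hB
      (c_pair hi (c_pair (c_gt hb hj) (c_gt hb hk)))

/-- reasons: a difference, or a move to `w'` with a tuple `c` on one of the two sides -/
abbrev Rs := (ℕ × ℕ × ℕ × ℕ) × ℕ × List ℕ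

/-- positions -/
abbrev Ps := ℕ × List ℕ × List ℕ

/-- the check in the game which shows that the back-and-forth relation fails -/
def ChkN (A B : Str) (S : ℕ → ℕ → Prop) (q : ℕ × Ps × Rs) : Prop :=
  Diff A B q.2.1.2.1 q.2.1.2.2 q.2.2.1 ∨
  (3 ≤ q.2.2.1.1 ∧ S q.2.2.2.1 q.2.1.1)

open Classical in
/-- the next position -/
noncomputable def nxN (q : ℕ × Ps × Rs × List ℕ) : Ps :=
  if 3 ≤ q.2.2.1.1.1 ∧ q.2.2.2.length = q.2.2.1.2.2.length then
    (if q.2.2.1.1.1 = 3 then
      (q.2.2.1.2.1, q.2.1.2.1 ++ q.2.2.1.2.2, q.2.1.2.2 ++ q.2.2.2)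
    else (q.2.2.1.2.1, q.2.1.2.1 ++ q.2.2.2, q.2.1.2.2 ++ q.2.2.1.2.2))
  else q.2.1

theorem p_chkN {A B : Str} (hA : IsComp A) (hB : IsComp B) {S : ℕ → ℕ → Prop}
    (hS : ComputablePred fun p : ℕ × ℕ => S p.1 p.2) : ComputablePred (ChkN A B S) := by
  refine p_or (p_diff hA hB (c_fst (c_snd (c_fst (c_snd c_id)))) (c_snd (c_snd
    (c_fst (c_snd c_id)))) (c_fst (c_snd (c_snd c_id)))) (p_and (p_le (c_const 3)
      (c_fst (c_fst (c_snd (c_snd c_id))))) ?_)
  exact computablePred_comp hS (c_pair (c_fst (c_snd (c_snd (c_snd c_id))))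
    (c_fst (c_fst (c_snd c_id))))

theorem c_nxN : Computable nxN := by
  classical
  have hq : Computable fun q : ℕ × Ps × Rs × List ℕ => q.2.1 := c_fst (c_snd c_id)
  have hk : Computable fun q : ℕ × Ps × Rs × List ℕ => q.2.2.1.1.1 :=
    c_fst (c_fst (c_fst (c_snd (c_snd c_id))))
  have hd : Computable fun q : ℕ × Ps × Rs × List ℕ => q.2.2.2 :=
    c_snd (c_snd (c_snd c_id))
  have hc : Computable fun q : ℕ × Ps × Rs × List ℕ => q.2.2.1.2.2 :=
    c_snd (c_snd (c_fst (c_snd (c_snd c_id))))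
  have hw : Computable fun q : ℕ × Ps × Rs × List ℕ => q.2.2.1.2.1 :=
    c_fst (c_snd (c_fst (c_snd (c_snd c_id))))
  refine (c_ite (p_and (p_le (c_const 3) hk) (p_eq (c_llen hd) (c_llen hc)))
    (c_ite (p_eq hk (c_const 3)) (c_pair hw (c_pair (c_app (c_fst (c_snd hq)) hc)
      (c_app (c_snd (c_snd hq)) hd))) (c_pair hw (c_pair (c_app (c_fst (c_snd hq)) hd)
      (c_app (c_snd (c_snd hq)) hc)))) hq).of_eq fun q => ?_
  unfold nxN
  rfl

/-- The game characterises the failure of the back-and-forth relation of the rank of `w` with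
respect to a well-founded relation `S`. -/
theorem win_iff {A B : Str} {S : ℕ → ℕ → Prop} {V : ℕ → Prop} {rk : ℕ → Ordinal.{0}}
    (hV : ∀ w' w, V w → S w' w → V w')
    (h1 : ∀ w' w, V w → S w' w → rk w' < rk w)
    (h2 : ∀ w β, V w → β < rk w → ∃ w', S w' w ∧ β ≤ rk w') {w : ℕ} (hw : V w)
    {a b : List ℕ} : Win (ChkN A B S) nxN 0 (w, a, b) ↔ ¬ BF (toS A) (toS B) (rk w) a b := by
  constructor
  · have key : ∀ o : Ordinal.{0}, ∀ w a b, V w → rk w = o → Win (ChkN A B S) nxN 0 (w, a, b) →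
        ¬ BF (toS A) (toS B) (rk w) a b := by
      intro o
      induction o using WellFoundedLT.induction with
      | _ o ih =>
        intro w a b hw ho hwin hbf
        obtain ⟨r, h3, h4⟩ := hwin.unfold
        rw [bf_iff] at hbf
        rcases h3 with h3 | ⟨h3, h5⟩
        · exact (diff_iff.1 ⟨_, h3⟩) hbf.1
        · have h3' : 3 ≤ r.1.1 := h3
          have h5' : S r.2.1 w := h5
          have h6 := h1 _ _ hw h5'
          obtain ⟨hf, hb⟩ := hbf.2 _ h6
          by_cases h7 : r.1.1 = 3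
          · obtain ⟨d, hd, h8⟩ := hf r.2.2
            have h9 := h4 d
            have h10 : nxN (0, (w, a, b), r, d) = (r.2.1, a ++ r.2.2, b ++ d) := by
              unfold nxN
              rw [if_pos ⟨h3', hd⟩, if_pos h7]
            rw [h10] at h9
            exact ih _ (by rw [← ho]; exact h6) _ _ _ (hV _ _ hw h5') rfl h9 h8
          · obtain ⟨c, hc, h8⟩ := hb r.2.2
            have h9 := h4 c
            have h10 : nxN (0, (w, a, b), r, c) = (r.2.1, a ++ c, b ++ r.2.2) := by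
              unfold nxN
              rw [if_pos ⟨h3', hc⟩, if_neg h7]
            rw [h10] at h9
            exact ih _ (by rw [← ho]; exact h6) _ _ _ (hV _ _ hw h5') rfl h9 h8
    exact key _ w a b hw rfl
  · intro h
    refine Win.coind (Z := fun q : Ps => V q.1 ∧ ¬ BF (toS A) (toS B) (rk q.1) q.2.1 q.2.2)
      ?_ ⟨hw, h⟩
    rintro ⟨w, a, b⟩ ⟨hw, hn⟩
    rw [bf_iff] at hn
    by_cases hat : AtEq (toS A) (toS B) a b
    · have hn' : ¬ ∀ β, β < rk w → (∀ c : List ℕ, ∃ d : List ℕ, d.length = c.length ∧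
          BF (toS A) (toS B) β (a ++ c) (b ++ d)) ∧
          ∀ d : List ℕ, ∃ c : List ℕ, c.length = d.length ∧
            BF (toS A) (toS B) β (a ++ c) (b ++ d) := fun h => hn ⟨hat, h⟩
      push Not at hn'
      obtain ⟨β, hβ, h3⟩ := hn'
      obtain ⟨w', h4, h5⟩ := h2 w β hw hβ
      by_cases h6 : ∀ c : List ℕ, ∃ d : List ℕ, d.length = c.length ∧
          BF (toS A) (toS B) β (a ++ c) (b ++ d)
      · obtain ⟨d, hd⟩ := h3 h6
        refine ⟨((4, 0, 0, 0), w', d), Or.inr ⟨by show 3 ≤ 4; omega, h4⟩, fun c => ?_⟩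
        by_cases hl : c.length = d.length
        · have h7 : nxN (0, (w, a, b), ((4, 0, 0, 0), w', d), c) = (w', a ++ c, b ++ d) := by
            unfold nxN
            rw [if_pos ⟨by show 3 ≤ 4; omega, hl⟩, if_neg (by show ¬ 4 = 3; omega)]
          rw [h7]
          exact ⟨hV _ _ hw h4, fun h8 => hd c hl (h8.mono h5)⟩
        · have h7 : nxN (0, (w, a, b), ((4, 0, 0, 0), w', d), c) = (w, a, b) := by
            unfold nxN
            rw [if_neg (fun h => hl h.2)]
          rw [h7]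
          exact ⟨hw, fun h8 => hn (bf_iff.1 h8)⟩
      · push Not at h6
        obtain ⟨c, hc⟩ := h6
        refine ⟨((3, 0, 0, 0), w', c), Or.inr ⟨le_refl 3, h4⟩, fun d => ?_⟩
        by_cases hl : d.length = c.length
        · have h7 : nxN (0, (w, a, b), ((3, 0, 0, 0), w', c), d) = (w', a ++ c, b ++ d) := by
            unfold nxN
            rw [if_pos ⟨le_refl 3, hl⟩, if_pos rfl]
          rw [h7]
          exact ⟨hV _ _ hw h4, fun h8 => hc d hl (h8.mono h5)⟩
        · have h7 : nxN (0, (w, a, b), ((3, 0, 0, 0), w', c), d) = (w, a, b) := by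
            unfold nxN
            rw [if_neg (fun h => hl h.2)]
          rw [h7]
          exact ⟨hw, fun h8 => hn (bf_iff.1 h8)⟩
    · obtain ⟨r, hr⟩ := diff_iff.2 hat
      refine ⟨(r, 0, []), Or.inl hr, fun d => ?_⟩
      have h3 : ¬ 3 ≤ r.1 := by
        rcases hr with hr | hr | hr
        · rw [hr.1]; omega
        · rw [hr.1]; omega
        · rw [hr.1]; omega
      have h7 : nxN (0, (w, a, b), (r, 0, []), d) = (w, a, b) := by
        unfold nxN
        rw [if_neg (fun h => h3 h.1)]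
      rw [h7]
      exact ⟨hw, fun h8 => hn (bf_iff.1 h8)⟩

/-- A computable ordinal is the rank of `0` for a computable relation. -/
theorem ComputableOrd.exists_rel {α : Ordinal.{0}} (h : ComputableOrd α) :
    ∃ (S : ℕ → ℕ → Prop) (V : ℕ → Prop) (rk : ℕ → Ordinal.{0}),
      (ComputablePred fun p : ℕ × ℕ => S p.1 p.2) ∧ (∀ w' w, V w → S w' w → V w') ∧
      (∀ w' w, V w → S w' w → rk w' < rk w) ∧
      (∀ w β, V w → β < rk w → ∃ w', S w' w ∧ β ≤ rk w') ∧ V 0 ∧ rk 0 = α := by
  classical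
  obtain ⟨D, R, hD, hR, hwo, rfl⟩ := h
  let R' : {n : ℕ // D n} → {n : ℕ // D n} → Prop := fun x y => R x.1 y.1
  have : IsWellOrder {n : ℕ // D n} R' := hwo
  refine ⟨fun w' w => 1 ≤ w' ∧ D (w' - 1) ∧ (w = 0 ∨ R (w' - 1) (w - 1)),
    fun w => w = 0 ∨ D (w - 1),
    fun w => if w = 0 then Ordinal.type R' else
      if h : D (w - 1) then Ordinal.typein R' ⟨w - 1, h⟩ else 0, ?_, ?_, ?_, ?_, Or.inl rfl, ?_⟩
  · exact p_and (p_le (c_const 1) (c_fst c_id)) (p_and
      (computablePred_comp hD (c_sub (c_fst c_id) (c_const 1)))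
      (p_or (p_eq (c_snd c_id) (c_const 0)) (computablePred_comp hR
        (c_pair (c_sub (c_fst c_id) (c_const 1)) (c_sub (c_snd c_id) (c_const 1))))))
  · rintro w' w _ ⟨_, h2, _⟩
    exact Or.inr h2
  · rintro w' w hw ⟨h1, h2, h3⟩
    simp only
    rw [if_neg (by omega : ¬ w' = 0), dif_pos h2]
    by_cases h4 : w = 0
    · rw [if_pos h4]
      exact Ordinal.typein_lt_type R' _
    · have h5 : D (w - 1) := by
        rcases hw with h | h
        · exact (h4 h).elim
        · exact h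
      have h6 : R (w' - 1) (w - 1) := by
        rcases h3 with h | h
        · exact (h4 h).elim
        · exact h
      rw [if_neg h4, dif_pos h5]
      exact (Ordinal.typein_lt_typein R').2 h6
  · intro w β hw hβ
    have key : ∀ β : Ordinal.{0}, β < Ordinal.type R' → ∃ x : {n : ℕ // D n},
        Ordinal.typein R' x = β := fun β hβ => Ordinal.typein_surj R' hβ
    simp only at hβ ⊢
    by_cases h4 : w = 0
    · rw [if_pos h4] at hβ
      obtain ⟨x, hx⟩ := key β hβ
      refine ⟨x.1 + 1, ⟨by omega, x.2, Or.inl h4⟩, ?_⟩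
      have h5 : D (x.1 + 1 - 1) := x.2
      rw [if_neg (by omega : ¬ x.1 + 1 = 0), dif_pos h5]
      exact le_of_eq hx.symm
    · have h5 : D (w - 1) := by
        rcases hw with h | h
        · exact (h4 h).elim
        · exact h
      rw [if_neg h4, dif_pos h5] at hβ
      obtain ⟨x, hx⟩ := key β (hβ.trans (Ordinal.typein_lt_type R' _))
      have h6 : R' x ⟨w - 1, h5⟩ := by
        rw [← hx] at hβ
        exact (Ordinal.typein_lt_typein R').1 hβ
      refine ⟨x.1 + 1, ⟨by omega, x.2, Or.inr h6⟩, ?_⟩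
      have h7 : D (x.1 + 1 - 1) := x.2
      rw [if_neg (by omega : ¬ x.1 + 1 = 0), dif_pos h7]
      exact le_of_eq hx.symm
  · simp only [if_true]
    rfl

/-- No computable ordinal captures the orbits of `AA`. -/
theorem not_captured {α : Ordinal.{0}} (hα : ComputableOrd α)
    (h : ∀ x y : ℕ, BF (toS AA) (toS AA) α [x] [y] → Orb (toS AA) [x] [y]) : False := by
  obtain ⟨S, V, rk, hS, hV, h1, h2, h3, h4⟩ := hα.exists_rel
  refine not_sigma_orb1 0 ?_
  have h5 : Sigma11 fun p : ℕ × Ps => Win (ChkN AA AA S) nxN p.1 p.2 :=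
    sigma_win (p_chkN aa_comp aa_comp hS) c_nxN
  have h6 : Sigma11 fun p : ℕ × ℕ => Win (ChkN AA AA S) nxN 0 (0, [p.1], [p.2]) :=
    h5.comp (f := fun p : ℕ × ℕ => (0, (0, [p.1], [p.2]))) (c_pair (c_const 0) (c_pair (c_const 0)
      (c_pair (Computable.list_cons.comp (c_fst c_id) (c_const []))
        (Computable.list_cons.comp (c_snd c_id) (c_const [])))))
  refine h6.of_iff fun p => ?_
  rw [win_iff hV h1 h2 h3, h4]
  refine not_congr ?_
  constructor
  · rintro ⟨f, hf, hf2⟩
    refine bf_of_orb ⟨f, isIsoS_toS.2 hf, ?_⟩ α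
    rw [List.map_cons, List.map_nil, hf2]
  · intro hbf
    obtain ⟨f, hf, hf2⟩ := h _ _ hbf
    refine ⟨f, isIsoS_toS.1 hf, ?_⟩
    rw [List.map_cons, List.map_nil] at hf2
    exact (List.cons.inj hf2).1.symm

/-- the Scott rank of `AA` is not a computable ordinal -/
theorem sr_aa : ¬ ComputableOrd (SR (toS AA)) := by
  intro h
  refine not_captured h fun x y hxy => ?_
  obtain ⟨β, hβ, h1⟩ := sr_mem (toS AA) [x]
  exact h1 _ (hxy.mono (le_of_lt hβ))

end Pool.Agent.R621.HS
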