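import Mathlib
import Pool.Agent.R621.HS.Game

/-!
# Baire category for the space of enumerations
-/

set_option autoImplicit false
set_option maxHeartbeats 400000

namespace Pool.Agent.R621.HS

open Pool.Agent.Helper941.Hyp

/-- the initial segment of length `n` -/
def res (g : ℕ → ℕ) (n : ℕ) : List ℕ := (List.range n).map g

theorem res_length (g : ℕ → ℕ) (n : ℕ) : (res g n).length = n := by simp [res]

theorem res_succ (g : ℕ → ℕ) (n : ℕ) : res g (n + 1) = res g n ++ [g n] := by
  simp [res, List.range_succ]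

theorem gt_res (g : ℕ → ℕ) {n i : ℕ} (h : i < n) : gt (res g n) i = g i := gt_range g h

theorem res_pre (g : ℕ → ℕ) {m n : ℕ} (h : m ≤ n) : res g m <+: res g n := by
  obtain ⟨k, rfl⟩ := Nat.exists_eq_add_of_le h
  induction k with
  | zero => exact List.prefix_rfl
  | succ k ih => exact (ih (by omega)).trans (by rw [← add_assoc, res_succ]; simp)

theorem gt_pre {p q : List ℕ} (h : p <+: q) {i : ℕ} (hi : i < p.length) : gt q i = gt p i := by
  obtain ⟨t, rfl⟩ := h
  simp [gt, List.getElem?_append_left hi]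

theorem ext_gt {p q : List ℕ} (h : p.length = q.length) (h2 : ∀ i < p.length, gt p i = gt q i) :
    p = q := by
  refine List.ext_getElem h fun i h3 h4 => ?_
  have := h2 i h3
  simpa [gt, h3, h4] using this

theorem eq_res_of_pre {p : List ℕ} {g : ℕ → ℕ} {n : ℕ} (h : p <+: res g n) :
    res g p.length = p := by
  have h1 : p.length ≤ n := by
    have := h.length_le
    rwa [res_length] at this
  refine ext_gt (res_length _ _) fun i hi => ?_
  rw [res_length] at hi
  rw [gt_res g hi, ← gt_pre h hi, gt_res g (by omega)]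

/-- `g` extends the condition `q` -/
def Below (q : List ℕ) (g : ℕ → ℕ) : Prop := res g q.length = q

theorem Below.gt {q : List ℕ} {g : ℕ → ℕ} (h : Below q g) {i : ℕ} (hi : i < q.length) :
    g i = gt q i := by
  unfold Below at h
  conv_rhs => rw [← h]
  exact (gt_res g hi).symm

theorem Below.of_pre {p q : List ℕ} {g : ℕ → ℕ} (h : Below q g) (hp : p <+: q) : Below p g := by
  unfold Below at h ⊢
  rw [← h] at hp
  exact eq_res_of_pre hp

theorem below_res (g : ℕ → ℕ) (n : ℕ) : Below (res g n) g := by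
  unfold Below
  rw [res_length]

theorem Below.pre {p : List ℕ} {g : ℕ → ℕ} (h : Below p g) {n : ℕ} (hn : p.length ≤ n) :
    p <+: res g n := by
  unfold Below at h
  have := res_pre g hn
  rwa [h] at this

theorem Below.comp {p q : List ℕ} {g : ℕ → ℕ} (hp : Below p g) (hq : Below q g) :
    p <+: q ∨ q <+: p := by
  rcases le_total p.length q.length with h | h
  · left
    have := hp.pre h
    rwa [hq] at this
  · right
    have := hq.pre h
    rwa [hp] at this

/-- dense sets of conditions; the conditions are the lists without repetitions -/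
def Dns (D : Set (List ℕ)) : Prop := ∀ q : List ℕ, q.Nodup → ∃ r : List ℕ, r.Nodup ∧ q <+: r ∧ r ∈ D

/-- injective functions meeting all sets in `S` -/
def Gen (S : Set (Set (List ℕ))) (g : ℕ → ℕ) : Prop :=
  (∀ n, (res g n).Nodup) ∧ ∀ D ∈ S, ∃ k, res g k ∈ D

/-- comeagerly many `g` extending `q` satisfy `P` -/
def CM (q : List ℕ) (P : (ℕ → ℕ) → Prop) : Prop :=
  ∃ S : Set (Set (List ℕ)), S.Countable ∧ (∀ D ∈ S, Dns D) ∧ ∀ g, Gen S g → Below q g → P g

theorem Gen.mono {S T : Set (Set (List ℕ))} {g : ℕ → ℕ} (h : Gen T g) (hS : S ⊆ T) : Gen S g :=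
  ⟨h.1, fun D hD => h.2 D (hS hD)⟩

/-- a long enough nodup extension exists -/
theorem exists_long {q : List ℕ} (hq : q.Nodup) (n : ℕ) :
    ∃ r : List ℕ, r.Nodup ∧ q <+: r ∧ n ≤ r.length := by
  induction n with
  | zero => exact ⟨q, hq, List.prefix_rfl, by omega⟩
  | succ n ih =>
    obtain ⟨r, h1, h2, h3⟩ := ih
    obtain ⟨x, hx⟩ := Infinite.exists_notMem_finset r.toFinset
    refine ⟨r ++ [x], ?_, h2.trans (List.prefix_append _ _), by simp; omega⟩
    rw [List.nodup_append]
    refine ⟨h1, List.nodup_singleton _, fun a ha b hb => ?_⟩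
    rw [List.mem_singleton] at hb
    rintro rfl
    subst hb
    exact hx (by simpa using ha)

theorem exists_gen_seq {D : ℕ → Set (List ℕ)} (hD : ∀ n, Dns (D n)) {q : List ℕ} (hq : q.Nodup) :
    ∃ g, Below q g ∧ (∀ n, (res g n).Nodup) ∧ ∀ n, ∃ k, res g k ∈ D n := by
  classical
  have h1 : ∀ n (p : {p : List ℕ // p.Nodup}), ∃ r : {p : List ℕ // p.Nodup},
      p.1 <+: r.1 ∧ n ≤ r.1.length ∧ r.1 ∈ D n := by
    intro n p
    obtain ⟨r, h2, h3, h4⟩ := exists_long p.2 n
    obtain ⟨s, h5, h6, h7⟩ := hD n r h2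
    exact ⟨⟨s, h5⟩, h3.trans h6, h4.trans h6.length_le, h7⟩
  choose st hst using h1
  let sq : ℕ → {p : List ℕ // p.Nodup} := fun n => Nat.rec ⟨q, hq⟩ (fun n p => st n p) n
  have hs0 : sq 0 = ⟨q, hq⟩ := rfl
  have hs : ∀ n, sq (n + 1) = st n (sq n) := fun n => rfl
  have hmono : ∀ m n, m ≤ n → (sq m).1 <+: (sq n).1 := by
    intro m n hmn
    obtain ⟨k, rfl⟩ := Nat.exists_eq_add_of_le hmn
    clear hmn
    induction k with
    | zero => exact List.prefix_rfl
    | succ k ih =>
      refine ih.trans ?_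
      rw [← add_assoc, hs]
      exact (hst _ _).1
  have hlen : ∀ n, n ≤ (sq (n + 1)).1.length := fun n => by
    rw [hs]
    exact (hst _ _).2.1
  let g : ℕ → ℕ := fun i => gt (sq (i + 2)).1 i
  have hg : ∀ n, Below (sq n).1 g := by
    intro n
    unfold Below
    refine ext_gt (res_length _ _) fun i hi => ?_
    rw [res_length] at hi
    rw [gt_res g hi]
    show gt (sq (i + 2)).1 i = _
    have h2 : i < (sq (i + 2)).1.length := by
      have := hlen (i + 1)
      exact this
    rcases le_total n (i + 2) with h | h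
    · exact gt_pre (hmono _ _ h) hi
    · exact (gt_pre (hmono _ _ h) h2).symm
  refine ⟨g, hg 0, fun n => ?_, fun n => ⟨(sq (n + 1)).1.length, ?_⟩⟩
  · have h2 := res_pre g (hlen n)
    rw [show res g (sq (n + 1)).1.length = (sq (n + 1)).1 from hg (n + 1)] at h2
    exact (sq (n + 1)).2.sublist h2.sublist
  · rw [show res g (sq (n + 1)).1.length = (sq (n + 1)).1 from hg (n + 1), hs]
    exact (hst _ _).2.2

theorem exists_gen {S : Set (Set (List ℕ))} (hc : S.Countable) (hD : ∀ D ∈ S, Dns D)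
    {q : List ℕ} (hq : q.Nodup) : ∃ g, Gen S g ∧ Below q g := by
  classical
  obtain ⟨f, hf⟩ := Set.countable_iff_exists_subset_range.1 hc
  let D : ℕ → Set (List ℕ) := fun n => if f n ∈ S then f n else Set.univ
  have hDD : ∀ n, Dns (D n) := by
    intro n
    show Dns (if f n ∈ S then f n else Set.univ)
    split_ifs with h
    · exact hD _ h
    · intro q hq
      exact ⟨q, hq, List.prefix_rfl, trivial⟩
  obtain ⟨g, h1, h2, h3⟩ := exists_gen_seq hDD hq
  refine ⟨g, ⟨h2, fun E hE => ?_⟩, h1⟩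
  obtain ⟨n, rfl⟩ := hf hE
  have h4 := h3 n
  have h5 : D n = f n := if_pos hE
  rwa [h5] at h4

theorem CM.exists {q : List ℕ} {P : (ℕ → ℕ) → Prop} (h : CM q P) (hq : q.Nodup) :
    ∃ g, Below q g ∧ (∀ n, (res g n).Nodup) ∧ P g := by
  obtain ⟨S, h1, h2, h3⟩ := h
  obtain ⟨g, h4, h5⟩ := exists_gen h1 h2 hq
  exact ⟨g, h5, h4.1, h3 g h4 h5⟩

theorem CM.mono {q : List ℕ} {P Q : (ℕ → ℕ) → Prop} (h : CM q P) (hPQ : ∀ g, P g → Q g) :
    CM q Q := by
  obtain ⟨S, h1, h2, h3⟩ := h
  exact ⟨S, h1, h2, fun g h4 h5 => hPQ g (h3 g h4 h5)⟩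

theorem CM.of_forall {q : List ℕ} {P : (ℕ → ℕ) → Prop}
    (h : ∀ g, (∀ n, (res g n).Nodup) → Below q g → P g) : CM q P :=
  ⟨∅, Set.countable_empty, fun _ h => h.elim, fun g h4 h5 => h g h4.1 h5⟩

theorem CM.ext {q r : List ℕ} {P : (ℕ → ℕ) → Prop} (h : CM q P) (hqr : q <+: r) : CM r P := by
  obtain ⟨S, h1, h2, h3⟩ := h
  exact ⟨S, h1, h2, fun g h4 h5 => h3 g h4 (h5.of_pre hqr)⟩

theorem CM.all {ι : Type} [Countable ι] {q : List ℕ} {P : ι → (ℕ → ℕ) → Prop}
    (h : ∀ i, CM q (P i)) : CM q fun g => ∀ i, P i g := by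
  choose S h1 h2 h3 using h
  refine ⟨⋃ i, S i, Set.countable_iUnion h1, fun D hD => ?_, fun g h4 h5 i => ?_⟩
  · obtain ⟨i, hi⟩ := Set.mem_iUnion.1 hD
    exact h2 i D hi
  · exact h3 i g (h4.mono (Set.subset_iUnion S i)) h5

theorem CM.and {q : List ℕ} {P Q : (ℕ → ℕ) → Prop} (h : CM q P) (h' : CM q Q) :
    CM q fun g => P g ∧ Q g := by
  have := CM.all (ι := Bool) (P := fun b g => if b = true then P g else Q g) (q := q) (by
    intro b
    cases b
    · simpa using h'
    · simpa using h)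
  exact this.mono fun g hg => ⟨by simpa using hg true, by simpa using hg false⟩

/-- a dense set below `q`, extended to a dense set -/
theorem dns_below {q : List ℕ} {D : Set (List ℕ)}
    (h : ∀ r : List ℕ, r.Nodup → q <+: r → ∃ s : List ℕ, s.Nodup ∧ r <+: s ∧ s ∈ D) (hq : q.Nodup) :
    Dns {r | r ∈ D ∨ ¬ (q <+: r ∨ r <+: q)} := by
  intro r hr
  by_cases hc : q <+: r ∨ r <+: q
  · rcases hc with hc | hc
    · obtain ⟨s, h1, h2, h3⟩ := h r hr hc
      exact ⟨s, h1, h2, Or.inl h3⟩
    · obtain ⟨s, h1, h2, h3⟩ := h q hq List.prefix_rfl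
      exact ⟨s, h1, hc.trans h2, Or.inl h3⟩
  · exact ⟨r, hr, List.prefix_rfl, Or.inr hc⟩

theorem CM.dense {q : List ℕ} {D : Set (List ℕ)}
    (h : ∀ r : List ℕ, r.Nodup → q <+: r → ∃ s : List ℕ, s.Nodup ∧ r <+: s ∧ s ∈ D) (hq : q.Nodup) :
    CM q fun g => ∃ k, res g k ∈ D := by
  refine ⟨{{r | r ∈ D ∨ ¬ (q <+: r ∨ r <+: q)}}, Set.countable_singleton _, ?_, ?_⟩
  · rintro E rfl
    exact dns_below h hq
  · rintro g hg hb
    obtain ⟨k, hk⟩ := hg.2 _ (Set.mem_singleton _)
    rcases hk with hk | hk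
    · exact ⟨k, hk⟩
    · exact (hk (hb.comp (below_res g k))).elim

/-- localization -/
theorem CM.local {q : List ℕ} {P : (ℕ → ℕ) → Prop} (hq : q.Nodup)
    (h : ∀ r : List ℕ, r.Nodup → q <+: r → ∃ s : List ℕ, s.Nodup ∧ r <+: s ∧ CM s P) : CM q P := by
  classical
  have h1 : CM q fun g => ∃ k, res g k ∈ {s | CM s P} := CM.dense h hq
  have h2 : CM q fun g => ∀ s : List ℕ, CM s P → Below s g → P g := by
    refine CM.all fun s => ?_
    by_cases hs : CM s P
    · obtain ⟨S, h3, h4, h5⟩ := hs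
      exact ⟨S, h3, h4, fun g h6 _ _ h7 => h5 g h6 h7⟩
    · exact CM.of_forall fun g _ _ h3 => (hs h3).elim
  refine (h1.and h2).mono ?_
  rintro g ⟨⟨k, hk⟩, h3⟩
  exact h3 _ hk (below_res g k)

/-- comeagerly many functions are surjective -/
theorem CM.surj {q : List ℕ} (hq : q.Nodup) : CM q fun g => Function.Surjective g := by
  have h1 : ∀ y : ℕ, CM q fun g => ∃ x, g x = y := by
    intro y
    refine (CM.dense (D := {r | y ∈ r}) (fun r hr _ => ?_) hq).mono ?_
    · by_cases hy : y ∈ r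
      · exact ⟨r, hr, List.prefix_rfl, hy⟩
      · refine ⟨r ++ [y], ?_, List.prefix_append _ _, by simp⟩
        rw [List.nodup_append]
        refine ⟨hr, List.nodup_singleton _, fun a ha b hb => ?_⟩
        rw [List.mem_singleton] at hb
        rintro rfl
        subst hb
        exact hy ha
    · rintro g ⟨k, hk⟩
      have hk' : y ∈ res g k := hk
      unfold res at hk'
      obtain ⟨x, _, hx⟩ := List.mem_map.1 hk'
      exact ⟨x, hx⟩
  exact CM.all h1

theorem inj_of_nodup {g : ℕ → ℕ} (h : ∀ n, (res g n).Nodup) : Function.Injective g := by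
  have key : ∀ x y, x < y → g x ≠ g y := by
    intro x y hxy he
    have h1 := h (y + 1)
    unfold res at h1
    have h2 := List.inj_on_of_nodup_map h1 (x := x) (y := y) (List.mem_range.2 (by omega))
      (List.mem_range.2 (by omega)) he
    omega
  intro x y hxy
  rcases lt_trichotomy x y with h1 | h1 | h1
  · exact (key _ _ h1 hxy).elim
  · exact h1
  · exact (key _ _ h1 hxy.symm).elim

end Pool.Agent.R621.HS
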