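import Mathlib
import Pool.Agent.R621.HS.Force1
import Pool.Agent.R621.HS.Core

/-!
# Forcing `Σ¹₁` statements about generic copies
-/

set_option autoImplicit false
set_option maxHeartbeats 400000

namespace Pool.Agent.R621.HS

open Encodable Denumerable Nat.Partrec Pool.Agent.Helper941 Pool.Agent.Helper941.IsoProb
open Pool.Agent.Helper941.Zeta Pool.Agent.Helper941.Dim Pool.Agent.Helper941.Hyp

open Classical in
/-- the characteristic function of a set of natural numbers -/
noncomputable def chi (X : ℕ → Prop) (n : ℕ) : ℕ := if X n then 1 else 0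

/-- The predicates that are `Σ¹₁` relative to the set `X`, in normal form: `P a` holds iff there
is a function `f : ℕ → ℕ` such that, for all `n`, the computable predicate `R` holds of `a`, the
first `n` values of the characteristic function of `X` and the first `n` values of `f`. -/
def Sigma11In {α : Type} [Primcodable α] (X : ℕ → Prop) (P : α → Prop) : Prop :=
  ∃ R : α × List ℕ × List ℕ → Prop, ComputablePred R ∧
    ∀ a, P a ↔ ∃ f : ℕ → ℕ, ∀ n, R (a, (List.range n).map (chi X), (List.range n).map f)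

/-- the atomic diagram as a set of natural numbers -/
def DgN (B : Str) (n : ℕ) : Prop := B n.unpair.1 n.unpair.2.unpair.1 n.unpair.2.unpair.2

/-- the copy of `A` defined by an enumeration -/
def Pull (A : Str) (g : ℕ → ℕ) : Str := fun i x y => A i (g x) (g y)

open Classical in
/-- the finite part of the diagram that is decided by a condition -/
noncomputable def ch (A : Str) (q : List ℕ) (n : ℕ) : List ℕ :=
  (List.range n).map fun k =>
    if A k.unpair.1 (gt q k.unpair.2.unpair.1) (gt q k.unpair.2.unpair.2) then 1 else 0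

theorem ch_eq {A : Str} {q : List ℕ} {g : ℕ → ℕ} (h : Below q g) {n : ℕ} (hn : n ≤ q.length) :
    ch A q n = (List.range n).map (chi (DgN (Pull A g))) := by
  unfold ch
  refine List.map_congr_left fun k hk => ?_
  have hk' : k < n := List.mem_range.1 hk
  have h1 : k.unpair.2 ≤ k := Nat.unpair_right_le k
  have h2 : k.unpair.2.unpair.1 ≤ k.unpair.2 := Nat.unpair_left_le _
  have h3 : k.unpair.2.unpair.2 ≤ k.unpair.2 := Nat.unpair_right_le _
  unfold chi DgN Pull
  rw [h.gt (by omega), h.gt (by omega)]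

theorem ch_map {A : Str} {f : ℕ ≃ ℕ} (hf : ∀ i x y, A i x y ↔ A i (f x) (f y)) {q : List ℕ} {n : ℕ}
    (hn : n ≤ q.length) : ch A (q.map f) n = ch A q n := by
  have hg : ∀ j, j < q.length → gt (q.map f) j = f (gt q j) := by
    intro j hj
    simp [gt, hj]
  unfold ch
  refine List.map_congr_left fun k hk => ?_
  have hk' : k < n := List.mem_range.1 hk
  have h1 : k.unpair.2 ≤ k := Nat.unpair_right_le k
  have h2 : k.unpair.2.unpair.1 ≤ k.unpair.2 := Nat.unpair_left_le _
  have h3 : k.unpair.2.unpair.2 ≤ k.unpair.2 := Nat.unpair_right_le _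
  rw [hg _ (by omega), hg _ (by omega)]
  have h4 := hf k.unpair.1 (gt q k.unpair.2.unpair.1) (gt q k.unpair.2.unpair.2)
  by_cases h5 : A k.unpair.1 (gt q k.unpair.2.unpair.1) (gt q k.unpair.2.unpair.2)
  · rw [if_pos h5, if_pos (h4.1 h5)]
  · rw [if_neg h5, if_neg (fun h6 => h5 (h4.2 h6))]

/-- the part of the matrix that has been checked -/
def Good (A : Str) (R : (ℕ × ℕ) × List ℕ × List ℕ → Prop) (a : ℕ × ℕ) (r σ : List ℕ) : Prop :=
  σ.length ≤ r.length ∧ ∀ n < σ.length + 1, R (a, ch A r n, tk σ n)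

/-- extension of conditions -/
def ex (q d : List ℕ) : List ℕ := if (q ++ d).Nodup then q ++ d else q

theorem ex_pre (q d : List ℕ) : q <+: ex q d := by
  unfold ex
  split_ifs
  · exact List.prefix_append _ _
  · exact List.prefix_rfl

theorem ex_nodup {q : List ℕ} (hq : q.Nodup) (d : List ℕ) : (ex q d).Nodup := by
  unfold ex
  split_ifs with h
  · exact h
  · exact hq

theorem exists_ex {q r : List ℕ} (h : q <+: r) (hr : r.Nodup) : ∃ d, ex q d = r := by
  obtain ⟨d, rfl⟩ := h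
  exact ⟨d, by unfold ex; rw [if_pos hr]⟩

/-- the check in the game -/
def ChkF (A : Str) (R : (ℕ × ℕ) × List ℕ × List ℕ → Prop)
    (q : (ℕ × ℕ) × (List ℕ × List ℕ) × (List ℕ × ℕ)) : Prop :=
  Good A R q.1 (ex q.2.1.1 q.2.2.1) (q.2.1.2 ++ [q.2.2.2])

/-- the next position in the game -/
def nxF (q : (ℕ × ℕ) × (List ℕ × List ℕ) × (List ℕ × ℕ) × List ℕ) : List ℕ × List ℕ :=
  (ex (ex q.2.1.1 q.2.2.1.1) q.2.2.2, q.2.1.2 ++ [q.2.2.1.2])

/-- The condition `p` forces that some `h` extending `τ` satisfies the matrix. -/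
def FF (A : Str) (R : (ℕ × ℕ) × List ℕ × List ℕ → Prop) (a : ℕ × ℕ) (p τ : List ℕ) : Prop :=
  ∀ d, Win (ChkF A R) nxF a (ex p d, τ)

variable {A : Str} {R : (ℕ × ℕ) × List ℕ × List ℕ → Prop} {a : ℕ × ℕ}

theorem FF.next {p τ : List ℕ} (h : FF A R a p τ) {q : List ℕ} (hq : q.Nodup) (hpq : p <+: q) :
    ∃ r : List ℕ, r.Nodup ∧ q <+: r ∧ ∃ j, Good A R a r (τ ++ [j]) ∧ FF A R a r (τ ++ [j]) := by
  obtain ⟨d, rfl⟩ := exists_ex hpq hq
  obtain ⟨⟨e, j⟩, h1, h2⟩ := (h d).unfold
  exact ⟨ex (ex p d) e, ex_nodup hq e, ex_pre _ _, j, h1, h2⟩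

theorem FF.coind {Z : List ℕ → List ℕ → Prop}
    (h : ∀ p τ, p.Nodup → Z p τ → ∀ q : List ℕ, q.Nodup → p <+: q → ∃ r : List ℕ, r.Nodup ∧
      q <+: r ∧ ∃ j, Good A R a r (τ ++ [j]) ∧ Z r (τ ++ [j])) {p τ : List ℕ} (hp : p.Nodup)
    (hZ : Z p τ) : FF A R a p τ := by
  intro d
  refine Win.coind (Z := fun s : List ℕ × List ℕ => s.1.Nodup ∧ ∃ p : List ℕ, p.Nodup ∧
    p <+: s.1 ∧ Z p s.2) ?_ ⟨ex_nodup hp d, p, hp, ex_pre _ _, hZ⟩
  rintro ⟨q, τ⟩ ⟨hq, p, hp, hpq, hZ⟩
  obtain ⟨r, h1, h2, j, h3, h4⟩ := h p τ hp hZ q hq hpq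
  obtain ⟨d, rfl⟩ := exists_ex h2 h1
  exact ⟨(d, j), h3, fun e => ⟨ex_nodup h1 e, _, h1, ex_pre _ _, h4⟩⟩

theorem FF.of_next {p τ : List ℕ} (hp : p.Nodup)
    (h : ∀ q : List ℕ, q.Nodup → p <+: q → ∃ r : List ℕ, r.Nodup ∧ q <+: r ∧
      ∃ j, Good A R a r (τ ++ [j]) ∧ FF A R a r (τ ++ [j])) : FF A R a p τ := by
  refine FF.coind (Z := fun p τ => ∀ q : List ℕ, q.Nodup → p <+: q → ∃ r : List ℕ, r.Nodup ∧
    q <+: r ∧ ∃ j, Good A R a r (τ ++ [j]) ∧ FF A R a r (τ ++ [j])) ?_ hp h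
  intro p τ hp h q hq hpq
  obtain ⟨r, h1, h2, j, h3, h4⟩ := h q hq hpq
  exact ⟨r, h1, h2, j, h3, fun q' hq' hr => h4.next hq' hr⟩

theorem FF.mono {p q τ : List ℕ} (h : FF A R a p τ) (hq : q.Nodup) (hpq : p <+: q) :
    FF A R a q τ :=
  FF.of_next hq fun _ hr hqr => h.next hr (hpq.trans hqr)

theorem FF.local {p τ : List ℕ} (hp : p.Nodup)
    (h : ∀ q : List ℕ, q.Nodup → p <+: q → ∃ r : List ℕ, r.Nodup ∧ q <+: r ∧ FF A R a r τ) :
    FF A R a p τ := by
  refine FF.of_next hp fun q hq hpq => ?_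
  obtain ⟨r, h1, h2, h3⟩ := h q hq hpq
  obtain ⟨s, h4, h5, h6⟩ := h3.next h1 List.prefix_rfl
  exact ⟨s, h4, h2.trans h5, h6⟩

/-- The forcing relation is invariant under automorphisms. -/
theorem FF.map {f : ℕ ≃ ℕ} (hf : ∀ i x y, A i x y ↔ A i (f x) (f y)) {p τ : List ℕ}
    (hp : p.Nodup) (h : FF A R a p τ) : FF A R a (p.map f) τ := by
  refine FF.coind (Z := fun p' τ => ∃ p : List ℕ, p.Nodup ∧ p' = p.map f ∧ FF A R a p τ) ?_
    (hp.map f.injective) ⟨p, hp, rfl, h⟩
  rintro _ τ _ ⟨p, hp, rfl, h⟩ q' hq' hpq'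
  have h1 : (q'.map f.symm).map f = q' := by
    rw [List.map_map]
    simp
  have h2 : p <+: q'.map f.symm := by
    obtain ⟨t, rfl⟩ := hpq'
    rw [List.map_append, List.map_map]
    simp
  obtain ⟨r, h3, h4, j, h5, h6⟩ := h.next (hq'.map f.symm.injective) h2
  refine ⟨r.map f, h3.map f.injective, ?_, j, ⟨by simpa using h5.1, fun n hn => ?_⟩, r, h3, rfl, h6⟩
  · obtain ⟨t, ht⟩ := h4
    refine ⟨t.map f, ?_⟩
    rw [← ht, List.map_append, h1]
  · rw [ch_map hf (by have := h5.1; omega)]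
    exact h5.2 n hn

/-- The truth of the `Σ¹₁` statement for an enumeration. -/
def Tr (A : Str) (R : (ℕ × ℕ) × List ℕ × List ℕ → Prop) (a : ℕ × ℕ) (g h : ℕ → ℕ) : Prop :=
  ∀ n, R (a, (List.range n).map (chi (DgN (Pull A g))), (List.range n).map h)

theorem tk_res (h : ℕ → ℕ) {m n : ℕ} (hm : m ≤ n) : tk (res h n) m = res h m := tk_range h hm

/-- Forced statements are true for sufficiently generic enumerations. -/
theorem FF.truth {p : List ℕ} (h : FF A R a p []) :
    CM p fun g => ∃ h, Tr A R a g h := by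
  classical
  have h1 : CM p fun g => ∀ s : List ℕ × List ℕ, s.1.Nodup → FF A R a s.1 s.2 → Below s.1 g →
      ∃ k, s.1 <+: res g k ∧ ∃ j, Good A R a (res g k) (s.2 ++ [j]) ∧
        FF A R a (res g k) (s.2 ++ [j]) := by
    refine CM.all fun s => ?_
    by_cases hs : s.1.Nodup ∧ FF A R a s.1 s.2
    · obtain ⟨hs1, hs2⟩ := hs
      let D : Set (List ℕ) := {r | s.1 <+: r ∧ ∃ j, Good A R a r (s.2 ++ [j]) ∧
        FF A R a r (s.2 ++ [j])}
      refine ⟨{{r | r ∈ D ∨ ¬ (s.1 <+: r ∨ r <+: s.1)}}, Set.countable_singleton _, ?_, ?_⟩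
      · rintro E rfl
        refine dns_below (fun r hr hsr => ?_) hs1
        obtain ⟨t, h3, h4, j, h5, h6⟩ := hs2.next hr hsr
        exact ⟨t, h3, h4, hsr.trans h4, j, h5, h6⟩
      · intro g hg _ _ _ hb
        obtain ⟨k, hk⟩ := hg.2 _ (Set.mem_singleton _)
        rcases hk with hk | hk
        · exact ⟨k, hk.1, hk.2⟩
        · exact (hk (hb.comp (below_res g k))).elim
    · exact CM.of_forall fun g _ _ h3 h4 => (hs ⟨h3, h4⟩).elim
  have h1' := h1.and (CM.of_forall (q := p) (P := fun g => (∀ n, (res g n).Nodup) ∧ Below p g)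
    fun g h2 h3 => ⟨h2, h3⟩)
  refine h1'.mono ?_
  rintro g ⟨hg, hnd, hb⟩
  have h2 : ∀ s : {s : ℕ × List ℕ // FF A R a (res g s.1) s.2}, ∃ t : {s : ℕ × List ℕ //
      FF A R a (res g s.1) s.2}, s.1.1 ≤ t.1.1 ∧ ∃ j, t.1.2 = s.1.2 ++ [j] ∧
        Good A R a (res g t.1.1) t.1.2 := by
    rintro ⟨⟨k, τ⟩, hF⟩
    obtain ⟨k', h3, j, h4, h5⟩ := hg (res g k, τ) (hnd k) hF (below_res g k)
    refine ⟨⟨(k', τ ++ [j]), h5⟩, ?_, j, rfl, h4⟩
    have := h3.length_le
    rwa [res_length, res_length] at this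
  choose st hst1 hst2 using h2
  choose jj hjj1 hjj2 using hst2
  have hF0 : FF A R a (res g p.length) [] := by
    rw [show res g p.length = p from hb]
    exact h
  let sq : ℕ → {s : ℕ × List ℕ // FF A R a (res g s.1) s.2} := fun n =>
    Nat.rec ⟨(p.length, []), hF0⟩ (fun _ s => st s) n
  have hsq : ∀ n, sq (n + 1) = st (sq n) := fun n => rfl
  let h0 : ℕ → ℕ := fun n => jj (sq n)
  have hτ : ∀ n, (sq n).1.2 = res h0 n := by
    intro n
    induction n with
    | zero => rfl
    | succ n ih =>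
      rw [hsq, hjj1, ih, res_succ]
  refine ⟨h0, fun n => ?_⟩
  have h3 := hjj2 (sq n)
  rw [← hsq n, hτ (n + 1)] at h3
  obtain ⟨h4, h5⟩ := h3
  rw [res_length, res_length] at h4
  rw [res_length] at h5
  have h6 := h5 n (by omega)
  rw [tk_res h0 (by omega), ch_eq (below_res g _) (by rw [res_length]; omega)] at h6
  exact h6

/-- A statement that is not forced fails for sufficiently generic enumerations below some
condition. -/
theorem not_FF {p τ : List ℕ} (hp : p.Nodup) (h : ¬ FF A R a p τ) :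
    ∃ q : List ℕ, q.Nodup ∧ p <+: q ∧ CM q fun g => ¬ ∃ h, res h τ.length = τ ∧ Tr A R a g h := by
  by_contra hc
  apply h
  refine FF.coind (Z := fun p τ => ¬ ∃ q : List ℕ, q.Nodup ∧ p <+: q ∧
    CM q fun g => ¬ ∃ h, res h τ.length = τ ∧ Tr A R a g h) ?_ hp hc
  clear hc h hp p τ
  intro p τ hp hN q hq hpq
  by_contra hc
  push Not at hc
  apply hN
  refine ⟨q, hq, hpq, ?_⟩
  have h1 : CM q fun g => ∀ j : ℕ, ¬ ∃ h, res h (τ ++ [j]).length = τ ++ [j] ∧ Tr A R a g h := by
    refine CM.all fun j => ?_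
    refine CM.local hq fun q' hq' hqq' => ?_
    obtain ⟨r, h2, h3, h4⟩ := exists_long hq' (τ.length + 1)
    by_cases hG : Good A R a r (τ ++ [j])
    · have h4' := hc r h2 (hqq'.trans h3) j hG
      obtain ⟨r', h5, h6, h7⟩ := h4'
      refine ⟨r', h5, h3.trans h6, h7.mono fun g h8 => ?_⟩
      rintro ⟨h, h9, h10⟩
      exact h8 h h9 h10
    · refine ⟨r, h2, h3, CM.of_forall fun g _ hb => ?_⟩
      rintro ⟨h, h5, h6⟩
      apply hG
      refine ⟨by simpa using h4, fun n hn => ?_⟩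
      have hl : (τ ++ [j]).length = τ.length + 1 := by simp
      have h7 := h6 n
      rw [← h5, tk_res h (by rw [hl] at hn ⊢; omega), ch_eq hb (by rw [hl] at hn; omega)]
      exact h7
  refine h1.mono fun g hg => ?_
  rintro ⟨h, h2, h3⟩
  refine hg (h τ.length) ⟨h, ?_, h3⟩
  rw [List.length_append, List.length_singleton, res_succ, h2]

theorem not_FF' {p : List ℕ} (hp : p.Nodup) (h : ¬ FF A R a p []) :
    ∃ q : List ℕ, q.Nodup ∧ p <+: q ∧ CM q fun g => ¬ ∃ h, Tr A R a g h := by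
  obtain ⟨q, h1, h2, h3⟩ := not_FF hp h
  refine ⟨q, h1, h2, h3.mono fun g hg => ?_⟩
  rintro ⟨h, h4⟩
  exact hg ⟨h, rfl, h4⟩

/-! ### complexity -/

theorem nodup_iff_gt {l : List ℕ} : l.Nodup ↔ ∀ i < l.length, ∀ j < l.length,
    gt l i = gt l j → i = j := by
  constructor
  · intro h i hi j hj he
    have h1 : l[i] = l[j] := by simpa [gt, hi, hj] using he
    exact (h.getElem_inj_iff).1 h1
  · intro h
    rw [List.nodup_iff_injective_get]
    intro i j he
    have := h i.1 i.2 j.1 j.2 (by simpa [gt] using he)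
    exact Fin.ext this

theorem p_nodup {α : Type} [Primcodable α] {f : α → List ℕ} (hf : Computable f) :
    ComputablePred fun a => (f a).Nodup := by
  have h1 : ComputablePred fun a => ∀ i < (f a).length, ∀ j < (f a).length,
      gt (f a) i = gt (f a) j → i = j := by
    refine p_ball (P := fun a i => ∀ j < (f a).length, gt (f a) i = gt (f a) j → i = j)
      (c_llen hf) ?_
    refine p_ball (f := fun s : α × ℕ => (f s.1).length)
      (P := fun (s : α × ℕ) j => gt (f s.1) s.2 = gt (f s.1) j → s.2 = j)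
      (c_llen (hf.comp Computable.fst)) ?_
    have hff : Computable fun s : (α × ℕ) × ℕ => f s.1.1 := hf.comp (c_fst (c_fst c_id))
    exact p_imp (p_eq (c_gt hff (c_snd (c_fst c_id)))
      (c_gt hff (c_snd c_id))) (p_eq (c_snd (c_fst c_id)) (c_snd c_id))
  exact h1.of_eq fun a => nodup_iff_gt.symm

theorem c_exd {α : Type} [Primcodable α] {f g : α → List ℕ} (hf : Computable f)
    (hg : Computable g) : Computable fun a => ex (f a) (g a) := by
  have h1 : ComputablePred fun a => (f a ++ g a).Nodup := p_nodup (c_app hf hg)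
  exact c_ite h1 (c_app hf hg) hf

theorem c_ch (hA : IsComp A) {α : Type} [Primcodable α] {f : α → List ℕ} {g : α → ℕ}
    (hf : Computable f) (hg : Computable g) : Computable fun a => ch A (f a) (g a) := by
  classical
  unfold ch
  refine c_tab (g := fun a k => if A k.unpair.1 (gt (f a) k.unpair.2.unpair.1)
    (gt (f a) k.unpair.2.unpair.2) then 1 else 0) hg ?_
  refine c_ite ?_ (c_const 1) (c_const 0)
  have hff : Computable fun s : α × ℕ => f s.1 := hf.comp Computable.fst
  have hk : Computable fun s : α × ℕ => s.2 := Computable.snd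
  exact computablePred_comp (P := fun q : ℕ × ℕ × ℕ => A q.1 q.2.1 q.2.2) hA
    (f := fun s : α × ℕ => (s.2.unpair.1, gt (f s.1) s.2.unpair.2.unpair.1,
      gt (f s.1) s.2.unpair.2.unpair.2)) (c_pair (c_up1 hk) (c_pair (c_gt hff
        (c_up1 (c_up2 hk))) (c_gt hff (c_up2 (c_up2 hk)))))

theorem p_good (hA : IsComp A) (hR : ComputablePred R) {α : Type} [Primcodable α]
    {f : α → ℕ × ℕ} {r σ : α → List ℕ} (hf : Computable f) (hr : Computable r)
    (hσ : Computable σ) : ComputablePred fun x => Good A R (f x) (r x) (σ x) := by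
  refine p_and (p_le (c_llen hσ) (c_llen hr)) ?_
  refine p_ball (P := fun x n => R (f x, ch A (r x) n, tk (σ x) n)) (c_succ (c_llen hσ)) ?_
  exact computablePred_comp hR (c_pair (hf.comp (c_fst c_id)) (c_pair
    (c_ch hA (hr.comp (c_fst c_id)) (c_snd c_id)) (c_tk (hσ.comp (c_fst c_id)) (c_snd c_id))))

theorem c_single {α : Type} [Primcodable α] {f : α → ℕ} (hf : Computable f) :
    Computable fun a => [f a] := Computable.list_cons.comp hf (c_const [])

theorem p_chkF (hA : IsComp A) (hR : ComputablePred R) : ComputablePred (ChkF A R) :=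
  p_good hA hR (c_fst c_id) (c_exd (c_fst (c_fst (c_snd c_id))) (c_fst (c_snd (c_snd c_id))))
    (c_app (c_snd (c_fst (c_snd c_id))) (c_single (c_snd (c_snd (c_snd c_id)))))

theorem c_nxF : Computable nxF :=
  c_pair (c_exd (c_exd (c_fst (c_fst (c_snd c_id))) (c_fst (c_fst (c_snd (c_snd c_id)))))
    (c_snd (c_snd (c_snd c_id))))
    (c_app (c_snd (c_fst (c_snd c_id))) (c_single (c_snd (c_fst (c_snd (c_snd c_id))))))

/-- quantification over a coded type -/
theorem Sigma11.all' {α β : Type} [Primcodable α] [Primcodable β] [Inhabited β]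
    {P : α × β → Prop} (h : Sigma11 P) :
    Sigma11 fun a => ∀ y, P (a, y) := by
  have h1 : Sigma11 fun p : α × ℕ => P (p.1, (decode (α := β) p.2).getD default) := by
    refine h.comp (Computable.pair Computable.fst ?_)
    exact (Primrec.option_getD.to_comp).comp (Computable.decode.comp Computable.snd)
      (Computable.const default)
  refine h1.all.of_iff fun a => ?_
  constructor
  · intro h2 k
    exact h2 _
  · intro h2 y
    have := h2 (encode y)
    simpa using this

theorem Sigma11.ex' {α β : Type} [Primcodable α] [Primcodable β] [Inhabited β]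
    {P : α × β → Prop} (h : Sigma11 P) :
    Sigma11 fun a => ∃ y, P (a, y) := by
  have h1 : Sigma11 fun p : α × ℕ => P (p.1, (decode (α := β) p.2).getD default) := by
    refine h.comp (Computable.pair Computable.fst ?_)
    exact (Primrec.option_getD.to_comp).comp (Computable.decode.comp Computable.snd)
      (Computable.const default)
  refine h1.ex.of_iff fun a => ?_
  constructor
  · rintro ⟨y, hy⟩
    exact ⟨encode y, by simpa using hy⟩
  · rintro ⟨k, hk⟩
    exact ⟨_, hk⟩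

/-- The forcing relation is `Σ¹₁`. -/
theorem sigma_FF (hA : IsComp A) (hR : ComputablePred R) :
    Sigma11 fun s : (ℕ × ℕ) × List ℕ => FF A R s.1 s.2 [] := by
  have h1 : Sigma11 fun p : (ℕ × ℕ) × List ℕ × List ℕ => Win (ChkF A R) nxF p.1 p.2 :=
    sigma_win (p_chkF hA hR) c_nxF
  have h2 : Sigma11 fun p : ((ℕ × ℕ) × List ℕ) × List ℕ =>
      Win (ChkF A R) nxF p.1.1 (ex p.1.2 p.2, []) :=
    h1.comp (f := fun p : ((ℕ × ℕ) × List ℕ) × List ℕ => (p.1.1, (ex p.1.2 p.2, [])))
      (c_pair (c_fst (c_fst c_id)) (c_pair (c_exd (c_snd (c_fst c_id)) (c_snd c_id)) (c_const [])))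
  exact Sigma11.all' h2

end Pool.Agent.R621.HS
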