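import Mathlib
import Pool.Agent.R621.HS.Force2

/-!
# Some copy of `AA` has no hyperarithmetic isomorphism
-/

set_option autoImplicit false
set_option maxHeartbeats 400000

namespace Pool.Agent.R621.HS

open Encodable Denumerable Nat.Partrec Pool.Agent.Helper941 Pool.Agent.Helper941.IsoProb
open Pool.Agent.Helper941.Zeta Pool.Agent.Helper941.Dim Pool.Agent.Helper941.Hyp

/-- the predicate with code `c` -/
def RC {β : Type} [Primcodable β] (c : Code) (b : β) : Prop := c.eval (encode b) = Part.some 1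

theorem exists_RC {β : Type} [Primcodable β] {R : β → Prop} (hR : ComputablePred R) :
    ∃ c : Code, R = RC c := by
  obtain ⟨f, hf, rfl⟩ := ComputablePred.computable_iff.1 hR
  have h1 : Nat.Partrec (fun n => Part.bind (decode (α := β) n : Part β)
    fun a => Part.some (encode (f a))) := hf.of_eq fun n => by simp
  obtain ⟨c, hc⟩ := Code.exists_code.1 h1
  refine ⟨c, ?_⟩
  funext b
  unfold RC
  rw [hc]
  have h2 : (decode (α := β) (encode b) : Part β) = Part.some b := by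
    rw [encodek]; rfl
  show _ = (Part.bind (decode (α := β) (encode b) : Part β) (fun a => Part.some (encode (f a))) =
    Part.some 1)
  rw [h2, Part.bind_some]
  refine propext ?_
  cases f b <;> simp

/-- the condition `p` forces that the relation defined by `R` is the graph of an isomorphism -/
structure Frc (A : Str) (R : (ℕ × ℕ) × List ℕ × List ℕ → Prop) (p : List ℕ) : Prop where
  nd : p.Nodup
  tot : ∀ x, ∀ q : List ℕ, q.Nodup → p <+: q → ∃ r : List ℕ, r.Nodup ∧ q <+: r ∧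
    ∃ y, FF A R (x, y) r []
  uniq : ∀ q : List ℕ, q.Nodup → p <+: q → ∀ x y y', FF A R (x, y) q [] → FF A R (x, y') q [] →
    y = y'
  pres : ∀ q : List ℕ, q.Nodup → p <+: q → ∀ i x x' y y', FF A R (x, y) q [] →
    FF A R (x', y') q [] → y < q.length → y' < q.length →
    (A i x x' ↔ A i (gt q y) (gt q y'))

/-- the relation defined by `R` is the graph of an isomorphism -/
def Phi (A : Str) (R : (ℕ × ℕ) × List ℕ × List ℕ → Prop) (g : ℕ → ℕ) : Prop :=
  ∃ ψ : ℕ ≃ ℕ, IsIso A (Pull A g) ψ ∧ ∀ a : ℕ × ℕ, ψ a.1 = a.2 ↔ ∃ h, Tr A R a g h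

theorem cm_of_not_frc {A : Str} {R : (ℕ × ℕ) × List ℕ × List ℕ → Prop} {p : List ℕ}
    (hp : p.Nodup) (h : ¬ Frc A R p) : ∃ q : List ℕ, q.Nodup ∧ p <+: q ∧
      CM q fun g => ¬ Phi A R g := by
  by_contra hc
  apply h
  refine ⟨hp, fun x q hq hpq => ?_, fun q hq hpq x y y' h1 h2 => ?_,
    fun q hq hpq i x x' y y' h1 h2 h3 h9 => ?_⟩
  · by_contra h1
    apply hc
    refine ⟨q, hq, hpq, ?_⟩
    have h2 : CM q fun g => ∀ y : ℕ, ¬ ∃ h, Tr A R (x, y) g h := by
      refine CM.all fun y => ?_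
      refine CM.local hq fun r hr hqr => ?_
      have h3 : ¬ FF A R (x, y) r [] := fun h4 => h1 ⟨r, hr, hqr, y, h4⟩
      exact not_FF' hr h3
    refine h2.mono fun g h3 => ?_
    rintro ⟨ψ, _, h4⟩
    exact h3 (ψ x) ((h4 (x, ψ x)).1 rfl)
  · by_contra h3
    apply hc
    refine ⟨q, hq, hpq, ((FF.truth h1).and (FF.truth h2)).mono fun g hg => ?_⟩
    rintro ⟨ψ, _, h4⟩
    exact h3 (((h4 (x, y)).2 hg.1).symm.trans ((h4 (x, y')).2 hg.2))
  · by_contra h5
    apply hc
    refine ⟨q, hq, hpq, (((FF.truth h1).and (FF.truth h2)).and (CM.of_forall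
      (P := fun g => Below q g) fun g _ hb => hb)).mono fun g hg => ?_⟩
    rintro ⟨ψ, h6, h4⟩
    apply h5
    have h7 : ψ x = y := (h4 (x, y)).2 hg.1.1
    have h8 : ψ x' = y' := (h4 (x', y')).2 hg.1.2
    rw [h6 i x x', h7, h8]
    unfold Pull
    rw [hg.2.gt h3, hg.2.gt h9]

theorem exists_frc {A : Str} (H : ∀ g : ℕ ≃ ℕ, ∃ ψ : ℕ ≃ ℕ, IsIso A (Pull A g) ψ ∧
    Sigma11In (DgN (Pull A g)) fun a : ℕ × ℕ => ψ a.1 = a.2) :
    ∃ R, ComputablePred R ∧ ∃ p, Frc A R p := by
  by_contra hc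
  push Not at hc
  have h1 : ∀ c : Code, CM [] fun g => ComputablePred (RC (β := (ℕ × ℕ) × List ℕ × List ℕ) c) →
      ¬ Phi A (RC c) g := by
    intro c
    by_cases h2 : ComputablePred (RC (β := (ℕ × ℕ) × List ℕ × List ℕ) c)
    · refine CM.local List.nodup_nil fun r hr _ => ?_
      obtain ⟨q, h3, h4, h5⟩ := cm_of_not_frc hr (hc _ h2 r)
      exact ⟨q, h3, h4, h5.mono fun g h6 _ => h6⟩
    · exact CM.of_forall fun g _ _ h3 => (h2 h3).elim
  obtain ⟨g, _, hnd, hg, hs⟩ := ((CM.all h1).and (CM.surj List.nodup_nil)).exists List.nodup_nil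
  let g' : ℕ ≃ ℕ := Equiv.ofBijective g ⟨inj_of_nodup hnd, hs⟩
  obtain ⟨ψ, h2, R, hR, h3⟩ := H g'
  obtain ⟨c, rfl⟩ := exists_RC hR
  exact hg c hR ⟨ψ, h2, h3⟩

/-- generic enumerations below a condition that forces an isomorphism -/
theorem Frc.emb {A : Str} {R : (ℕ × ℕ) × List ℕ × List ℕ → Prop} {p : List ℕ} (hF : Frc A R p)
    {q : List ℕ} (hq : q.Nodup) (hpq : p <+: q) {x₀ y₀ : ℕ} (h0 : FF A R (x₀, y₀) q [])
    (hy : y₀ < q.length) : ∃ ψ : ℕ → ℕ, (∀ i x y, A i x y ↔ A i (ψ x) (ψ y)) ∧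
      ψ x₀ = gt q y₀ := by
  have h1 : CM q fun g => ∀ x : ℕ, ∃ k, res g k ∈ {r : List ℕ | ∃ y, y < r.length ∧
      FF A R (x, y) r []} := by
    refine CM.all fun x => CM.dense (fun r hr hqr => ?_) hq
    obtain ⟨s, h2, h3, y, h4⟩ := hF.tot x r hr (hpq.trans hqr)
    obtain ⟨t, h5, h6, h7⟩ := exists_long h2 (y + 1)
    exact ⟨t, h5, h3.trans h6, y, h7, h4.mono h5 h6⟩
  obtain ⟨g, hb, hnd, hg⟩ := h1.exists hq
  choose k y hky hFF using hg
  have hbp : Below p g := hb.of_pre hpq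
  have h2 : ∀ x K, k x ≤ K → FF A R (x, y x) (res g K) [] := fun x K hK =>
    (hFF x).mono (hnd K) (res_pre g hK)
  have h3 : ∀ x, y x < k x := fun x => by
    have := hky x
    rwa [res_length] at this
  refine ⟨fun x => g (y x), fun i x x' => ?_, ?_⟩
  · have h4 := hF.pres (res g (k x + k x' + p.length)) (hnd _) (hbp.pre (by omega)) i x x' _ _
      (h2 x _ (by omega)) (h2 x' _ (by omega)) (by rw [res_length]; have := h3 x; omega)
      (by rw [res_length]; have := h3 x'; omega)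
    rw [gt_res g (by have := h3 x; omega), gt_res g (by have := h3 x'; omega)] at h4
    exact h4
  · have h4 : y x₀ = y₀ := hF.uniq (res g (k x₀ + p.length + q.length)) (hnd _)
      (hbp.pre (by omega)) x₀ _ _ (h2 x₀ _ (by omega)) (h0.mono (hnd _) (hb.pre (by omega)))
    show g (y x₀) = _
    rw [h4, hb.gt hy]

theorem pre_iff_gt {p q : List ℕ} : p <+: q ↔ p.length ≤ q.length ∧
    ∀ i < p.length, gt p i = gt q i := by
  constructor
  · intro h
    exact ⟨h.length_le, fun i hi => (gt_pre h hi).symm⟩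
  · rintro ⟨h1, h2⟩
    have h3 : p = q.take p.length := by
      refine ext_gt (by simp [h1]) fun i hi => ?_
      rw [h2 i hi]
      simp [gt, hi]
    rw [h3]
    exact List.take_prefix _ _

theorem p_pre {α : Type} [Primcodable α] {f g : α → List ℕ} (hf : Computable f)
    (hg : Computable g) : ComputablePred fun a => f a <+: g a := by
  have h1 : ComputablePred fun a => (f a).length ≤ (g a).length ∧
      ∀ i < (f a).length, gt (f a) i = gt (g a) i := by
    refine p_and (p_le (c_llen hf) (c_llen hg)) ?_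
    refine p_ball (P := fun a i => gt (f a) i = gt (g a) i) (c_llen hf) ?_
    exact p_eq (c_gt (hf.comp Computable.fst) Computable.snd)
      (c_gt (hg.comp Computable.fst) Computable.snd)
  exact h1.of_eq fun a => pre_iff_gt.symm

/-- The structure `AA` has a copy without hyperarithmetic isomorphisms from `AA`. -/
theorem not_hyp : ¬ ∀ g : ℕ ≃ ℕ, ∃ ψ : ℕ ≃ ℕ, IsIso AA (Pull AA g) ψ ∧
    Sigma11In (DgN (Pull AA g)) fun a : ℕ × ℕ => ψ a.1 = a.2 := by
  intro H
  obtain ⟨R, hR, p, hF⟩ := exists_frc H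
  obtain ⟨m, hm⟩ : ∃ m : ℕ, ∀ z ∈ p, dig (dK.J (el pK z).unpair.1 - 1) 0 < m := by
    refine ⟨(p.map fun z => dig (dK.J (el pK z).unpair.1 - 1) 0 + 1).sum, fun z hz => ?_⟩
    have : dig (dK.J (el pK z).unpair.1 - 1) 0 + 1 ∈
        p.map fun z => dig (dK.J (el pK z).unpair.1 - 1) 0 + 1 := List.mem_map_of_mem hz
    have := List.le_sum_of_mem this
    omega
  obtain ⟨r, h1, h2, y₀, h3⟩ := hF.tot (bs m) p hF.nd List.prefix_rfl
  obtain ⟨q, h4, h5, h6⟩ := exists_long h1 (y₀ + 1)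
  have hpq : p <+: q := h2.trans h5
  have hq0 : FF AA R (bs m, y₀) q [] := h3.mono h4 h5
  have key : ∀ q' : List ℕ, q'.Nodup → p <+: q' → FF AA R (bs m, y₀) q' [] → y₀ < q'.length →
      ∃ t, Flow pK t ∧ el pK (gt q' y₀) = Nat.pair (wn m) (t (wn m)) := by
    intro q' h7 h8 h9 h10
    obtain ⟨ψ, h11, h12⟩ := hF.emb h7 h8 h9 h10
    obtain ⟨t, hFt, ht⟩ := flow_of_emb h11
    refine ⟨t, hFt, ?_⟩
    have := ht (wn m)
    rw [← h12]
    exact this
  obtain ⟨t, hFt, ht⟩ := key q h4 hpq hq0 (by omega)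
  have hC : ComputablePred fun s : ℕ × List ℕ => s.2.Nodup ∧ s.2.length = q.length ∧
      p <+: s.2 ∧ el pK (gt s.2 y₀) =
        Nat.pair (wn m) (t (wn m) ^^^ (2 ^ s.1 ^^^ 2 ^ un m)) := by
    have hs : Computable fun s : ℕ × List ℕ => s.2 := Computable.snd
    refine p_and (p_nodup hs) (p_and (p_eq (c_llen hs) (c_const _)) (p_and
      (p_pre (c_const p) hs) (p_eq ((c_el c_pK).comp (c_gt hs (c_const _))) (c_npair (c_const _)
        (c_xor (c_const _) (c_xor (c_pow Computable.fst) (c_const _)))))))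
  refine no_sep m (fun u => ∃ q' : List ℕ, (q'.Nodup ∧ q'.length = q.length ∧ p <+: q' ∧
    el pK (gt q' y₀) = Nat.pair (wn m) (t (wn m) ^^^ (2 ^ u ^^^ 2 ^ un m))) ∧
      FF AA R (bs m, y₀) q' []) ?_ ?_ ?_
  · have hS : Sigma11 fun s : ((ℕ × List ℕ) × List ℕ) × ℕ =>
        (s.1.2.Nodup ∧ s.1.1.2 <+: s.1.2 ∧ ¬ s.2 = y₀) ∧ FF AA R (bs m, s.2) s.1.2 [] := by
      refine (Sigma11.of_computable ?_).and ?_
      · exact p_and (p_nodup (c_snd (c_fst c_id))) (p_and (p_pre (c_snd (c_fst (c_fst c_id)))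
          (c_snd (c_fst c_id))) (p_not (p_eq (c_snd c_id) (c_const _))))
      · exact (sigma_FF aa_comp hR).comp (f := fun s : ((ℕ × List ℕ) × List ℕ) × ℕ =>
          ((bs m, s.2), s.1.2)) (c_pair (c_pair (c_const _) (c_snd c_id)) (c_snd (c_fst c_id)))
    have hS2 := (Sigma11.of_computable (p_not hC)).or (Sigma11.ex' hS.ex)
    refine (Sigma11.all' hS2).of_iff fun u => ?_
    constructor
    · intro h7 q'
      by_cases h8 : q'.Nodup ∧ q'.length = q.length ∧ p <+: q' ∧ el pK (gt q' y₀) =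
          Nat.pair (wn m) (t (wn m) ^^^ (2 ^ u ^^^ 2 ^ un m))
      · right
        have h9 : ¬ FF AA R (bs m, y₀) q' [] := fun h9 => h7 ⟨q', h8, h9⟩
        have h10 : ∃ q'' : List ℕ, q''.Nodup ∧ q' <+: q'' ∧ ∀ s : List ℕ, s.Nodup → q'' <+: s →
            ¬ FF AA R (bs m, y₀) s [] := by
          by_contra hc
          push Not at hc
          exact h9 (FF.local h8.1 fun q'' h11 h12 => by
            obtain ⟨s, h13, h14, h15⟩ := hc q'' h11 h12
            exact ⟨s, h13, h14, h15⟩)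
        obtain ⟨q'', h11, h12, h13⟩ := h10
        obtain ⟨s, h14, h15, y, h16⟩ := hF.tot (bs m) q'' h11 (h8.2.2.1.trans h12)
        refine ⟨s, y, ⟨h14, h12.trans h15, ?_⟩, h16⟩
        rintro rfl
        exact h13 s h14 h15 h16
      · exact Or.inl h8
    · rintro h7 ⟨q', h8, h9⟩
      rcases h7 q' with h10 | ⟨s, y, ⟨h10, h11, h12⟩, h13⟩
      · exact h10 h8
      · exact h12 (hF.uniq s h10 (h8.2.2.1.trans h11) _ _ _ h13 (h9.mono h10 h11))
  · rintro u ⟨s, hs, hs1, hs2⟩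
    obtain ⟨f, hf, hf2⟩ := aut_of_flow hs
    have hgt : ∀ j, j < q.length → gt (q.map f) j = f (gt q j) := by
      intro j hj
      simp [gt, hj]
    refine ⟨q.map f, ⟨h4.map f.injective, by simp, ?_, ?_⟩, hq0.map hf h4⟩
    · have h7 : p.map f = p := by
        conv_rhs => rw [← List.map_id p]
        refine List.map_congr_left fun z hz => ?_
        have h8 := hf2 z
        have h9 : s (el pK z).unpair.1 = 0 := by
          by_contra h10
          have := hs2 _ h10
          have := hm z hz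
          omega
        have h10 : sh s (el pK z) = el pK z := by
          unfold sh
          rw [h9, Nat.xor_zero, Nat.pair_unpair]
        rw [h10] at h8
        rw [← idx_el pK (f z), h8, idx_el]
        rfl
      obtain ⟨l, hl⟩ := hpq
      refine ⟨l.map f, ?_⟩
      rw [← hl, List.map_append, h7]
    · rw [hgt _ (by omega), hf2, ht]
      unfold sh
      rw [Nat.unpair_pair, hs1]
  · rintro u ⟨q', ⟨h7, h8, h9, h10⟩, h11⟩
    obtain ⟨t', hFt', ht'⟩ := key q' h7 h9 h11 (by omega)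
    rw [h10] at ht'
    have h12 := (Nat.pair_eq_pair.1 ht').2
    refine ⟨fun v => t v ^^^ t' v, Flow.xor hFt hFt', ?_⟩
    show t (wn m) ^^^ t' (wn m) = _
    rw [← h12, ← Nat.xor_assoc, Nat.xor_self, Nat.zero_xor]

end Pool.Agent.R621.HS
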