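import Mathlib
import Pool.Agent.R621.HS.Rank

/-!
# Computable infinitary formulas

Structures have a subset of the natural numbers as universe, for the language with the binary
relation symbols `R_0, R_1, R_2, …`.
-/

set_option autoImplicit false

namespace Pool.Agent.R621.HS

open Encodable Denumerable Nat.Partrec

/-- A structure for the language with the binary relation symbols `R_0, R_1, …`: its universe is
the set of the `x` with `U x`, and `R_i(x, y)` holds iff `R i x y`, for `x` and `y` in the
universe. -/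
structure SStr where
  U : ℕ → Prop
  R : ℕ → ℕ → ℕ → Prop

/-- The structure is computable: its universe and its atomic diagram are computable. -/
def SComp (B : SStr) : Prop :=
  ComputablePred B.U ∧
  ComputablePred fun q : ℕ × ℕ × ℕ => B.U q.2.1 ∧ B.U q.2.2 ∧ B.R q.1 q.2.1 q.2.2

/-- The structures are isomorphic. -/
def SIso (A B : SStr) : Prop :=
  ∃ f : {x // A.U x} ≃ {x // B.U x}, ∀ i x y, A.R i x.1 y.1 ↔ B.R i (f x).1 (f y).1

/-- Finitary quantifier-free formulas in the variables `x_0, x_1, …`. -/
inductive QF : Type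
  /-- `x_j = x_k` -/
  | eq (j k : ℕ) : QF
  /-- `R_i(x_j, x_k)` -/
  | rel (i j k : ℕ) : QF
  | neg (φ : QF) : QF
  | and (φ ψ : QF) : QF

namespace QF

/-- The Gödel number of a quantifier-free formula. -/
def code : QF → ℕ
  | eq j k => Nat.pair 0 (Nat.pair j k)
  | rel i j k => Nat.pair 1 (Nat.pair i (Nat.pair j k))
  | neg φ => Nat.pair 2 φ.code
  | and φ ψ => Nat.pair 3 (Nat.pair φ.code ψ.code)

/-- All variables of the formula are among `x_0, …, x_{n-1}`. -/
def Vars (n : ℕ) : QF → Prop
  | eq j k => j < n ∧ k < n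
  | rel _ j k => j < n ∧ k < n
  | neg φ => φ.Vars n
  | and φ ψ => φ.Vars n ∧ ψ.Vars n

/-- The truth of a quantifier-free formula, with the variable `x_j` interpreted as the entry with
number `j` of the tuple `a`. -/
def Holds (B : SStr) (a : List ℕ) : QF → Prop
  | eq j k => a.getD j 0 = a.getD k 0
  | rel i j k => B.R i (a.getD j 0) (a.getD k 0)
  | neg φ => ¬ φ.Holds B a
  | and φ ψ => φ.Holds B a ∧ ψ.Holds B a

theorem code_inj : ∀ {φ ψ : QF}, φ.code = ψ.code → φ = ψ := by
  intro φ
  induction φ with
  | eq j k =>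
    intro ψ h
    cases ψ with
    | eq j' k' =>
      simp only [code, Nat.pair_eq_pair, true_and] at h
      rw [h.1, h.2]
    | rel i' j' k' => simp [code, Nat.pair_eq_pair] at h
    | neg φ' => simp [code, Nat.pair_eq_pair] at h
    | and φ' ψ' => simp [code, Nat.pair_eq_pair] at h
  | rel i j k =>
    intro ψ h
    cases ψ with
    | eq j' k' => simp [code, Nat.pair_eq_pair] at h
    | rel i' j' k' =>
      simp only [code, Nat.pair_eq_pair, true_and] at h
      rw [h.1, h.2.1, h.2.2]
    | neg φ' => simp [code, Nat.pair_eq_pair] at h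
    | and φ' ψ' => simp [code, Nat.pair_eq_pair] at h
  | neg φ ih =>
    intro ψ h
    cases ψ with
    | eq j' k' => simp [code, Nat.pair_eq_pair] at h
    | rel i' j' k' => simp [code, Nat.pair_eq_pair] at h
    | neg φ' =>
      simp only [code, Nat.pair_eq_pair, true_and] at h
      rw [ih h]
    | and φ' ψ' => simp [code, Nat.pair_eq_pair] at h
  | and φ ψ ih1 ih2 =>
    intro χ h
    cases χ with
    | eq j' k' => simp [code, Nat.pair_eq_pair] at h
    | rel i' j' k' => simp [code, Nat.pair_eq_pair] at h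
    | neg φ' => simp [code, Nat.pair_eq_pair] at h
    | and φ' ψ' =>
      simp only [code, Nat.pair_eq_pair, true_and] at h
      rw [ih1 h.1, ih2 h.2]

end QF

/-- The computably enumerable set `W_c`, the domain of the partial computable function with
index `c`. -/
def Wce (c m : ℕ) : Prop := (Code.eval (ofNat Code c) m).Dom

/-- The number `e` is an index of a computable `Σ_α` formula (for `s = true`) or of a computable
`Π_α` formula (for `s = false`) with free variables among `x_0, …, x_{n-1}`:

* the pair `⟨0, code φ⟩` is an index of the finitary quantifier-free formula `φ`;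
* the pair `⟨1, c⟩` is an index of the computable `Σ_α` formula that is the disjunction, over all
  pairs `m = ⟨k, e'⟩` in `W_c`, of the formulas `∃ x_n … x_{n+k-1} ψ` where `ψ` is the computable
  `Π_β` formula with index `e'`, for some `β < α`;
* the pair `⟨2, c⟩` is an index of the computable `Π_α` formula that is the conjunction, over all
  pairs `m = ⟨k, e'⟩` in `W_c`, of the formulas `∀ x_n … x_{n+k-1} ψ` where `ψ` is the computable
  `Σ_β` formula with index `e'`, for some `β < α`. -/
def Lev (α : Ordinal.{0}) (s : Bool) (n e : ℕ) : Prop :=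
  (∃ φ : QF, φ.Vars n ∧ e = Nat.pair 0 φ.code) ∨
  ∃ c, e = Nat.pair (if s = true then 1 else 2) c ∧
    ∀ m, Wce c m → ∃ (β : Ordinal.{0}) (_ : β < α), Lev β (!s) (n + m.unpair.1) m.unpair.2
termination_by α

/-- The number `e` is an index of a computable infinitary formula with free variables among
`x_0, …, x_{n-1}`. -/
def CompInf (n e : ℕ) : Prop := ∃ α s, Lev α s n e

/-- The tuple `a` in the structure `B` satisfies the formula with index `e`. -/
inductive Sat (B : SStr) : List ℕ → ℕ → Prop
  /-- quantifier-free formulas -/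
  | qf (a : List ℕ) (φ : QF) : φ.Holds B a → Sat B a (Nat.pair 0 φ.code)
  /-- disjunctions of formulas that start with existential quantifiers -/
  | dis (a : List ℕ) (c m : ℕ) (d : List ℕ) : Wce c m → d.length = m.unpair.1 →
      (∀ x ∈ d, B.U x) → Sat B (a ++ d) m.unpair.2 → Sat B a (Nat.pair 1 c)
  /-- conjunctions of formulas that start with universal quantifiers -/
  | con (a : List ℕ) (c : ℕ) : (∀ m, Wce c m → ∀ d : List ℕ, d.length = m.unpair.1 →
      (∀ x ∈ d, B.U x) → Sat B (a ++ d) m.unpair.2) → Sat B a (Nat.pair 2 c)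

/-- The property defining the computable rank: whenever `b` satisfies all computable `Π_α`
formulas true of `a`, it satisfies all computable infinitary formulas true of `a`. -/
def RankProp (A : SStr) (α : Ordinal.{0}) : Prop :=
  ∀ a b : List ℕ, (∀ x ∈ a, A.U x) → (∀ x ∈ b, A.U x) → b.length = a.length →
    (∀ e, Lev α false a.length e → Sat A a e → Sat A b e) →
    ∀ e, CompInf a.length e → Sat A a e → Sat A b e

/-! ### basic facts -/

theorem lev_iff {α : Ordinal.{0}} {s : Bool} {n e : ℕ} : Lev α s n e ↔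
    (∃ φ : QF, φ.Vars n ∧ e = Nat.pair 0 φ.code) ∨
    ∃ c, e = Nat.pair (if s = true then 1 else 2) c ∧
      ∀ m, Wce c m → ∃ β, β < α ∧ Lev β (!s) (n + m.unpair.1) m.unpair.2 := by
  rw [Lev]
  simp only [exists_prop]

theorem Lev.mono {α β : Ordinal.{0}} {s : Bool} {n e : ℕ} (h : Lev α s n e) (hab : α ≤ β) :
    Lev β s n e := by
  rw [lev_iff] at h ⊢
  rcases h with h | ⟨c, h1, h2⟩
  · exact Or.inl h
  · exact Or.inr ⟨c, h1, fun m hm => by
      obtain ⟨γ, h3, h4⟩ := h2 m hm
      exact ⟨γ, lt_of_lt_of_le h3 hab, h4⟩⟩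

theorem sat_qf_iff {B : SStr} {a : List ℕ} {φ : QF} :
    Sat B a (Nat.pair 0 φ.code) ↔ φ.Holds B a := by
  constructor
  · intro h
    generalize he : Nat.pair 0 φ.code = e at h
    cases h with
    | qf _ ψ h1 =>
      have := QF.code_inj (Nat.pair_eq_pair.1 he).2
      rw [this]; exact h1
    | dis _ c m d h1 h2 h3 h4 => simp [Nat.pair_eq_pair] at he
    | con _ c h1 => simp [Nat.pair_eq_pair] at he
  · exact Sat.qf a φ

theorem sat_dis_iff {B : SStr} {a : List ℕ} {c : ℕ} : Sat B a (Nat.pair 1 c) ↔
    ∃ m d, Wce c m ∧ d.length = m.unpair.1 ∧ (∀ x ∈ d, B.U x) ∧ Sat B (a ++ d) m.unpair.2 := by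
  constructor
  · intro h
    generalize he : Nat.pair 1 c = e at h
    cases h with
    | qf _ ψ h1 => simp [Nat.pair_eq_pair] at he
    | dis _ c' m d h1 h2 h3 h4 =>
      have := (Nat.pair_eq_pair.1 he).2
      subst this
      exact ⟨m, d, h1, h2, h3, h4⟩
    | con _ c h1 => simp [Nat.pair_eq_pair] at he
  · rintro ⟨m, d, h1, h2, h3, h4⟩
    exact Sat.dis a c m d h1 h2 h3 h4

theorem sat_con_iff {B : SStr} {a : List ℕ} {c : ℕ} : Sat B a (Nat.pair 2 c) ↔
    ∀ m, Wce c m → ∀ d : List ℕ, d.length = m.unpair.1 → (∀ x ∈ d, B.U x) →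
      Sat B (a ++ d) m.unpair.2 := by
  constructor
  · intro h
    generalize he : Nat.pair 2 c = e at h
    cases h with
    | qf _ ψ h1 => simp [Nat.pair_eq_pair] at he
    | dis _ c' m d h1 h2 h3 h4 => simp [Nat.pair_eq_pair] at he
    | con _ c' h1 =>
      have := (Nat.pair_eq_pair.1 he).2
      subst this
      exact h1
  · exact Sat.con a c

/-! ### isomorphism invariance -/

theorem getD_map {f : ℕ → ℕ} {a : List ℕ} {j : ℕ} (h : j < a.length) :
    (a.map f).getD j 0 = f (a.getD j 0) := by
  simp [List.getD_eq_getElem?_getD, h]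

theorem getD_mem {a : List ℕ} {j : ℕ} (h : j < a.length) : a.getD j 0 ∈ a := by
  simp [List.getD_eq_getElem?_getD, h]

/-- The map `f` induces an isomorphism. -/
structure IsoMap (A B : SStr) (f : ℕ → ℕ) : Prop where
  maps : ∀ x, A.U x → B.U (f x)
  inj : ∀ x y, A.U x → A.U y → f x = f y → x = y
  surj : ∀ y, B.U y → ∃ x, A.U x ∧ f x = y
  rel : ∀ i x y, A.U x → A.U y → (A.R i x y ↔ B.R i (f x) (f y))

theorem holds_iso {A B : SStr} {f : ℕ → ℕ} (hf : IsoMap A B f) {a : List ℕ}
    (ha : ∀ x ∈ a, A.U x) (φ : QF) (hv : φ.Vars a.length) :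
    φ.Holds A a ↔ φ.Holds B (a.map f) := by
  induction φ with
  | eq j k =>
    unfold QF.Holds
    rw [getD_map hv.1, getD_map hv.2]
    exact ⟨fun h => by rw [h], fun h => hf.inj _ _ (ha _ (getD_mem hv.1)) (ha _ (getD_mem hv.2)) h⟩
  | rel i j k =>
    unfold QF.Holds
    rw [getD_map hv.1, getD_map hv.2]
    exact hf.rel _ _ _ (ha _ (getD_mem hv.1)) (ha _ (getD_mem hv.2))
  | neg φ ih => exact not_congr (ih hv)
  | and φ ψ ih1 ih2 => exact and_congr (ih1 hv.1) (ih2 hv.2)

/-- isomorphic structures satisfy the same computable infinitary formulas -/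
theorem sat_iso {A B : SStr} {f : ℕ → ℕ} (hf : IsoMap A B f) (α : Ordinal.{0}) :
    ∀ (s : Bool) (n e : ℕ), Lev α s n e → ∀ a : List ℕ, a.length = n → (∀ x ∈ a, A.U x) →
      (Sat A a e ↔ Sat B (a.map f) e) := by
  have pb : ∀ d : List ℕ, (∀ x ∈ d, B.U x) → ∃ d' : List ℕ, (∀ x ∈ d', A.U x) ∧ d'.map f = d := by
    intro d
    induction d with
    | nil => exact fun _ => ⟨[], by simp, rfl⟩
    | cons y d ih =>
      intro h
      obtain ⟨d', h1, h2⟩ := ih fun x hx => h x (List.mem_cons_of_mem _ hx)
      obtain ⟨x, h3, h4⟩ := hf.surj y (h y List.mem_cons_self)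
      refine ⟨x :: d', fun z hz => ?_, by rw [List.map_cons, h4, h2]⟩
      rcases List.mem_cons.1 hz with h5 | h5
      · rw [h5]; exact h3
      · exact h1 z h5
  have pf : ∀ d : List ℕ, (∀ x ∈ d, A.U x) → ∀ x ∈ d.map f, B.U x := by
    intro d hd x hx
    obtain ⟨y, hy, rfl⟩ := List.mem_map.1 hx
    exact hf.maps _ (hd y hy)
  have happ : ∀ a d : List ℕ, (∀ x ∈ a, A.U x) → (∀ x ∈ d, A.U x) → ∀ x ∈ a ++ d, A.U x := by
    intro a d ha hd x hx
    rcases List.mem_append.1 hx with h | h
    · exact ha x h
    · exact hd x h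
  induction α using WellFoundedLT.induction with
  | _ α ih =>
    intro s n e hL a hn ha
    subst hn
    rw [lev_iff] at hL
    rcases hL with ⟨φ, h1, rfl⟩ | ⟨c, h1, h2⟩
    · rw [sat_qf_iff, sat_qf_iff]
      exact holds_iso hf ha φ h1
    · cases s with
      | true =>
        simp only [if_true] at h1
        subst h1
        rw [sat_dis_iff, sat_dis_iff]
        constructor
        · rintro ⟨m, d, h3, h4, h5, h6⟩
          obtain ⟨β, h7, h8⟩ := h2 m h3
          refine ⟨m, d.map f, h3, by rw [List.length_map, h4], pf d h5, ?_⟩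
          rw [← List.map_append]
          exact (ih β h7 _ _ _ h8 (a ++ d) (by rw [List.length_append, h4]) (happ _ _ ha h5)).1 h6
        · rintro ⟨m, d, h3, h4, h5, h6⟩
          obtain ⟨β, h7, h8⟩ := h2 m h3
          obtain ⟨d', h9, rfl⟩ := pb d h5
          rw [List.length_map] at h4
          refine ⟨m, d', h3, h4, h9, ?_⟩
          rw [← List.map_append] at h6
          exact (ih β h7 _ _ _ h8 (a ++ d') (by rw [List.length_append, h4]) (happ _ _ ha h9)).2 h6
      | false =>
        simp only [Bool.false_eq_true, if_false] at h1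
        subst h1
        rw [sat_con_iff, sat_con_iff]
        constructor
        · intro h m h3 d h4 h5
          obtain ⟨β, h7, h8⟩ := h2 m h3
          obtain ⟨d', h9, rfl⟩ := pb d h5
          rw [List.length_map] at h4
          rw [← List.map_append]
          exact (ih β h7 _ _ _ h8 (a ++ d') (by rw [List.length_append, h4]) (happ _ _ ha h9)).1
            (h m h3 d' h4 h9)
        · intro h m h3 d h4 h5
          obtain ⟨β, h7, h8⟩ := h2 m h3
          have h6 := h m h3 (d.map f) (by rw [List.length_map, h4]) (pf d h5)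
          rw [← List.map_append] at h6
          exact (ih β h7 _ _ _ h8 (a ++ d) (by rw [List.length_append, h4]) (happ _ _ ha h5)).2 h6

end Pool.Agent.R621.HS
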