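import Mathlib
import Pool.Agent.R621.HS.Form
import Pool.Agent.R621.HS.Force3

/-!
# Computable infinitary formulas expressing the back-and-forth relations
-/

set_option autoImplicit false
set_option maxHeartbeats 400000

namespace Pool.Agent.R621.HS

open Encodable Denumerable Nat.Partrec Pool.Agent.Helper941 Pool.Agent.Helper941.IsoProb
open Pool.Agent.Helper941.Zeta Pool.Agent.Helper941.Dim Pool.Agent.Helper941.Hyp

/-- a structure whose universe is the set of all natural numbers -/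
def full (A : Str) : SStr := ⟨fun _ => True, A⟩

/-! ### the back-and-forth relations preserve formulas -/

theorem holds_of_atEq {A B : Str} {a b : List ℕ} (h : AtEq (toS A) (toS B) a b) (φ : QF)
    (hv : φ.Vars a.length) : φ.Holds (full A) a ↔ φ.Holds (full B) b := by
  rw [atEq_toS] at h
  simp only [gt_eq] at h
  obtain ⟨_, h2, h3⟩ := h
  induction φ with
  | eq j k => exact h2 j k hv.1 hv.2
  | rel i j k => exact h3 i j k hv.1 hv.2
  | neg φ ih => exact not_congr (ih hv)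
  | and φ ψ ih1 ih2 => exact and_congr (ih1 hv.1) (ih2 hv.2)

theorem karp {A B : Str} (α : Ordinal.{0}) : ∀ a b : List ℕ, BF (toS A) (toS B) α a b →
    ∀ s e, Lev α s a.length e → (Sat (full A) a e ↔ Sat (full B) b e) := by
  induction α using WellFoundedLT.induction with
  | _ α ih =>
    intro a b hbf s e hL
    rw [bf_iff] at hbf
    obtain ⟨h0, h1⟩ := hbf
    have hl : a.length = b.length := h0.1
    rw [lev_iff] at hL
    rcases hL with ⟨φ, h2, rfl⟩ | ⟨c, h2, h3⟩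
    · rw [sat_qf_iff, sat_qf_iff]
      exact holds_of_atEq h0 φ h2
    · cases s with
      | true =>
        simp only [if_true] at h2
        subst h2
        rw [sat_dis_iff, sat_dis_iff]
        constructor
        · rintro ⟨m, d, h4, h5, h6, h7⟩
          obtain ⟨β, h8, h9⟩ := h3 m h4
          obtain ⟨d', h10, h11⟩ := (h1 β h8).1 d
          rw [← h5, ← List.length_append] at h9
          exact ⟨m, d', h4, h10.trans h5, fun _ _ => trivial, (ih β h8 _ _ h11 _ _ h9).1 h7⟩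
        · rintro ⟨m, d, h4, h5, h6, h7⟩
          obtain ⟨β, h8, h9⟩ := h3 m h4
          obtain ⟨d', h10, h11⟩ := (h1 β h8).2 d
          rw [← h5, ← h10, ← List.length_append] at h9
          exact ⟨m, d', h4, h10.trans h5, fun _ _ => trivial, (ih β h8 _ _ h11 _ _ h9).2 h7⟩
      | false =>
        simp only [Bool.false_eq_true, if_false] at h2
        subst h2
        rw [sat_con_iff, sat_con_iff]
        constructor
        · intro h m h4 d h5 _
          obtain ⟨β, h8, h9⟩ := h3 m h4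
          obtain ⟨d', h10, h11⟩ := (h1 β h8).2 d
          rw [← h5, ← h10, ← List.length_append] at h9
          exact (ih β h8 _ _ h11 _ _ h9).1 (h m h4 d' (h10.trans h5) fun _ _ => trivial)
        · intro h m h4 d h5 _
          obtain ⟨β, h8, h9⟩ := h3 m h4
          obtain ⟨d', h10, h11⟩ := (h1 β h8).1 d
          rw [← h5, ← List.length_append] at h9
          exact (ih β h8 _ _ h11 _ _ h9).2 (h m h4 d' (h10.trans h5) fun _ _ => trivial)

/-! ### literals -/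

/-- the literals -/
def litQ (ρ : ℕ × ℕ × ℕ × ℕ) : QF :=
  if ρ.1 = 0 then QF.eq ρ.2.2.1 ρ.2.2.2
  else if ρ.1 = 1 then QF.neg (QF.eq ρ.2.2.1 ρ.2.2.2)
  else if ρ.1 = 2 then QF.rel ρ.2.1 ρ.2.2.1 ρ.2.2.2
  else QF.neg (QF.rel ρ.2.1 ρ.2.2.1 ρ.2.2.2)

/-- the Gödel numbers of the literals -/
def litC (ρ : ℕ × ℕ × ℕ × ℕ) : ℕ :=
  if ρ.1 = 0 then Nat.pair 0 (Nat.pair ρ.2.2.1 ρ.2.2.2)
  else if ρ.1 = 1 then Nat.pair 2 (Nat.pair 0 (Nat.pair ρ.2.2.1 ρ.2.2.2))
  else if ρ.1 = 2 then Nat.pair 1 (Nat.pair ρ.2.1 (Nat.pair ρ.2.2.1 ρ.2.2.2))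
  else Nat.pair 2 (Nat.pair 1 (Nat.pair ρ.2.1 (Nat.pair ρ.2.2.1 ρ.2.2.2)))

theorem litC_eq (ρ : ℕ × ℕ × ℕ × ℕ) : litC ρ = (litQ ρ).code := by
  unfold litC litQ
  split_ifs <;> rfl

theorem lit_vars {ρ : ℕ × ℕ × ℕ × ℕ} {n : ℕ} (h1 : ρ.2.2.1 < n) (h2 : ρ.2.2.2 < n) :
    (litQ ρ).Vars n := by
  unfold litQ
  split_ifs <;> exact ⟨h1, h2⟩

/-- the literal is true of `a` -/
def TL (A : Str) (a : List ℕ) (ρ : ℕ × ℕ × ℕ × ℕ) : Prop :=
  (ρ.2.2.1 < a.length ∧ ρ.2.2.2 < a.length) ∧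
  ((ρ.1 = 0 ∧ gt a ρ.2.2.1 = gt a ρ.2.2.2) ∨ (ρ.1 = 1 ∧ ¬ gt a ρ.2.2.1 = gt a ρ.2.2.2) ∨
   (ρ.1 = 2 ∧ A ρ.2.1 (gt a ρ.2.2.1) (gt a ρ.2.2.2)) ∨
   (3 ≤ ρ.1 ∧ ¬ A ρ.2.1 (gt a ρ.2.2.1) (gt a ρ.2.2.2)))

theorem lit_holds {A : Str} {a : List ℕ} {ρ : ℕ × ℕ × ℕ × ℕ} (h : TL A a ρ) :
    (litQ ρ).Holds (full A) a := by
  obtain ⟨_, h⟩ := h
  unfold litQ
  simp only [gt_eq] at h
  rcases h with h | h | h | h
  · rw [if_pos h.1]
    exact h.2
  · rw [if_neg (by omega), if_pos h.1]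
    exact h.2
  · rw [if_neg (by omega), if_neg (by omega), if_pos h.1]
    exact h.2
  · rw [if_neg (by omega), if_neg (by omega), if_neg (by omega)]
    exact h.2

theorem atEq_of_lit {A B : Str} {a b : List ℕ} (hl : a.length = b.length)
    (h : ∀ ρ, TL A a ρ → (litQ ρ).Holds (full B) b) : AtEq (toS A) (toS B) a b := by
  rw [atEq_toS]
  refine ⟨hl, fun j k hj hk => ?_, fun i j k hj hk => ?_⟩
  · by_cases h1 : gt a j = gt a k
    · have := h (0, 0, j, k) ⟨⟨hj, hk⟩, Or.inl ⟨rfl, h1⟩⟩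
      have h2 : b.getD j 0 = b.getD k 0 := this
      rw [gt_eq b, gt_eq b]
      exact iff_of_true h1 h2
    · have := h (1, 0, j, k) ⟨⟨hj, hk⟩, Or.inr (Or.inl ⟨rfl, h1⟩)⟩
      have h2 : ¬ b.getD j 0 = b.getD k 0 := this
      rw [gt_eq b, gt_eq b]
      exact iff_of_false h1 h2
  · by_cases h1 : A i (gt a j) (gt a k)
    · have := h (2, i, j, k) ⟨⟨hj, hk⟩, Or.inr (Or.inr (Or.inl ⟨rfl, h1⟩))⟩
      have h2 : B i (b.getD j 0) (b.getD k 0) := this
      rw [gt_eq b, gt_eq b]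
      exact iff_of_true h1 h2
    · have := h (3, i, j, k) ⟨⟨hj, hk⟩, Or.inr (Or.inr (Or.inr ⟨le_refl 3, h1⟩))⟩
      have h2 : ¬ B i (b.getD j 0) (b.getD k 0) := this
      rw [gt_eq b, gt_eq b]
      exact iff_of_false h1 h2

theorem c_litC {α : Type} [Primcodable α] {f : α → ℕ × ℕ × ℕ × ℕ} (hf : Computable f) :
    Computable fun x => litC (f x) := by
  have h1 : Computable fun x => (f x).1 := c_fst hf
  have hi : Computable fun x => (f x).2.1 := c_fst (c_snd hf)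
  have hj : Computable fun x => (f x).2.2.1 := c_fst (c_snd (c_snd hf))
  have hk : Computable fun x => (f x).2.2.2 := c_snd (c_snd (c_snd hf))
  unfold litC
  refine c_ite (p_eq h1 (c_const 0)) (c_npair (c_const 0) (c_npair hj hk)) ?_
  refine c_ite (p_eq h1 (c_const 1)) (c_npair (c_const 2) (c_npair (c_const 0)
    (c_npair hj hk))) ?_
  exact c_ite (p_eq h1 (c_const 2)) (c_npair (c_const 1) (c_npair hi (c_npair hj hk)))
    (c_npair (c_const 2) (c_npair (c_const 1) (c_npair hi (c_npair hj hk))))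

theorem p_TL {A : Str} (hA : IsComp A) {α : Type} [Primcodable α] {a : α → List ℕ}
    {f : α → ℕ × ℕ × ℕ × ℕ} (ha : Computable a) (hf : Computable f) :
    ComputablePred fun x => TL A (a x) (f x) := by
  have h1 : Computable fun x => (f x).1 := c_fst hf
  have hi : Computable fun x => (f x).2.1 := c_fst (c_snd hf)
  have hj : Computable fun x => (f x).2.2.1 := c_fst (c_snd (c_snd hf))
  have hk : Computable fun x => (f x).2.2.2 := c_snd (c_snd (c_snd hf))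
  have he : ComputablePred fun x => gt (a x) (f x).2.2.1 = gt (a x) (f x).2.2.2 :=
    p_eq (c_gt ha hj) (c_gt ha hk)
  have hr : ComputablePred fun x => A (f x).2.1 (gt (a x) (f x).2.2.1)
      (gt (a x) (f x).2.2.2) :=
    computablePred_comp (P := fun q : ℕ × ℕ × ℕ => A q.1 q.2.1 q.2.2) hA
      (c_pair hi (c_pair (c_gt ha hj) (c_gt ha hk)))
  exact p_and (p_and (p_lt hj (c_llen ha)) (p_lt hk (c_llen ha)))
    (p_or (p_and (p_eq h1 (c_const 0)) he) (p_or (p_and (p_eq h1 (c_const 1)) (p_not he))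
      (p_or (p_and (p_eq h1 (c_const 2)) hr) (p_and (p_le (c_const 3) h1) (p_not hr)))))

/-! ### the formulas -/

/-- parameters of the computably enumerable sets: kind, node, number of variables, tuple -/
abbrev Zt := ℕ × ℕ × ℕ × List ℕ

/-- witnesses -/
abbrev Wt := (ℕ × ℕ × ℕ × ℕ) × ℕ × ℕ × List ℕ

/-- indices of the c.e. sets -/
def cu (p : ℕ) (z : Zt) : ℕ := encode (Code.curry (ofNat Code p) (encode z))

/-- the formula for the node `w` and the tuple `a` -/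
def GG (p w : ℕ) (a : List ℕ) : ℕ := Nat.pair 2 (cu p (0, w, 0, a))

theorem c_cu {α : Type} [Primcodable α] {p : α → ℕ} {z : α → Zt} (hp : Computable p)
    (hz : Computable z) : Computable fun x => cu (p x) (z x) :=
  Computable.encode.comp ((Code.primrec₂_curry.to_comp).comp
    ((Computable.ofNat Code).comp hp) (Computable.encode.comp hz))

theorem c_GG {α : Type} [Primcodable α] {p w : α → ℕ} {a : α → List ℕ} (hp : Computable p)
    (hw : Computable w) (ha : Computable a) : Computable fun x => GG (p x) (w x) (a x) :=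
  c_npair (c_const 2) (c_cu hp (c_pair (c_const 0) (c_pair hw (c_pair (c_const 0) ha))))

/-- `t` witnesses that `m` is in the c.e. set with parameters `z` -/
def D0 (A : Str) (S : ℕ → ℕ → Prop) (q : (ℕ × Zt × ℕ) × Wt) : Prop :=
  (q.1.2.1.1 = 0 ∧
    ((q.2.2.1 = 0 ∧ TL A q.1.2.1.2.2.2 q.2.1 ∧ q.1.2.2 = Nat.pair 0 (Nat.pair 0 (litC q.2.1))) ∨
     (q.2.2.1 = 1 ∧ S q.2.2.2.1 q.1.2.1.2.1 ∧ q.1.2.2 = Nat.pair 0 (Nat.pair 1 (cu q.1.1
       (1, q.2.2.2.1, q.2.2.2.2.length, q.1.2.1.2.2.2 ++ q.2.2.2.2)))) ∨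
     (q.2.2.1 = 2 ∧ S q.2.2.2.1 q.1.2.1.2.1 ∧ q.1.2.2 = Nat.pair q.2.1.1 (Nat.pair 1 (cu q.1.1
       (2, q.2.2.2.1, q.2.1.1, q.1.2.1.2.2.2)))))) ∨
  (q.1.2.1.1 = 1 ∧ q.1.2.2 = Nat.pair q.1.2.1.2.2.1 (GG q.1.1 q.1.2.1.2.1 q.1.2.1.2.2.2)) ∨
  (q.1.2.1.1 = 2 ∧ q.2.2.2.2.length = q.1.2.1.2.2.1 ∧
    q.1.2.2 = Nat.pair 0 (GG q.1.1 q.1.2.1.2.1 (q.1.2.1.2.2.2 ++ q.2.2.2.2)))

theorem p_D0 {A : Str} (hA : IsComp A) {S : ℕ → ℕ → Prop}
    (hS : ComputablePred fun p : ℕ × ℕ => S p.1 p.2) : ComputablePred (D0 A S) := by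
  have hp : Computable fun q : (ℕ × Zt × ℕ) × Wt => q.1.1 := c_fst (c_fst c_id)
  have hk : Computable fun q : (ℕ × Zt × ℕ) × Wt => q.1.2.1.1 := c_fst (c_fst (c_snd (c_fst c_id)))
  have hw : Computable fun q : (ℕ × Zt × ℕ) × Wt => q.1.2.1.2.1 :=
    c_fst (c_snd (c_fst (c_snd (c_fst c_id))))
  have hn : Computable fun q : (ℕ × Zt × ℕ) × Wt => q.1.2.1.2.2.1 :=
    c_fst (c_snd (c_snd (c_fst (c_snd (c_fst c_id)))))
  have ha : Computable fun q : (ℕ × Zt × ℕ) × Wt => q.1.2.1.2.2.2 :=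
    c_snd (c_snd (c_snd (c_fst (c_snd (c_fst c_id)))))
  have hm : Computable fun q : (ℕ × Zt × ℕ) × Wt => q.1.2.2 := c_snd (c_snd (c_fst c_id))
  have hρ : Computable fun q : (ℕ × Zt × ℕ) × Wt => q.2.1 := c_fst (c_snd c_id)
  have hs : Computable fun q : (ℕ × Zt × ℕ) × Wt => q.2.2.1 := c_fst (c_snd (c_snd c_id))
  have hw' : Computable fun q : (ℕ × Zt × ℕ) × Wt => q.2.2.2.1 :=
    c_fst (c_snd (c_snd (c_snd c_id)))
  have hc : Computable fun q : (ℕ × Zt × ℕ) × Wt => q.2.2.2.2 :=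
    c_snd (c_snd (c_snd (c_snd c_id)))
  have hSS : ComputablePred fun q : (ℕ × Zt × ℕ) × Wt => S q.2.2.2.1 q.1.2.1.2.1 :=
    computablePred_comp hS (c_pair hw' hw)
  refine p_or (p_and (p_eq hk (c_const 0)) (p_or ?_ (p_or ?_ ?_))) (p_or ?_ ?_)
  · exact p_and (p_eq hs (c_const 0)) (p_and (p_TL hA ha hρ) (p_eq hm (c_npair (c_const 0)
      (c_npair (c_const 0) (c_litC hρ)))))
  · exact p_and (p_eq hs (c_const 1)) (p_and hSS (p_eq hm (c_npair (c_const 0)
      (c_npair (c_const 1) (c_cu hp (c_pair (c_const 1) (c_pair hw' (c_pair (c_llen hc)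
        (c_app ha hc)))))))))
  · exact p_and (p_eq hs (c_const 2)) (p_and hSS (p_eq hm (c_npair (c_fst hρ)
      (c_npair (c_const 1) (c_cu hp (c_pair (c_const 2) (c_pair hw' (c_pair (c_fst hρ)
        ha))))))))
  · exact p_and (p_eq hk (c_const 1)) (p_eq hm (c_npair hn (c_GG hp hw ha)))
  · exact p_and (p_eq hk (c_const 2)) (p_and (p_eq (c_llen hc) hn) (p_eq hm
      (c_npair (c_const 0) (c_GG hp hw (c_app ha hc)))))

theorem rf_dom (g : ℕ → Bool) : (Nat.rfind (fun n => Part.some (g n))).Dom ↔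
    ∃ n, g n = true := by
  refine Nat.rfind_dom.trans ?_
  constructor
  · rintro ⟨n, hn, _⟩
    exact ⟨n, (Part.mem_some_iff.1 hn).symm⟩
  · rintro ⟨n, hn⟩
    exact ⟨n, Part.mem_some_iff.2 hn.symm, fun _ => trivial⟩

/-- the recursion theorem -/
theorem exists_fix {D : (ℕ × Zt × ℕ) × Wt → Prop} (hD : ComputablePred D) :
    ∃ p : ℕ, ∀ z m, Wce (cu p z) m ↔ ∃ t, D ((p, z, m), t) := by
  obtain ⟨b, hb, e⟩ := ComputablePred.computable_iff.1 hD
  have e' : ∀ q, D q ↔ b q = true := fun q => by rw [e]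
  let F : Code → ℕ →. ℕ := fun p x =>
    Nat.rfind fun n => Part.some (b ((encode p, ofNat Zt x.unpair.1, x.unpair.2), ofNat Wt n))
  have hF : Partrec₂ F := by
    refine Partrec.rfind (α := Code × ℕ) (p := fun q n =>
      Part.some (b ((encode q.1, ofNat Zt q.2.unpair.1, q.2.unpair.2), ofNat Wt n))) ?_
    refine Computable.partrec (f := fun q : (Code × ℕ) × ℕ =>
      b ((encode q.1.1, ofNat Zt q.1.2.unpair.1, q.1.2.unpair.2), ofNat Wt q.2)) ?_
    refine hb.comp (c_pair (c_pair (Computable.encode.comp (c_fst (c_fst c_id))) (c_pair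
      ((Computable.ofNat Zt).comp (c_up1 (c_snd (c_fst c_id)))) (c_up2 (c_snd (c_fst c_id)))))
      ((Computable.ofNat Wt).comp (c_snd c_id)))
  obtain ⟨c, hc⟩ := Code.fixed_point₂ hF
  refine ⟨encode c, fun z m => ?_⟩
  unfold Wce cu
  rw [ofNat_encode, ofNat_encode, Code.eval_curry, hc]
  show (Nat.rfind fun n => Part.some (b ((encode c, ofNat Zt (Nat.pair (encode z) m).unpair.1,
    (Nat.pair (encode z) m).unpair.2), ofNat Wt n))).Dom ↔ _
  refine (rf_dom _).trans ?_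
  simp only [Nat.unpair_pair, ofNat_encode]
  constructor
  · rintro ⟨n, hn⟩
    exact ⟨ofNat Wt n, (e' _).2 hn⟩
  · rintro ⟨t, ht⟩
    refine ⟨encode t, ?_⟩
    rw [ofNat_encode]
    exact (e' _).1 ht

/-- The family of formulas with index `p` expresses the back-and-forth relations along `S`. -/
structure Fam (A : Str) (S : ℕ → ℕ → Prop) (p : ℕ) : Prop where
  zero : ∀ w a m, Wce (cu p (0, w, 0, a)) m ↔
    (∃ ρ, TL A a ρ ∧ m = Nat.pair 0 (Nat.pair 0 (litC ρ))) ∨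
    (∃ w' c, S w' w ∧ m = Nat.pair 0 (Nat.pair 1 (cu p (1, w', c.length, a ++ c)))) ∨
    (∃ w' k, S w' w ∧ m = Nat.pair k (Nat.pair 1 (cu p (2, w', k, a))))
  one : ∀ w k a m, Wce (cu p (1, w, k, a)) m ↔ m = Nat.pair k (GG p w a)
  two : ∀ w k a m, Wce (cu p (2, w, k, a)) m ↔ ∃ c : List ℕ, c.length = k ∧
    m = Nat.pair 0 (GG p w (a ++ c))

theorem exists_fam {A : Str} (hA : IsComp A) {S : ℕ → ℕ → Prop}
    (hS : ComputablePred fun p : ℕ × ℕ => S p.1 p.2) : ∃ p, Fam A S p := by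
  obtain ⟨p, hp⟩ := exists_fix (p_D0 hA hS)
  refine ⟨p, fun w a m => ?_, fun w k a m => ?_, fun w k a m => ?_⟩
  · rw [hp]
    constructor
    · rintro ⟨⟨ρ, s, w', c⟩, ⟨_, h⟩ | ⟨h, _⟩ | ⟨h, _⟩⟩
      · rcases h with ⟨_, h1, h2⟩ | ⟨_, h1, h2⟩ | ⟨_, h1, h2⟩
        · exact Or.inl ⟨ρ, h1, h2⟩
        · exact Or.inr (Or.inl ⟨w', c, h1, h2⟩)
        · exact Or.inr (Or.inr ⟨w', ρ.1, h1, h2⟩)
      · exact absurd h (by decide : ¬ (0 : ℕ) = 1)
      · exact absurd h (by decide : ¬ (0 : ℕ) = 2)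
    · rintro (⟨ρ, h1, h2⟩ | ⟨w', c, h1, h2⟩ | ⟨w', k, h1, h2⟩)
      · exact ⟨(ρ, 0, 0, []), Or.inl ⟨rfl, Or.inl ⟨rfl, h1, h2⟩⟩⟩
      · exact ⟨((0, 0, 0, 0), 1, w', c), Or.inl ⟨rfl, Or.inr (Or.inl ⟨rfl, h1, h2⟩)⟩⟩
      · exact ⟨((k, 0, 0, 0), 2, w', []), Or.inl ⟨rfl, Or.inr (Or.inr ⟨rfl, h1, h2⟩)⟩⟩
  · rw [hp]
    constructor
    · rintro ⟨⟨ρ, s, w', c⟩, ⟨h, _⟩ | ⟨_, h⟩ | ⟨h, _⟩⟩
      · exact absurd h (by decide : ¬ (1 : ℕ) = 0)
      · exact h
      · exact absurd h (by decide : ¬ (1 : ℕ) = 2)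
    · intro h
      exact ⟨((0, 0, 0, 0), 0, 0, []), Or.inr (Or.inl ⟨rfl, h⟩)⟩
  · rw [hp]
    constructor
    · rintro ⟨⟨ρ, s, w', c⟩, ⟨h, _⟩ | ⟨h, _⟩ | ⟨_, h1, h2⟩⟩
      · exact absurd h (by decide : ¬ (2 : ℕ) = 0)
      · exact absurd h (by decide : ¬ (2 : ℕ) = 1)
      · exact ⟨c, h1, h2⟩
    · rintro ⟨c, h1, h2⟩
      exact ⟨((0, 0, 0, 0), 0, 0, c), Or.inr (Or.inr ⟨rfl, h1, h2⟩)⟩

variable {A : Str} {S : ℕ → ℕ → Prop} {p : ℕ}

/-- the meaning of the formulas -/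
theorem Fam.sat (h : Fam A S p) (B : SStr) (w : ℕ) (a b : List ℕ) : Sat B b (GG p w a) ↔
    (∀ ρ, TL A a ρ → (litQ ρ).Holds B b) ∧ ∀ w', S w' w →
      (∀ c : List ℕ, ∃ d : List ℕ, d.length = c.length ∧ (∀ x ∈ d, B.U x) ∧
        Sat B (b ++ d) (GG p w' (a ++ c))) ∧
      (∀ d : List ℕ, (∀ x ∈ d, B.U x) → ∃ c : List ℕ, c.length = d.length ∧
        Sat B (b ++ d) (GG p w' (a ++ c))) := by
  have hnil : ∀ x ∈ ([] : List ℕ), B.U x := fun x hx => by simp at hx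
  unfold GG
  rw [sat_con_iff]
  constructor
  · intro hs
    refine ⟨fun ρ hρ => ?_, fun w' hw' => ⟨fun c => ?_, fun d hd => ?_⟩⟩
    · have h1 := hs _ ((h.zero w a _).2 (Or.inl ⟨ρ, hρ, rfl⟩)) [] (by rw [Nat.unpair_pair]; rfl)
        hnil
      simp only [Nat.unpair_pair] at h1
      rw [List.append_nil, litC_eq] at h1
      exact sat_qf_iff.1 h1
    · have h1 := hs _ ((h.zero w a _).2 (Or.inr (Or.inl ⟨w', c, hw', rfl⟩))) []
        (by rw [Nat.unpair_pair]; rfl) hnil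
      simp only [Nat.unpair_pair] at h1
      rw [List.append_nil] at h1
      obtain ⟨m, d, h2, h3, h4, h5⟩ := sat_dis_iff.1 h1
      rw [h.one] at h2
      subst h2
      simp only [Nat.unpair_pair] at h3 h5
      exact ⟨d, h3, h4, h5⟩
    · have h1 := hs _ ((h.zero w a _).2 (Or.inr (Or.inr ⟨w', d.length, hw', rfl⟩))) d
        (by rw [Nat.unpair_pair]) hd
      simp only [Nat.unpair_pair] at h1
      obtain ⟨m, d', h2, h3, h4, h5⟩ := sat_dis_iff.1 h1
      rw [h.two] at h2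
      obtain ⟨c, h6, rfl⟩ := h2
      simp only [Nat.unpair_pair] at h3 h5
      have h7 : d' = [] := List.length_eq_zero_iff.1 h3
      rw [h7, List.append_nil] at h5
      exact ⟨c, h6, h5⟩
  · rintro ⟨h1, h2⟩ m hm d hd hdU
    rw [h.zero] at hm
    rcases hm with ⟨ρ, h3, rfl⟩ | ⟨w', c, h3, rfl⟩ | ⟨w', k, h3, rfl⟩
    · simp only [Nat.unpair_pair] at hd ⊢
      have h7 : d = [] := List.length_eq_zero_iff.1 hd
      rw [h7, List.append_nil, litC_eq]
      exact sat_qf_iff.2 (h1 ρ h3)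
    · simp only [Nat.unpair_pair] at hd ⊢
      have h7 : d = [] := List.length_eq_zero_iff.1 hd
      rw [h7, List.append_nil]
      obtain ⟨d', h8, h9, h10⟩ := (h2 w' h3).1 c
      refine sat_dis_iff.2 ⟨_, d', (h.one _ _ _ _).2 rfl, ?_, h9, ?_⟩
      · rw [Nat.unpair_pair]; exact h8
      · rw [Nat.unpair_pair]; exact h10
    · simp only [Nat.unpair_pair] at hd ⊢
      obtain ⟨c, h8, h9⟩ := (h2 w' h3).2 d hdU
      refine sat_dis_iff.2 ⟨_, [], (h.two _ _ _ _).2 ⟨c, h8.trans hd, rfl⟩, ?_, hnil, ?_⟩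
      · rw [Nat.unpair_pair]; rfl
      · rw [Nat.unpair_pair, List.append_nil]; exact h9

/-- the formulas are true in `A` -/
theorem Fam.self (h : Fam A S p) {w : ℕ} (hw : Acc S w) : ∀ a, Sat (full A) a (GG p w a) := by
  induction hw with
  | intro w _ ih =>
    intro a
    rw [h.sat]
    exact ⟨fun ρ hρ => lit_holds hρ, fun w' hw' => ⟨fun c => ⟨c, rfl, fun _ _ => trivial,
      ih w' hw' _⟩, fun d _ => ⟨d, rfl, ih w' hw' _⟩⟩⟩

/-- the formulas are computable infinitary formulas -/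
theorem Fam.lev (h : Fam A S p) {w : ℕ} (hw : Acc S w) :
    ∃ α, ∀ a : List ℕ, Lev α false a.length (GG p w a) := by
  induction hw with
  | intro w _ ih =>
    choose α hα using ih
    let β : Ordinal.{0} := ⨆ w' : {w' // S w' w}, Order.succ (α w'.1 w'.2)
    have hβ : ∀ w' (hw' : S w' w), α w' hw' < β := fun w' hw' =>
      lt_of_lt_of_le (Order.lt_succ _) (Ordinal.le_iSup (fun w' : {w' // S w' w} =>
        Order.succ (α w'.1 w'.2)) ⟨w', hw'⟩)
    refine ⟨Order.succ β, fun a => ?_⟩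
    rw [lev_iff]
    refine Or.inr ⟨cu p (0, w, 0, a), rfl, fun m hm => ⟨β, Order.lt_succ β, ?_⟩⟩
    rw [lev_iff]
    rw [h.zero] at hm
    rcases hm with ⟨ρ, h3, rfl⟩ | ⟨w', c, h3, rfl⟩ | ⟨w', k, h3, rfl⟩
    · left
      rw [Nat.unpair_pair, litC_eq]
      exact ⟨litQ ρ, lit_vars h3.1.1 h3.1.2, rfl⟩
    · right
      simp only [Nat.unpair_pair]
      refine ⟨_, rfl, fun m hm => ⟨α w' h3, hβ w' h3, ?_⟩⟩
      rw [h.one] at hm
      subst hm
      simp only [Nat.unpair_pair]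
      have := hα w' h3 (a ++ c)
      rw [List.length_append] at this
      exact this
    · right
      simp only [Nat.unpair_pair]
      refine ⟨_, rfl, fun m hm => ⟨α w' h3, hβ w' h3, ?_⟩⟩
      rw [h.two] at hm
      obtain ⟨c, h6, rfl⟩ := hm
      simp only [Nat.unpair_pair]
      have := hα w' h3 (a ++ c)
      rw [List.length_append, h6] at this
      exact this

/-- the structure has an infinite universe if it satisfies the formula of a node that is not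
terminal -/
theorem Fam.infinite (h : Fam A S p) {B : SStr} {w w' : ℕ} (hw : S w' w)
    (hs : Sat B [] (GG p w [])) : {x | B.U x}.Infinite := by
  rw [h.sat] at hs
  have key : ∀ n : ℕ, ∃ s : Finset ℕ, (∀ x ∈ s, B.U x) ∧ s.card = n := by
    intro n
    obtain ⟨d, h1, h2, h3⟩ := (hs.2 w' hw).1 (List.range n)
    rw [List.length_range] at h1
    rw [List.nil_append, List.nil_append, h.sat] at h3
    have hnd : d.Nodup := by
      rw [nodup_iff_gt]
      intro i hi j hj hij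
      by_contra hne
      rw [h1] at hi hj
      have hr : ∀ k, k < n → gt (List.range n) k = k := by
        intro k hk
        simp [gt, hk]
      have h4 := h3.1 (1, 0, i, j) ⟨⟨by simpa using hi, by simpa using hj⟩, Or.inr (Or.inl ⟨rfl, by
        show ¬ gt (List.range n) i = gt (List.range n) j
        rw [hr i hi, hr j hj]
        exact hne⟩)⟩
      have h5 : ¬ d.getD i 0 = d.getD j 0 := h4
      rw [← gt_eq, ← gt_eq] at h5
      exact h5 hij
    exact ⟨d.toFinset, fun x hx => h2 x (by simpa using hx), by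
      rw [List.toFinset_card_of_nodup hnd, h1]⟩
  intro hfin
  obtain ⟨s, h1, h2⟩ := key (hfin.toFinset.card + 1)
  have h3 : s ⊆ hfin.toFinset := fun x hx => by
    rw [Set.Finite.mem_toFinset]
    exact h1 x hx
  have := Finset.card_le_card h3
  omega

end Pool.Agent.R621.HS
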