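import Mathlib
import Pool.Agent.R621.HS.GForm
import Pool.Agent.R621.HS.Cls

/-!
# Back-and-forth along a computable tree
-/

set_option autoImplicit false
set_option maxHeartbeats 400000

namespace Pool.Agent.R621.HS

open Encodable Denumerable Nat.Partrec Pool.Agent.Helper941 Pool.Agent.Helper941.IsoProb
open Pool.Agent.Helper941.Zeta Pool.Agent.Helper941.Dim Pool.Agent.Helper941.Hyp

/-- the back-and-forth property along the relation `S` -/
def BFS (A B : Str) (S : ℕ → ℕ → Prop) (Z : ℕ → List ℕ → List ℕ → Prop) : Prop :=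
  ∀ w a b, Z w a b → AtEq (toS A) (toS B) a b ∧ ∀ w', S w' w →
    (∀ c : List ℕ, ∃ d : List ℕ, d.length = c.length ∧ Z w' (a ++ c) (b ++ d)) ∧
    (∀ d : List ℕ, ∃ c : List ℕ, c.length = d.length ∧ Z w' (a ++ c) (b ++ d))

def Surv (A B : Str) (S : ℕ → ℕ → Prop) (w : ℕ) (a b : List ℕ) : Prop :=
  ∃ Z, BFS A B S Z ∧ Z w a b

theorem surv_of_sat {A B : Str} {S : ℕ → ℕ → Prop} {p : ℕ} (h : Fam A S p) {w : ℕ}
    {a b : List ℕ} (hl : a.length = b.length) (hs : Sat (full B) b (GG p w a)) :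
    Surv A B S w a b := by
  refine ⟨fun w a b => a.length = b.length ∧ Sat (full B) b (GG p w a), ?_, hl, hs⟩
  rintro w a b ⟨hl, hs⟩
  rw [h.sat] at hs
  refine ⟨atEq_of_lit hl hs.1, fun w' hw' => ⟨fun c => ?_, fun d => ?_⟩⟩
  · obtain ⟨d, h1, _, h2⟩ := (hs.2 w' hw').1 c
    exact ⟨d, h1, by rw [List.length_append, List.length_append, hl, h1], h2⟩
  · obtain ⟨c, h1, h2⟩ := (hs.2 w' hw').2 d fun _ _ => trivial
    exact ⟨c, h1, by rw [List.length_append, List.length_append, hl, h1], h2⟩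

/-- along an infinite path the back-and-forth property yields an isomorphism -/
theorem iso_of_path {A B : Str} {S : ℕ → ℕ → Prop} {g : ℕ → ℕ} (hg : ∀ n, S (g (n + 1)) (g n))
    {a b : List ℕ} (h : Surv A B S (g 0) a b) : ∃ f : ℕ ≃ ℕ, IsIso A B f ∧ b = a.map f := by
  obtain ⟨Z, hZ, h0⟩ := h
  obtain ⟨f, h1, h2⟩ := iso_of_family (A := toS A) (B := toS B)
    (I := fun a b => ∃ n, Z (g n) a b) (fun a b ⟨n, hn⟩ => (hZ _ _ _ hn).1)
    (fun a b ⟨n, hn⟩ c => by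
      obtain ⟨d, hd, h3⟩ := ((hZ _ _ _ hn).2 _ (hg n)).1 [c]
      obtain ⟨y, rfl⟩ := List.length_eq_one_iff.1 hd
      exact ⟨y, n + 1, h3⟩)
    (fun a b ⟨n, hn⟩ d => by
      obtain ⟨c, hc, h3⟩ := ((hZ _ _ _ hn).2 _ (hg n)).2 [d]
      obtain ⟨y, rfl⟩ := List.length_eq_one_iff.1 hc
      exact ⟨y, n + 1, h3⟩) ⟨0, h0⟩
  exact ⟨f, isIsoS_toS.1 h1, h2⟩

/-! ### the trees -/

/-- the relation of the tree for the universal `Σ¹₁` predicate, with an additional terminal node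
below every node -/
def SX (x w' w : ℕ) : Prop :=
  ¬ w = 0 ∧ (w' = 0 ∨ (¬ w' = 0 ∧ UT x x (ofNat (List ℕ) (w - 1)) ∧
    (ofNat (List ℕ) (w' - 1)).length = (ofNat (List ℕ) (w - 1)).length + 1 ∧
    ofNat (List ℕ) (w - 1) <+: ofNat (List ℕ) (w' - 1)))

/-- the root -/
def rt : ℕ := encode ([] : List ℕ) + 1

theorem p_UT {α : Type} [Primcodable α] {e x : α → ℕ} {l : α → List ℕ} (he : Computable e)
    (hx : Computable x) (hl : Computable l) : ComputablePred fun a => UT (e a) (x a) (l a) := by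
  refine p_ball (P := fun a m => ¬ haltsIn (ofNat Code (e a)) (Nat.pair (x a)
    (encode (tk (l a) m))) (l a).length = true) (c_succ (c_llen hl)) ?_
  have hl' : Computable fun p : α × ℕ => l p.1 := hl.comp Computable.fst
  refine p_not (p_of_bool (c_halts (a := fun p : α × ℕ => e p.1) (b := fun p : α × ℕ =>
    Nat.pair (x p.1) (encode (tk (l p.1) p.2))) (c := fun p : α × ℕ => (l p.1).length)
    (he.comp Computable.fst) (c_npair (hx.comp Computable.fst) (Computable.encode.comp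
      (c_tk hl' Computable.snd))) (c_llen hl')))

theorem p_SX : ComputablePred fun q : ℕ × ℕ × ℕ => SX q.1 q.2.1 q.2.2 := by
  have hx : Computable fun q : ℕ × ℕ × ℕ => q.1 := c_fst c_id
  have hw' : Computable fun q : ℕ × ℕ × ℕ => q.2.1 := c_fst (c_snd c_id)
  have hw : Computable fun q : ℕ × ℕ × ℕ => q.2.2 := c_snd (c_snd c_id)
  have hl : Computable fun q : ℕ × ℕ × ℕ => ofNat (List ℕ) (q.2.2 - 1) :=
    (Computable.ofNat (List ℕ)).comp (c_sub hw (c_const 1))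
  have hl' : Computable fun q : ℕ × ℕ × ℕ => ofNat (List ℕ) (q.2.1 - 1) :=
    (Computable.ofNat (List ℕ)).comp (c_sub hw' (c_const 1))
  exact p_and (p_not (p_eq hw (c_const 0))) (p_or (p_eq hw' (c_const 0))
    (p_and (p_not (p_eq hw' (c_const 0))) (p_and (p_UT hx hx hl)
      (p_and (p_eq (c_llen hl') (c_succ (c_llen hl))) (p_pre hl hl')))))

theorem p_SX' (x : ℕ) : ComputablePred fun q : ℕ × ℕ => SX x q.1 q.2 :=
  computablePred_comp (P := fun q : ℕ × ℕ × ℕ => SX q.1 q.2.1 q.2.2) p_SX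
    (c_pair (c_const x) (c_pair (c_fst c_id) (c_snd c_id)))

theorem sx_leaf (x : ℕ) : SX x 0 rt := ⟨by unfold rt; omega, Or.inl rfl⟩

/-- members of the universal set yield paths -/
theorem path_of_UU {x : ℕ} (h : UU1 x x) : ∃ g : ℕ → ℕ, g 0 = rt ∧ ∀ n, SX x (g (n + 1)) (g n) := by
  obtain ⟨f, hf⟩ := h
  refine ⟨fun n => encode (res f n) + 1, rfl, fun n => ⟨by show ¬ encode (res f n) + 1 = 0; omega,
    Or.inr ⟨by show ¬ encode (res f (n + 1)) + 1 = 0; omega, ?_⟩⟩⟩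
  show UT x x (ofNat (List ℕ) (encode (res f n) + 1 - 1)) ∧
    (ofNat (List ℕ) (encode (res f (n + 1)) + 1 - 1)).length =
      (ofNat (List ℕ) (encode (res f n) + 1 - 1)).length + 1 ∧
    ofNat (List ℕ) (encode (res f n) + 1 - 1) <+: ofNat (List ℕ) (encode (res f (n + 1)) + 1 - 1)
  rw [Nat.add_sub_cancel, Nat.add_sub_cancel, ofNat_encode, ofNat_encode]
  refine ⟨hf n, ?_, res_pre f (by omega)⟩
  rw [res_length, res_length]

/-- otherwise the tree is well-founded -/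
theorem acc_of_not {x : ℕ} (h : ¬ UU1 x x) : Acc (SX x) rt := by
  by_contra hna
  have key : ∀ w : {w // ¬ Acc (SX x) w}, ∃ w' : {w // ¬ Acc (SX x) w}, SX x w'.1 w.1 := by
    rintro ⟨w, hw⟩
    by_contra hc
    push Not at hc
    exact hw ⟨w, fun w' hw' => by
      by_contra h1
      exact hc ⟨w', h1⟩ hw'⟩
  choose nx hnx using key
  let g : ℕ → {w // ¬ Acc (SX x) w} := fun n => Nat.rec ⟨rt, hna⟩ (fun _ w => nx w) n
  have hg : ∀ n, SX x (g (n + 1)).1 (g n).1 := fun n => hnx (g n)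
  have hg0 : (g 0).1 = rt := rfl
  have h1 : ∀ n, ¬ (g n).1 = 0 := fun n => (hg n).1
  let l : ℕ → List ℕ := fun n => ofNat (List ℕ) ((g n).1 - 1)
  have h2 : ∀ n, UT x x (l n) ∧ (l (n + 1)).length = (l n).length + 1 ∧ l n <+: l (n + 1) := by
    intro n
    rcases (hg n).2 with h3 | h3
    · exact (h1 (n + 1) h3).elim
    · exact h3.2
  have h3 : l 0 = [] := by
    show ofNat (List ℕ) ((g 0).1 - 1) = []
    rw [hg0]
    unfold rt
    rw [Nat.add_sub_cancel, ofNat_encode]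
  have h4 : ∀ n, (l n).length = n := by
    intro n
    induction n with
    | zero => rw [h3]; rfl
    | succ n ih => rw [(h2 n).2.1, ih]
  refine h ⟨fun n => gt (l (n + 1)) n, fun n => ?_⟩
  have h5 : (List.range n).map (fun n => gt (l (n + 1)) n) = l n := by
    have hm : ∀ k m, l m <+: l (m + k) := by
      intro k m
      induction k with
      | zero => exact List.prefix_rfl
      | succ k ih => exact ih.trans (h2 (m + k)).2.2
    refine ext_gt (by simp [h4]) fun i hi => ?_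
    have hi' : i < n := by simpa using hi
    rw [gt_range _ hi']
    obtain ⟨k, rfl⟩ := Nat.exists_eq_add_of_le (show i + 1 ≤ n from hi')
    exact (gt_pre (hm k (i + 1)) (by rw [h4 (i + 1)]; omega)).symm
  rw [h5]
  exact (h2 n).1

/-! ### the game -/

/-- challenges: a literal, a side, a node and a tuple -/
abbrev Cg := (ℕ × ℕ × ℕ) × ℕ × ℕ × List ℕ

/-- positions -/
abbrev Pg := (ℕ × List ℕ × List ℕ) × Cg

/-- the answer to the query about the structure with index `e` is correct -/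
def Ans (A : Str) (e t : ℕ) (a b : List ℕ) (ρ : ℕ × ℕ × ℕ) : Prop :=
  (gt a ρ.2.1 = gt a ρ.2.2 ↔ gt b ρ.2.1 = gt b ρ.2.2) ∧
  ((A ρ.1 (gt a ρ.2.1) (gt a ρ.2.2) ∧ Code.evaln t (ofNat Code e)
      (Nat.pair ρ.1 (encode [gt b ρ.2.1, gt b ρ.2.2])) = some 1) ∨
   (¬ A ρ.1 (gt a ρ.2.1) (gt a ρ.2.2) ∧ Code.evaln t (ofNat Code e)
      (Nat.pair ρ.1 (encode [gt b ρ.2.1, gt b ρ.2.2])) = some 0))

/-- the check -/
def ChkS (A : Str) (q : (ℕ × ℕ) × Pg × (List ℕ × ℕ)) : Prop :=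
  (q.2.1.1.2.1.length = q.2.1.1.2.2.length ∧
    (q.2.1.2.1.2.1 < q.2.1.1.2.1.length → q.2.1.2.1.2.2 < q.2.1.1.2.1.length →
      Ans A q.1.2 q.2.2.2 q.2.1.1.2.1 q.2.1.1.2.2 q.2.1.2.1)) ∧
  (SX q.1.1 q.2.1.2.2.2.1 q.2.1.1.1 → q.2.2.1.length = q.2.1.2.2.2.2.length)

open Classical in
/-- the next position -/
noncomputable def nxS (q : (ℕ × ℕ) × Pg × (List ℕ × ℕ) × Cg) : Pg :=
  if SX q.1.1 q.2.1.2.2.2.1 q.2.1.1.1 then
    (if q.2.1.2.2.1 = 0 then
      ((q.2.1.2.2.2.1, q.2.1.1.2.1 ++ q.2.1.2.2.2.2, q.2.1.1.2.2 ++ q.2.2.1.1), q.2.2.2)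
    else ((q.2.1.2.2.2.1, q.2.1.1.2.1 ++ q.2.2.1.1, q.2.1.1.2.2 ++ q.2.1.2.2.2.2), q.2.2.2))
  else (q.2.1.1, q.2.2.2)

theorem c_evl {α : Type} [Primcodable α] {t e x : α → ℕ} (ht : Computable t) (he : Computable e)
    (hx : Computable x) : Computable fun a => Code.evaln (t a) (ofNat Code (e a)) (x a) :=
  (Code.primrec_evaln.to_comp).comp (c_pair (c_pair ht ((Computable.ofNat Code).comp he)) hx)

theorem p_ans {A : Str} (hA : IsComp A) {α : Type} [Primcodable α] {e t : α → ℕ}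
    {a b : α → List ℕ} {ρ : α → ℕ × ℕ × ℕ} (he : Computable e) (ht : Computable t)
    (ha : Computable a) (hb : Computable b) (hρ : Computable ρ) :
    ComputablePred fun x => Ans A (e x) (t x) (a x) (b x) (ρ x) := by
  have hi : Computable fun x => (ρ x).1 := c_fst hρ
  have hj : Computable fun x => (ρ x).2.1 := c_fst (c_snd hρ)
  have hk : Computable fun x => (ρ x).2.2 := c_snd (c_snd hρ)
  have hx : Computable fun x => Nat.pair (ρ x).1 (encode [gt (b x) (ρ x).2.1,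
      gt (b x) (ρ x).2.2]) :=
    c_npair hi (Computable.encode.comp (Computable.list_cons.comp (c_gt hb hj)
      (Computable.list_cons.comp (c_gt hb hk) (c_const []))))
  have hev := c_evl ht he hx
  have hAA : ComputablePred fun x => A (ρ x).1 (gt (a x) (ρ x).2.1) (gt (a x) (ρ x).2.2) :=
    computablePred_comp (P := fun q : ℕ × ℕ × ℕ => A q.1 q.2.1 q.2.2) hA
      (c_pair hi (c_pair (c_gt ha hj) (c_gt ha hk)))
  exact p_and (p_iff (p_eq (c_gt ha hj) (c_gt ha hk)) (p_eq (c_gt hb hj) (c_gt hb hk)))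
    (p_or (p_and hAA (eq_comp hev (c_const (some 1))))
      (p_and (p_not hAA) (eq_comp hev (c_const (some 0)))))

theorem p_chkS {A : Str} (hA : IsComp A) : ComputablePred (ChkS A) := by
  have hx : Computable fun q : (ℕ × ℕ) × Pg × (List ℕ × ℕ) => q.1.1 := c_fst (c_fst c_id)
  have he : Computable fun q : (ℕ × ℕ) × Pg × (List ℕ × ℕ) => q.1.2 := c_snd (c_fst c_id)
  have hw : Computable fun q : (ℕ × ℕ) × Pg × (List ℕ × ℕ) => q.2.1.1.1 :=
    c_fst (c_fst (c_fst (c_snd c_id)))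
  have ha : Computable fun q : (ℕ × ℕ) × Pg × (List ℕ × ℕ) => q.2.1.1.2.1 :=
    c_fst (c_snd (c_fst (c_fst (c_snd c_id))))
  have hb : Computable fun q : (ℕ × ℕ) × Pg × (List ℕ × ℕ) => q.2.1.1.2.2 :=
    c_snd (c_snd (c_fst (c_fst (c_snd c_id))))
  have hi : Computable fun q : (ℕ × ℕ) × Pg × (List ℕ × ℕ) => q.2.1.2.1.1 :=
    c_fst (c_fst (c_snd (c_fst (c_snd c_id))))
  have hj : Computable fun q : (ℕ × ℕ) × Pg × (List ℕ × ℕ) => q.2.1.2.1.2.1 :=
    c_fst (c_snd (c_fst (c_snd (c_fst (c_snd c_id)))))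
  have hk : Computable fun q : (ℕ × ℕ) × Pg × (List ℕ × ℕ) => q.2.1.2.1.2.2 :=
    c_snd (c_snd (c_fst (c_snd (c_fst (c_snd c_id)))))
  have hw' : Computable fun q : (ℕ × ℕ) × Pg × (List ℕ × ℕ) => q.2.1.2.2.2.1 :=
    c_fst (c_snd (c_snd (c_snd (c_fst (c_snd c_id)))))
  have hc : Computable fun q : (ℕ × ℕ) × Pg × (List ℕ × ℕ) => q.2.1.2.2.2.2 :=
    c_snd (c_snd (c_snd (c_snd (c_fst (c_snd c_id)))))
  have hd : Computable fun q : (ℕ × ℕ) × Pg × (List ℕ × ℕ) => q.2.2.1 := c_fst (c_snd (c_snd c_id))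
  have ht : Computable fun q : (ℕ × ℕ) × Pg × (List ℕ × ℕ) => q.2.2.2 := c_snd (c_snd (c_snd c_id))
  have hρ : Computable fun q : (ℕ × ℕ) × Pg × (List ℕ × ℕ) => q.2.1.2.1 :=
    c_fst (c_snd (c_fst (c_snd c_id)))
  have hSX : ComputablePred fun q : (ℕ × ℕ) × Pg × (List ℕ × ℕ) =>
      SX q.1.1 q.2.1.2.2.2.1 q.2.1.1.1 :=
    computablePred_comp (P := fun q : ℕ × ℕ × ℕ => SX q.1 q.2.1 q.2.2) p_SX
      (c_pair hx (c_pair hw' hw))
  exact p_and (p_and (p_eq (c_llen ha) (c_llen hb)) (p_imp (p_lt hj (c_llen ha))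
    (p_imp (p_lt hk (c_llen ha)) (p_ans hA he ht ha hb hρ))))
    (p_imp hSX (p_eq (c_llen hd) (c_llen hc)))

theorem c_nxS : Computable nxS := by
  classical
  have hx : Computable fun q : (ℕ × ℕ) × Pg × (List ℕ × ℕ) × Cg => q.1.1 := c_fst (c_fst c_id)
  have hw : Computable fun q : (ℕ × ℕ) × Pg × (List ℕ × ℕ) × Cg => q.2.1.1.1 :=
    c_fst (c_fst (c_fst (c_snd c_id)))
  have ha : Computable fun q : (ℕ × ℕ) × Pg × (List ℕ × ℕ) × Cg => q.2.1.1.2.1 :=
    c_fst (c_snd (c_fst (c_fst (c_snd c_id))))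
  have hb : Computable fun q : (ℕ × ℕ) × Pg × (List ℕ × ℕ) × Cg => q.2.1.1.2.2 :=
    c_snd (c_snd (c_fst (c_fst (c_snd c_id))))
  have hs : Computable fun q : (ℕ × ℕ) × Pg × (List ℕ × ℕ) × Cg => q.2.1.2.2.1 :=
    c_fst (c_snd (c_snd (c_fst (c_snd c_id))))
  have hw' : Computable fun q : (ℕ × ℕ) × Pg × (List ℕ × ℕ) × Cg => q.2.1.2.2.2.1 :=
    c_fst (c_snd (c_snd (c_snd (c_fst (c_snd c_id)))))
  have hc : Computable fun q : (ℕ × ℕ) × Pg × (List ℕ × ℕ) × Cg => q.2.1.2.2.2.2 :=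
    c_snd (c_snd (c_snd (c_snd (c_fst (c_snd c_id)))))
  have hd : Computable fun q : (ℕ × ℕ) × Pg × (List ℕ × ℕ) × Cg => q.2.2.1.1 :=
    c_fst (c_fst (c_snd (c_snd c_id)))
  have hch : Computable fun q : (ℕ × ℕ) × Pg × (List ℕ × ℕ) × Cg => q.2.2.2 :=
    c_snd (c_snd (c_snd c_id))
  have hp : Computable fun q : (ℕ × ℕ) × Pg × (List ℕ × ℕ) × Cg => q.2.1.1 :=
    c_fst (c_fst (c_snd c_id))
  have hSX : ComputablePred fun q : (ℕ × ℕ) × Pg × (List ℕ × ℕ) × Cg =>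
      SX q.1.1 q.2.1.2.2.2.1 q.2.1.1.1 :=
    computablePred_comp (P := fun q : ℕ × ℕ × ℕ => SX q.1 q.2.1 q.2.2) p_SX
      (c_pair hx (c_pair hw' hw))
  refine (c_ite hSX (c_ite (p_eq hs (c_const 0))
    (c_pair (c_pair hw' (c_pair (c_app ha hc) (c_app hb hd))) hch)
    (c_pair (c_pair hw' (c_pair (c_app ha hd) (c_app hb hc))) hch)) (c_pair hp hch)).of_eq
      fun q => ?_
  unfold nxS
  rfl

theorem surv_iff {A : Str} {x e : ℕ} (he : Idx e) {w : ℕ} {a b : List ℕ} :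
    (∀ ch, Win (ChkS A) nxS (x, e) ((w, a, b), ch)) ↔ Surv A (SI e) (SX x) w a b := by
  constructor
  · intro h
    refine ⟨fun w a b => ∀ ch, Win (ChkS A) nxS (x, e) ((w, a, b), ch), ?_, h⟩
    intro w a b h
    refine ⟨atEq_toS.2 ⟨?_, ?_, ?_⟩, fun w' hw' => ⟨fun c => ?_, fun d => ?_⟩⟩
    · obtain ⟨r, h1, _⟩ := (h default).unfold
      exact h1.1.1
    · intro j k hj hk
      obtain ⟨r, h1, _⟩ := (h ((0, j, k), 0, 0, [])).unfold
      exact (h1.1.2 hj hk).1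
    · intro i j k hj hk
      obtain ⟨r, h1, _⟩ := (h ((i, j, k), 0, 0, [])).unfold
      rcases (h1.1.2 hj hk).2 with h2 | h2
      · exact iff_of_true h2.1 (Part.eq_some_iff.2 (Code.evaln_sound h2.2))
      · refine iff_of_false h2.1 fun h3 => ?_
        have h4 := Part.eq_some_iff.2 (Code.evaln_sound h2.2)
        have h5 : Part.some 1 = Part.some 0 := h3.symm.trans h4
        exact some_ne h5
    · obtain ⟨⟨d, t⟩, h1, h2⟩ := (h ((0, 0, 0), 0, w', c)).unfold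
      refine ⟨d, h1.2 hw', fun ch => ?_⟩
      have h3 := h2 ch
      have h4 : nxS ((x, e), ((w, a, b), (0, 0, 0), 0, w', c), (d, t), ch) =
          ((w', a ++ c, b ++ d), ch) := by
        unfold nxS
        rw [if_pos hw', if_pos rfl]
      rwa [h4] at h3
    · obtain ⟨⟨c, t⟩, h1, h2⟩ := (h ((0, 0, 0), 1, w', d)).unfold
      refine ⟨c, h1.2 hw', fun ch => ?_⟩
      have h3 := h2 ch
      have h4 : nxS ((x, e), ((w, a, b), (0, 0, 0), 1, w', d), (c, t), ch) =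
          ((w', a ++ c, b ++ d), ch) := by
        unfold nxS
        rw [if_pos hw', if_neg (by show ¬ (1 : ℕ) = 0; omega)]
      rwa [h4] at h3
  · rintro ⟨Z, hZ, h0⟩ ch
    refine Win.coind (Z := fun q : Pg => Z q.1.1 q.1.2.1 q.1.2.2) ?_ h0
    rintro ⟨⟨w, a, b⟩, ⟨ρ, s, w', c⟩⟩ h
    have h' : Z w a b := h
    obtain ⟨hat, hbf⟩ := hZ _ _ _ h'
    rw [atEq_toS] at hat
    have ht : ∃ t, ρ.2.1 < a.length → ρ.2.2 < a.length → Ans A e t a b ρ := by
      by_cases hj : ρ.2.1 < a.length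
      · by_cases hk : ρ.2.2 < a.length
        · have h1 := hat.2.2 ρ.1 ρ.2.1 ρ.2.2 hj hk
          have h2 := hat.2.1 ρ.2.1 ρ.2.2 hj hk
          rcases (he (Nat.pair ρ.1 (encode [gt b ρ.2.1, gt b ρ.2.2]))).1 with h3 | h3
          · obtain ⟨t, ht⟩ := Code.evaln_complete.1 (Part.eq_some_iff.1 h3)
            exact ⟨t, fun _ _ => ⟨h2, Or.inl ⟨h1.2 h3, ht⟩⟩⟩
          · obtain ⟨t, ht⟩ := Code.evaln_complete.1 (Part.eq_some_iff.1 h3)
            refine ⟨t, fun _ _ => ⟨h2, Or.inr ⟨fun h4 => ?_, ht⟩⟩⟩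
            have h5 : Part.some 1 = Part.some 0 := (h1.1 h4).symm.trans h3
            exact some_ne h5
        · exact ⟨0, fun _ h1 => (hk h1).elim⟩
      · exact ⟨0, fun h1 => (hj h1).elim⟩
    obtain ⟨t, ht⟩ := ht
    by_cases hw' : SX x w' w
    · by_cases hs : s = 0
      · obtain ⟨d, h1, h2⟩ := (hbf w' hw').1 c
        refine ⟨(d, t), ⟨⟨hat.1, ht⟩, fun _ => h1⟩, fun ch => ?_⟩
        have h4 : nxS ((x, e), ((w, a, b), ρ, s, w', c), (d, t), ch) =
            ((w', a ++ c, b ++ d), ch) := by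
          unfold nxS
          rw [if_pos hw', if_pos hs]
        rw [h4]
        exact h2
      · obtain ⟨d, h1, h2⟩ := (hbf w' hw').2 c
        refine ⟨(d, t), ⟨⟨hat.1, ht⟩, fun _ => h1⟩, fun ch => ?_⟩
        have h4 : nxS ((x, e), ((w, a, b), ρ, s, w', c), (d, t), ch) =
            ((w', a ++ d, b ++ c), ch) := by
          unfold nxS
          rw [if_pos hw', if_neg hs]
        rw [h4]
        exact h2
    · refine ⟨([], t), ⟨⟨hat.1, ht⟩, fun h1 => (hw' h1).elim⟩, fun ch => ?_⟩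
      have h4 : nxS ((x, e), ((w, a, b), ρ, s, w', c), ([], t), ch) = ((w, a, b), ch) := by
        unfold nxS
        rw [if_neg hw']
      rw [h4]
      exact h'

/-- survival is `Σ¹₁` -/
theorem sigma_surv {A : Str} (hA : IsComp A) (w : ℕ) (a b : List ℕ) :
    Sigma11 fun p : ℕ × ℕ => ∀ ch, Win (ChkS A) nxS p ((w, a, b), ch) := by
  have h1 : Sigma11 fun p : (ℕ × ℕ) × Pg => Win (ChkS A) nxS p.1 p.2 :=
    sigma_win (p_chkS hA) c_nxS
  have h2 : Sigma11 fun p : (ℕ × ℕ) × Cg => Win (ChkS A) nxS p.1 ((w, a, b), p.2) :=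
    h1.comp (f := fun p : (ℕ × ℕ) × Cg => (p.1, ((w, a, b), p.2)))
      (c_pair (c_fst c_id) (c_pair (c_const _) (c_snd c_id)))
  exact Sigma11.all' h2

end Pool.Agent.R621.HS
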