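import Mathlib
import Pool.Agent.R621.HS.Surv

/-!
# A structure of noncomputable rank that is not computably approximable
-/

set_option autoImplicit false
set_option maxHeartbeats 400000

namespace Pool.Agent.R621.HS

open Encodable Denumerable Nat.Partrec Pool.Agent.Helper941 Pool.Agent.Helper941.IsoProb
open Pool.Agent.Helper941.Zeta Pool.Agent.Helper941.Dim Pool.Agent.Helper941.Hyp

theorem toS_inj {A B : Str} (h : toS A = toS B) : A = B := by
  funext i x y
  exact congrFun (congrFun h i) ![x, y]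

/-- an index of `AA` -/
theorem exists_index_aa : ∃ e, Idx e ∧ SI e = AA := by
  obtain ⟨e, he⟩ := aa_computable
  obtain ⟨h1, h2⟩ := eq_of_index he
  exact ⟨e, h1, (toS_inj h2).symm⟩

/-- The structure `AA` has noncomputable computable rank. -/
theorem not_rankProp {α : Ordinal.{0}} (hα : ComputableOrd α) : ¬ RankProp (full AA) α := by
  intro hR
  refine not_captured hα fun x y hbf => ?_
  by_contra hno
  obtain ⟨e₀, he₀, hE⟩ := exists_index_aa
  refine not_sigma_diag ?_
  have h1 : Sigma11 fun z : ℕ => ∀ ch, Win (ChkS AA) nxS (z, e₀) ((rt, [x], [y]), ch) :=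
    (sigma_surv aa_comp rt [x] [y]).comp (f := fun z : ℕ => (z, e₀)) (c_pair c_id (c_const _))
  refine h1.of_iff fun z => ?_
  rw [surv_iff he₀, hE]
  constructor
  · intro hz
    have hacc := acc_of_not hz
    obtain ⟨p, hp⟩ := exists_fam aa_comp (p_SX' z)
    obtain ⟨β, hβ⟩ := hp.lev hacc
    refine surv_of_sat hp rfl (hR [x] [y] (fun _ _ => trivial) (fun _ _ => trivial) rfl
      (fun e he hs => ?_) _ ⟨β, false, hβ [x]⟩ (hp.self hacc [x]))
    exact (karp α [x] [y] hbf false e he).1 hs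
  · intro hs hz
    obtain ⟨g, hg0, hg⟩ := path_of_UU hz
    rw [← hg0] at hs
    obtain ⟨f, hf, hf2⟩ := iso_of_path hg hs
    exact hno ⟨f, isIsoS_toS.2 hf, hf2⟩

/-! ### structures with a subset of the natural numbers as universe -/

theorem c_nth {P : ℕ → Prop} (hP : ComputablePred P) (hinf : {x | P x}.Infinite) :
    Computable (Nat.nth P) := by
  classical
  have hc : Computable fun p : ℕ => Nat.count P p := by
    have h : Computable fun p : ℕ =>
        (Nat.rec 0 (fun n b => b + (if P n then 1 else 0)) p : ℕ) := by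
      refine Computable.nat_rec (f := fun p : ℕ => p) (g := fun _ => 0)
        (h := fun (_ : ℕ) (q : ℕ × ℕ) => (q.2 + (if P q.1 then 1 else 0) : ℕ)) Computable.id
        (Computable.const _) ?_
      refine c_add (c_snd (c_snd c_id)) (c_ite ?_ (c_const 1) (c_const 0))
      exact computablePred_comp hP (c_fst (c_snd c_id))
    refine h.of_eq fun p => ?_
    induction p with
    | zero => rfl
    | succ p ih =>
      rw [Nat.count_succ, ← ih]
  have h := c_least (P := fun n m : ℕ => P m ∧ Nat.count P m = n)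
    (p_and (computablePred_comp hP (c_snd c_id)) (p_eq (hc.comp (c_snd c_id)) (c_fst c_id)))
    (fun n => ⟨Nat.nth P n, Nat.nth_mem_of_infinite hinf n, Nat.count_nth_of_infinite hinf n⟩)
  refine h.of_eq fun n => ?_
  have : {m | P m ∧ Nat.count P m = n} = {Nat.nth P n} := by
    ext m
    rw [Set.mem_singleton_iff]
    show P m ∧ Nat.count P m = n ↔ _
    constructor
    · rintro ⟨h1, h2⟩
      rw [← h2, Nat.nth_count h1]
    · rintro rfl
      exact ⟨Nat.nth_mem_of_infinite hinf n, Nat.count_nth_of_infinite hinf n⟩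
  rw [this, csInf_singleton]

/-- infinite computable structures have computable copies with universe `ω` -/
theorem exists_full {B : SStr} (hB : SComp B) (hinf : {x | B.U x}.Infinite) :
    ∃ (B' : Str) (f : ℕ → ℕ), IsComp B' ∧ IsoMap (full B') B f := by
  classical
  have hn := c_nth hB.1 hinf
  have hU : ∀ n, B.U (Nat.nth B.U n) := fun n => Nat.nth_mem_of_infinite hinf n
  refine ⟨fun i x y => B.R i (Nat.nth B.U x) (Nat.nth B.U y), Nat.nth B.U, ?_, ?_⟩
  · have h1 : ComputablePred fun q : ℕ × ℕ × ℕ => B.U (Nat.nth B.U q.2.1) ∧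
        B.U (Nat.nth B.U q.2.2) ∧ B.R q.1 (Nat.nth B.U q.2.1) (Nat.nth B.U q.2.2) :=
      computablePred_comp hB.2 (f := fun q : ℕ × ℕ × ℕ => (q.1, Nat.nth B.U q.2.1,
        Nat.nth B.U q.2.2)) (c_pair (c_fst c_id) (c_pair (hn.comp (c_fst (c_snd c_id)))
          (hn.comp (c_snd (c_snd c_id)))))
    exact h1.of_eq fun q => ⟨fun h => h.2.2, fun h => ⟨hU _, hU _, h⟩⟩
  · exact ⟨fun x _ => hU x, fun x y _ _ h => Nat.nth_injective hinf h, fun y hy =>
      ⟨Nat.count B.U y, trivial, Nat.nth_count hy⟩, fun i x y _ _ => Iff.rfl⟩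

theorem siso_of {A B' : Str} {B : SStr} {f : ℕ → ℕ} (hf : IsoMap (full B') B f) {g : ℕ ≃ ℕ}
    (hg : IsIso A B' g) : SIso (full A) B := by
  let F : {x // (full A).U x} → {x // B.U x} := fun x => ⟨f (g x.1), hf.maps _ trivial⟩
  have hF : Function.Bijective F := by
    constructor
    · intro x y hxy
      have h1 : f (g x.1) = f (g y.1) := congrArg Subtype.val hxy
      exact Subtype.ext (g.injective (hf.inj _ _ trivial trivial h1))
    · rintro ⟨y, hy⟩
      obtain ⟨x, _, hx⟩ := hf.surj y hy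
      refine ⟨⟨g.symm x, trivial⟩, Subtype.ext ?_⟩
      show f (g (g.symm x)) = y
      rw [g.apply_symm_apply, hx]
  refine ⟨Equiv.ofBijective F hF, fun i x y => ?_⟩
  show A i x.1 y.1 ↔ B.R i (f (g x.1)) (f (g y.1))
  rw [hg i x.1 y.1]
  exact hf.rel i _ _ trivial trivial

/-- The structure `AA` is characterised by a computable infinitary sentence among the computable
structures. -/
theorem exists_sentence : ∃ φ, CompInf 0 φ ∧ Sat (full AA) [] φ ∧
    ∀ B : SStr, SComp B → Sat B [] φ → SIso (full AA) B := by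
  by_contra hc
  push Not at hc
  refine not_sigma_diag ?_
  have h1 : Sigma11 fun p : ℕ × ℕ => (Idx p.2 ∧ ¬ ∃ k, IP p.2 k) ∧
      ∀ ch, Win (ChkS AA) nxS p ((rt, [], []), ch) :=
    (((delta_Idx.comp (c_snd c_id)).1).and ((delta_IP.ex).2.comp (c_snd c_id))).and
      (sigma_surv aa_comp rt [] [])
  refine h1.ex.of_iff fun z => ?_
  constructor
  · intro hz
    have hacc := acc_of_not hz
    obtain ⟨p, hp⟩ := exists_fam aa_comp (p_SX' z)
    obtain ⟨β, hβ⟩ := hp.lev hacc
    obtain ⟨B, hB, hs, hn⟩ := hc (GG p rt []) ⟨β, false, hβ []⟩ (hp.self hacc [])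
    obtain ⟨B', f, hB', hf⟩ := exists_full hB (hp.infinite (sx_leaf z) hs)
    have hs' : Sat (full B') [] (GG p rt []) :=
      (sat_iso hf β false 0 _ (hβ []) [] rfl (by simp)).2 hs
    obtain ⟨g, _, hgi⟩ := exists_idx (β := ℕ) (M := fun _ => B')
      (computablePred_comp (P := fun q : ℕ × ℕ × ℕ => B' q.1 q.2.1 q.2.2) hB' (c_snd c_id))
    obtain ⟨h2, h3⟩ := eq_of_index (hgi 0)
    have h4 : SI (g 0) = B' := (toS_inj h3).symm
    refine ⟨g 0, ⟨h2, fun hk => ?_⟩, ?_⟩
    · obtain ⟨k, hk⟩ := (iso_iff_ip h2).2 hk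
      rw [h4] at hk
      exact hn (siso_of hf hk)
    · show ∀ ch, Win (ChkS AA) nxS (z, g 0) ((rt, [], []), ch)
      rw [surv_iff h2, h4]
      exact surv_of_sat hp rfl hs'
  · rintro ⟨e, ⟨h2, h3⟩, h4⟩ hz
    obtain ⟨g, hg0, hg⟩ := path_of_UU hz
    have h5 : ∀ ch, Win (ChkS AA) nxS (z, e) ((rt, [], []), ch) := h4
    rw [surv_iff h2, ← hg0] at h5
    obtain ⟨f, hf, _⟩ := iso_of_path hg h5
    exact h3 ((iso_iff_ip h2).1 ⟨f, hf⟩)

end Pool.Agent.R621.HS
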