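import Mathlib
import Pool.Agent.R621.HS.Force3

/-!
# Forcing with effectively closed classes that constrain finitely many columns
-/

set_option autoImplicit false
set_option maxHeartbeats 400000

namespace Pool.Agent.R621.HS

open Encodable Denumerable Nat.Partrec Pool.Agent.Helper941 Pool.Agent.Helper941.IsoProb
open Pool.Agent.Helper941.Zeta Pool.Agent.Helper941.Dim Pool.Agent.Helper941.Hyp

/-- `P` is an effectively closed class of functions that constrains only the values on `δ` and in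
the columns before `k`. -/
structure Cond (k : ℕ) (δ : List ℕ) (P : (ℕ → ℕ) → Prop) : Prop where
  pi : ∃ R : List ℕ → Prop, ComputablePred R ∧ ∀ d, P d ↔ ∀ n, R (res d n)
  ne : ∃ d, P d
  sub : ∀ d, P d → Below δ d
  free : ∀ d d', P d → Below δ d' → (∀ j, j.unpair.1 < k → d' j = d j) → P d'

theorem cond_true : Cond 0 [] fun _ => True where
  pi := ⟨fun _ => True, ComputablePred.computable_iff.2 ⟨fun _ => true, Computable.const _, by
    funext a; simp⟩, fun d => by simp⟩
  ne := ⟨fun _ => 0, trivial⟩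
  sub := fun _ _ => rfl
  free := fun _ _ _ _ _ => trivial

theorem below_ext {p : List ℕ} {g g' : ℕ → ℕ} (h : Below p g) (h2 : ∀ i < p.length, g' i = g i) :
    Below p g' := by
  unfold Below at h ⊢
  refine ext_gt (res_length _ _) fun i hi => ?_
  rw [res_length] at hi
  rw [gt_res g' hi, h2 i hi, ← gt_res g hi, h]

theorem below_iff {p : List ℕ} {g : ℕ → ℕ} : Below p g ↔ ∀ i < p.length, g i = gt p i := by
  constructor
  · intro h i hi
    exact h.gt hi
  · intro h
    unfold Below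
    refine ext_gt (res_length _ _) fun i hi => ?_
    rw [res_length] at hi
    rw [gt_res g hi, h i hi]

/-- replacing the initial part -/
def ovr (σ : List ℕ) (d : ℕ → ℕ) (j : ℕ) : ℕ := if j < σ.length then gt σ j else d j

theorem below_ovr (σ : List ℕ) (d : ℕ → ℕ) : Below σ (ovr σ d) := by
  rw [below_iff]
  intro i hi
  unfold ovr
  rw [if_pos hi]

theorem ovr_ge {σ : List ℕ} {d : ℕ → ℕ} {j : ℕ} (h : σ.length ≤ j) : ovr σ d j = d j := by
  unfold ovr
  rw [if_neg (by omega)]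

theorem tk_pre_iff {l : List ℕ} {n : ℕ} (h : n ≤ l.length) : tk l n = l.take n := by
  refine ext_gt (by simp [tk, h]) fun i hi => ?_
  have hi' : i < n := by simpa [tk] using hi
  unfold tk
  rw [gt_range _ hi']
  simp [gt, hi']

/-- the column `k` of `d`, with the initial part replaced by `τ` -/
def patch (k : ℕ) (τ : List ℕ) (d : ℕ → ℕ) : ℕ → ℕ := ovr τ fun x => d (Nat.pair k x)

/-- the same for finite sequences -/
def patchL (k : ℕ) (τ σ : List ℕ) (n : ℕ) : List ℕ :=
  (List.range n).map fun x => if x < τ.length then gt τ x else gt σ (Nat.pair k x)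

theorem patchL_res {k n m : ℕ} {τ : List ℕ} {d : ℕ → ℕ} (h : ∀ x < n, Nat.pair k x < m) :
    patchL k τ (res d m) n = res (patch k τ d) n := by
  unfold patchL res
  refine List.map_congr_left fun x hx => ?_
  have hx' : x < n := List.mem_range.1 hx
  unfold patch ovr
  split_ifs with h1
  · rfl
  · exact gt_range d (h x hx')

theorem c_patchL {k : ℕ} {τ : List ℕ} {α : Type} [Primcodable α] {f : α → List ℕ} {g : α → ℕ}
    (hf : Computable f) (hg : Computable g) : Computable fun a => patchL k τ (f a) (g a) := by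
  unfold patchL
  refine c_tab (g := fun a x => if x < τ.length then gt τ x else gt (f a) (Nat.pair k x)) hg ?_
  exact c_ite (p_lt (c_snd c_id) (c_const _)) (c_gt (c_const τ) (c_snd c_id))
    (c_gt (hf.comp Computable.fst) (c_npair (c_const k) (c_snd c_id)))

/-- adding a witness in a new column -/
theorem Cond.add {k : ℕ} {δ : List ℕ} {P : (ℕ → ℕ) → Prop} (h : Cond k δ P) {S : List ℕ → Prop}
    (hS : ComputablePred S) (hw : ∃ w : ℕ → ℕ, ∀ n, S (res w n)) :
    ∃ P', Cond (k + 1) δ P' ∧ (∀ d, P' d → P d) ∧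
      ∃ τ : List ℕ, ∀ d, P' d → ∀ n, S (res (patch k τ d) n) := by
  obtain ⟨w, hw⟩ := hw
  obtain ⟨R, hR, hR2⟩ := h.pi
  refine ⟨fun d => P d ∧ ∀ n, S (res (patch k (res w δ.length) d) n), ?_, fun d hd => hd.1,
    res w δ.length, fun d hd => hd.2⟩
  refine ⟨?_, ?_, fun d hd => h.sub d hd.1, ?_⟩
  · refine ⟨fun σ => R σ ∧ ∀ n < σ.length, Nat.pair k n ≤ σ.length →
      S (patchL k (res w δ.length) σ n), ?_, fun d => ?_⟩
    · refine p_and hR (p_ball (P := fun σ n => Nat.pair k n ≤ σ.length →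
        S (patchL k (res w δ.length) σ n)) (c_llen c_id) (p_imp (p_le (c_npair (c_const k)
          (c_snd c_id)) (c_llen (c_fst c_id))) (computablePred_comp hS
            (c_patchL (c_fst c_id) (c_snd c_id)))))
    · rw [hR2]
      constructor
      · rintro ⟨h1, h2⟩ m
        refine ⟨h1 m, fun n _ hn => ?_⟩
        rw [res_length] at hn
        rw [patchL_res fun x hx => by
          have := Nat.pair_lt_pair_right k hx
          omega]
        exact h2 n
      · intro h1
        refine ⟨fun m => (h1 m).1, fun n => ?_⟩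
        have h2 := (h1 (Nat.pair k n + n + 1)).2 n (by rw [res_length]; omega)
          (by rw [res_length]; omega)
        rwa [patchL_res fun x hx => by
          have := Nat.pair_lt_pair_right k hx
          omega] at h2
  · obtain ⟨d0, hd0⟩ := h.ne
    let d : ℕ → ℕ := fun j => if j.unpair.1 = k ∧ δ.length ≤ j then w j.unpair.2 else d0 j
    have h1 : ∀ x, patch k (res w δ.length) d x = w x := by
      intro x
      unfold patch ovr
      rw [res_length]
      split_ifs with h2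
      · exact gt_res w h2
      · have h3 : x ≤ Nat.pair k x := Nat.right_le_pair k x
        show (if (Nat.pair k x).unpair.1 = k ∧ δ.length ≤ Nat.pair k x then
          w (Nat.pair k x).unpair.2 else _) = _
        rw [if_pos ⟨by rw [Nat.unpair_pair], by omega⟩, Nat.unpair_pair]
    refine ⟨d, h.free d0 d hd0 ?_ ?_, fun n => ?_⟩
    · refine below_ext (h.sub d0 hd0) fun i hi => ?_
      show (if _ then _ else _) = _
      rw [if_neg (by omega)]
    · intro j hj
      show (if _ then _ else _) = _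
      rw [if_neg (by omega)]
    · have h2 : patch k (res w δ.length) d = w := funext h1
      rw [h2]
      exact hw n
  · rintro d d' ⟨h1, h2⟩ h3 h4
    refine ⟨h.free d d' h1 h3 fun j hj => h4 j (by omega), fun n => ?_⟩
    have h5 : patch k (res w δ.length) d' = patch k (res w δ.length) d := by
      funext x
      have h6 : d' (Nat.pair k x) = d (Nat.pair k x) := h4 _ (by
        rw [Nat.unpair_pair]
        exact Nat.lt_succ_self k)
      unfold patch ovr
      simp only [h6]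
    rw [h5]
    exact h2 n

/-- no extension of `δ'` that agrees with `d` in the columns before `k` satisfies `Φ` -/
def Blk (Φ : ℕ × List ℕ × ℕ → Prop) (k u : ℕ) (δ' : List ℕ) (q : ℕ) (d : ℕ → ℕ) : Prop :=
  ∀ σ : List ℕ, δ' <+: σ →
    (∀ j < σ.length, δ'.length ≤ j → j.unpair.1 < k → gt σ j = d j) → ¬ Φ (u, σ, q)

variable {Φ : ℕ × List ℕ × ℕ → Prop}

/-- the finite version of `Blk` -/
def BlkL (Φ : ℕ × List ℕ × ℕ → Prop) (k u : ℕ) (δ' : List ℕ) (q : ℕ) (τ : List ℕ) : Prop :=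
  ∀ c < τ.length, (ofNat (List ℕ) c).length ≤ τ.length → δ' <+: ofNat (List ℕ) c →
    (∀ j < (ofNat (List ℕ) c).length, δ'.length ≤ j → j.unpair.1 < k →
      gt (ofNat (List ℕ) c) j = gt τ j) → ¬ Φ (u, ofNat (List ℕ) c, q)

theorem blk_iff {k u : ℕ} {δ' : List ℕ} {q : ℕ} {d : ℕ → ℕ} : Blk Φ k u δ' q d ↔
    ∀ n, BlkL Φ k u δ' q (res d n) := by
  constructor
  · intro h n c _ h2 h3 h4
    rw [res_length] at h2
    refine h _ h3 fun j h5 h6 h7 => ?_
    rw [h4 j h5 h6 h7]
    exact gt_res d (by omega)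
  · intro h σ h1 h2
    have h3 := h (encode σ + σ.length + 1) (encode σ) (by rw [res_length]; omega)
    rw [ofNat_encode, res_length] at h3
    refine h3 (by omega) h1 fun j h4 h5 h6 => ?_
    rw [h2 j h4 h5 h6, gt_res d (by omega)]

theorem p_blkL (hΦ : ComputablePred Φ) {k : ℕ} {α : Type} [Primcodable α] {u q : α → ℕ}
    {δ' τ : α → List ℕ} (hu : Computable u) (hq : Computable q) (hδ : Computable δ')
    (hτ : Computable τ) : ComputablePred fun a => BlkL Φ k (u a) (δ' a) (q a) (τ a) := by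
  have hc : Computable fun s : α × ℕ => ofNat (List ℕ) s.2 :=
    (Computable.ofNat (List ℕ)).comp Computable.snd
  have hc2 : Computable fun s : (α × ℕ) × ℕ => ofNat (List ℕ) s.1.2 :=
    (Computable.ofNat (List ℕ)).comp (c_snd (c_fst c_id))
  refine p_ball (P := fun a c => (ofNat (List ℕ) c).length ≤ (τ a).length →
    δ' a <+: ofNat (List ℕ) c → (∀ j < (ofNat (List ℕ) c).length, (δ' a).length ≤ j →
      j.unpair.1 < k → gt (ofNat (List ℕ) c) j = gt (τ a) j) → ¬ Φ (u a, ofNat (List ℕ) c, q a))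
    (c_llen hτ) ?_
  refine p_imp (p_le (c_llen hc) (c_llen (hτ.comp Computable.fst))) (p_imp
    (p_pre (hδ.comp Computable.fst) hc) (p_imp ?_ (p_not (computablePred_comp hΦ
      (c_pair (hu.comp Computable.fst) (c_pair hc (hq.comp Computable.fst)))))))
  refine p_ball (α := α × ℕ) (f := fun s => (ofNat (List ℕ) s.2).length)
    (P := fun s j => (δ' s.1).length ≤ j → j.unpair.1 < k →
      gt (ofNat (List ℕ) s.2) j = gt (τ s.1) j) (c_llen hc) ?_
  exact p_imp (p_le (c_llen (hδ.comp (c_fst (c_fst c_id)))) (c_snd c_id))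
    (p_imp (p_lt (c_up1 (c_snd c_id)) (c_const k)) (p_eq (c_gt hc2 (c_snd c_id))
      (c_gt (hτ.comp (c_fst (c_fst c_id))) (c_snd c_id))))

theorem Blk.extend {k u : ℕ} {q : ℕ} {d : ℕ → ℕ} {m m' : ℕ} (h : m ≤ m')
    (hB : Blk Φ k u (res d m) q d) : Blk Φ k u (res d m') q d := by
  intro σ h1 h2
  refine hB σ ((res_pre d h).trans h1) fun j h3 h4 h5 => ?_
  by_cases h6 : j < m'
  · rw [gt_pre h1 (by rw [res_length]; exact h6), gt_res d h6]
  · exact h2 j h3 (by rw [res_length]; omega) h5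

/-- the sets of indices below a condition are `Σ¹₁` -/
theorem sigma_blk {k : ℕ} {R : List ℕ → Prop} (hR : ComputablePred R)
    (hΦ : ComputablePred Φ) : Sigma11 fun u : ℕ => ∃ d : ℕ → ℕ, ∃ m q, (∀ n, R (res d n)) ∧
      Blk Φ k u (res d m) q d := by
  have h1 : Sigma11 fun p : ℕ × ℕ × ℕ => ∃ d : ℕ → ℕ, (∀ n, R (res d n)) ∧
      Blk Φ k p.1 (res d p.2.1) p.2.2 d := by
    refine ⟨fun s => R s.2 ∧ (s.1.2.1 ≤ s.2.length →
      BlkL Φ k s.1.1 (tk s.2 s.1.2.1) s.1.2.2 s.2), ?_, fun p => ?_⟩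
    · exact p_and (computablePred_comp hR (c_snd c_id)) (p_imp
        (p_le (c_fst (c_snd (c_fst c_id))) (c_llen (c_snd c_id)))
        (p_blkL hΦ (c_fst (c_fst c_id)) (c_snd (c_snd (c_fst c_id)))
          (c_tk (c_snd c_id) (c_fst (c_snd (c_fst c_id)))) (c_snd c_id)))
    · refine exists_congr fun d => ?_
      rw [blk_iff]
      constructor
      · rintro ⟨h2, h3⟩ n
        refine ⟨h2 n, fun h4 => ?_⟩
        have h4' : p.2.1 ≤ n := by simpa using h4
        have h5 : tk (res d n) p.2.1 = res d p.2.1 := tk_res d h4'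
        show BlkL Φ k p.1 (tk (res d n) p.2.1) p.2.2 (res d n)
        rw [h5]
        exact h3 n
      · intro h2
        have h6 : ∀ n, R (res d n) := fun n => (h2 n).1
        refine ⟨h6, fun n => ?_⟩
        have h3 := (h2 (n + p.2.1)).2 (by simp)
        have h5 : tk (res d (n + p.2.1)) p.2.1 = res d p.2.1 := tk_res d (by omega)
        have h3' : BlkL Φ k p.1 (tk (res d (n + p.2.1)) p.2.1) p.2.2 (res d (n + p.2.1)) := h3
        rw [h5] at h3'
        intro c h7 h8 h9 h10
        rw [res_length] at h7 h8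
        refine h3' c (by rw [res_length]; omega) (by rw [res_length]; omega) h9 fun j h11 h12 h13 => ?_
        rw [h10 j h11 h12 h13, gt_res d (by omega), gt_res d (by omega)]
  have h2 : Sigma11 fun p : (ℕ × ℕ) × ℕ => ∃ d : ℕ → ℕ, (∀ n, R (res d n)) ∧
      Blk Φ k p.1.1 (res d p.1.2) p.2 d :=
    h1.comp (f := fun p : (ℕ × ℕ) × ℕ => (p.1.1, p.1.2, p.2))
      (c_pair (c_fst (c_fst c_id)) (c_pair (c_snd (c_fst c_id)) (c_snd c_id)))
  refine (h2.ex.ex).of_iff fun u => ?_
  constructor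
  · rintro ⟨d, m, q, h3, h4⟩
    exact ⟨m, q, d, h3, h4⟩
  · rintro ⟨m, q, d, h3, h4⟩
    exact ⟨d, m, q, h3, h4⟩

/-- a generic function -/
theorem exists_gen2 {G : List ℕ → Prop} {Ψ : List ℕ → ℕ → Prop} (h0 : ∃ σ, G σ)
    (h : ∀ σ, G σ → ∀ q, ∃ σ', G σ' ∧ σ <+: σ' ∧ σ.length < σ'.length ∧ Ψ σ' q) :
    ∃ d : ℕ → ℕ, ∀ q, ∃ n, Ψ (res d n) q := by
  obtain ⟨σ0, h0⟩ := h0
  have h' : ∀ (s : {σ // G σ}) (q : ℕ), ∃ t : {σ // G σ}, s.1 <+: t.1 ∧
      s.1.length < t.1.length ∧ Ψ t.1 q := fun s q => by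
    obtain ⟨t, h1, h2, h3, h4⟩ := h s.1 s.2 q
    exact ⟨⟨t, h1⟩, h2, h3, h4⟩
  choose st hst1 hst2 hst3 using h'
  let sq : ℕ → {σ // G σ} := fun n => Nat.rec ⟨σ0, h0⟩ (fun n s => st s n) n
  have hsq : ∀ n, sq (n + 1) = st (sq n) n := fun n => rfl
  have hlen : ∀ n, n ≤ (sq n).1.length := by
    intro n
    induction n with
    | zero => omega
    | succ n ih =>
      have := hst2 (sq n) n
      rw [← hsq] at this
      omega
  have hpre : ∀ m n, m ≤ n → (sq m).1 <+: (sq n).1 := by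
    intro m n hmn
    obtain ⟨k, rfl⟩ := Nat.exists_eq_add_of_le hmn
    induction k with
    | zero => exact List.prefix_rfl
    | succ k ih =>
      refine (ih (by omega)).trans ?_
      rw [← add_assoc, hsq]
      exact hst1 _ _
  let d : ℕ → ℕ := fun i => gt (sq (i + 1)).1 i
  have hb : ∀ n, Below (sq n).1 d := by
    intro n
    rw [below_iff]
    intro i hi
    show gt (sq (i + 1)).1 i = _
    rcases le_total (i + 1) n with h1 | h1
    · have h2 : i < (sq (i + 1)).1.length := by have := hlen (i + 1); omega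
      exact (gt_pre (hpre _ _ h1) h2).symm
    · exact gt_pre (hpre _ _ h1) hi
  refine ⟨d, fun q => ⟨(sq (q + 1)).1.length, ?_⟩⟩
  rw [hb (q + 1), hsq]
  exact hst3 _ _

/-- the step of the construction that defeats a functional -/
theorem Cond.avoid {k : ℕ} {δ : List ℕ} {P : (ℕ → ℕ) → Prop} (h : Cond k δ P)
    (hΦ : ComputablePred Φ) {X : ℕ → Prop}
    (hX : ∀ (u : ℕ) (d : ℕ → ℕ), (∀ q, ∃ n, Φ (u, res d n, q)) → X u)
    (hns : ¬ Sigma11 fun u => ¬ X u) : ∃ δ' P', Cond k δ' P' ∧ (∀ d, P' d → P d) ∧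
      δ.length < δ'.length ∧
      ∃ u q, X u ∧ ∀ d, P' d → ∀ n, δ'.length ≤ n → ¬ Φ (u, res d n, q) := by
  obtain ⟨R, hR, hR2⟩ := h.pi
  have h1 : ∀ u, ¬ X u → ∃ d : ℕ → ℕ, ∃ m q, (∀ n, R (res d n)) ∧ Blk Φ k u (res d m) q d := by
    intro u hu
    by_contra hc
    apply hu
    obtain ⟨d, hd⟩ := exists_gen2 (G := fun σ => ∃ d, P d ∧ Below σ d)
      (Ψ := fun σ q => Φ (u, σ, q)) (by
        obtain ⟨d, hd⟩ := h.ne
        exact ⟨[], d, hd, rfl⟩) (by
        rintro σ ⟨d, hd, hb⟩ q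
        have h2 : ¬ Blk Φ k u (res d (max (σ.length + 1) δ.length)) q d := fun h2 =>
          hc ⟨d, _, q, (hR2 d).1 hd, h2⟩
        unfold Blk at h2
        push Not at h2
        obtain ⟨σ', h3, h4, h5⟩ := h2
        have h6 : max (σ.length + 1) δ.length ≤ σ'.length := by
          have := h3.length_le
          rwa [res_length] at this
        refine ⟨σ', ⟨ovr σ' d, h.free d _ hd ?_ ?_, below_ovr _ _⟩, ?_, by omega, h5⟩
        · refine below_ext (h.sub d hd) fun i hi => ?_
          rw [(below_ovr σ' d).gt (by omega), gt_pre h3 (by rw [res_length]; omega),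
            gt_res d (by omega)]
        · intro j hj
          by_cases h7 : j < σ'.length
          · rw [(below_ovr σ' d).gt h7]
            by_cases h8 : j < max (σ.length + 1) δ.length
            · rw [gt_pre h3 (by rw [res_length]; exact h8), gt_res d h8]
            · exact h4 j h7 (by rw [res_length]; omega) hj
          · exact ovr_ge (by omega)
        · exact (hb.pre (by omega)).trans h3)
    exact hX u d hd
  have h2 : ∃ u, X u ∧ ∃ d : ℕ → ℕ, ∃ m q, (∀ n, R (res d n)) ∧ Blk Φ k u (res d m) q d := by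
    by_contra hc
    apply hns
    refine (sigma_blk (k := k) hR hΦ).of_iff fun u => ⟨h1 u, fun h3 h4 => hc ⟨u, h4, h3⟩⟩
  obtain ⟨u, hu, d, m, q, h3, h4⟩ := h2
  have hPd : P d := (hR2 d).2 h3
  have h5 : Blk Φ k u (res d (max m (δ.length + 1))) q d := h4.extend (le_max_left _ _)
  refine ⟨res d (max m (δ.length + 1)), fun d1 => P d1 ∧ Below (res d (max m (δ.length + 1))) d1 ∧
    Blk Φ k u (res d (max m (δ.length + 1))) q d1, ?_, fun d1 h6 => h6.1,
    by rw [res_length]; omega, u, q, hu, ?_⟩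
  · set δ' := res d (max m (δ.length + 1)) with hδ'
    have hl : δ'.length = max m (δ.length + 1) := res_length _ _
    refine ⟨?_, ⟨d, hPd, below_res _ _, h5⟩, fun d1 h6 => h6.2.1, ?_⟩
    · refine ⟨fun σ => R σ ∧ (∀ i < δ'.length, i < σ.length → gt σ i = gt δ' i) ∧
        BlkL Φ k u δ' q σ, ?_, fun d1 => ?_⟩
      · refine p_and hR (p_and ?_ (p_blkL hΦ (c_const _) (c_const _) (c_const _) c_id))
        refine p_ball (P := fun σ i => i < σ.length → gt σ i = gt δ' i) (c_const _) ?_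
        exact p_imp (p_lt (c_snd c_id) (c_llen (c_fst c_id)))
          (p_eq (c_gt (c_fst c_id) (c_snd c_id)) (c_gt (c_const _) (c_snd c_id)))
      · rw [hR2, blk_iff, below_iff]
        constructor
        · rintro ⟨h6, h7, h8⟩ n
          refine ⟨h6 n, fun i hi hi2 => ?_, h8 n⟩
          rw [res_length] at hi2
          rw [gt_res d1 hi2]
          exact h7 i hi
        · intro h6
          refine ⟨fun n => (h6 n).1, fun i hi => ?_, fun n => (h6 n).2.2⟩
          have h7 := (h6 (i + 1)).2.1 i hi (by rw [res_length]; omega)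
          rwa [gt_res d1 (by omega)] at h7
    · rintro d1 d2 ⟨h6, h7, h8⟩ h9 h10
      refine ⟨h.free d1 d2 h6 ?_ h10, h9, ?_⟩
      · refine below_ext (h.sub d1 h6) fun i hi => ?_
        rw [h9.gt (by omega), h7.gt (by omega)]
      · intro σ h11 h12
        refine h8 σ h11 fun j h13 h14 h15 => ?_
        rw [h12 j h13 h14 h15, h10 j h15]
  · rintro d1 ⟨h6, h7, h8⟩ n hn
    refine h8 (res d1 n) (h7.pre hn) fun j h9 h10 h11 => ?_
    rw [res_length] at h9
    exact gt_res d1 h9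

/-- The generic function. -/
theorem exists_generic {X : ℕ → Prop} (hns : ¬ Sigma11 fun u => ¬ X u)
    (S : ℕ → List ℕ → Prop) (hS : ∀ n, ComputablePred (S n))
    (hw : ∀ n, ∃ w : ℕ → ℕ, ∀ m, S n (res w m))
    (F : ℕ → ℕ × List ℕ × ℕ → Prop) (hF : ∀ n, ComputablePred (F n))
    (hX : ∀ (n u : ℕ) (d : ℕ → ℕ), (∀ q, ∃ m, F n (u, res d m, q)) → X u) :
    ∃ d : ℕ → ℕ, (∀ n, ∃ k, ∃ τ : List ℕ, ∀ m, S n (res (patch k τ d) m)) ∧
      ∀ n, ∃ u q N, X u ∧ ∀ m, N ≤ m → ¬ F n (u, res d m, q) := by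
  have step : ∀ (s : ℕ × List ℕ × ((ℕ → ℕ) → Prop)) (n : ℕ), Cond s.1 s.2.1 s.2.2 →
      ∃ t : ℕ × List ℕ × ((ℕ → ℕ) → Prop), Cond t.1 t.2.1 t.2.2 ∧ (∀ d, t.2.2 d → s.2.2 d) ∧
      s.2.1.length < t.2.1.length ∧
      (∃ k, ∃ τ : List ℕ, ∀ d, t.2.2 d → ∀ m, S n (res (patch k τ d) m)) ∧
      ∃ u q N, X u ∧ ∀ d, t.2.2 d → ∀ m, N ≤ m → ¬ F n (u, res d m, q) := by
    rintro ⟨k, δ, P⟩ n hs
    obtain ⟨P1, h1, h2, τ, h3⟩ := Cond.add hs (hS n) (hw n)
    obtain ⟨δ', P2, h4, h5, h6, u, q, h7, h8⟩ := Cond.avoid h1 (hF n) (hX n) hns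
    exact ⟨(k + 1, δ', P2), h4, fun d hd => h2 d (h5 d hd), h6,
      ⟨k, τ, fun d hd => h3 d (h5 d hd)⟩, u, q, δ'.length, h7, h8⟩
  have step' : ∀ (s : {s : ℕ × List ℕ × ((ℕ → ℕ) → Prop) // Cond s.1 s.2.1 s.2.2}) (n : ℕ),
      ∃ t : {s : ℕ × List ℕ × ((ℕ → ℕ) → Prop) // Cond s.1 s.2.1 s.2.2},
      (∀ d, t.1.2.2 d → s.1.2.2 d) ∧ s.1.2.1.length < t.1.2.1.length ∧
      (∃ k, ∃ τ : List ℕ, ∀ d, t.1.2.2 d → ∀ m, S n (res (patch k τ d) m)) ∧
      ∃ u q N, X u ∧ ∀ d, t.1.2.2 d → ∀ m, N ≤ m → ¬ F n (u, res d m, q) := fun s n => by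
    obtain ⟨t, h1, h2⟩ := step s.1 n s.2
    exact ⟨⟨t, h1⟩, h2⟩
  choose st h1 h2 h3 h4 using step'
  let sq : ℕ → {s : ℕ × List ℕ × ((ℕ → ℕ) → Prop) // Cond s.1 s.2.1 s.2.2} :=
    fun n => Nat.rec ⟨(0, [], fun _ => True), cond_true⟩ (fun n s => st s n) n
  have hsq : ∀ n, sq (n + 1) = st (sq n) n := fun n => rfl
  have hlen : ∀ n, n ≤ (sq n).1.2.1.length := by
    intro n
    induction n with
    | zero => omega
    | succ n ih =>
      have := h2 (sq n) n
      rw [← hsq] at this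
      omega
  have hsub : ∀ m n, m ≤ n → ∀ d, (sq n).1.2.2 d → (sq m).1.2.2 d := by
    intro m n hmn
    obtain ⟨k, rfl⟩ := Nat.exists_eq_add_of_le hmn
    induction k with
    | zero => exact fun d hd => hd
    | succ k ih =>
      intro d hd
      rw [← add_assoc, hsq] at hd
      exact ih (by omega) d (h1 _ _ d hd)
  have hpre : ∀ m n, m ≤ n → (sq m).1.2.1 <+: (sq n).1.2.1 := by
    intro m n hmn
    obtain ⟨d, hd⟩ := (sq n).2.ne
    have h5 := (sq n).2.sub d hd
    have h6 := (sq m).2.sub d (hsub m n hmn d hd)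
    have h7 : (sq m).1.2.1.length ≤ (sq n).1.2.1.length := by
      clear hd h5 h6
      obtain ⟨k, rfl⟩ := Nat.exists_eq_add_of_le hmn
      induction k with
      | zero => exact le_refl _
      | succ k ih =>
        have h8 := ih (by omega)
        have h9 := h2 (sq (m + k)) (m + k)
        rw [← hsq] at h9
        rw [← add_assoc]
        omega
    have := h6.pre h7
    rwa [h5] at this
  let d : ℕ → ℕ := fun i => gt (sq (i + 1)).1.2.1 i
  have hb : ∀ n, Below (sq n).1.2.1 d := by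
    intro n
    rw [below_iff]
    intro i hi
    show gt (sq (i + 1)).1.2.1 i = _
    rcases le_total (i + 1) n with h5 | h5
    · have h6 : i < (sq (i + 1)).1.2.1.length := by have := hlen (i + 1); omega
      exact (gt_pre (hpre _ _ h5) h6).symm
    · exact gt_pre (hpre _ _ h5) hi
  have hmem : ∀ n, (sq n).1.2.2 d := by
    intro n
    obtain ⟨R, _, hR⟩ := (sq n).2.pi
    rw [hR]
    intro m
    obtain ⟨d1, hd1⟩ := (sq (n + m)).2.ne
    have h5 := (hR d1).1 (hsub n (n + m) (by omega) d1 hd1) m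
    have h6 := (sq (n + m)).2.sub d1 hd1
    have h7 : res d m = res d1 m := by
      refine ext_gt (by rw [res_length, res_length]) fun i hi => ?_
      rw [res_length] at hi
      have h8 := hlen (n + m)
      rw [gt_res d hi, gt_res d1 hi, (hb (n + m)).gt (by omega), h6.gt (by omega)]
    rw [h7]
    exact h5
  refine ⟨d, fun n => ?_, fun n => ?_⟩
  · obtain ⟨k, τ, h5⟩ := h3 (sq n) n
    exact ⟨k, τ, h5 d (hmem (n + 1))⟩
  · obtain ⟨u, q, N, h5, h6⟩ := h4 (sq n) n
    exact ⟨u, q, N, h5, h6 d (hmem (n + 1))⟩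

end Pool.Agent.R621.HS
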