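import Mathlib
import Pool.Agent.R621.HS.Ban1
import Pool.Agent.R621.HS.Cls
import Pool.Agent.R621.HS.GForm
import Pool.Agent.Helper941.Hyp.Fin39
import Pool.Agent.Helper760.OracleNF

/-!
# Uniform categoricity and uniform categoricity within computable families
-/

set_option autoImplicit false
set_option maxHeartbeats 400000

namespace Pool.Agent.R621.HS

open Encodable Denumerable Nat.Partrec Pool.Agent.Helper941 Pool.Agent.Helper941.IsoProb
open Pool.Agent.Helper941.Zeta Pool.Agent.Helper941.Dim Pool.Agent.Helper941.Hyp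

/-- The atomic diagram of `B`, as a set of natural numbers: the pair `⟨0, ⟨x, x⟩⟩` belongs to it
for every `x` in the universe, and the pair `⟨i + 1, ⟨x, y⟩⟩` belongs to it when `x` and `y` are in
the universe and `R_i(x, y)` holds. -/
def ADiag (B : SStr) (n : ℕ) : Prop :=
  (∃ x, B.U x ∧ n = Nat.pair 0 (Nat.pair x x)) ∨
  ∃ i x y, B.U x ∧ B.U y ∧ B.R i x y ∧ n = Nat.pair (i + 1) (Nat.pair x y)

/-- The partial computable function with index `e` is the characteristic function of the atomic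
diagram of `B`. -/
def DiagIndex (e : ℕ) (B : SStr) : Prop :=
  ∀ n, (ADiag B n → Code.eval (ofNat Code e) n = Part.some 1) ∧
    (¬ ADiag B n → Code.eval (ofNat Code e) n = Part.some 0)

theorem adiag_U {B : SStr} {x : ℕ} : ADiag B (Nat.pair 0 (Nat.pair x x)) ↔ B.U x := by
  constructor
  · rintro (⟨y, hy, h⟩ | ⟨i, x, y, _, _, _, h⟩)
    · have h1 := (Nat.pair_eq_pair.1 (Nat.pair_eq_pair.1 h).2).1
      rw [h1]; exact hy
    · have := (Nat.pair_eq_pair.1 h).1
      omega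
  · intro h
    exact Or.inl ⟨x, h, rfl⟩

theorem adiag_R {B : SStr} {i x y : ℕ} : ADiag B (Nat.pair (i + 1) (Nat.pair x y)) ↔
    B.U x ∧ B.U y ∧ B.R i x y := by
  constructor
  · rintro (⟨z, hz, h⟩ | ⟨j, z, w, h1, h2, h3, h⟩)
    · have := (Nat.pair_eq_pair.1 h).1
      omega
    · obtain ⟨h4, h5⟩ := Nat.pair_eq_pair.1 h
      obtain ⟨h6, h7⟩ := Nat.pair_eq_pair.1 h5
      have h8 : i = j := by omega
      subst h6 h7 h8
      exact ⟨h1, h2, h3⟩
  · rintro ⟨h1, h2, h3⟩
    exact Or.inr ⟨i, x, y, h1, h2, h3, rfl⟩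

/-- uniformly computable families of structures have computable indices -/
theorem exists_dindex {β : Type} [Primcodable β] {M : β → Str}
    (hM : ComputablePred fun q : β × ℕ × ℕ × ℕ => M q.1 q.2.1 q.2.2.1 q.2.2.2) :
    ∃ g : β → ℕ, Computable g ∧ ∀ b, DiagIndex (g b) (full (M b)) := by
  classical
  have hD : ComputablePred fun p : β × ℕ => ADiag (full (M p.1)) p.2 := by
    have h1 : ComputablePred fun p : β × ℕ =>
        (p.2.unpair.1 = 0 ∧ p.2.unpair.2.unpair.1 = p.2.unpair.2.unpair.2) ∨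
        (¬ p.2.unpair.1 = 0 ∧ M p.1 (p.2.unpair.1 - 1) p.2.unpair.2.unpair.1
          p.2.unpair.2.unpair.2) := by
      have h0 : ComputablePred fun p : β × ℕ => p.2.unpair.1 = 0 :=
        p_eq (c_up1 (c_snd c_id)) (c_const 0)
      have ha : Computable fun p : β × ℕ => p.2.unpair.2.unpair.1 := c_up1 (c_up2 (c_snd c_id))
      have hb : Computable fun p : β × ℕ => p.2.unpair.2.unpair.2 := c_up2 (c_up2 (c_snd c_id))
      exact p_or (p_and h0 (p_eq ha hb)) (p_and (p_not h0) (computablePred_comp hM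
        (c_pair (c_fst c_id) (c_pair (c_sub (c_up1 (c_snd c_id)) (c_const 1)) (c_pair ha hb)))))
    refine h1.of_eq fun p => ?_
    obtain ⟨b, n⟩ := p
    obtain ⟨i, x, y, rfl⟩ : ∃ i x y, n = Nat.pair i (Nat.pair x y) :=
      ⟨n.unpair.1, n.unpair.2.unpair.1, n.unpair.2.unpair.2, by
        rw [Nat.pair_unpair, Nat.pair_unpair]⟩
    simp only [Nat.unpair_pair]
    cases i with
    | zero =>
      constructor
      · rintro (⟨_, h⟩ | ⟨h, _⟩)
        · subst h
          exact adiag_U.2 trivial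
        · exact (h rfl).elim
      · rintro (⟨z, _, h⟩ | ⟨j, z, w, _, _, _, h⟩)
        · obtain ⟨h6, h7⟩ := Nat.pair_eq_pair.1 (Nat.pair_eq_pair.1 h).2
          exact Or.inl ⟨rfl, by rw [h6, h7]⟩
        · have := (Nat.pair_eq_pair.1 h).1
          omega
    | succ i =>
      rw [adiag_R]
      simp [full]
  have hf : Computable fun p : β × ℕ => if ADiag (full (M p.1)) p.2 then 1 else 0 :=
    c_ite hD (c_const 1) (c_const 0)
  obtain ⟨c, hc⟩ := Code.exists_code.1 hf.partrec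
  refine ⟨fun b => encode (Code.curry c (encode b)), ?_, fun b x => ?_⟩
  · exact Computable.encode.comp ((Code.primrec₂_curry.to_comp).comp (c_const c)
      Computable.encode)
  · have h1 : Code.eval (ofNat Code (encode (Code.curry c (encode b)))) x =
        Part.some (if ADiag (full (M b)) x then 1 else 0) := by
      rw [ofNat_encode, Code.eval_curry, hc]
      have : decode (α := β × ℕ) (Nat.pair (encode b) x) = some (b, x) := by
        have h2 : Nat.pair (encode b) x = encode (b, x) := rfl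
        rw [h2, encodek]
      simp [this]
    rw [h1]
    constructor
    · intro h
      rw [if_pos h]
    · intro h
      rw [if_neg h]

/-- the members of a computable family have uniformly computable diagrams -/
theorem p_diag {c : ℕ → ℕ} (hc : Computable c) {B : ℕ → SStr} (hB : ∀ i, DiagIndex (c i) (B i)) :
    ComputablePred fun p : ℕ × ℕ => ADiag (B p.1) p.2 := by
  classical
  have h1 : Partrec fun p : ℕ × ℕ => Code.eval (ofNat Code (c p.1)) p.2 := by
    have h2 : Partrec₂ Code.eval := Code.eval_part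
    exact h2.comp ((Computable.ofNat Code).comp (hc.comp Computable.fst)) Computable.snd
  have h2 : Computable fun p : ℕ × ℕ => if ADiag (B p.1) p.2 then 1 else 0 := by
    refine h1.of_eq fun p => ?_
    show Code.eval (ofNat Code (c p.1)) p.2 = Part.some (if ADiag (B p.1) p.2 then 1 else 0)
    by_cases h : ADiag (B p.1) p.2
    · rw [if_pos h]
      exact (hB p.1 p.2).1 h
    · rw [if_neg h]
      exact (hB p.1 p.2).2 h
  refine (p_eq h2 (c_const 1)).of_eq fun p => ?_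
  by_cases h : ADiag (B p.1) p.2 <;> simp [h]

/-! ### solutions for computable families -/

/-- the map coded by `w` from `A` to the structure number `i` -/
def hh (w : ℕ → ℕ) (i x : ℕ) : ℕ := (w (Nat.pair i x)).unpair.1

/-- the inverse map coded by `w` -/
def hi (w : ℕ → ℕ) (i x : ℕ) : ℕ := (w (Nat.pair i x)).unpair.2

/-- `w` codes isomorphisms from `A` onto the members of the family together with their inverses -/
def Sol (A : Str) (B : ℕ → SStr) (w : ℕ → ℕ) : Prop :=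
  ∀ i x, (B i).U (hh w i x) ∧ hi w i (hh w i x) = x ∧
    ((B i).U x → hh w i (hi w i x) = x) ∧
    ∀ y k, A k x y ↔ (B i).R k (hh w i x) (hh w i y)

theorem Sol.iso {A : Str} {B : ℕ → SStr} {w : ℕ → ℕ} (h : Sol A B w) (i : ℕ) :
    IsoMap (full A) (B i) (hh w i) where
  maps := fun x _ => (h i x).1
  inj := fun x y _ _ e => by rw [← (h i x).2.1, e, (h i y).2.1]
  surj := fun y hy => ⟨hi w i y, trivial, (h i y).2.2.1 hy⟩
  rel := fun k x y _ _ => (h i x).2.2.2 y k

theorem exists_sol {A : Str} {B : ℕ → SStr} (h : ∀ i, ∃ f, IsoMap (full A) (B i) f) :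
    ∃ w, Sol A B w := by
  classical
  choose f hf using h
  have h1 : ∀ i y, ∃ x, (B i).U y → f i x = y := by
    intro i y
    by_cases hy : (B i).U y
    · obtain ⟨x, _, hx⟩ := (hf i).surj y hy
      exact ⟨x, fun _ => hx⟩
    · exact ⟨0, fun h => (hy h).elim⟩
  choose g hg using h1
  refine ⟨fun n => Nat.pair (f n.unpair.1 n.unpair.2) (g n.unpair.1 n.unpair.2), fun i x => ?_⟩
  unfold hh hi
  simp only [Nat.unpair_pair]
  refine ⟨(hf i).maps x trivial, ?_, hg i x, fun y k => (hf i).rel k x y trivial trivial⟩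
  exact (hf i).inj _ _ trivial trivial (hg i _ ((hf i).maps x trivial))

/-- the finite version -/
def SolL (A : Str) (B : ℕ → SStr) (σ : List ℕ) : Prop :=
  ∀ i < σ.length, ∀ x < σ.length, Nat.pair i x < σ.length →
    ((B i).U (gt σ (Nat.pair i x)).unpair.1 ∧
    (Nat.pair i (gt σ (Nat.pair i x)).unpair.1 < σ.length →
      (gt σ (Nat.pair i (gt σ (Nat.pair i x)).unpair.1)).unpair.2 = x) ∧
    (Nat.pair i (gt σ (Nat.pair i x)).unpair.2 < σ.length → (B i).U x →
      (gt σ (Nat.pair i (gt σ (Nat.pair i x)).unpair.2)).unpair.1 = x)) ∧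
    ∀ y < σ.length, ∀ k < σ.length, Nat.pair i y < σ.length →
      (A k x y ↔ (B i).U (gt σ (Nat.pair i x)).unpair.1 ∧ (B i).U (gt σ (Nat.pair i y)).unpair.1 ∧
        (B i).R k (gt σ (Nat.pair i x)).unpair.1 (gt σ (Nat.pair i y)).unpair.1)

theorem sol_iff {A : Str} {B : ℕ → SStr} {w : ℕ → ℕ} : Sol A B w ↔ ∀ n, SolL A B (res w n) := by
  constructor
  · intro h n i _ x _ h3
    rw [res_length] at h3
    rw [res_length, gt_res w h3]
    refine ⟨⟨(h i x).1, fun h4 => ?_, fun h4 h5 => ?_⟩, fun y _ k _ h4 => ?_⟩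
    · rw [gt_res w h4]
      exact (h i x).2.1
    · rw [gt_res w h4]
      exact (h i x).2.2.1 h5
    · rw [gt_res w h4]
      constructor
      · intro h5
        exact ⟨(h i x).1, (h i y).1, ((h i x).2.2.2 y k).1 h5⟩
      · intro h5
        exact ((h i x).2.2.2 y k).2 h5.2.2
  · intro h i x
    have hix : i ≤ Nat.pair i x := Nat.left_le_pair i x
    have hxx : x ≤ Nat.pair i x := Nat.right_le_pair i x
    refine ⟨?_, ?_, fun h5 => ?_, fun y k => ?_⟩
    · have h1 := (h (Nat.pair i x + 1) i (by rw [res_length]; omega) x (by rw [res_length]; omega)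
        (by rw [res_length]; omega)).1.1
      rwa [gt_res w (by omega)] at h1
    · have h1 := (h (Nat.pair i x + Nat.pair i (hh w i x) + 1) i (by rw [res_length]; omega) x
        (by rw [res_length]; omega) (by rw [res_length]; omega)).1.2.1
      rw [gt_res w (by omega), res_length] at h1
      have h2 := h1 (by unfold hh; omega)
      rwa [gt_res w (by unfold hh; omega)] at h2
    · have h1 := (h (Nat.pair i x + Nat.pair i (hi w i x) + 1) i (by rw [res_length]; omega) x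
        (by rw [res_length]; omega) (by rw [res_length]; omega)).1.2.2
      rw [gt_res w (by omega), res_length] at h1
      have h2 := h1 (by unfold hi; omega) h5
      rwa [gt_res w (by unfold hi; omega)] at h2
    · have h1 := h (Nat.pair i x + Nat.pair i y + k + 1) i (by rw [res_length]; omega) x
        (by rw [res_length]; omega) (by rw [res_length]; omega)
      have hyy : y ≤ Nat.pair i y := Nat.right_le_pair i y
      have hiy : i ≤ Nat.pair i y := Nat.left_le_pair i y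
      have h2 := h1.2 y (by rw [res_length]; omega) k (by rw [res_length]; omega)
        (by rw [res_length]; omega)
      have h3 := h1.1.1
      have h4 := (h (Nat.pair i y + 1) i (by rw [res_length]; omega) y (by rw [res_length]; omega)
        (by rw [res_length]; omega)).1.1
      rw [gt_res w (show Nat.pair i y < Nat.pair i y + 1 by omega)] at h4
      rw [gt_res w (show Nat.pair i x < Nat.pair i x + Nat.pair i y + k + 1 by omega)] at h3
      rw [gt_res w (show Nat.pair i x < Nat.pair i x + Nat.pair i y + k + 1 by omega),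
        gt_res w (show Nat.pair i y < Nat.pair i x + Nat.pair i y + k + 1 by omega)] at h2
      rw [h2]
      unfold hh
      tauto

theorem p_solL {A : Str} (hA : IsComp A) {B : ℕ → SStr}
    (hB : ComputablePred fun p : ℕ × ℕ => ADiag (B p.1) p.2) : ComputablePred (SolL A B) := by
  have hU : ComputablePred fun p : ℕ × ℕ => (B p.1).U p.2 :=
    (computablePred_comp hB (f := fun p : ℕ × ℕ => (p.1, Nat.pair 0 (Nat.pair p.2 p.2)))
      (c_pair (c_fst c_id) (c_npair (c_const 0) (c_npair (c_snd c_id) (c_snd c_id))))).of_eq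
        fun p => adiag_U
  have hR : ComputablePred fun p : ℕ × ℕ × ℕ × ℕ =>
      (B p.1).U p.2.2.1 ∧ (B p.1).U p.2.2.2 ∧ (B p.1).R p.2.1 p.2.2.1 p.2.2.2 :=
    (computablePred_comp hB (f := fun p : ℕ × ℕ × ℕ × ℕ =>
      (p.1, Nat.pair (p.2.1 + 1) (Nat.pair p.2.2.1 p.2.2.2)))
      (c_pair (c_fst c_id) (c_npair (c_succ (c_fst (c_snd c_id))) (c_npair
        (c_fst (c_snd (c_snd c_id))) (c_snd (c_snd (c_snd c_id))))))).of_eq fun p => adiag_R
  have hl0 : Computable fun σ : List ℕ => σ.length := c_llen c_id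
  have hl1 : Computable fun s : List ℕ × ℕ => s.1.length := c_llen (c_fst c_id)
  have hl2 : Computable fun s : (List ℕ × ℕ) × ℕ => s.1.1.length := c_llen (c_fst (c_fst c_id))
  have hl3 : Computable fun s : ((List ℕ × ℕ) × ℕ) × ℕ => s.1.1.1.length :=
    c_llen (c_fst (c_fst (c_fst c_id)))
  have hl4 : Computable fun s : (((List ℕ × ℕ) × ℕ) × ℕ) × ℕ => s.1.1.1.1.length :=
    c_llen (c_fst (c_fst (c_fst (c_fst c_id))))
  have hp2 : Computable fun s : (List ℕ × ℕ) × ℕ => Nat.pair s.1.2 s.2 :=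
    c_npair (c_snd (c_fst c_id)) (c_snd c_id)
  have hg2 : Computable fun s : (List ℕ × ℕ) × ℕ => gt s.1.1 (Nat.pair s.1.2 s.2) :=
    c_gt (c_fst (c_fst c_id)) hp2
  have hq2 : Computable fun s : (List ℕ × ℕ) × ℕ =>
      Nat.pair s.1.2 (gt s.1.1 (Nat.pair s.1.2 s.2)).unpair.1 :=
    c_npair (c_snd (c_fst c_id)) (c_up1 hg2)
  have hr2 : Computable fun s : (List ℕ × ℕ) × ℕ =>
      Nat.pair s.1.2 (gt s.1.1 (Nat.pair s.1.2 s.2)).unpair.2 :=
    c_npair (c_snd (c_fst c_id)) (c_up2 hg2)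
  have hi4 : Computable fun s : (((List ℕ × ℕ) × ℕ) × ℕ) × ℕ => s.1.1.1.2 :=
    c_snd (c_fst (c_fst (c_fst c_id)))
  have hx4 : Computable fun s : (((List ℕ × ℕ) × ℕ) × ℕ) × ℕ => s.1.1.2 :=
    c_snd (c_fst (c_fst c_id))
  have hy4 : Computable fun s : (((List ℕ × ℕ) × ℕ) × ℕ) × ℕ => s.1.2 := c_snd (c_fst c_id)
  have hk4 : Computable fun s : (((List ℕ × ℕ) × ℕ) × ℕ) × ℕ => s.2 := c_snd c_id
  have hs4 : Computable fun s : (((List ℕ × ℕ) × ℕ) × ℕ) × ℕ => s.1.1.1.1 :=
    c_fst (c_fst (c_fst (c_fst c_id)))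
  refine p_ball (P := fun σ i => ∀ x < σ.length, Nat.pair i x < σ.length →
    ((B i).U (gt σ (Nat.pair i x)).unpair.1 ∧
    (Nat.pair i (gt σ (Nat.pair i x)).unpair.1 < σ.length →
      (gt σ (Nat.pair i (gt σ (Nat.pair i x)).unpair.1)).unpair.2 = x) ∧
    (Nat.pair i (gt σ (Nat.pair i x)).unpair.2 < σ.length → (B i).U x →
      (gt σ (Nat.pair i (gt σ (Nat.pair i x)).unpair.2)).unpair.1 = x)) ∧
    ∀ y < σ.length, ∀ k < σ.length, Nat.pair i y < σ.length →
      (A k x y ↔ (B i).U (gt σ (Nat.pair i x)).unpair.1 ∧ (B i).U (gt σ (Nat.pair i y)).unpair.1 ∧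
        (B i).R k (gt σ (Nat.pair i x)).unpair.1 (gt σ (Nat.pair i y)).unpair.1)) hl0 ?_
  refine p_ball (α := List ℕ × ℕ) (f := fun s => s.1.length)
    (P := fun s x => Nat.pair s.2 x < s.1.length →
    ((B s.2).U (gt s.1 (Nat.pair s.2 x)).unpair.1 ∧
    (Nat.pair s.2 (gt s.1 (Nat.pair s.2 x)).unpair.1 < s.1.length →
      (gt s.1 (Nat.pair s.2 (gt s.1 (Nat.pair s.2 x)).unpair.1)).unpair.2 = x) ∧
    (Nat.pair s.2 (gt s.1 (Nat.pair s.2 x)).unpair.2 < s.1.length → (B s.2).U x →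
      (gt s.1 (Nat.pair s.2 (gt s.1 (Nat.pair s.2 x)).unpair.2)).unpair.1 = x)) ∧
    ∀ y < s.1.length, ∀ k < s.1.length, Nat.pair s.2 y < s.1.length →
      (A k x y ↔ (B s.2).U (gt s.1 (Nat.pair s.2 x)).unpair.1 ∧
        (B s.2).U (gt s.1 (Nat.pair s.2 y)).unpair.1 ∧
        (B s.2).R k (gt s.1 (Nat.pair s.2 x)).unpair.1 (gt s.1 (Nat.pair s.2 y)).unpair.1))
    hl1 ?_
  refine p_imp (p_lt hp2 hl2) (p_and (p_and ?_ (p_and ?_ ?_)) ?_)
  · exact computablePred_comp hU (c_pair (c_snd (c_fst c_id)) (c_up1 hg2))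
  · exact p_imp (p_lt hq2 hl2) (p_eq (c_up2 (c_gt (c_fst (c_fst c_id)) hq2)) (c_snd c_id))
  · exact p_imp (p_lt hr2 hl2) (p_imp
      (computablePred_comp hU (c_pair (c_snd (c_fst c_id)) (c_snd c_id)))
      (p_eq (c_up1 (c_gt (c_fst (c_fst c_id)) hr2)) (c_snd c_id)))
  · refine p_ball (α := (List ℕ × ℕ) × ℕ) (f := fun s => s.1.1.length)
      (P := fun s y => ∀ k < s.1.1.length, Nat.pair s.1.2 y < s.1.1.length →
      (A k s.2 y ↔ (B s.1.2).U (gt s.1.1 (Nat.pair s.1.2 s.2)).unpair.1 ∧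
        (B s.1.2).U (gt s.1.1 (Nat.pair s.1.2 y)).unpair.1 ∧
        (B s.1.2).R k (gt s.1.1 (Nat.pair s.1.2 s.2)).unpair.1
          (gt s.1.1 (Nat.pair s.1.2 y)).unpair.1)) hl2 ?_
    refine p_ball (α := ((List ℕ × ℕ) × ℕ) × ℕ) (f := fun s => s.1.1.1.length)
      (P := fun s k => Nat.pair s.1.1.2 s.2 < s.1.1.1.length →
      (A k s.1.2 s.2 ↔ (B s.1.1.2).U (gt s.1.1.1 (Nat.pair s.1.1.2 s.1.2)).unpair.1 ∧
        (B s.1.1.2).U (gt s.1.1.1 (Nat.pair s.1.1.2 s.2)).unpair.1 ∧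
        (B s.1.1.2).R k (gt s.1.1.1 (Nat.pair s.1.1.2 s.1.2)).unpair.1
          (gt s.1.1.1 (Nat.pair s.1.1.2 s.2)).unpair.1)) hl3 ?_
    refine p_imp (p_lt (c_npair hi4 hy4) hl4) (p_iff ?_ ?_)
    · exact computablePred_comp (P := fun q : ℕ × ℕ × ℕ => A q.1 q.2.1 q.2.2) hA
        (c_pair hk4 (c_pair hx4 hy4))
    · exact computablePred_comp hR (f := fun s : (((List ℕ × ℕ) × ℕ) × ℕ) × ℕ =>
        (s.1.1.1.2, s.2, (gt s.1.1.1.1 (Nat.pair s.1.1.1.2 s.1.1.2)).unpair.1,
          (gt s.1.1.1.1 (Nat.pair s.1.1.1.2 s.1.2)).unpair.1))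
        (c_pair hi4 (c_pair hk4 (c_pair (c_up1 (c_gt hs4 (c_npair hi4 hx4)))
          (c_up1 (c_gt hs4 (c_npair hi4 hy4))))))

/-! ### functionals -/

/-- the value of the functional, if any -/
def hv (F : List ℕ → ℕ → Option ℕ) (σ : List ℕ) (u x : ℕ) : ℕ := (F σ (Nat.pair u x)).getD 0

/-- the functional is defined -/
def hd (F : List ℕ → ℕ → Option ℕ) (σ : List ℕ) (u x : ℕ) : Prop :=
  (F σ (Nat.pair u x)).isSome = true

/-- The finite sequence `σ` shows that the functional, applied to the number `u`, is defined at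
`q` and takes the value `q`, and it shows no reason why the functional is not an isomorphism. -/
def FB (A : Str) (M : ℕ → Str) (F : List ℕ → ℕ → Option ℕ) (s : ℕ × List ℕ × ℕ) : Prop :=
  s.2.2 ≤ s.2.1.length ∧ hd F s.2.1 s.1 s.2.2 ∧
    (∃ x < s.2.1.length, hd F s.2.1 s.1 x ∧ hv F s.2.1 s.1 x = s.2.2) ∧
    ∀ x < s.2.1.length, ∀ y < s.2.1.length, ∀ i < s.2.1.length, hd F s.2.1 s.1 x →
      hd F s.2.1 s.1 y → (hv F s.2.1 s.1 x = hv F s.2.1 s.1 y → x = y) ∧
      (A i x y ↔ M s.1 i (hv F s.2.1 s.1 x) (hv F s.2.1 s.1 y))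

theorem p_FB {A : Str} (hA : IsComp A) {M : ℕ → Str}
    (hM : ComputablePred fun q : ℕ × ℕ × ℕ × ℕ => M q.1 q.2.1 q.2.2.1 q.2.2.2)
    {F : List ℕ → ℕ → Option ℕ} (hF : Primrec₂ F) : ComputablePred (FB A M F) := by
  have hFc : Computable₂ F := hF.to_comp
  have chv : ∀ {α : Type} [Primcodable α] {f : α → List ℕ} {g h : α → ℕ}, Computable f →
      Computable g → Computable h → Computable fun a => hv F (f a) (g a) (h a) := by
    intro α _ f g h hf hg hh
    exact (Primrec.option_getD.to_comp).comp (hFc.comp hf (c_npair hg hh)) (c_const 0)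
  have phd : ∀ {α : Type} [Primcodable α] {f : α → List ℕ} {g h : α → ℕ}, Computable f →
      Computable g → Computable h → ComputablePred fun a => hd F (f a) (g a) (h a) := by
    intro α _ f g h hf hg hh
    exact p_of_bool ((Primrec.option_isSome.to_comp).comp (hFc.comp hf (c_npair hg hh)))
  have hσ0 : Computable fun s : ℕ × List ℕ × ℕ => s.2.1 := c_fst (c_snd c_id)
  have hq0 : Computable fun s : ℕ × List ℕ × ℕ => s.2.2 := c_snd (c_snd c_id)
  have hσ1 : Computable fun s : (ℕ × List ℕ × ℕ) × ℕ => s.1.2.1 := c_fst (c_snd (c_fst c_id))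
  have hq1 : Computable fun s : (ℕ × List ℕ × ℕ) × ℕ => s.1.2.2 := c_snd (c_snd (c_fst c_id))
  have hu1 : Computable fun s : (ℕ × List ℕ × ℕ) × ℕ => s.1.1 := c_fst (c_fst c_id)
  refine p_and (p_le hq0 (c_llen hσ0)) (p_and (phd hσ0 (c_fst c_id) hq0) (p_and ?_ ?_))
  · refine p_bex (P := fun s x => hd F s.2.1 s.1 x ∧ hv F s.2.1 s.1 x = s.2.2) (c_llen hσ0) ?_
    exact p_and (phd hσ1 hu1 (c_snd c_id)) (p_eq (chv hσ1 hu1 (c_snd c_id)) hq1)
  · refine p_ball (P := fun s x => ∀ y < s.2.1.length, ∀ i < s.2.1.length, hd F s.2.1 s.1 x →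
      hd F s.2.1 s.1 y → (hv F s.2.1 s.1 x = hv F s.2.1 s.1 y → x = y) ∧
      (A i x y ↔ M s.1 i (hv F s.2.1 s.1 x) (hv F s.2.1 s.1 y))) (c_llen hσ0) ?_
    refine p_ball (α := (ℕ × List ℕ × ℕ) × ℕ) (f := fun s => s.1.2.1.length)
      (P := fun s y => ∀ i < s.1.2.1.length, hd F s.1.2.1 s.1.1 s.2 →
      hd F s.1.2.1 s.1.1 y → (hv F s.1.2.1 s.1.1 s.2 = hv F s.1.2.1 s.1.1 y → s.2 = y) ∧
      (A i s.2 y ↔ M s.1.1 i (hv F s.1.2.1 s.1.1 s.2) (hv F s.1.2.1 s.1.1 y))) (c_llen hσ1) ?_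
    refine p_ball (α := ((ℕ × List ℕ × ℕ) × ℕ) × ℕ) (f := fun s => s.1.1.2.1.length)
      (P := fun s i => hd F s.1.1.2.1 s.1.1.1 s.1.2 →
      hd F s.1.1.2.1 s.1.1.1 s.2 → (hv F s.1.1.2.1 s.1.1.1 s.1.2 = hv F s.1.1.2.1 s.1.1.1 s.2 →
        s.1.2 = s.2) ∧
      (A i s.1.2 s.2 ↔ M s.1.1.1 i (hv F s.1.1.2.1 s.1.1.1 s.1.2)
        (hv F s.1.1.2.1 s.1.1.1 s.2))) (c_llen (c_fst (c_snd (c_fst (c_fst c_id))))) ?_
    have hσ : Computable fun s : (((ℕ × List ℕ × ℕ) × ℕ) × ℕ) × ℕ => s.1.1.1.2.1 :=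
      c_fst (c_snd (c_fst (c_fst (c_fst c_id))))
    have hu : Computable fun s : (((ℕ × List ℕ × ℕ) × ℕ) × ℕ) × ℕ => s.1.1.1.1 :=
      c_fst (c_fst (c_fst (c_fst c_id)))
    have hx : Computable fun s : (((ℕ × List ℕ × ℕ) × ℕ) × ℕ) × ℕ => s.1.1.2 :=
      c_snd (c_fst (c_fst c_id))
    have hy : Computable fun s : (((ℕ × List ℕ × ℕ) × ℕ) × ℕ) × ℕ => s.1.2 := c_snd (c_fst c_id)
    have hi : Computable fun s : (((ℕ × List ℕ × ℕ) × ℕ) × ℕ) × ℕ => s.2 := c_snd c_id
    refine p_imp (phd hσ hu hx) (p_imp (phd hσ hu hy) (p_and (p_imp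
      (p_eq (chv hσ hu hx) (chv hσ hu hy)) (p_eq hx hy)) (p_iff ?_ ?_)))
    · exact computablePred_comp (P := fun q : ℕ × ℕ × ℕ => A q.1 q.2.1 q.2.2) hA
        (c_pair hi (c_pair hx hy))
    · exact computablePred_comp hM (c_pair hu (c_pair hi (c_pair (chv hσ hu hx) (chv hσ hu hy))))

theorem mon_hd {F : List ℕ → ℕ → Option ℕ} (hF : Pool.Agent.Helper760.OracleNF.Mon F) {d : ℕ → ℕ} {m n u x : ℕ}
    (hmn : m ≤ n) (h : hd F (res d m) u x) :
    hd F (res d n) u x ∧ hv F (res d n) u x = hv F (res d m) u x := by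
  unfold hd at h
  obtain ⟨v, hv'⟩ := Option.isSome_iff_exists.1 h
  have h1 := hF _ _ _ _ (res_pre d hmn) hv'
  unfold hd hv
  rw [h1, hv']
  exact ⟨rfl, rfl⟩

theorem FB.iso {A : Str} {M : ℕ → Str} {F : List ℕ → ℕ → Option ℕ} (hF : Pool.Agent.Helper760.OracleNF.Mon F) {u : ℕ}
    {d : ℕ → ℕ} (h : ∀ q, ∃ n, FB A M F (u, res d n, q)) :
    ∃ f : ℕ ≃ ℕ, ∀ i x y, A i x y ↔ M u i (f x) (f y) := by
  choose n hn using h
  have hlen : ∀ q, q ≤ n q := fun q => by
    have := (hn q).1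
    rwa [res_length] at this
  let f : ℕ → ℕ := fun x => hv F (res d (n x)) u x
  have h1 : ∀ x m, n x ≤ m → hd F (res d m) u x ∧ hv F (res d m) u x = f x :=
    fun x m hm => mon_hd hF hm (hn x).2.1
  have h2 : ∀ i x y, (f x = f y → x = y) ∧ (A i x y ↔ M u i (f x) (f y)) := by
    intro i x y
    have h3 := hlen (n x + n y + x + y + i + 1)
    obtain ⟨h4, h5⟩ := h1 x (n (n x + n y + x + y + i + 1)) (by omega)
    obtain ⟨h6, h7⟩ := h1 y (n (n x + n y + x + y + i + 1)) (by omega)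
    have h8 := (hn (n x + n y + x + y + i + 1)).2.2.2 x (by rw [res_length]; omega) y
      (by rw [res_length]; omega) i (by rw [res_length]; omega) h4 h6
    simp only at h8
    rw [h5, h7] at h8
    exact h8
  have hb : Function.Bijective f := by
    refine ⟨fun x y e => (h2 0 x y).1 e, fun y => ?_⟩
    obtain ⟨x, _, h3, h4⟩ := (hn y).2.2.1
    refine ⟨x, ?_⟩
    obtain ⟨_, h6⟩ := h1 x (n x + n y) (by omega)
    obtain ⟨_, h8⟩ := mon_hd hF (show n y ≤ n x + n y by omega) h3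
    rw [← h6, h8]
    exact h4
  exact ⟨Equiv.ofBijective f hb, fun i x y => (h2 i x y).2⟩

/-- a correct functional passes all checks -/
theorem FB.of_correct {A : Str} {M : ℕ → Str} {F : List ℕ → ℕ → Option ℕ} (hF : Pool.Agent.Helper760.OracleNF.Mon F)
    {u : ℕ} {d f : ℕ → ℕ} (hf : IsoMap (full A) (full (M u)) f)
    (h : ∀ x m, (∃ k, F (res d k) (Nat.pair u x) = some m) ↔ m = f x) (q : ℕ) :
    ∃ N, ∀ m, N ≤ m → FB A M F (u, res d m, q) := by
  have h1 : ∀ x, ∃ k, F (res d k) (Nat.pair u x) = some (f x) := fun x => (h x (f x)).2 rfl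
  choose k hk using h1
  have h2 : ∀ x m, k x ≤ m → hd F (res d m) u x := by
    intro x m hm
    have := hF _ _ _ _ (res_pre d hm) (hk x)
    unfold hd
    rw [this]
    rfl
  have h3 : ∀ x m, hd F (res d m) u x → hv F (res d m) u x = f x := by
    intro x m hm
    obtain ⟨v, hv'⟩ := Option.isSome_iff_exists.1 hm
    unfold hv
    rw [hv']
    exact (h x v).1 ⟨m, hv'⟩
  obtain ⟨x0, _, hx0⟩ := hf.surj q trivial
  refine ⟨k q + k x0 + x0 + q + 1, fun m hm => ⟨?_, h2 q m (by omega), ⟨x0, ?_, h2 x0 m (by omega),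
    ?_⟩, fun x _ y _ i _ h4 h5 => ⟨fun e => ?_, ?_⟩⟩⟩
  · rw [res_length]
    show q ≤ m
    omega
  · rw [res_length]
    omega
  · show hv F (res d m) u x0 = q
    rw [h3 x0 m (h2 x0 m (by omega)), hx0]
  · have e' : hv F (res d m) u x = hv F (res d m) u y := e
    rw [h3 x m h4, h3 y m h5] at e'
    exact hf.inj x y trivial trivial e'
  · show A i x y ↔ M u i (hv F (res d m) u x) (hv F (res d m) u y)
    rw [h3 x m h4, h3 y m h5]
    exact hf.rel i x y trivial trivial

/-! ### computing a column -/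

theorem rec_tot {g y : ℕ → ℕ} {F : List ℕ → ℕ → Option ℕ} (hF : Primrec₂ F)
    (h1 : ∀ a k v, F (res g k) a = some v → v = y a) (h2 : ∀ a, ∃ k v, F (res g k) a = some v) :
    Nat.RecursiveIn {(g : ℕ →. ℕ)} (y : ℕ →. ℕ) := by
  have h := Pool.Agent.Helper760.OracleNF.recIn_of_stepped g (α := ℕ) (σ := ℕ) hF
  have h' : Nat.RecursiveIn {(g : ℕ →. ℕ)}
      fun a => Nat.rfindOpt (fun k => F (Pool.Agent.Helper760.OracleNF.pre g k) a) :=
    RecursiveIn.iff_nat.1 h
  refine h'.of_eq ?_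
  intro a
  show Nat.rfindOpt (fun k => F (Pool.Agent.Helper760.OracleNF.pre g k) a) = Part.some (y a)
  apply Part.eq_some_iff.2
  have hd : (Nat.rfindOpt (fun k => F (Pool.Agent.Helper760.OracleNF.pre g k) a)).Dom := by
    rw [Nat.rfindOpt_dom]
    obtain ⟨k, v, hk⟩ := h2 a
    exact ⟨k, v, hk⟩
  obtain ⟨v, hv⟩ := Part.dom_iff_mem.1 hd
  obtain ⟨k, hk⟩ := Nat.rfindOpt_spec hv
  rw [← h1 a k v hk]
  exact hv

theorem rec_patch (k : ℕ) (τ : List ℕ) (d : ℕ → ℕ) :
    Nat.RecursiveIn {(d : ℕ →. ℕ)} ((fun n => (patch k τ d n).unpair.1 : ℕ → ℕ) : ℕ →. ℕ) := by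
  refine rec_tot (F := fun σ n => if n < τ.length then some (gt τ n).unpair.1 else
    (σ[Nat.pair k n]?).map fun v => v.unpair.1) ?_ ?_ ?_
  · have h1 : Primrec fun p : List ℕ × ℕ => (gt τ p.2).unpair.1 := by
      unfold gt
      exact Primrec.fst.comp (Primrec.unpair.comp (Primrec.option_getD.comp
        (Primrec.list_getElem?.comp (Primrec.const τ) Primrec.snd) (Primrec.const 0)))
    have h2 : Primrec fun p : List ℕ × ℕ => (p.1[Nat.pair k p.2]?).map fun v => v.unpair.1 := by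
      refine Primrec.option_map (Primrec.list_getElem?.comp Primrec.fst
        (Primrec₂.natPair.comp (Primrec.const k) Primrec.snd)) ?_
      exact Primrec.fst.comp (Primrec.unpair.comp Primrec.snd)
    exact Primrec.ite (Primrec.nat_lt.comp Primrec.snd (Primrec.const _))
      (Primrec.option_some.comp h1) h2
  · intro a m v hv
    unfold patch ovr
    by_cases h : a < τ.length
    · rw [if_pos h] at hv ⊢
      exact (Option.some_inj.1 hv).symm
    · rw [if_neg h] at hv ⊢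
      obtain ⟨w, h1, h2⟩ := Option.map_eq_some_iff.1 hv
      have h3 := (Pool.Agent.Helper760.OracleNF.getElem?_pre d (Nat.pair k a) m w).1 h1
      show v = (d (Nat.pair k a)).unpair.1
      rw [h3.2, h2]
  · intro a
    by_cases h : a < τ.length
    · exact ⟨0, _, if_pos h⟩
    · refine ⟨Nat.pair k a + 1, (d (Nat.pair k a)).unpair.1, ?_⟩
      rw [if_neg h]
      have h3 := (Pool.Agent.Helper760.OracleNF.getElem?_pre d (Nat.pair k a) (Nat.pair k a + 1) _).2
        ⟨Nat.lt_succ_self _, rfl⟩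
      have h4 : (res d (Nat.pair k a + 1))[Nat.pair k a]? = some (d (Nat.pair k a)) := h3
      rw [h4]
      rfl

end Pool.Agent.R621.HS
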