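import Mathlib
import Pool.Agent.R621.HS.Ban2
import Pool.Agent.R621.HS.Tree

/-!
# A structure whose copies have an index set that is not `Π¹₁`
-/

set_option autoImplicit false
set_option maxHeartbeats 400000

namespace Pool.Agent.R621.HS

open Encodable Denumerable Nat.Partrec Pool.Agent.Helper941 Pool.Agent.Helper941.IsoProb
open Pool.Agent.Helper941.Zeta Pool.Agent.Helper941.Dim Pool.Agent.Helper941.Hyp

theorem not_sigma_XA : ¬ Sigma11 fun u => ¬ XA u := by
  intro h
  apply not_sigma_diag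
  have hJ : Computable fun p : ℕ × ℕ => dH.J p.2 := con_J p_HT c_prn (c_snd c_id)
  have hlab : Computable fun p : ℕ × ℕ => lab p.1 := by
    refine Computable.encode.comp ?_
    exact (Computable.list_cons.comp (c_fst c_id) (c_const []))
  have h3 : Sigma11 fun p : ℕ × ℕ => ¬ XA p.2 ∨ ¬ dH.J p.2 = lab p.1 + 1 :=
    (h.comp (c_snd c_id)).or (Sigma11.of_computable (p_not (p_eq hJ (c_succ hlab))))
  refine h3.all.of_iff fun e => ?_
  rw [← path_iff]
  constructor
  · intro h4 u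
    by_contra h5
    push Not at h5
    obtain ⟨⟨t, hF, ht⟩, hu1⟩ := h5
    obtain ⟨l, hl, hl1⟩ := path_of_flow spec_H th_HT hF (u := u) (by
      rw [ht, Nat.testBit_two_pow]
      simp)
    have hu1' : dH.J u = lab e + 1 := hu1
    have hl1' : dH.J u = l 1 + 1 := hl1
    exact h4 ⟨l, hl, by omega⟩
  · rintro h4 ⟨l, hl, hl1⟩
    obtain ⟨t, w, hF, h0, _, h2, h5⟩ := flow_of_path spec_H th_HT hl
    rcases h4 (w 1) with h6 | h6
    · refine h6 ⟨t, hF, ?_⟩
      have := h5 0
      rwa [h0] at this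
    · apply h6
      show dH.J (w 1) = _
      rw [h2 1, hl1]

/-- the structure -/
noncomputable def A1 : Str := MS fun p => p = Nat.pair 0 0

/-- the structures that are compared with it -/
noncomputable def M1 (u : ℕ) : Str := MS fun p => p = Nat.pair 0 (2 ^ u)

theorem a1_comp : IsComp A1 := by
  have h := ms_comp (β := ℕ) (P := fun _ : ℕ => fun p => p = Nat.pair 0 0)
    (p_eq (c_snd c_id) (c_const _))
  exact computablePred_comp h (f := fun q : ℕ × ℕ × ℕ => (0, q)) (c_pair (c_const 0) c_id)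

theorem m1_comp : ComputablePred fun q : ℕ × ℕ × ℕ × ℕ => M1 q.1 q.2.1 q.2.2.1 q.2.2.2 :=
  ms_comp (P := fun u : ℕ => fun p => p = Nat.pair 0 (2 ^ u))
    (p_eq (c_snd c_id) (c_npair (c_const 0) (c_pow (c_fst c_id))))

theorem iso_a1 (u : ℕ) : (∃ f : ℕ ≃ ℕ, ∀ i x y, A1 i x y ↔ M1 u i (f x) (f y)) ↔ XA u := by
  unfold A1 M1
  rw [ms_iso]
  unfold XA
  refine exists_congr fun t => and_congr_right fun hF => ?_
  constructor
  · intro ht
    have h6 := (ht (Nat.pair 0 0) (valid_base _ 0)).1 rfl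
    unfold sh at h6
    rw [Nat.unpair_pair, Nat.zero_xor] at h6
    exact (Nat.pair_eq_pair.1 h6).2
  · intro ht p _
    constructor
    · rintro rfl
      unfold sh
      rw [Nat.unpair_pair, ht, Nat.zero_xor]
    · intro h6
      rw [← sh_sh t p, h6]
      unfold sh
      rw [Nat.unpair_pair, ht, Nat.xor_self]

theorem not_sigma_a1 : ¬ Sigma11 fun u => ¬ ∃ f : ℕ ≃ ℕ, ∀ i x y, A1 i x y ↔ M1 u i (f x) (f y) :=
  fun h => not_sigma_XA (h.of_iff fun u => by rw [iso_a1])

theorem DiagIndex.congr {e : ℕ} {B B' : SStr} (h : DiagIndex e B) (h' : DiagIndex e B') (n : ℕ) :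
    ADiag B n ↔ ADiag B' n := by
  have h2 : (Part.some 1 : Part ℕ) ≠ Part.some 0 := fun h3 => by
    have := Part.some_injective h3
    omega
  constructor
  · intro h1
    by_contra hc
    exact h2 (((h n).1 h1).symm.trans ((h' n).2 hc))
  · intro h1
    by_contra hc
    exact h2 (((h' n).1 h1).symm.trans ((h n).2 hc))

theorem IsoMap.congr {A B B' : SStr} {f : ℕ → ℕ} (hf : IsoMap A B f)
    (h : ∀ n, ADiag B n ↔ ADiag B' n) : IsoMap A B' f := by
  have hU : ∀ x, B.U x ↔ B'.U x := fun x => by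
    rw [← adiag_U, ← adiag_U]
    exact h _
  refine ⟨fun x hx => (hU _).1 (hf.maps x hx), hf.inj, fun y hy => hf.surj y ((hU y).2 hy),
    fun i x y hx hy => (hf.rel i x y hx hy).trans ?_⟩
  have h1 := h (Nat.pair (i + 1) (Nat.pair (f x) (f y)))
  rw [adiag_R, adiag_R] at h1
  constructor
  · intro h2
    exact (h1.1 ⟨hf.maps x hx, hf.maps y hy, h2⟩).2.2
  · intro h2
    exact (h1.2 ⟨(hU _).1 (hf.maps x hx), (hU _).1 (hf.maps y hy), h2⟩).2.2

/-- the main construction -/
theorem exists_degree : ∃ d : ℕ → ℕ,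
    (¬ ∃ g : ℕ →. ℕ, Nat.RecursiveIn {(d : ℕ →. ℕ)} g ∧ ∀ (e : ℕ) (B : SStr), DiagIndex e B →
      (∃ f, IsoMap (full A1) B f) → ∃ f : ℕ → ℕ, IsoMap (full A1) B f ∧
        ∀ x, (full A1).U x → g (Nat.pair e x) = Part.some (f x)) ∧
    ∀ c : ℕ → ℕ, Computable c → (∀ i, ∃ B, DiagIndex (c i) B ∧ ∃ f, IsoMap (full A1) B f) →
      ∃ h : ℕ → ℕ, Nat.RecursiveIn {(d : ℕ →. ℕ)} (h : ℕ →. ℕ) ∧
        ∀ (i : ℕ) (B : SStr), DiagIndex (c i) B → IsoMap (full A1) B fun x => h (Nat.pair i x) := by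
  classical
  let X : ℕ → Prop := fun u => ∃ f : ℕ ≃ ℕ, ∀ i x y, A1 i x y ↔ M1 u i (f x) (f y)
  let S : ℕ → List ℕ → Prop := fun n =>
    if ComputablePred (RC (β := List ℕ) (ofNat Code n)) ∧
      ∃ w : ℕ → ℕ, ∀ m, RC (β := List ℕ) (ofNat Code n) (res w m)
    then RC (β := List ℕ) (ofNat Code n) else fun _ => True
  let F : ℕ → ℕ × List ℕ × ℕ → Prop := fun n =>
    if ComputablePred (RC (β := ℕ × List ℕ × ℕ) (ofNat Code n)) ∧
      ∀ (u : ℕ) (d : ℕ → ℕ), (∀ q, ∃ m, RC (β := ℕ × List ℕ × ℕ) (ofNat Code n)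
        (u, res d m, q)) → X u
    then RC (β := ℕ × List ℕ × ℕ) (ofNat Code n) else fun _ => False
  have hS : ∀ n, ComputablePred (S n) := by
    intro n
    show ComputablePred (if _ then _ else _)
    split_ifs with h
    · exact h.1
    · exact ComputablePred.computable_iff.2 ⟨fun _ => true, Computable.const _, by funext a; simp⟩
  have hw : ∀ n, ∃ w : ℕ → ℕ, ∀ m, S n (res w m) := by
    intro n
    by_cases h : ComputablePred (RC (β := List ℕ) (ofNat Code n)) ∧
      ∃ w : ℕ → ℕ, ∀ m, RC (β := List ℕ) (ofNat Code n) (res w m)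
    · obtain ⟨w, hw⟩ := h.2
      refine ⟨w, fun m => ?_⟩
      show (if _ then _ else _ : List ℕ → Prop) (res w m)
      rw [if_pos h]
      exact hw m
    · refine ⟨fun _ => 0, fun m => ?_⟩
      show (if _ then _ else _ : List ℕ → Prop) _
      rw [if_neg h]
      trivial
  have hF : ∀ n, ComputablePred (F n) := by
    intro n
    show ComputablePred (if _ then _ else _)
    split_ifs with h
    · exact h.1
    · exact ComputablePred.computable_iff.2 ⟨fun _ => false, Computable.const _, by funext a; simp⟩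
  have hX : ∀ (n u : ℕ) (d : ℕ → ℕ), (∀ q, ∃ m, F n (u, res d m, q)) → X u := by
    intro n u d hd
    by_cases h : ComputablePred (RC (β := ℕ × List ℕ × ℕ) (ofNat Code n)) ∧
      ∀ (u : ℕ) (d : ℕ → ℕ), (∀ q, ∃ m, RC (β := ℕ × List ℕ × ℕ) (ofNat Code n)
        (u, res d m, q)) → X u
    · refine h.2 u d fun q => ?_
      obtain ⟨m, hm⟩ := hd q
      have h1 : (if _ then _ else _ : ℕ × List ℕ × ℕ → Prop) (u, res d m, q) := hm
      rw [if_pos h] at h1
      exact ⟨m, h1⟩
    · obtain ⟨m, hm⟩ := hd 0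
      have h1 : (if _ then _ else _ : ℕ × List ℕ × ℕ → Prop) (u, res d m, 0) := hm
      rw [if_neg h] at h1
      exact h1.elim
  obtain ⟨d, hd1, hd2⟩ := exists_generic (X := X) not_sigma_a1 S hS hw F hF hX
  refine ⟨d, ?_, ?_⟩
  · rintro ⟨g, hg, hgu⟩
    obtain ⟨e, he, hei⟩ := exists_dindex m1_comp
    have hr : Nat.RecursiveIn {(d : ℕ →. ℕ)}
        ((fun n => Nat.pair (e n.unpair.1) n.unpair.2 : ℕ → ℕ) : ℕ →. ℕ) := by
      refine Nat.Partrec.recursiveIn ?_
      exact Partrec.nat_iff.1 (Computable.partrec (c_npair (he.comp (c_up1 c_id)) (c_up2 c_id)))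
    have hg' := Nat.RecursiveIn.comp hg hr
    obtain ⟨G, hG, hMon, hGv⟩ := Pool.Agent.Helper760.OracleNF.normal_form d _ hg'
    have hGv' : ∀ u x m, (∃ k, G (res d k) (Nat.pair u x) = some m) ↔
        m ∈ g (Nat.pair (e u) x) := by
      intro u x m
      have h1 := (hGv (Nat.pair u x) m).symm
      have h2 : ((((fun n => Nat.pair (e n.unpair.1) n.unpair.2 : ℕ → ℕ) : ℕ →. ℕ)
          (Nat.pair u x)) >>= g) = g (Nat.pair (e u) x) := by
        show (Part.some (Nat.pair (e (Nat.pair u x).unpair.1) (Nat.pair u x).unpair.2) >>= g) = _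
        rw [Nat.unpair_pair]
        exact Part.bind_some _ _
      rw [h2] at h1
      exact h1
    obtain ⟨c, hc⟩ := exists_RC (p_FB a1_comp m1_comp hG)
    have hFn : F (encode c) = FB A1 M1 G := by
      show (if _ then _ else _) = _
      rw [ofNat_encode, ← hc]
      exact if_pos ⟨p_FB a1_comp m1_comp hG, fun u d' h => FB.iso hMon h⟩
    obtain ⟨u, q, N, ⟨f0, hf0⟩, hN⟩ := hd2 (encode c)
    rw [hFn] at hN
    have hiso : IsoMap (full A1) (full (M1 u)) f0 :=
      ⟨fun _ _ => trivial, fun x y _ _ h => f0.injective h,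
        fun y _ => ⟨f0.symm y, trivial, f0.apply_symm_apply y⟩, fun i x y _ _ => hf0 i x y⟩
    obtain ⟨f, hf, hfx⟩ := hgu (e u) (full (M1 u)) (hei u) ⟨f0, hiso⟩
    obtain ⟨N', hN'⟩ := FB.of_correct hMon hf (d := d) (fun x m => by
      rw [hGv', hfx x trivial]
      exact Part.mem_some_iff) q
    exact hN (max N N') (le_max_left _ _) (hN' (max N N') (le_max_right _ _))
  · intro c hc hB
    choose B hBi hBf using hB
    obtain ⟨w, hw'⟩ := exists_sol hBf
    rw [sol_iff] at hw'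
    have hp := p_solL a1_comp (p_diag hc hBi)
    obtain ⟨cd, hcd⟩ := exists_RC hp
    have hSn : S (encode cd) = SolL A1 B := by
      show (if _ then _ else _) = _
      rw [ofNat_encode, ← hcd]
      exact if_pos ⟨hp, w, hw'⟩
    obtain ⟨k, τ, hk⟩ := hd1 (encode cd)
    rw [hSn, ← sol_iff] at hk
    refine ⟨_, rec_patch k τ d, fun i B' hB' => ?_⟩
    exact (hk.iso i).congr fun n => (hBi i).congr hB' n

end Pool.Agent.R621.HS
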