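import Mathlib
import Pool.Agent.Helper760.OracleNF

/-!
# Structures for computable languages and their spectra

Turing degrees of sets of natural numbers, structures whose universe is a set of natural numbers,
embeddings, isomorphism spectra and bi-embeddability spectra.
-/

set_option autoImplicit false

namespace Pool.Agent.R621.BE

open Encodable

/-! ### Turing degrees -/

open Classical in
/-- the characteristic function of a set of natural numbers -/
noncomputable def chi (X : Set ℕ) (n : ℕ) : ℕ := if n ∈ X then 1 else 0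

/-- Turing reducibility of sets of natural numbers -/
def TRed (X Y : Set ℕ) : Prop := TuringReducible (chi X : ℕ →. ℕ) (chi Y : ℕ →. ℕ)

theorem TRed.refl (X : Set ℕ) : TRed X X := TuringReducible.refl _

theorem TRed.trans {X Y Z : Set ℕ} (h : TRed X Y) (h' : TRed Y Z) : TRed X Z :=
  TuringReducible.trans h h'

/-- Turing equivalence of sets of natural numbers -/
instance tSetoid : Setoid (Set ℕ) where
  r X Y := TRed X Y ∧ TRed Y X
  iseqv := ⟨fun X => ⟨TRed.refl X, TRed.refl X⟩, fun h => ⟨h.2, h.1⟩,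
    fun h h' => ⟨h.1.trans h'.1, h'.2.trans h.2⟩⟩

/-- Turing degrees: the classes of sets of natural numbers under Turing equivalence -/
def TDeg : Type := Quotient tSetoid

/-- the Turing degree of a set -/
def deg (X : Set ℕ) : TDeg := Quotient.mk _ X

/-- the ordering of the Turing degrees -/
instance : LE TDeg where
  le := Quotient.lift₂ TRed (by
    intro X Y X' Y' h h'
    exact propext ⟨fun k => (h.2.trans k).trans h'.1, fun k => (h.1.trans k).trans h'.2⟩)

theorem deg_le {X Y : Set ℕ} : deg X ≤ deg Y ↔ TRed X Y := Iff.rfl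

theorem deg_eq {X Y : Set ℕ} : deg X = deg Y ↔ TRed X Y ∧ TRed Y X := Quotient.eq

theorem exists_deg (d : TDeg) : ∃ X, deg X = d := Quotient.exists_rep d

/-! ### Languages and structures -/

/-- A computable language with at most countably many symbols.  The number `i` is the name of a
relation symbol if `kind i = 1`, of a function symbol if `kind i = 2` (constant symbols are
function symbols of arity `0`), and it names no symbol otherwise; `ar i` is the arity. -/
structure Lng where
  kind : ℕ → ℕ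
  ar : ℕ → ℕ
  kind_comp : Computable kind
  ar_comp : Computable ar

/-- `v` is a tuple from `U` to which the symbol `i`, of kind `k`, applies -/
def Lng.Tup (L : Lng) (k i : ℕ) (U : Set ℕ) (v : List ℕ) : Prop :=
  L.kind i = k ∧ v.length = L.ar i ∧ ∀ x ∈ v, x ∈ U

/-- A structure for the language `L` whose universe is a nonempty set of natural numbers.
`rel i` interprets the relation symbol `i` and `fn i` the function symbol `i` (only the values on
tuples of the right length from the universe matter). -/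
structure Strc (L : Lng) where
  univ : Set ℕ
  nonempty : univ.Nonempty
  rel : ℕ → List ℕ → Prop
  fn : ℕ → List ℕ → ℕ
  fn_mem : ∀ i v, L.Tup 2 i univ v → fn i v ∈ univ

variable {L : Lng}

/-- the atomic diagram: it codes the universe, the true atomic facts `R_i(v)` and the values
`f_i(v) = y` -/
def Strc.diag (B : Strc L) : Set ℕ :=
  {q | (∃ x ∈ B.univ, q = Nat.pair 0 x) ∨
    (∃ i v, L.Tup 1 i B.univ v ∧ B.rel i v ∧ q = Nat.pair (2 * i + 1) (encode v)) ∨
    ∃ i v, L.Tup 2 i B.univ v ∧ q = Nat.pair (2 * i + 2) (encode (B.fn i v :: v))}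

/-- `f` (restricted to the universe of `A`) is an embedding of `A` into `B` -/
structure Emb (A B : Strc L) (f : ℕ → ℕ) : Prop where
  mem : ∀ x ∈ A.univ, f x ∈ B.univ
  inj : ∀ x ∈ A.univ, ∀ y ∈ A.univ, f x = f y → x = y
  rel : ∀ i v, L.Tup 1 i A.univ v → (B.rel i (v.map f) ↔ A.rel i v)
  fn : ∀ i v, L.Tup 2 i A.univ v → B.fn i (v.map f) = f (A.fn i v)

/-- bi-embeddability -/
def BiEmb (A B : Strc L) : Prop := (∃ f, Emb A B f) ∧ ∃ g, Emb B A g

/-- isomorphism -/
def Iso (A B : Strc L) : Prop := ∃ f, Emb A B f ∧ ∀ y ∈ B.univ, ∃ x ∈ A.univ, f x = y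

/-- the bi-embeddability spectrum: the degrees of the structures bi-embeddable with `A` -/
def biSpec (A : Strc L) : Set TDeg := {d | ∃ B : Strc L, BiEmb A B ∧ deg B.diag = d}

/-- the same with universe `ω` -/
def biSpecOmega (A : Strc L) : Set TDeg :=
  {d | ∃ B : Strc L, B.univ = Set.univ ∧ BiEmb A B ∧ deg B.diag = d}

/-- the isomorphism spectrum: the degrees of the structures isomorphic to `A` -/
def isoSpec (A : Strc L) : Set TDeg := {d | ∃ B : Strc L, Iso A B ∧ deg B.diag = d}

/-! ### Facts about the diagram -/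

theorem diag_univ {B : Strc L} {x : ℕ} : Nat.pair 0 x ∈ B.diag ↔ x ∈ B.univ := by
  constructor
  · rintro (⟨y, hy, h⟩ | ⟨i, v, _, _, h⟩ | ⟨i, v, _, h⟩)
    · have := (Nat.pair_eq_pair.1 h).2
      rwa [this]
    · have := (Nat.pair_eq_pair.1 h).1
      omega
    · have := (Nat.pair_eq_pair.1 h).1
      omega
  · intro h
    exact Or.inl ⟨x, h, rfl⟩

theorem diag_rel {B : Strc L} {i : ℕ} {v : List ℕ} :
    Nat.pair (2 * i + 1) (encode v) ∈ B.diag ↔ L.Tup 1 i B.univ v ∧ B.rel i v := by
  constructor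
  · rintro (⟨y, hy, h⟩ | ⟨i', v', h1, h2, h⟩ | ⟨i', v', _, h⟩)
    · have := (Nat.pair_eq_pair.1 h).1
      omega
    · have h3 := (Nat.pair_eq_pair.1 h).1
      have h4 := encode_injective (Nat.pair_eq_pair.1 h).2
      have h5 : i = i' := by omega
      subst h5
      subst h4
      exact ⟨h1, h2⟩
    · have := (Nat.pair_eq_pair.1 h).1
      omega
  · rintro ⟨h1, h2⟩
    exact Or.inr (Or.inl ⟨i, v, h1, h2, rfl⟩)

/-! ### Turing reductions -/

/-- a total function computed by a search through the finite parts of the oracle -/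
theorem rec_tot {g y : ℕ → ℕ} {F : List ℕ → ℕ → Option ℕ} (hF : Primrec₂ F)
    (h1 : ∀ a k v, F (Helper760.OracleNF.pre g k) a = some v → v = y a)
    (h2 : ∀ a, ∃ k v, F (Helper760.OracleNF.pre g k) a = some v) :
    TuringReducible (y : ℕ →. ℕ) (g : ℕ →. ℕ) := by
  have h := Helper760.OracleNF.recIn_of_stepped g (α := ℕ) (σ := ℕ) hF
  refine h.of_eq ?_
  intro a
  show Nat.rfindOpt (fun k => F (Helper760.OracleNF.pre g k) a) = Part.some (y a)
  apply Part.eq_some_iff.2
  have hd : (Nat.rfindOpt (fun k => F (Helper760.OracleNF.pre g k) a)).Dom := by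
    rw [Nat.rfindOpt_dom]
    obtain ⟨k, v, hk⟩ := h2 a
    exact ⟨k, v, hk⟩
  obtain ⟨v, hv⟩ := Part.dom_iff_mem.1 hd
  obtain ⟨k, hk⟩ := Nat.rfindOpt_spec hv
  rw [← h1 a k v hk]
  exact hv

/-- every reduction between total functions is given by a monotone primitive recursive
approximation -/
theorem red_normal {g y : ℕ → ℕ} (h : TuringReducible (y : ℕ →. ℕ) (g : ℕ →. ℕ)) :
    ∃ F : List ℕ → ℕ → Option ℕ, Primrec₂ F ∧ Helper760.OracleNF.Mon F ∧
      ∀ n m, m = y n ↔ ∃ k, F (Helper760.OracleNF.pre g k) n = some m := by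
  obtain ⟨F, h1, h2, h3⟩ := Helper760.OracleNF.normal_form g (y : ℕ →. ℕ) (RecursiveIn.iff_nat.1 h)
  refine ⟨F, h1, h2, fun n m => ?_⟩
  rw [← h3 n m]
  show m = y n ↔ m ∈ Part.some (y n)
  rw [Part.mem_some_iff]

theorem chi_one {X : Set ℕ} {n : ℕ} : chi X n = 1 ↔ n ∈ X := by
  unfold chi
  split_ifs with h <;> simp [h]

theorem chi_zero {X : Set ℕ} {n : ℕ} : chi X n = 0 ↔ n ∉ X := by
  unfold chi
  split_ifs with h <;> simp [h]

/-- reduction by a primitive recursive substitution -/
theorem tred_of_primrec {X Y : Set ℕ} {h : ℕ → ℕ} (hh : Primrec h) (hX : ∀ n, n ∈ X ↔ h n ∈ Y) :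
    TRed X Y := by
  refine rec_tot (F := fun σ n => σ[h n]?) ?_ ?_ ?_
  · exact Primrec.list_getElem?.comp Primrec.fst (hh.comp Primrec.snd)
  · intro a k v hv
    have h1 := ((Helper760.OracleNF.getElem?_pre _ _ _ _).1 hv).2
    rw [← h1]
    by_cases h2 : a ∈ X
    · rw [chi_one.2 h2, chi_one.2 ((hX a).1 h2)]
    · rw [chi_zero.2 h2, chi_zero.2 fun h3 => h2 ((hX a).2 h3)]
  · intro a
    exact ⟨h a + 1, _, (Helper760.OracleNF.getElem?_pre _ _ _ _).2 ⟨Nat.lt_succ_self _, rfl⟩⟩

end Pool.Agent.R621.BE
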