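import Mathlib
import Pool.Agent.R621.HS.Bie1

/-!
# Histories

A history is a strictly increasing list of codes of finite binary sequences.
-/

set_option autoImplicit false

namespace Pool.Agent.R621.BE

open Encodable

/-- the first `k` values of `c` -/
def prb (c : ℕ → Bool) (k : ℕ) : List Bool := (List.range k).map c

/-- the code of the initial segment of length `k` of `c` -/
def lab (c : ℕ → Bool) (k : ℕ) : ℕ := encode (prb c k)

/-- the sequence coded by `N` -/
def str (N : ℕ) : List Bool := (decode (α := List Bool) N).getD []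

theorem length_prb (c : ℕ → Bool) (k : ℕ) : (prb c k).length = k := by simp [prb]

theorem str_lab (c : ℕ → Bool) (k : ℕ) : str (lab c k) = prb c k := by
  simp [str, lab]

theorem le_lab (c : ℕ → Bool) (k : ℕ) : k ≤ lab c k := by
  have := Encodable.length_le_encode (prb c k)
  rw [length_prb] at this
  exact this

theorem lab_zero (c : ℕ → Bool) : lab c 0 = 0 := by
  simp [lab, prb]

theorem lab_inj {c c' : ℕ → Bool} {k k' : ℕ} (h : lab c k = lab c' k') : k = k' := by
  have h1 := encode_injective h
  rw [← length_prb c k, h1, length_prb]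

theorem getElem?_prb {c : ℕ → Bool} {k i : ℕ} (h : i < k) : (prb c k)[i]? = some (c i) := by
  unfold prb
  rw [List.getElem?_map, List.getElem?_range h]
  rfl

theorem prb_congr {c c' : ℕ → Bool} {k : ℕ} (h : ∀ i < k, c i = c' i) : prb c k = prb c' k :=
  List.map_congr_left fun i hi => h i (List.mem_range.1 hi)

/-- the part of the history visible at time `t` -/
def vis (t : ℕ) (H : List ℕ) : List ℕ := H.filter fun x => decide (x ≤ t)

theorem vis_eq {t : ℕ} {H : List ℕ} : vis t H = H ↔ ∀ x ∈ H, x ≤ t := by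
  unfold vis
  rw [List.filter_eq_self]
  simp

theorem vis_append {t : ℕ} {H K : List ℕ} : vis t (H ++ K) = vis t H ++ vis t K := by
  simp [vis]

theorem vis_hide {t N : ℕ} {H : List ℕ} (h : t < N) : vis t (H ++ [N]) = vis t H := by
  rw [vis_append]
  simp [vis, h]

theorem exists_vis (H : List ℕ) : ∃ t0, ∀ t ≥ t0, vis t H = H := by
  induction H with
  | nil => exact ⟨0, fun _ _ => rfl⟩
  | cons x H ih =>
    obtain ⟨t0, h0⟩ := ih
    refine ⟨max t0 x, fun t ht => ?_⟩
    rw [vis_eq]
    intro y hy
    rcases List.mem_cons.1 hy with rfl | hy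
    · omega
    · exact (vis_eq.1 (h0 t (by omega))) y hy

theorem eq_of_vis {H K : List ℕ} (h : ∀ t, vis t H = vis t K) : H = K := by
  obtain ⟨t0, h0⟩ := exists_vis H
  obtain ⟨t1, h1⟩ := exists_vis K
  rw [← h0 (max t0 t1) (le_max_left _ _), h, h1 _ (le_max_right _ _)]

/-- the last label -/
def lst (H : List ℕ) : ℕ := H.getLastD 0

theorem lst_append {H : List ℕ} {N : ℕ} : lst (H ++ [N]) = N := by
  simp [lst]

theorem exists_append {H : List ℕ} (h : H ≠ []) : ∃ K, H = K ++ [lst H] := by
  rcases List.eq_nil_or_concat H with h1 | ⟨K, x, h1⟩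
  · exact absurd h1 h
  · rw [List.concat_eq_append] at h1
    exact ⟨K, by rw [h1, lst_append]⟩

theorem le_lst {H : List ℕ} (h : H.Pairwise (· < ·)) {x : ℕ} (hx : x ∈ H) : x ≤ lst H := by
  obtain ⟨K, hK⟩ := exists_append (List.ne_nil_of_mem hx)
  rw [hK] at h hx
  rcases List.mem_append.1 hx with h1 | h1
  · have h2 := (List.pairwise_append.1 h).2.2 x h1 (lst H) (by simp)
    exact le_of_lt h2
  · rw [List.mem_singleton.1 h1]

theorem pairwise_snoc {H : List ℕ} {N : ℕ} (h : H.Pairwise (· < ·)) (hN : lst H < N) :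
    (H ++ [N]).Pairwise (· < ·) := by
  rw [List.pairwise_append]
  refine ⟨h, List.pairwise_singleton _ _, ?_⟩
  intro x hx y hy
  rw [List.mem_singleton.1 hy]
  exact lt_of_le_of_lt (le_lst h hx) hN

/-- the oracle belonging to level `r` -/
def orc (a b : ℕ → Bool) (r : ℕ) : ℕ → Bool := if r % 2 = 1 then a else b

theorem orc_congr {a b : ℕ → Bool} {r r' : ℕ} (h : r % 2 = r' % 2) : orc a b r = orc a b r' := by
  unfold orc
  rw [h]

/-- legitimate histories of level at most `m` -/
structure Legit (a b : ℕ → Bool) (m : ℕ) (H : List ℕ) : Prop where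
  srt : H.Pairwise (· < ·)
  ne : H ≠ []
  len : H.length ≤ m
  tru : ∃ k, lst H = lab (orc a b H.length) k

theorem Legit.mono {a b : ℕ → Bool} {m m' : ℕ} {H : List ℕ} (h : Legit a b m H) (hm : m ≤ m') :
    Legit a b m' H := ⟨h.srt, h.ne, h.len.trans hm, h.tru⟩

/-- the approximation read off the odd places of `c` -/
def apx (c : ℕ → Bool) (t i : ℕ) : Bool := c (2 * Nat.pair i t + 1)

/-- the label `N` agrees with the approximation at `t` -/
def oks (c : ℕ → Bool) (N : ℕ) : Prop := N = lab c (str N).length

instance (c : ℕ → Bool) (N : ℕ) : Decidable (oks c N) := by unfold oks; infer_instance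

theorem oks_iff {c : ℕ → Bool} {N : ℕ} : oks c N ↔ ∃ k, N = lab c k := by
  constructor
  · intro h
    exact ⟨_, h⟩
  · rintro ⟨k, rfl⟩
    unfold oks
    rw [str_lab, length_prb]

/-- each of the two sequences approximates the other one -/
def Good (a b : ℕ → Bool) : Prop :=
  ∀ n, ∃ s0, ∀ s ≥ s0, a (2 * Nat.pair n s + 1) = b n ∧ b (2 * Nat.pair n s + 1) = a n

theorem Good.apx {a b : ℕ → Bool} (h : Good a b) (m k : ℕ) :
    ∃ t0, ∀ t ≥ t0, prb (apx (orc a b m) t) k = prb (orc a b (m + 1)) k := by
  induction k with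
  | zero => exact ⟨0, fun _ _ => rfl⟩
  | succ k ih =>
    obtain ⟨t0, h0⟩ := ih
    obtain ⟨s0, h1⟩ := h k
    refine ⟨max t0 s0, fun t ht => prb_congr fun i hi => ?_⟩
    rcases Nat.lt_succ_iff_lt_or_eq.1 hi with hi | rfl
    · have h2 := h0 t (by omega)
      have h3 := getElem?_prb (c := Pool.Agent.R621.BE.apx (orc a b m) t) hi
      rw [h2, getElem?_prb hi] at h3
      exact (Option.some_inj.1 h3).symm
    · have h2 := h1 t (by omega)
      unfold Pool.Agent.R621.BE.apx orc
      rcases Nat.mod_two_eq_zero_or_one m with h4 | h4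
      · have h5 : (m + 1) % 2 = 1 := by omega
        rw [if_neg (by omega), if_pos h5]
        exact h2.2
      · have h5 : ¬ (m + 1) % 2 = 1 := by omega
        rw [if_pos h4, if_neg h5]
        exact h2.1

/-- the label `N` is refuted at time `t ≥ n` -/
def prom (c : ℕ → Bool) (n N t : ℕ) : Prop := n ≤ t ∧ N + 1 ≤ t ∧ ¬ oks (apx c t) N

instance (c : ℕ → Bool) (n N t : ℕ) : Decidable (prom c n N t) := by unfold prom; infer_instance

/-- replace a list that is not an increasing nonempty list of length at most `m` by `[0]` -/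
def norm (m : ℕ) (H : List ℕ) : List ℕ :=
  if H.Pairwise (· < ·) ∧ H ≠ [] ∧ H.length ≤ m then H else [0]

theorem norm_spec (m : ℕ) (hm : 1 ≤ m) (H : List ℕ) :
    (norm m H).Pairwise (· < ·) ∧ norm m H ≠ [] ∧ (norm m H).length ≤ m := by
  unfold norm
  split_ifs with h
  · exact h
  · exact ⟨List.pairwise_singleton _ _, by simp, by simpa using hm⟩

open Classical in
/-- the final history of the element `(H, n)` in a component of level `m` -/
noncomputable def fin (c : ℕ → Bool) (m : ℕ) (H : List ℕ) (n : ℕ) : List ℕ :=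
  if (norm m H).length % 2 = m % 2 then (if oks c (lst (norm m H)) then norm m H else [0])
  else if h : ∃ t, prom c n (lst (norm m H)) t then norm m H ++ [lab c (Nat.find h)]
  else norm m H

theorem legit_zero {a b : ℕ → Bool} {m : ℕ} (hm : 1 ≤ m) : Legit a b m [0] where
  srt := List.pairwise_singleton _ _
  ne := by simp
  len := by simpa using hm
  tru := ⟨0, by rw [lab_zero]; rfl⟩

theorem fin_legit {a b : ℕ → Bool} (hg : Good a b) {m : ℕ} (hm : 1 ≤ m) (H : List ℕ) (n : ℕ) :
    Legit a b m (fin (orc a b m) m H n) := by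
  obtain ⟨h1, h2, h3⟩ := norm_spec m hm H
  unfold fin
  split_ifs with h4 h5 h6
  · refine ⟨h1, h2, h3, ?_⟩
    rw [orc_congr h4]
    exact oks_iff.1 h5
  · exact legit_zero hm
  · obtain ⟨h7, h8, h9⟩ := Nat.find_spec h6
    refine ⟨pairwise_snoc h1 ?_, by simp, ?_, Nat.find h6, ?_⟩
    · have := le_lab (orc a b m) (Nat.find h6)
      omega
    · rw [List.length_append]
      simp only [List.length_singleton]
      rcases Nat.lt_or_ge (norm m H).length m with h | h
      · omega
      · exact absurd (by rw [le_antisymm h3 h]) h4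
    · rw [lst_append]
      congr 1
      refine orc_congr ?_
      rw [List.length_append]
      simp only [List.length_singleton]
      omega
  · refine ⟨h1, h2, h3, ?_⟩
    have h7 : ∀ t ≥ max n (lst (norm m H) + 1), oks (apx (orc a b m) t) (lst (norm m H)) := by
      intro t ht
      by_contra h8
      exact h6 ⟨t, by omega, by omega, h8⟩
    obtain ⟨t0, h8⟩ := hg.apx m (str (lst (norm m H))).length
    have h9 := h7 (max (max n (lst (norm m H) + 1)) t0) (le_max_left _ _)
    have h10 := h8 (max (max n (lst (norm m H) + 1)) t0) (le_max_right _ _)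
    refine ⟨(str (lst (norm m H))).length, ?_⟩
    unfold oks lab at h9
    rw [h10] at h9
    have h11 : orc a b (norm m H).length = orc a b (m + 1) := orc_congr (by omega)
    rw [h11]
    exact h9

theorem fin_real {a b : ℕ → Bool} (hg : Good a b) {m : ℕ} {H : List ℕ} (hH : Legit a b m H) :
    ∃ N, ∀ n ≥ N, fin (orc a b m) m H n = H := by
  have h1 : norm m H = H := by
    unfold norm
    rw [if_pos ⟨hH.srt, hH.ne, hH.len⟩]
  obtain ⟨k, hk⟩ := hH.tru
  by_cases h2 : H.length % 2 = m % 2
  · refine ⟨0, fun n _ => ?_⟩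
    unfold fin
    rw [h1, if_pos h2, if_pos]
    rw [oks_iff]
    exact ⟨k, by rw [hk, orc_congr h2]⟩
  · obtain ⟨t0, h3⟩ := hg.apx m k
    refine ⟨t0, fun n hn => ?_⟩
    unfold fin
    rw [h1, if_neg h2, dif_neg]
    rintro ⟨t, h4, h5, h6⟩
    refine h6 (oks_iff.2 ⟨k, ?_⟩)
    rw [hk, orc_congr (show H.length % 2 = (m + 1) % 2 by omega)]
    unfold lab
    rw [h3 t (by omega)]

/-- the visible part of the history of `(H, n)` at time `t`, in computable form -/
def stt (c : ℕ → Bool) (m : ℕ) (H : List ℕ) (n t : ℕ) : List ℕ :=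
  if (norm m H).length % 2 = m % 2 then
    vis t (if oks c (lst (norm m H)) then norm m H else [0])
  else (((List.range (t + 1)).filter fun s => decide (prom c n (lst (norm m H)) s)).head?.map
    fun s => vis t (norm m H ++ [lab c s])).getD (vis t (norm m H))

theorem stt_eq (c : ℕ → Bool) (m : ℕ) (H : List ℕ) (n t : ℕ) :
    stt c m H n t = vis t (fin c m H n) := by
  unfold stt fin
  split_ifs with h1 h2 h3
  · rfl
  · rfl
  · rw [List.head?_filter]
    by_cases h4 : Nat.find h3 ≤ t
    · have h5 : (List.range (t + 1)).find? (fun s => decide (prom c n (lst (norm m H)) s)) =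
          some (Nat.find h3) := by
        rw [List.find?_range_eq_some]
        refine ⟨by simpa using Nat.find_spec h3, by simpa using Nat.lt_succ_of_le h4, ?_⟩
        intro j hj
        have := Nat.find_min h3 hj
        simpa using this
      rw [h5]
      rfl
    · have h5 : (List.range (t + 1)).find? (fun s => decide (prom c n (lst (norm m H)) s)) =
          none := by
        rw [List.find?_eq_none]
        intro j hj
        have hj' := List.mem_range.1 hj
        have := Nat.find_min h3 (show j < Nat.find h3 by omega)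
        simpa using this
      rw [h5]
      simp only [Option.map_none, Option.getD_none]
      rw [vis_hide]
      exact lt_of_lt_of_le (by omega) (le_lab c (Nat.find h3))
  · rw [List.head?_filter]
    have h5 : (List.range (t + 1)).find? (fun s => decide (prom c n (lst (norm m H)) s)) =
        none := by
      rw [List.find?_eq_none]
      intro j hj hj2
      exact h3 ⟨j, by simpa using hj2⟩
    rw [h5]
    rfl

/-! ### Decoding -/

theorem finite_bounded (K : ℕ) : {H : List ℕ | H.Pairwise (· < ·) ∧ ∀ x ∈ H, x ≤ K}.Finite := by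
  refine Set.Finite.of_finite_image (f := List.toFinset) ?_ ?_
  · refine Set.Finite.subset (Finset.finite_toSet (Finset.range (K + 1)).powerset) ?_
    rintro _ ⟨H, ⟨_, h2⟩, rfl⟩
    rw [Finset.mem_coe, Finset.mem_powerset]
    intro x hx
    have := h2 x (List.mem_toFinset.1 hx)
    exact Finset.mem_range.2 (by omega)
  · intro H ⟨h1, _⟩ H' ⟨h1', _⟩ h
    have hn : H.Nodup := h1.imp fun h => ne_of_lt h
    have hn' : H'.Nodup := h1'.imp fun h => ne_of_lt h
    have hp := List.perm_of_nodup_nodup_toFinset_eq hn hn' h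
    exact hp.eq_of_pairwise (fun x y _ _ h3 h4 => absurd h3 (by omega)) h1 h1'

theorem decode_level {a b : ℕ → Bool} {m : ℕ} {G : Set (List ℕ)} (hG : ∀ H ∈ G, Legit a b m H)
    (h0 : ∀ k, [lab a k] ∈ G) :
    ∃ r t0, (∀ H ∈ G, ∀ t ≥ t0, (vis t H).length = r →
        ∃ k, lst (vis t H) = lab (orc a b r) k) ∧
      ∀ k, ∃ H ∈ G, H.length = r ∧ ∃ k' > k, lst H = lab (orc a b r) k' := by
  classical
  have hm : 1 ≤ m := by
    have := (hG _ (h0 0)).len
    simpa using this
  -- the highest level that occurs infinitely often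
  let P : ℕ → Prop := fun r => {H ∈ G | H.length = r}.Infinite
  have hP1 : P 1 := by
    refine Set.infinite_of_injective_forall_mem (f := fun k : ℕ => [lab a k]) ?_ ?_
    · intro k k' h
      have h1 : lab a k = lab a k' := by simpa using h
      exact lab_inj h1
    · intro k
      exact ⟨h0 k, rfl⟩
  let r := Nat.findGreatest P m
  have hr : P r := Nat.findGreatest_spec hm hP1
  have hfin : {H ∈ G | r < H.length}.Finite := by
    have h1 : {H ∈ G | r < H.length} ⊆ ⋃ j ∈ Finset.Ioc r m, {H ∈ G | H.length = j} := by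
      rintro H ⟨h1, h2⟩
      simp only [Finset.mem_Ioc, Set.mem_iUnion, exists_prop]
      exact ⟨H.length, ⟨h2, (hG H h1).len⟩, h1, rfl⟩
    refine Set.Finite.subset (Set.Finite.biUnion (Finset.finite_toSet _) ?_) h1
    intro j hj
    have hj' := Finset.mem_Ioc.1 (Finset.mem_coe.1 hj)
    have h2 := Nat.findGreatest_is_greatest (P := P) hj'.1 hj'.2
    exact Set.not_infinite.1 h2
  obtain ⟨t0, ht0⟩ : ∃ t0, ∀ H ∈ {H ∈ G | r < H.length}, lst H ≤ t0 := by
    obtain ⟨t0, h⟩ := (hfin.image lst).bddAbove
    exact ⟨t0, fun H hH => h ⟨H, hH, rfl⟩⟩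
  refine ⟨r, t0, ?_, ?_⟩
  · intro H hH t ht hl
    have h1 : (vis t H).length ≤ H.length := List.length_filter_le _ _
    rcases Nat.lt_or_ge r H.length with h2 | h2
    · have h3 := ht0 H ⟨hH, h2⟩
      have h4 : vis t H = H := vis_eq.2 fun x hx => (le_lst (hG H hH).srt hx).trans (by omega)
      rw [h4] at hl
      omega
    · have h3 : vis t H = H := by
        have h5 : (vis t H).Sublist H := List.filter_sublist
        exact h5.eq_of_length (by omega)
      have h6 : H.length = r := by rw [← h3]; exact hl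
      obtain ⟨k, hk⟩ := (hG H hH).tru
      rw [h6] at hk
      exact ⟨k, by rw [h3]; exact hk⟩
  · intro k
    by_contra hcon
    push Not at hcon
    refine hr (Set.Finite.subset (finite_bounded
      ((Finset.range (k + 1)).sup fun i => lab (orc a b r) i)) ?_)
    rintro H ⟨h1, h2⟩
    obtain ⟨k', hk'⟩ := (hG H h1).tru
    rw [h2] at hk'
    refine ⟨(hG H h1).srt, fun x hx => (le_lst (hG H h1).srt hx).trans ?_⟩
    rw [hk']
    have h3 : k' ≤ k := by
      by_contra h4
      exact hcon H h1 h2 k' (by omega) hk'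
    exact Finset.le_sup (f := fun i => lab (orc a b r) i) (Finset.mem_range.2 (by omega))

end Pool.Agent.R621.BE
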