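import Mathlib
import Pool.Agent.R621.HS.Bie2

/-!
# Primitive recursion for histories
-/

set_option autoImplicit false

namespace Pool.Agent.R621.BE

open Encodable

/-- the sequence read off the first components of the finite part `σ` of an oracle -/
def cs (σ : List ℕ) (i : ℕ) : Bool := decide ((σ.getD i 0).unpair.1 = 1)

theorem p_cs : Primrec₂ cs := by
  unfold cs
  refine Primrec₂.comp (f := fun a b : ℕ => decide (a = b)) ?_ ?_ (Primrec.const 1)
  · exact Primrec.eq.decide
  · exact Primrec.fst.comp (Primrec.unpair.comp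
      ((Primrec.list_getD 0).comp Primrec.fst Primrec.snd))

theorem p_lab : Primrec₂ fun (σ : List ℕ) (k : ℕ) => lab (cs σ) k := by
  unfold lab prb
  refine Primrec.encode.comp (Primrec.list_map (Primrec.list_range.comp Primrec.snd) ?_)
  exact p_cs.comp (Primrec.fst.comp Primrec.fst) Primrec.snd

theorem p_labapx : Primrec fun z : List ℕ × ℕ × ℕ => lab (apx (cs z.1) z.2.1) z.2.2 := by
  unfold lab prb apx
  refine Primrec.encode.comp (Primrec.list_map
    (Primrec.list_range.comp (Primrec.snd.comp Primrec.snd)) ?_)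
  refine p_cs.comp (Primrec.fst.comp Primrec.fst) ?_
  refine Primrec.nat_add.comp (Primrec.nat_mul.comp (Primrec.const 2) ?_) (Primrec.const 1)
  exact Primrec₂.natPair.comp Primrec.snd (Primrec.fst.comp (Primrec.snd.comp Primrec.fst))

theorem p_str : Primrec str := by
  unfold str
  exact Primrec.option_getD.comp Primrec.decode (Primrec.const [])

theorem p_slen : Primrec fun N => (str N).length := Primrec.list_length.comp p_str

theorem p_oks : PrimrecPred fun z : List ℕ × ℕ => oks (cs z.1) z.2 := by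
  unfold oks
  exact Primrec.eq.comp Primrec.snd (p_lab.comp Primrec.fst (p_slen.comp Primrec.snd))

theorem p_oksapx : PrimrecPred fun z : List ℕ × ℕ × ℕ => oks (apx (cs z.1) z.2.1) z.2.2 := by
  unfold oks
  refine Primrec.eq.comp (Primrec.snd.comp Primrec.snd) (p_labapx.comp
    (Primrec.pair Primrec.fst (Primrec.pair (Primrec.fst.comp Primrec.snd)
      (p_slen.comp (Primrec.snd.comp Primrec.snd)))))

/-- `prom` in one argument; `z = (σ, (n, N))` -/
theorem p_prom : PrimrecRel fun (s : ℕ) (z : List ℕ × ℕ × ℕ) => prom (cs z.1) z.2.1 z.2.2 s := by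
  unfold prom
  refine PrimrecPred.and ?_ (PrimrecPred.and ?_ ?_)
  · exact Primrec.nat_le.comp (Primrec.fst.comp (Primrec.snd.comp Primrec.snd)) Primrec.fst
  · exact Primrec.nat_le.comp (Primrec.succ.comp
      (Primrec.snd.comp (Primrec.snd.comp Primrec.snd))) Primrec.fst
  · refine PrimrecPred.not ?_
    exact p_oksapx.comp (Primrec.pair (Primrec.fst.comp Primrec.snd)
      (Primrec.pair Primrec.fst (Primrec.snd.comp (Primrec.snd.comp Primrec.snd))))

theorem p_vis : Primrec₂ vis := by
  have h : PrimrecRel fun (x t : ℕ) => x ≤ t := Primrec.nat_le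
  have h2 := h.listFilter
  exact h2.comp Primrec.snd Primrec.fst

theorem p_lst : Primrec lst := by
  have h : Primrec fun H : List ℕ => (H.reverse.head?).getD 0 :=
    Primrec.option_getD.comp (Primrec.list_head?.comp Primrec.list_reverse) (Primrec.const 0)
  refine h.of_eq fun H => ?_
  unfold lst
  rw [List.head?_reverse]
  cases H with
  | nil => rfl
  | cons x H => simp [List.getLast?_cons]

theorem pw_iff (H : List ℕ) : H.Pairwise (· < ·) ↔ ∀ i ∈ List.range H.length,
    ∀ j ∈ List.range H.length, ¬ i < j ∨ H.getD i 0 < H.getD j 0 := by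
  rw [List.pairwise_iff_getElem]
  constructor
  · intro h i hi j hj
    have hi' := List.mem_range.1 hi
    have hj' := List.mem_range.1 hj
    by_cases hij : i < j
    · right
      rw [List.getD_eq_getElem _ _ hi', List.getD_eq_getElem _ _ hj']
      exact h i j hi' hj' hij
    · exact Or.inl hij
  · intro h i j hi hj hij
    rcases h i (List.mem_range.2 hi) j (List.mem_range.2 hj) with h1 | h1
    · exact absurd hij h1
    · rwa [List.getD_eq_getElem _ _ hi, List.getD_eq_getElem _ _ hj] at h1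

theorem p_pw : PrimrecPred fun H : List ℕ => H.Pairwise (· < ·) := by
  have h1 : PrimrecRel fun (j : ℕ) (z : ℕ × List ℕ) =>
      ¬ z.1 < j ∨ z.2.getD z.1 0 < z.2.getD j 0 := by
    refine PrimrecPred.or (PrimrecPred.not (Primrec.nat_lt.comp (Primrec.fst.comp Primrec.snd)
      Primrec.fst)) ?_
    refine Primrec.nat_lt.comp ?_ ?_
    · exact (Primrec.list_getD 0).comp (Primrec.snd.comp Primrec.snd)
        (Primrec.fst.comp Primrec.snd)
    · exact (Primrec.list_getD 0).comp (Primrec.snd.comp Primrec.snd) Primrec.fst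
  have h2 := h1.forall_mem_list
  have h3 : PrimrecRel fun (i : ℕ) (H : List ℕ) => ∀ j ∈ List.range H.length,
      ¬ i < j ∨ H.getD i 0 < H.getD j 0 :=
    h2.comp (Primrec.list_range.comp (Primrec.list_length.comp Primrec.snd))
      (Primrec.pair Primrec.fst Primrec.snd)
  have h4 := h3.forall_mem_list
  have h5 : PrimrecPred fun H : List ℕ => ∀ i ∈ List.range H.length,
      ∀ j ∈ List.range H.length, ¬ i < j ∨ H.getD i 0 < H.getD j 0 :=
    h4.comp (Primrec.list_range.comp Primrec.list_length) Primrec.id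
  exact h5.of_eq fun H => (pw_iff H).symm

theorem p_norm : Primrec₂ norm := by
  unfold norm
  refine Primrec.ite ?_ Primrec.snd (Primrec.const _)
  refine PrimrecPred.and (p_pw.comp Primrec.snd) (PrimrecPred.and ?_ ?_)
  · exact PrimrecPred.not (Primrec.eq.comp Primrec.snd (Primrec.const []))
  · exact Primrec.nat_le.comp (Primrec.list_length.comp Primrec.snd) Primrec.fst

/-- a step of the promotion -/
def prs (σ K : List ℕ) (n t : ℕ) : List ℕ :=
  (((List.range (t + 1)).filter fun s => decide (prom (cs σ) n (lst K) s)).head?.map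
    fun s => vis t (K ++ [lab (cs σ) s])).getD (vis t K)

theorem p_fil : Primrec₂ fun (L : List ℕ) (z : List ℕ × ℕ × ℕ) =>
    L.filter (fun s => decide (prom (cs z.1) z.2.1 z.2.2 s)) := p_prom.listFilter

theorem p_prs : Primrec fun z : List ℕ × List ℕ × ℕ × ℕ => prs z.1 z.2.1 z.2.2.1 z.2.2.2 := by
  have hσ : Primrec fun z : List ℕ × List ℕ × ℕ × ℕ => z.1 := Primrec.fst
  have hK : Primrec fun z : List ℕ × List ℕ × ℕ × ℕ => z.2.1 := Primrec.fst.comp Primrec.snd
  have hn : Primrec fun z : List ℕ × List ℕ × ℕ × ℕ => z.2.2.1 :=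
    Primrec.fst.comp (Primrec.snd.comp Primrec.snd)
  have ht : Primrec fun z : List ℕ × List ℕ × ℕ × ℕ => z.2.2.2 :=
    Primrec.snd.comp (Primrec.snd.comp Primrec.snd)
  have h1 : Primrec fun z : List ℕ × List ℕ × ℕ × ℕ => List.range (z.2.2.2 + 1) :=
    Primrec.list_range.comp (Primrec.succ.comp ht)
  have h2 : Primrec fun z : List ℕ × List ℕ × ℕ × ℕ => (z.1, z.2.2.1, lst z.2.1) :=
    Primrec.pair hσ (Primrec.pair hn (p_lst.comp hK))
  have h4 : Primrec fun z : List ℕ × List ℕ × ℕ × ℕ => (List.range (z.2.2.2 + 1)).filter fun s =>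
      decide (prom (cs z.1) z.2.2.1 (lst z.2.1) s) :=
    (p_fil.comp h1 h2).of_eq fun z => rfl
  have h5 : Primrec₂ fun (z : List ℕ × List ℕ × ℕ × ℕ) (s : ℕ) =>
      vis z.2.2.2 (z.2.1 ++ [lab (cs z.1) s]) := by
    refine p_vis.comp (ht.comp Primrec.fst) ?_
    refine Primrec.list_concat.comp (hK.comp Primrec.fst) ?_
    exact p_lab.comp (hσ.comp Primrec.fst) Primrec.snd
  exact (Primrec.option_getD.comp (Primrec.option_map (Primrec.list_head?.comp h4) h5)
      (p_vis.comp ht hK)).of_eq fun z => rfl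

/-- the direct case -/
def drs (σ K : List ℕ) (t : ℕ) : List ℕ := vis t (if oks (cs σ) (lst K) then K else [0])

theorem p_drs : Primrec fun z : List ℕ × List ℕ × ℕ => drs z.1 z.2.1 z.2.2 := by
  have hK : Primrec fun z : List ℕ × List ℕ × ℕ => z.2.1 := Primrec.fst.comp Primrec.snd
  have h2 : PrimrecPred fun z : List ℕ × List ℕ × ℕ => oks (cs z.1) (lst z.2.1) :=
    p_oks.comp (Primrec.pair Primrec.fst (p_lst.comp hK))
  exact p_vis.comp (Primrec.snd.comp Primrec.snd) (Primrec.ite h2 hK (Primrec.const [0]))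

theorem stt_cs (σ : List ℕ) (m : ℕ) (H : List ℕ) (n t : ℕ) : stt (cs σ) m H n t =
    if (norm m H).length % 2 = m % 2 then drs σ (norm m H) t else prs σ (norm m H) n t := rfl

/-- input of `stt`: `(σ, (m, (H, (n, t))))` -/
theorem p_stt : Primrec fun z : List ℕ × ℕ × List ℕ × ℕ × ℕ =>
    stt (cs z.1) z.2.1 z.2.2.1 z.2.2.2.1 z.2.2.2.2 := by
  have hσ : Primrec fun z : List ℕ × ℕ × List ℕ × ℕ × ℕ => z.1 := Primrec.fst
  have hm : Primrec fun z : List ℕ × ℕ × List ℕ × ℕ × ℕ => z.2.1 := Primrec.fst.comp Primrec.snd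
  have hH : Primrec fun z : List ℕ × ℕ × List ℕ × ℕ × ℕ => z.2.2.1 :=
    Primrec.fst.comp (Primrec.snd.comp Primrec.snd)
  have hn : Primrec fun z : List ℕ × ℕ × List ℕ × ℕ × ℕ => z.2.2.2.1 :=
    Primrec.fst.comp (Primrec.snd.comp (Primrec.snd.comp Primrec.snd))
  have ht : Primrec fun z : List ℕ × ℕ × List ℕ × ℕ × ℕ => z.2.2.2.2 :=
    Primrec.snd.comp (Primrec.snd.comp (Primrec.snd.comp Primrec.snd))
  have hK : Primrec fun z : List ℕ × ℕ × List ℕ × ℕ × ℕ => norm z.2.1 z.2.2.1 :=
    p_norm.comp hm hH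
  have h1 : PrimrecPred fun z : List ℕ × ℕ × List ℕ × ℕ × ℕ =>
      (norm z.2.1 z.2.2.1).length % 2 = z.2.1 % 2 :=
    Primrec.eq.comp (Primrec.nat_mod.comp (Primrec.list_length.comp hK)
      (Primrec.const 2)) (Primrec.nat_mod.comp hm (Primrec.const 2))
  have h2 : Primrec fun z : List ℕ × ℕ × List ℕ × ℕ × ℕ =>
      drs z.1 (norm z.2.1 z.2.2.1) z.2.2.2.2 :=
    (p_drs.comp (Primrec.pair hσ (Primrec.pair hK ht))).of_eq fun z => rfl
  have h3 : Primrec fun z : List ℕ × ℕ × List ℕ × ℕ × ℕ =>
      prs z.1 (norm z.2.1 z.2.2.1) z.2.2.2.1 z.2.2.2.2 :=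
    (p_prs.comp (Primrec.pair hσ (Primrec.pair hK (Primrec.pair hn ht)))).of_eq fun z => rfl
  exact (Primrec.ite h1 h2 h3).of_eq fun z => (stt_cs _ _ _ _ _).symm

/-! ### The use of the oracle -/

/-- a bound for the queries of `stt` -/
def use (m : ℕ) (H : List ℕ) (t : ℕ) : ℕ :=
  2 * Nat.pair (str (lst (norm m H))).length t + 2

theorem p_use : Primrec fun z : ℕ × List ℕ × ℕ => use z.1 z.2.1 z.2.2 := by
  unfold use
  refine Primrec.nat_add.comp (Primrec.nat_mul.comp (Primrec.const 2) ?_) (Primrec.const 2)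
  refine Primrec₂.natPair.comp (p_slen.comp (p_lst.comp (p_norm.comp Primrec.fst
    (Primrec.fst.comp Primrec.snd)))) (Primrec.snd.comp Primrec.snd)

theorem lab_congr {c c' : ℕ → Bool} {k : ℕ} (h : ∀ i < k, c i = c' i) : lab c k = lab c' k := by
  unfold lab
  rw [prb_congr h]

theorem stt_congr {c c' : ℕ → Bool} {m : ℕ} {H : List ℕ} {n t : ℕ}
    (h : ∀ i < use m H t, c i = c' i) : stt c m H n t = stt c' m H n t := by
  set l := (str (lst (norm m H))).length with hl
  have hu : use m H t = 2 * Nat.pair l t + 2 := rfl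
  have h1 : l ≤ Nat.pair l t := Nat.left_le_pair _ _
  have h2 : t ≤ Nat.pair l t := Nat.right_le_pair _ _
  have e1 : lab c l = lab c' l := lab_congr fun i hi => h i (by omega)
  have e2 : ∀ s ≤ t, lab c s = lab c' s := fun s hs => lab_congr fun i hi => h i (by omega)
  have e3 : ∀ s ≤ t, lab (apx c s) l = lab (apx c' s) l := by
    intro s hs
    refine lab_congr fun i hi => ?_
    unfold apx
    apply h
    have h3 : Nat.pair i s ≤ Nat.pair i t := by
      rcases Nat.lt_or_eq_of_le hs with h4 | h4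
      · exact le_of_lt (Nat.pair_lt_pair_right i h4)
      · rw [h4]
    have h5 : Nat.pair i t < Nat.pair l t := Nat.pair_lt_pair_left t hi
    omega
  have e4 : oks c (lst (norm m H)) ↔ oks c' (lst (norm m H)) := by
    unfold oks
    rw [← hl, e1]
  have e5 : ∀ s ≤ t, (prom c n (lst (norm m H)) s ↔ prom c' n (lst (norm m H)) s) := by
    intro s hs
    unfold prom oks
    rw [← hl, e3 s hs]
  have e6 : (List.range (t + 1)).filter (fun s => decide (prom c n (lst (norm m H)) s)) =
      (List.range (t + 1)).filter (fun s => decide (prom c' n (lst (norm m H)) s)) := by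
    refine List.filter_congr fun s hs => ?_
    have hs' := List.mem_range.1 hs
    exact decide_eq_decide.2 (e5 s (by omega))
  unfold stt
  rw [e6]
  by_cases h6 : (norm m H).length % 2 = m % 2
  · rw [if_pos h6, if_pos h6]
    by_cases h7 : oks c (lst (norm m H))
    · rw [if_pos h7, if_pos (e4.1 h7)]
    · rw [if_neg h7, if_neg fun h8 => h7 (e4.2 h8)]
  · rw [if_neg h6, if_neg h6]
    congr 1
    cases h7 : ((List.range (t + 1)).filter
        (fun s => decide (prom c' n (lst (norm m H)) s))).head? with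
    | none => rfl
    | some s =>
      have h8 := List.mem_of_head? h7
      have h9 := List.mem_range.1 (List.mem_filter.1 h8).1
      simp only [Option.map_some]
      rw [e2 s (by omega)]

end Pool.Agent.R621.BE
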