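import Mathlib
import Pool.Agent.R621.HS.Bie3

/-!
# The structures
-/

set_option autoImplicit false

namespace Pool.Agent.R621.BE

open Encodable Helper760.OracleNF

/-- a binary relation symbol and infinitely many unary relation symbols -/
def TL : Lng where
  kind := fun _ => 1
  ar := fun i => if i = 0 then 2 else 1
  kind_comp := Computable.const 1
  ar_comp := (Primrec.ite (Primrec.eq.comp Primrec.id (Primrec.const 0)) (Primrec.const 2)
    (Primrec.const 1)).to_comp

/-- the structure with components given by `κ` and histories given by `F` -/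
def mk (κ : ℕ → ℕ) (F : ℕ → List ℕ) : Strc TL where
  univ := Set.univ
  nonempty := ⟨0, trivial⟩
  rel i v := if i = 0 then κ (v.getD 0 0) = κ (v.getD 1 0)
    else encode (vis (i - 1).unpair.1 (F (v.getD 0 0))) = (i - 1).unpair.2
  fn _ _ := 0
  fn_mem _ _ _ := trivial

theorem emb_mk {κ κ' : ℕ → ℕ} {F F' : ℕ → List ℕ} {f : ℕ → ℕ} (h1 : Function.Injective f)
    (h2 : ∀ x y, κ' (f x) = κ' (f y) ↔ κ x = κ y) (h3 : ∀ x, F' (f x) = F x) :
    Emb (mk κ F) (mk κ' F') f where
  mem _ _ := trivial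
  inj x _ y _ h := h1 h
  rel := by
    rintro i v ⟨_, hl, _⟩
    by_cases hi : i = 0
    · have hl' : v.length = 2 := by rw [hl]; simp [TL, hi]
      obtain ⟨x, y, rfl⟩ := List.length_eq_two.1 hl'
      simp [mk, hi, h2]
    · have hl' : v.length = 1 := by rw [hl]; simp [TL, hi]
      obtain ⟨x, rfl⟩ := List.length_eq_one_iff.1 hl'
      simp [mk, hi, h3]
  fn := by
    rintro i v ⟨h, _⟩
    simp [TL] at h

/-- the component of `x` -/
def kap (x : ℕ) : ℕ := if x % 2 = 1 then 0 else (x / 2).unpair.1 + 1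

open Classical in
/-- the history of `x` -/
noncomputable def his (a b : ℕ → Bool) (p : ℕ) (D : Set ℕ) (x : ℕ) : List ℕ :=
  if x % 2 = 1 then (if x / 2 ∈ D then [lab a 1] else [0])
  else fin (orc a b p) (2 * (x / 2).unpair.1.unpair.1 + p)
    (Denumerable.ofNat (List ℕ) (x / 2).unpair.2.unpair.1) (x / 2).unpair.2.unpair.2

/-- the structure with parity `p` and parameter `D` -/
noncomputable def bst (a b : ℕ → Bool) (p : ℕ) (D : Set ℕ) : Strc TL := mk kap (his a b p D)

/-- the level of a component -/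
def lev (p q : ℕ) : ℕ := if q = 0 then 1 else 2 * (q - 1).unpair.1 + p

theorem his_legit {a b : ℕ → Bool} (hg : Good a b) {p : ℕ} (hp : 1 ≤ p) (D : Set ℕ) (x : ℕ) :
    Legit a b (lev p (kap x)) (his a b p D x) := by
  unfold his kap lev
  by_cases h : x % 2 = 1
  · rw [if_pos h, if_pos h, if_pos rfl]
    split_ifs with h1
    · exact ⟨List.pairwise_singleton _ _, by simp, by simp, 1, rfl⟩
    · exact legit_zero le_rfl
  · rw [if_neg h, if_neg h, if_neg (Nat.succ_ne_zero _), Nat.add_sub_cancel]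
    have h1 : orc a b p = orc a b (2 * (x / 2).unpair.1.unpair.1 + p) := orc_congr (by omega)
    rw [h1]
    exact fin_legit hg (by omega) _ _

/-- the element with component `(j, e)`, history code `H` and number `n` -/
def elt (q : ℕ) (H : List ℕ) (n : ℕ) : ℕ := 2 * Nat.pair q (Nat.pair (encode H) n)

theorem kap_elt (q : ℕ) (H : List ℕ) (n : ℕ) : kap (elt q H n) = q + 1 := by
  unfold kap elt
  rw [if_neg (by omega)]
  simp

theorem his_elt (a b : ℕ → Bool) (p : ℕ) (D : Set ℕ) (q : ℕ) (H : List ℕ) (n : ℕ) :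
    his a b p D (elt q H n) = fin (orc a b p) (2 * q.unpair.1 + p) H n := by
  unfold his elt
  rw [if_neg (by omega)]
  simp

theorem his_real {a b : ℕ → Bool} (hg : Good a b) (p : ℕ) (D : Set ℕ) (q : ℕ) {H : List ℕ}
    (hH : Legit a b (2 * q.unpair.1 + p) H) : ∃ N, ∀ n ≥ N, his a b p D (elt q H n) = H := by
  obtain ⟨N, hN⟩ := fin_real hg hH
  refine ⟨N, fun n hn => ?_⟩
  rw [his_elt]
  have h1 : orc a b p = orc a b (2 * q.unpair.1 + p) := orc_congr (by omega)
  rw [h1]
  exact hN n hn

/-- the map of components used for the embeddings -/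
def phi (q : ℕ) : ℕ := if q = 0 then 0 else Nat.pair ((q - 1).unpair.1 + 1) ((q - 1).unpair.2 + 1)

theorem phi_inj {q q' : ℕ} : phi q = phi q' ↔ q = q' := by
  constructor
  · unfold phi
    intro h
    have h0 : ∀ u v : ℕ, Nat.pair (u + 1) (v + 1) ≠ 0 := by
      intro u v h1
      have h2 := Nat.left_le_pair (u + 1) (v + 1)
      omega
    by_cases h1 : q = 0
    · by_cases h2 : q' = 0
      · rw [h1, h2]
      · rw [if_pos h1, if_neg h2] at h
        exact absurd h.symm (h0 _ _)
    · by_cases h2 : q' = 0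
      · rw [if_neg h1, if_pos h2] at h
        exact absurd h (h0 _ _)
      · rw [if_neg h1, if_neg h2] at h
        obtain ⟨h3, h4⟩ := Nat.pair_eq_pair.1 h
        have h5 : (q - 1).unpair = (q' - 1).unpair := Prod.ext (by omega) (by omega)
        have h6 : q - 1 = q' - 1 := by
          rw [← Nat.pair_unpair (q - 1), ← Nat.pair_unpair (q' - 1), h5]
        omega
  · intro h
    rw [h]

theorem lev_phi {p p' : ℕ} (hp : p ≤ 2) (hp' : 1 ≤ p') (q : ℕ) :
    lev p q ≤ 2 * (phi q).unpair.1 + p' := by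
  unfold lev phi
  by_cases h : q = 0
  · rw [if_pos h]
    omega
  · rw [if_neg h, if_neg h, Nat.unpair_pair]
    simp only
    omega

theorem exists_emb {a b : ℕ → Bool} (hg : Good a b) {p p' : ℕ} (hp : 1 ≤ p) (hp2 : p ≤ 2)
    (hp' : 1 ≤ p') (D D' : Set ℕ) : ∃ f, Emb (bst a b p D) (bst a b p' D') f := by
  have h1 : ∀ x, ∃ N, ∀ n ≥ N, his a b p' D' (elt (phi (kap x)) (his a b p D x) n) =
      his a b p D x := fun x => his_real hg p' D' _
        ((his_legit hg hp D x).mono (lev_phi hp2 hp' _))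
  let N : List ℕ → ℕ → ℕ := fun H q => sInf {N | ∀ n ≥ N, his a b p' D' (elt q H n) = H}
  have hN : ∀ x, ∀ n ≥ N (his a b p D x) (phi (kap x)),
      his a b p' D' (elt (phi (kap x)) (his a b p D x) n) = his a b p D x := by
    intro x
    exact Nat.sInf_mem (s := {N | ∀ n ≥ N, his a b p' D' (elt (phi (kap x)) (his a b p D x) n) =
      his a b p D x}) (h1 x)
  refine ⟨fun x => elt (phi (kap x)) (his a b p D x) (N (his a b p D x) (phi (kap x)) + x),
    emb_mk ?_ ?_ ?_⟩
  · intro x y h
    simp only [elt] at h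
    have h2 := Nat.eq_of_mul_eq_mul_left (by norm_num) h
    obtain ⟨h3, h4⟩ := Nat.pair_eq_pair.1 h2
    obtain ⟨h5, h6⟩ := Nat.pair_eq_pair.1 h4
    have h7 := encode_injective h5
    rw [h3, h7] at h6
    omega
  · intro x y
    simp only [kap_elt]
    rw [← phi_inj (q := kap x)]
    omega
  · intro x
    exact hN x _ (by omega)

/-! ### The degree of the structure -/

theorem biEmb_bst {a b : ℕ → Bool} (hg : Good a b) {p p' : ℕ} (hp : 1 ≤ p) (hp2 : p ≤ 2)
    (hp' : 1 ≤ p') (hp2' : p' ≤ 2) (D D' : Set ℕ) : BiEmb (bst a b p D) (bst a b p' D') :=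
  ⟨exists_emb hg hp hp2 hp' D D', exists_emb hg hp' hp2' hp D' D⟩

/-- the set coded by a sequence -/
def setOf' (c : ℕ → Bool) : Set ℕ := {n | c n = true}

theorem param_red {a b : ℕ → Bool} {p : ℕ} {D : Set ℕ} : TRed D (bst a b p D).diag := by
  have hP : Primrec fun k : ℕ => Nat.pair (2 * (Nat.pair (lab a 1) (encode [lab a 1]) + 1) + 1)
      (encode [2 * k + 1]) := by
    refine Primrec₂.natPair.comp (Primrec.const _) (Primrec.encode.comp ?_)
    refine Primrec.list_cons.comp ?_ (Primrec.const [])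
    exact Primrec.succ.comp (Primrec.nat_mul.comp (Primrec.const 2) Primrec.id)
  refine tred_of_primrec hP fun k => ?_
  rw [diag_rel]
  have h1 : TL.Tup 1 (Nat.pair (lab a 1) (encode [lab a 1]) + 1) (bst a b p D).univ [2 * k + 1] :=
    ⟨rfl, by simp [TL], fun _ _ => trivial⟩
  have h2 : (2 * k + 1) % 2 = 1 := by omega
  have h3 : (2 * k + 1) / 2 = k := by omega
  have h4 : (bst a b p D).rel (Nat.pair (lab a 1) (encode [lab a 1]) + 1) [2 * k + 1] ↔
      encode (vis (lab a 1) (his a b p D (2 * k + 1))) = encode [lab a 1] := by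
    simp [bst, mk]
  rw [h4]
  unfold his
  rw [if_pos h2, h3]
  constructor
  · intro h
    refine ⟨h1, ?_⟩
    rw [if_pos h, vis_eq.2 (by simp)]
  · rintro ⟨_, h⟩
    by_contra h5
    rw [if_neg h5] at h
    have h6 := encode_injective h
    have h7 : vis (lab a 1) [0] = [0] := vis_eq.2 (by simp)
    rw [h7] at h6
    have h8 := le_lab a 1
    have h9 : (0 : ℕ) = lab a 1 := by simpa using h6
    omega

end Pool.Agent.R621.BE
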