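import Mathlib
import Pool.Agent.R621.HS.Bie4

/-!
# The structures are computable in the parameter
-/

set_option autoImplicit false

namespace Pool.Agent.R621.BE

open Encodable Helper760.OracleNF

theorem diag_TL {B : Strc TL} (hB : B.univ = Set.univ) {q : ℕ} : q ∈ B.diag ↔ q.unpair.1 = 0 ∨
    (q.unpair.1 % 2 = 1 ∧ (Denumerable.ofNat (List ℕ) q.unpair.2).length =
      (if q.unpair.1 / 2 = 0 then 2 else 1) ∧
      B.rel (q.unpair.1 / 2) (Denumerable.ofNat (List ℕ) q.unpair.2)) := by
  constructor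
  · rintro (⟨x, hx, rfl⟩ | ⟨i, v, h1, h2, rfl⟩ | ⟨i, v, h1, rfl⟩)
    · left
      simp
    · right
      rw [Nat.unpair_pair]
      simp only [Denumerable.ofNat_encode]
      have h3 : (2 * i + 1) / 2 = i := by omega
      rw [h3]
      exact ⟨by omega, h1.2.1, h2⟩
    · exact absurd h1.1 (by simp [TL])
  · rintro (h | ⟨h1, h2, h3⟩)
    · left
      refine ⟨q.unpair.2, by rw [hB]; trivial, ?_⟩
      rw [← h, Nat.pair_unpair]
    · right
      left
      refine ⟨q.unpair.1 / 2, Denumerable.ofNat (List ℕ) q.unpair.2,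
        ⟨rfl, h2, fun x _ => by rw [hB]; trivial⟩, h3, ?_⟩
      rw [Denumerable.encode_ofNat]
      have h4 : 2 * (q.unpair.1 / 2) + 1 = q.unpair.1 := by omega
      rw [h4, Nat.pair_unpair]

/-- the history of `x` visible at `t`, from the finite part `σ` of the oracle -/
def visL (l1 p : ℕ) (σ : List ℕ) (t x : ℕ) : List ℕ :=
  if x % 2 = 1 then vis t (if (σ.getD (x / 2) 0).unpair.2 = 1 then [l1] else [0])
  else stt (cs σ) (2 * (x / 2).unpair.1.unpair.1 + p)
    (Denumerable.ofNat (List ℕ) (x / 2).unpair.2.unpair.1) (x / 2).unpair.2.unpair.2 t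

/-- membership in the diagram, from the finite part `σ` of the oracle -/
def diagL (l1 p : ℕ) (σ : List ℕ) (q : ℕ) : Prop :=
  q.unpair.1 = 0 ∨ (q.unpair.1 % 2 = 1 ∧ (Denumerable.ofNat (List ℕ) q.unpair.2).length =
      (if q.unpair.1 / 2 = 0 then 2 else 1) ∧
      (if q.unpair.1 / 2 = 0 then kap ((Denumerable.ofNat (List ℕ) q.unpair.2).getD 0 0) =
          kap ((Denumerable.ofNat (List ℕ) q.unpair.2).getD 1 0)
        else encode (visL l1 p σ (q.unpair.1 / 2 - 1).unpair.1
          ((Denumerable.ofNat (List ℕ) q.unpair.2).getD 0 0)) = (q.unpair.1 / 2 - 1).unpair.2))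

instance (l1 p : ℕ) (σ : List ℕ) (q : ℕ) : Decidable (diagL l1 p σ q) := by
  unfold diagL
  infer_instance

/-- a bound for the queries -/
def bdq (p q : ℕ) : ℕ :=
  ((Denumerable.ofNat (List ℕ) q.unpair.2).getD 0 0) / 2 + 1 +
    use (2 * (((Denumerable.ofNat (List ℕ) q.unpair.2).getD 0 0) / 2).unpair.1.unpair.1 + p)
      (Denumerable.ofNat (List ℕ)
        (((Denumerable.ofNat (List ℕ) q.unpair.2).getD 0 0) / 2).unpair.2.unpair.1)
      (q.unpair.1 / 2 - 1).unpair.1

theorem p_half : Primrec fun x : ℕ => x / 2 := Primrec.nat_div.comp Primrec.id (Primrec.const 2)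

theorem p_odd : PrimrecPred fun x : ℕ => x % 2 = 1 :=
  Primrec.eq.comp (Primrec.nat_mod.comp Primrec.id (Primrec.const 2)) (Primrec.const 1)

theorem p_kap : Primrec kap := by
  unfold kap
  exact Primrec.ite p_odd (Primrec.const 0)
    (Primrec.succ.comp (Primrec.fst.comp (Primrec.unpair.comp p_half)))

theorem p_arg (i : ℕ) : Primrec fun q : ℕ => (Denumerable.ofNat (List ℕ) q.unpair.2).getD i 0 :=
  (Primrec.list_getD 0).comp ((Primrec.ofNat (List ℕ)).comp (Primrec.snd.comp Primrec.unpair))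
    (Primrec.const i)

theorem p_visL (l1 p : ℕ) : Primrec fun z : List ℕ × ℕ × ℕ => visL l1 p z.1 z.2.1 z.2.2 := by
  have hσ : Primrec fun z : List ℕ × ℕ × ℕ => z.1 := Primrec.fst
  have ht : Primrec fun z : List ℕ × ℕ × ℕ => z.2.1 := Primrec.fst.comp Primrec.snd
  have hx : Primrec fun z : List ℕ × ℕ × ℕ => z.2.2 := Primrec.snd.comp Primrec.snd
  have hh : Primrec fun z : List ℕ × ℕ × ℕ => z.2.2 / 2 := p_half.comp hx
  have h1 : PrimrecPred fun z : List ℕ × ℕ × ℕ => z.2.2 % 2 = 1 := p_odd.comp hx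
  have h2 : PrimrecPred fun z : List ℕ × ℕ × ℕ => (z.1.getD (z.2.2 / 2) 0).unpair.2 = 1 :=
    Primrec.eq.comp (Primrec.snd.comp (Primrec.unpair.comp ((Primrec.list_getD 0).comp hσ hh)))
      (Primrec.const 1)
  have h3 : Primrec fun z : List ℕ × ℕ × ℕ =>
      vis z.2.1 (if (z.1.getD (z.2.2 / 2) 0).unpair.2 = 1 then [l1] else [0]) :=
    p_vis.comp ht (Primrec.ite h2 (Primrec.const [l1]) (Primrec.const [0]))
  have h4 : Primrec fun z : List ℕ × ℕ × ℕ => 2 * (z.2.2 / 2).unpair.1.unpair.1 + p :=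
    Primrec.nat_add.comp (Primrec.nat_mul.comp (Primrec.const 2) (Primrec.fst.comp
      (Primrec.unpair.comp (Primrec.fst.comp (Primrec.unpair.comp hh))))) (Primrec.const p)
  have h5 : Primrec fun z : List ℕ × ℕ × ℕ =>
      Denumerable.ofNat (List ℕ) (z.2.2 / 2).unpair.2.unpair.1 :=
    (Primrec.ofNat (List ℕ)).comp (Primrec.fst.comp
      (Primrec.unpair.comp (Primrec.snd.comp (Primrec.unpair.comp hh))))
  have h6 : Primrec fun z : List ℕ × ℕ × ℕ => (z.2.2 / 2).unpair.2.unpair.2 :=
    Primrec.snd.comp (Primrec.unpair.comp (Primrec.snd.comp (Primrec.unpair.comp hh)))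
  have h7 : Primrec fun z : List ℕ × ℕ × ℕ => stt (cs z.1) (2 * (z.2.2 / 2).unpair.1.unpair.1 + p)
    (Denumerable.ofNat (List ℕ) (z.2.2 / 2).unpair.2.unpair.1) (z.2.2 / 2).unpair.2.unpair.2
      z.2.1 :=
    (p_stt.comp (Primrec.pair hσ (Primrec.pair h4 (Primrec.pair h5
      (Primrec.pair h6 ht))))).of_eq fun z => rfl
  exact (Primrec.ite h1 h3 h7).of_eq fun z => rfl

theorem p_diagL (l1 p : ℕ) : PrimrecPred fun z : List ℕ × ℕ => diagL l1 p z.1 z.2 := by
  have hq : Primrec fun z : List ℕ × ℕ => z.2.unpair.1 :=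
    Primrec.fst.comp (Primrec.unpair.comp Primrec.snd)
  have hv : Primrec fun z : List ℕ × ℕ => Denumerable.ofNat (List ℕ) z.2.unpair.2 :=
    (Primrec.ofNat (List ℕ)).comp (Primrec.snd.comp (Primrec.unpair.comp Primrec.snd))
  have h0 : PrimrecPred fun z : List ℕ × ℕ => z.2.unpair.1 = 0 :=
    Primrec.eq.comp hq (Primrec.const 0)
  have h1 : PrimrecPred fun z : List ℕ × ℕ => z.2.unpair.1 % 2 = 1 := p_odd.comp hq
  have h2 : PrimrecPred fun z : List ℕ × ℕ => z.2.unpair.1 / 2 = 0 :=
    Primrec.eq.comp (p_half.comp hq) (Primrec.const 0)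
  have h3 : PrimrecPred fun z : List ℕ × ℕ =>
      (Denumerable.ofNat (List ℕ) z.2.unpair.2).length =
        (if z.2.unpair.1 / 2 = 0 then 2 else 1) :=
    Primrec.eq.comp (Primrec.list_length.comp hv)
      (Primrec.ite h2 (Primrec.const 2) (Primrec.const 1))
  have h4 : PrimrecPred fun z : List ℕ × ℕ =>
      kap ((Denumerable.ofNat (List ℕ) z.2.unpair.2).getD 0 0) =
          kap ((Denumerable.ofNat (List ℕ) z.2.unpair.2).getD 1 0) :=
    Primrec.eq.comp (p_kap.comp ((p_arg 0).comp Primrec.snd))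
      (p_kap.comp ((p_arg 1).comp Primrec.snd))
  have ht : Primrec fun z : List ℕ × ℕ => (z.2.unpair.1 / 2 - 1).unpair :=
    Primrec.unpair.comp (Primrec.pred.comp (p_half.comp hq))
  have h5 : PrimrecPred fun z : List ℕ × ℕ =>
      encode (visL l1 p z.1 (z.2.unpair.1 / 2 - 1).unpair.1
          ((Denumerable.ofNat (List ℕ) z.2.unpair.2).getD 0 0)) =
            (z.2.unpair.1 / 2 - 1).unpair.2 := by
    refine Primrec.eq.comp (Primrec.encode.comp ?_) (Primrec.snd.comp ht)
    exact ((p_visL l1 p).comp (Primrec.pair Primrec.fst (Primrec.pair (Primrec.fst.comp ht)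
      ((p_arg 0).comp Primrec.snd)))).of_eq fun z => rfl
  have h6 : PrimrecPred fun z : List ℕ × ℕ =>
      (if z.2.unpair.1 / 2 = 0 then kap ((Denumerable.ofNat (List ℕ) z.2.unpair.2).getD 0 0) =
          kap ((Denumerable.ofNat (List ℕ) z.2.unpair.2).getD 1 0)
        else encode (visL l1 p z.1 (z.2.unpair.1 / 2 - 1).unpair.1
          ((Denumerable.ofNat (List ℕ) z.2.unpair.2).getD 0 0)) =
            (z.2.unpair.1 / 2 - 1).unpair.2) := by
    refine ((h2.and h4).or ((h2.not).and h5)).of_eq fun z => ?_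
    by_cases h : z.2.unpair.1 / 2 = 0
    · rw [if_pos h]
      simp [h]
    · rw [if_neg h]
      simp [h]
  exact h0.or (h1.and (h3.and h6))

theorem p_bdq (p : ℕ) : Primrec (bdq p) := by
  have hx : Primrec fun q : ℕ => ((Denumerable.ofNat (List ℕ) q.unpair.2).getD 0 0) / 2 :=
    p_half.comp (p_arg 0)
  have h4 : Primrec fun q : ℕ =>
      2 * (((Denumerable.ofNat (List ℕ) q.unpair.2).getD 0 0) / 2).unpair.1.unpair.1 + p :=
    Primrec.nat_add.comp (Primrec.nat_mul.comp (Primrec.const 2) (Primrec.fst.comp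
      (Primrec.unpair.comp (Primrec.fst.comp (Primrec.unpair.comp hx))))) (Primrec.const p)
  have h5 : Primrec fun q : ℕ => Denumerable.ofNat (List ℕ)
        (((Denumerable.ofNat (List ℕ) q.unpair.2).getD 0 0) / 2).unpair.2.unpair.1 :=
    (Primrec.ofNat (List ℕ)).comp (Primrec.fst.comp
      (Primrec.unpair.comp (Primrec.snd.comp (Primrec.unpair.comp hx))))
  have ht : Primrec fun q : ℕ => (q.unpair.1 / 2 - 1).unpair.1 :=
    Primrec.fst.comp (Primrec.unpair.comp (Primrec.pred.comp
      (p_half.comp (Primrec.fst.comp Primrec.unpair))))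
  unfold bdq
  refine Primrec.nat_add.comp (Primrec.succ.comp hx) ?_
  exact (p_use.comp (Primrec.pair h4 (Primrec.pair h5 ht))).of_eq fun z => rfl

theorem getD_pre {g : ℕ → ℕ} {K i : ℕ} (h : i < K) : (pre g K).getD i 0 = g i := by
  have h1 : (pre g K)[i]? = some (g i) := (getElem?_pre g i K _).2 ⟨h, rfl⟩
  rw [List.getD_eq_getElem?_getD, h1]
  rfl

theorem bst_red {a b : ℕ → Bool} {p : ℕ} {D : Set ℕ} (hD : TRed (setOf' (orc a b p)) D) :
    TRed (bst a b p D).diag D := by
  classical
  set c := orc a b p with hc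
  let g : ℕ → ℕ := fun n => Nat.pair (chi (setOf' c) n) (chi D n)
  have hg : TuringReducible (g : ℕ →. ℕ) (chi D : ℕ →. ℕ) := by
    have h1 : Nat.RecursiveIn {(chi D : ℕ →. ℕ)} (fun n => Part.some (chi (setOf' c) n)) :=
      RecursiveIn.iff_nat.1 hD
    have h2 : Nat.RecursiveIn {(chi D : ℕ →. ℕ)} (fun n => Part.some (chi D n)) :=
      recIn_oracle (chi D)
    exact RecursiveIn.iff_nat.2 (recIn_pair (chi D) h1 h2)
  refine TuringReducible.trans ?_ hg
  have key : ∀ q K, bdq p q ≤ K →
      (diagL (lab a 1) p (pre g K) q ↔ q ∈ (bst a b p D).diag) := by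
    intro q K hK
    rw [diag_TL rfl]
    unfold diagL
    refine or_congr Iff.rfl (and_congr Iff.rfl (and_congr Iff.rfl ?_))
    show _ ↔ (if q.unpair.1 / 2 = 0 then _ else _)
    by_cases hq : q.unpair.1 / 2 = 0
    · rw [if_pos hq, if_pos hq]
    · rw [if_neg hq, if_neg hq]
      set x := (Denumerable.ofNat (List ℕ) q.unpair.2).getD 0 0 with hx
      set t := (q.unpair.1 / 2 - 1).unpair.1 with ht
      have h1 : visL (lab a 1) p (pre g K) t x = vis t (his a b p D x) := by
        unfold visL his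
        by_cases h2 : x % 2 = 1
        · rw [if_pos h2, if_pos h2]
          have h3 : x / 2 < K := by
            unfold bdq at hK
            rw [← hx] at hK
            omega
          rw [getD_pre h3]
          simp only [g, Nat.unpair_pair]
          by_cases h4 : x / 2 ∈ D
          · rw [if_pos (chi_one.2 h4), if_pos h4]
          · rw [if_neg fun h5 => h4 (chi_one.1 h5), if_neg h4]
        · rw [if_neg h2, if_neg h2, ← stt_eq]
          apply stt_congr
          intro i hi
          have h3 : i < K := by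
            unfold bdq at hK
            rw [← hx, ← ht] at hK
            omega
          unfold cs
          rw [getD_pre h3]
          simp only [g, Nat.unpair_pair]
          show decide (chi (setOf' c) i = 1) = c i
          by_cases h4 : c i = true
          · rw [h4]
            exact decide_eq_true (chi_one.2 h4)
          · rw [Bool.not_eq_true] at h4
            rw [h4]
            refine decide_eq_false fun h5 => ?_
            have h6 : c i = true := chi_one.1 h5
            rw [h4] at h6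
            exact absurd h6 (by simp)
      rw [h1]
  refine rec_tot (F := fun σ q => if bdq p q ≤ σ.length then
    some (if diagL (lab a 1) p σ q then 1 else 0) else none) ?_ ?_ ?_
  · refine Primrec.ite (Primrec.nat_le.comp ((p_bdq p).comp Primrec.snd)
      (Primrec.list_length.comp Primrec.fst)) ?_ (Primrec.const none)
    exact Primrec.option_some.comp (Primrec.ite (p_diagL (lab a 1) p) (Primrec.const 1)
      (Primrec.const 0))
  · intro q K v hv
    by_cases h : bdq p q ≤ (pre g K).length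
    · rw [if_pos h] at hv
      rw [length_pre] at h
      have h1 := key q K h
      rw [← Option.some_inj.1 hv]
      by_cases h2 : q ∈ (bst a b p D).diag
      · rw [chi_one.2 h2, if_pos (h1.2 h2)]
      · rw [chi_zero.2 h2, if_neg fun h3 => h2 (h1.1 h3)]
    · rw [if_neg h] at hv
      exact absurd hv (by simp)
  · intro q
    refine ⟨bdq p q, if diagL (lab a 1) p (pre g (bdq p q)) q then 1 else 0, ?_⟩
    rw [if_pos (by rw [length_pre])]

end Pool.Agent.R621.BE
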