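import Mathlib
import Pool.Agent.R621.HS.Bie5

/-!
# Every bi-embeddable structure computes one of the two sequences
-/

set_option autoImplicit false

namespace Pool.Agent.R621.BE

open Encodable Helper760.OracleNF

/-- the condition on a witness `w = (y, (t, h))` -/
def wit (y0 t0 r : ℕ) (w : ℕ) (z : List ℕ × ℕ) : Prop :=
  z.1[Nat.pair 1 (encode [w.unpair.1, y0])]? = some 1 ∧
  z.1[Nat.pair (2 * (Nat.pair w.unpair.2.unpair.1 w.unpair.2.unpair.2 + 1) + 1)
    (encode [w.unpair.1])]? = some 1 ∧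
  t0 ≤ w.unpair.2.unpair.1 ∧ (Denumerable.ofNat (List ℕ) w.unpair.2.unpair.2).length = r ∧
  z.2 < (str (lst (Denumerable.ofNat (List ℕ) w.unpair.2.unpair.2))).length

instance (y0 t0 r w : ℕ) (z : List ℕ × ℕ) : Decidable (wit y0 t0 r w z) := by
  unfold wit
  infer_instance

/-- the value given by the witness `w` -/
def outw (k w : ℕ) : ℕ :=
  if (str (lst (Denumerable.ofNat (List ℕ) w.unpair.2.unpair.2)))[k]? = some true then 1 else 0

theorem p_wit (y0 t0 r : ℕ) : PrimrecRel (wit y0 t0 r) := by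
  have hw : Primrec fun q : ℕ × List ℕ × ℕ => q.1 := Primrec.fst
  have h1 : Primrec fun q : ℕ × List ℕ × ℕ => q.1.unpair.1 :=
    Primrec.fst.comp (Primrec.unpair.comp hw)
  have h2 : Primrec fun q : ℕ × List ℕ × ℕ => q.1.unpair.2 :=
    Primrec.snd.comp (Primrec.unpair.comp hw)
  have h3 : Primrec fun q : ℕ × List ℕ × ℕ => q.1.unpair.2.unpair.1 :=
    Primrec.fst.comp (Primrec.unpair.comp h2)
  have h4 : Primrec fun q : ℕ × List ℕ × ℕ => q.1.unpair.2.unpair.2 :=
    Primrec.snd.comp (Primrec.unpair.comp h2)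
  have h5 : Primrec fun q : ℕ × List ℕ × ℕ =>
      Denumerable.ofNat (List ℕ) q.1.unpair.2.unpair.2 := (Primrec.ofNat (List ℕ)).comp h4
  have hσ : Primrec fun q : ℕ × List ℕ × ℕ => q.2.1 := Primrec.fst.comp Primrec.snd
  have c1 : Primrec fun q : ℕ × List ℕ × ℕ => Nat.pair 1 (encode [q.1.unpair.1, y0]) :=
    Primrec₂.natPair.comp (Primrec.const 1) (Primrec.encode.comp
      (Primrec.list_cons.comp h1 (Primrec.const [y0])))
  have c2 : Primrec fun q : ℕ × List ℕ × ℕ =>
      Nat.pair (2 * (Nat.pair q.1.unpair.2.unpair.1 q.1.unpair.2.unpair.2 + 1) + 1)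
        (encode [q.1.unpair.1]) :=
    Primrec₂.natPair.comp (Primrec.succ.comp (Primrec.nat_mul.comp (Primrec.const 2)
      (Primrec.succ.comp (Primrec₂.natPair.comp h3 h4)))) (Primrec.encode.comp
      (Primrec.list_cons.comp h1 (Primrec.const [])))
  unfold wit
  refine PrimrecPred.and ?_ (PrimrecPred.and ?_ (PrimrecPred.and ?_ (PrimrecPred.and ?_ ?_)))
  · exact Primrec.eq.comp (Primrec.list_getElem?.comp hσ c1) (Primrec.const (some 1))
  · exact Primrec.eq.comp (Primrec.list_getElem?.comp hσ c2) (Primrec.const (some 1))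
  · exact Primrec.nat_le.comp (Primrec.const t0) h3
  · exact Primrec.eq.comp (Primrec.list_length.comp h5) (Primrec.const r)
  · exact Primrec.nat_lt.comp (Primrec.snd.comp Primrec.snd) (p_slen.comp (p_lst.comp h5))

theorem p_outw : Primrec₂ outw := by
  unfold outw
  refine Primrec.ite (Primrec.eq.comp (Primrec.list_getElem?.comp (p_str.comp (p_lst.comp
    ((Primrec.ofNat (List ℕ)).comp ?_))) Primrec.fst) (Primrec.const (some true)))
    (Primrec.const 1) (Primrec.const 0)
  exact Primrec.snd.comp (Primrec.unpair.comp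
    (Primrec.snd.comp (Primrec.unpair.comp Primrec.snd)))

theorem p_witfil (y0 t0 r : ℕ) : Primrec₂ fun (L : List ℕ) (z : List ℕ × ℕ) =>
    L.filter (fun w => decide (wit y0 t0 r w z)) := (p_wit y0 t0 r).listFilter

/-- the search -/
def srw (y0 t0 r : ℕ) (σ : List ℕ) (k : ℕ) : Option ℕ :=
  ((List.range σ.length).filter (fun w => decide (wit y0 t0 r w (σ, k)))).head?.map
    (fun w => outw k w)

theorem p_srw (y0 t0 r : ℕ) : Primrec₂ (srw y0 t0 r) := by
  have h3 : Primrec fun z : List ℕ × ℕ => (List.range z.1.length).filter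
      (fun w => decide (wit y0 t0 r w (z.1, z.2))) :=
    ((p_witfil y0 t0 r).comp (Primrec.list_range.comp (Primrec.list_length.comp Primrec.fst))
      Primrec.id).of_eq fun z => rfl
  refine Primrec.option_map (Primrec.list_head?.comp h3) ?_
  exact p_outw.comp (Primrec.snd.comp Primrec.fst) Primrec.snd

theorem srw_sound {y0 t0 r : ℕ} {σ : List ℕ} {k v : ℕ} (h : srw y0 t0 r σ k = some v) :
    ∃ w, wit y0 t0 r w (σ, k) ∧ outw k w = v := by
  obtain ⟨w, h3, h4⟩ := Option.map_eq_some_iff.1 h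
  have h5 := (List.mem_filter.1 (List.mem_of_head? h3)).2
  exact ⟨w, by simpa using h5, h4⟩

theorem srw_complete {y0 t0 r : ℕ} {σ : List ℕ} {k w : ℕ} (h : wit y0 t0 r w (σ, k))
    (hw : w < σ.length) : ∃ v, srw y0 t0 r σ k = some v := by
  have hm : w ∈ (List.range σ.length).filter (fun w => decide (wit y0 t0 r w (σ, k))) := by
    rw [List.mem_filter, List.mem_range]
    exact ⟨hw, by simpa using h⟩
  unfold srw
  cases h3 : ((List.range σ.length).filter (fun w => decide (wit y0 t0 r w (σ, k)))).head? with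
  | none =>
    rw [List.head?_eq_none_iff] at h3
    rw [h3] at hm
    simp at hm
  | some w' => exact ⟨outw k w', rfl⟩

theorem decode_red {c : ℕ → Bool} {X : Set ℕ} {y0 t0 r : ℕ}
    (h1 : ∀ w k K, wit y0 t0 r w (pre (chi X) K, k) →
      (str (lst (Denumerable.ofNat (List ℕ) w.unpair.2.unpair.2)))[k]? = some (c k))
    (h2 : ∀ k, ∃ w K, wit y0 t0 r w (pre (chi X) K, k)) : TRed (setOf' c) X := by
  have hval : ∀ w k K, wit y0 t0 r w (pre (chi X) K, k) → outw k w = chi (setOf' c) k := by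
    intro w k K h
    unfold outw
    rw [h1 w k K h]
    by_cases h3 : c k = true
    · rw [h3, if_pos rfl]
      exact (chi_one.2 h3).symm
    · have h4 : c k = false := by simpa using h3
      rw [h4, if_neg (by simp)]
      exact (chi_zero.2 h3).symm
  refine rec_tot (p_srw y0 t0 r) ?_ ?_
  · intro k K v hv
    obtain ⟨w, h3, h4⟩ := srw_sound hv
    rw [← h4]
    exact hval w k K h3
  · intro k
    obtain ⟨w, K, h⟩ := h2 k
    have hmono : wit y0 t0 r w (pre (chi X) (max K (w + 1)), k) := by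
      obtain ⟨e1, e2, e3, e4, e5⟩ := h
      exact ⟨getElem?_ext (pre_le _ (le_max_left _ _)) e1,
        getElem?_ext (pre_le _ (le_max_left _ _)) e2, e3, e4, e5⟩
    exact ⟨max K (w + 1), srw_complete hmono (by rw [length_pre]; omega)⟩

theorem decode_any {a b : ℕ → Bool} (hg : Good a b) {p : ℕ} (hp : 1 ≤ p) {D : Set ℕ}
    {B : Strc TL} (h : BiEmb (bst a b p D) B) :
    TRed (setOf' a) B.diag ∨ TRed (setOf' b) B.diag := by
  obtain ⟨⟨f, hf⟩, g, hgm⟩ := h
  set y0 := f (elt 0 [0] 0) with hy0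
  have hy0u : y0 ∈ B.univ := hf.mem _ trivial
  have tup0 : ∀ {y}, y ∈ B.univ → TL.Tup 1 0 B.univ [y, y0] := fun {y} hy =>
    ⟨rfl, rfl, fun x hx => by
      rcases List.mem_cons.1 hx with rfl | hx
      · exact hy
      · rw [List.mem_singleton.1 hx]; exact hy0u⟩
  have tup1 : ∀ {y} (j : ℕ), y ∈ B.univ → TL.Tup 1 (j + 1) B.univ [y] := fun {y} j hy =>
    ⟨rfl, rfl, fun x hx => by rw [List.mem_singleton.1 hx]; exact hy⟩
  have hkap : ∀ y ∈ B.univ, B.rel 0 [y, y0] → kap (g y) = kap (g y0) := by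
    intro y hy h1
    have h2 := (hgm.rel 0 [y, y0] (tup0 hy)).2 h1
    simpa [bst, mk] using h2
  have hvis : ∀ y ∈ B.univ, ∀ t v, B.rel (Nat.pair t v + 1) [y] ↔
      encode (vis t (his a b p D (g y))) = v := by
    intro y hy t v
    rw [← hgm.rel (Nat.pair t v + 1) [y] (tup1 _ hy)]
    simp [bst, mk]
  have hvisf : ∀ x t v, B.rel (Nat.pair t v + 1) [f x] ↔
      encode (vis t (his a b p D x)) = v := by
    intro x t v
    have h1 := hf.rel (Nat.pair t v + 1) [x] ⟨rfl, rfl, fun _ _ => trivial⟩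
    have h2 : [x].map f = [f x] := rfl
    rw [h2] at h1
    rw [h1]
    simp [bst, mk]
  obtain ⟨r, t0, h1, h2⟩ := decode_level (a := a) (b := b) (m := lev p (kap (g y0)))
    (G := {H | ∃ y ∈ B.univ, B.rel 0 [y, y0] ∧ H = his a b p D (g y)})
    (by
      rintro H ⟨y, hy, h3, rfl⟩
      rw [← hkap y hy h3]
      exact his_legit hg hp D _)
    (by
      intro k
      have hL : Legit a b (2 * (0 : ℕ).unpair.1 + p) [lab a k] :=
        ⟨List.pairwise_singleton _ _, by simp, by simp; omega, k, rfl⟩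
      obtain ⟨N, hN⟩ := his_real hg p D 0 hL
      have h3 := hN N le_rfl
      refine ⟨f (elt 0 [lab a k] N), hf.mem _ trivial, ?_, ?_⟩
      · have h4 := (hf.rel 0 [elt 0 [lab a k] N, elt 0 [0] 0] ⟨rfl, rfl, fun _ _ => trivial⟩).2
          (by simp [bst, mk, kap_elt])
        exact h4
      · have h5 : his a b p D (g (f (elt 0 [lab a k] N))) = his a b p D (elt 0 [lab a k] N) := by
          refine eq_of_vis fun t => ?_
          have h6 := (hvis (f (elt 0 [lab a k] N)) (hf.mem _ trivial) t _).2 rfl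
          rw [hvisf] at h6
          exact (encode_injective h6).symm
        rw [h5, h3])
  have hfin : TRed (setOf' (orc a b r)) B.diag := by
    refine decode_red (y0 := y0) (t0 := t0) (r := r) ?_ ?_
    · rintro w k K ⟨e1, e2, e3, e4, e5⟩
      have e1' := chi_one.1 ((getElem?_pre _ _ _ _).1 e1).2
      have e2' := chi_one.1 ((getElem?_pre _ _ _ _).1 e2).2
      rw [show (1 : ℕ) = 2 * 0 + 1 from rfl, diag_rel] at e1'
      rw [diag_rel] at e2'
      have hy : w.unpair.1 ∈ B.univ := e1'.1.2.2 _ (by simp)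
      have h3 := (hvis _ hy _ _).1 e2'.2
      have h4 : vis w.unpair.2.unpair.1 (his a b p D (g w.unpair.1)) =
          Denumerable.ofNat (List ℕ) w.unpair.2.unpair.2 := by
        rw [← h3, Denumerable.ofNat_encode]
      obtain ⟨k', hk'⟩ := h1 _ ⟨_, hy, e1'.2, rfl⟩ _ e3 (by rw [h4]; exact e4)
      rw [h4] at hk'
      rw [hk', str_lab, length_prb] at e5
      rw [hk', str_lab, getElem?_prb e5]
    · intro k
      obtain ⟨H, ⟨y, hy, h3, rfl⟩, h4, k', h5, h6⟩ := h2 k
      obtain ⟨s0, hs0⟩ := exists_vis (his a b p D (g y))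
      set t := max t0 s0 with ht
      have h7 : vis t (his a b p D (g y)) = his a b p D (g y) := hs0 _ (le_max_right _ _)
      set w := Nat.pair y (Nat.pair t (encode (his a b p D (g y)))) with hw
      have e1 : Nat.pair (2 * 0 + 1) (encode [y, y0]) ∈ B.diag := diag_rel.2 ⟨tup0 hy, h3⟩
      have e2 : Nat.pair (2 * (Nat.pair t (encode (his a b p D (g y))) + 1) + 1) (encode [y]) ∈
          B.diag := diag_rel.2 ⟨tup1 _ hy, (hvis y hy _ _).2 (by rw [h7])⟩
      refine ⟨w, max (Nat.pair (2 * 0 + 1) (encode [y, y0]))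
        (Nat.pair (2 * (Nat.pair t (encode (his a b p D (g y))) + 1) + 1) (encode [y])) + 1, ?_⟩
      simp only [wit, hw, Nat.unpair_pair, Denumerable.ofNat_encode]
      refine ⟨(getElem?_pre _ _ _ _).2 ⟨?_, chi_one.2 e1⟩,
        (getElem?_pre _ _ _ _).2 ⟨?_, chi_one.2 e2⟩, le_max_left _ _, h4, ?_⟩
      · simp only [mul_zero, zero_add]
        omega
      · omega
      · rw [h6, str_lab, length_prb]
        exact h5
  unfold orc at hfin
  split_ifs at hfin
  · exact Or.inl hfin
  · exact Or.inr hfin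

end Pool.Agent.R621.BE
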