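import Mathlib
import Pool.Agent.R621.HS.Bie6

/-!
# Two incomparable sequences, each of which approximates the other one
-/

set_option autoImplicit false

namespace Pool.Agent.R621.BE

open Encodable Helper760.OracleNF Nat.Partrec

/-- `v` extends `u` and keeps the promises given by `u` -/
structure Ext (u v : List Bool × List Bool) : Prop where
  a : u.1 <+: v.1
  b : u.2 <+: v.2
  fa : ∀ n s, u.1.length ≤ 2 * Nat.pair n s + 1 → 2 * Nat.pair n s + 1 < v.1.length →
    n < u.2.length → v.1[2 * Nat.pair n s + 1]? = u.2[n]?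
  fb : ∀ n s, u.2.length ≤ 2 * Nat.pair n s + 1 → 2 * Nat.pair n s + 1 < v.2.length →
    n < u.1.length → v.2[2 * Nat.pair n s + 1]? = u.1[n]?

theorem Ext.refl (u : List Bool × List Bool) : Ext u u :=
  ⟨List.prefix_rfl, List.prefix_rfl, fun n s h h' => by omega, fun n s h h' => by omega⟩

theorem pre_get {α : Type} {u v : List α} (h : u <+: v) {i : ℕ} (hi : i < u.length) :
    v[i]? = u[i]? := by
  obtain ⟨w, rfl⟩ := h
  rw [List.getElem?_append_left hi]

theorem Ext.trans {u v w : List Bool × List Bool} (h : Ext u v) (h' : Ext v w) : Ext u w where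
  a := h.a.trans h'.a
  b := h.b.trans h'.b
  fa n s h1 h2 h3 := by
    by_cases h4 : 2 * Nat.pair n s + 1 < v.1.length
    · rw [pre_get h'.a h4]
      exact h.fa n s h1 h4 h3
    · rw [h'.fa n s (by omega) h2 (lt_of_lt_of_le h3 h.b.length_le), pre_get h.b h3]
  fb n s h1 h2 h3 := by
    by_cases h4 : 2 * Nat.pair n s + 1 < v.2.length
    · rw [pre_get h'.b h4]
      exact h.fb n s h1 h4 h3
    · rw [h'.fb n s (by omega) h2 (lt_of_lt_of_le h3 h.a.length_le), pre_get h.a h3]

theorem Ext.swap {u v : List Bool × List Bool} (h : Ext u v) : Ext u.swap v.swap :=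
  ⟨h.b, h.a, h.fb, h.fa⟩

/-- adding one value to the second sequence -/
theorem grow_one (u : List Bool × List Bool) : ∃ x, Ext u (u.1, u.2 ++ [x]) := by
  set i := u.2.length with hi
  refine ⟨u.1.getD ((i - 1) / 2).unpair.1 false, List.prefix_rfl, List.prefix_append _ _,
    fun n s h h' => absurd h' (by simp only; omega), fun n s h h' h3 => ?_⟩
  rw [List.length_append] at h'
  simp only [List.length_singleton] at h'
  have h4 : 2 * Nat.pair n s + 1 = i := by omega
  have h5 : (i - 1) / 2 = Nat.pair n s := by omega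
  rw [h5, Nat.unpair_pair]
  simp only
  rw [h4, hi, List.getElem?_append_right le_rfl, Nat.sub_self, List.getElem?_eq_getElem h3,
    List.getD_eq_getElem _ _ h3]
  rfl

theorem grow_two (N : ℕ) (u : List Bool × List Bool) : ∃ v, Ext u v ∧ N ≤ v.2.length := by
  induction N with
  | zero => exact ⟨u, Ext.refl u, Nat.zero_le _⟩
  | succ N ih =>
    obtain ⟨v, h1, h2⟩ := ih
    obtain ⟨x, hx⟩ := grow_one v
    exact ⟨_, h1.trans hx, by simp; omega⟩

theorem grow_all (N : ℕ) (u : List Bool × List Bool) :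
    ∃ v, Ext u v ∧ N ≤ v.1.length ∧ N ≤ v.2.length := by
  obtain ⟨v, h1, h2⟩ := grow_two N u
  obtain ⟨w, h3, h4⟩ := grow_two N v.swap
  have h5 := h3.swap
  exact ⟨w.swap, h1.trans h5, h4, h2.trans h5.b.length_le⟩

/-- the finite oracle -/
def ol (l : List Bool) : List ℕ := l.map Bool.toNat

/-- the value given by the code `c` -/
def gv (c : Code) (l : List Bool) (x m : ℕ) : Prop :=
  c.eval (encode (ol l, x)) = Part.some (encode (some m : Option ℕ))

/-- the requirement of the code `c` is met -/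
def Met (c : Code) (v : List Bool × List Bool) : Prop :=
  (∃ x m, gv c v.1 x m ∧ ∃ y, v.2[x]? = some y ∧ m ≠ y.toNat) ∨
    ∃ x, ∀ w, Ext v w → ∀ m, ¬ gv c w.1 x m

theorem exists_met (c : Code) (u : List Bool × List Bool) : ∃ v, Ext u v ∧ Met c v := by
  obtain ⟨u1, h1, h2⟩ : ∃ u1, Ext u u1 ∧ u1.2.length % 2 = 0 := by
    rcases Nat.mod_two_eq_zero_or_one u.2.length with h | h
    · exact ⟨u, Ext.refl u, h⟩
    · obtain ⟨x, hx⟩ := grow_one u
      refine ⟨_, hx, ?_⟩
      simp
      omega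
  by_cases h3 : ∃ w, Ext u1 w ∧ ∃ m, gv c w.1 u1.2.length m
  · obtain ⟨w, h4, m, h5⟩ := h3
    let y : Bool := decide (m = 0)
    have hy : m ≠ y.toNat := by
      by_cases hm : m = 0
      · simp [y, hm]
      · simp [y, hm]
    refine ⟨(w.1, u1.2 ++ [y]), h1.trans ⟨h4.a, List.prefix_append _ _, h4.fa, ?_⟩,
      Or.inl ⟨u1.2.length, m, h5, y, by simp, hy⟩⟩
    intro n s h6 h7
    rw [List.length_append] at h7
    simp only [List.length_singleton] at h7
    omega
  · refine ⟨u1, h1, Or.inr ⟨u1.2.length, fun w hw m hm => h3 ⟨w, hw, m, hm⟩⟩⟩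

theorem exists_step (k : ℕ) (u : List Bool × List Bool) : ∃ v, Ext u v ∧
    k ≤ v.1.length ∧ k ≤ v.2.length ∧ (∃ v0, Ext v0 v ∧ Met (Code.ofNatCode k) v0) ∧
    ∃ v1, Ext v1 v ∧ Met (Code.ofNatCode k) v1.swap := by
  obtain ⟨v0, h1, h2⟩ := exists_met (Code.ofNatCode k) u
  obtain ⟨w, h3, h4⟩ := exists_met (Code.ofNatCode k) v0.swap
  have h5 : Ext v0 w.swap := h3.swap
  obtain ⟨v, h6, h7, h8⟩ := grow_all k w.swap
  exact ⟨v, h1.trans (h5.trans h6), h7, h8, ⟨v0, h5.trans h6, h2⟩, w.swap, h6, h4⟩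

/-- the construction -/
noncomputable def sq : ℕ → List Bool × List Bool
  | 0 => ([], [])
  | k + 1 => (exists_step k (sq k)).choose

theorem sq_spec (k : ℕ) : Ext (sq k) (sq (k + 1)) ∧
    k ≤ (sq (k + 1)).1.length ∧ k ≤ (sq (k + 1)).2.length ∧
    (∃ v0, Ext v0 (sq (k + 1)) ∧ Met (Code.ofNatCode k) v0) ∧
    ∃ v1, Ext v1 (sq (k + 1)) ∧ Met (Code.ofNatCode k) v1.swap :=
  (exists_step k (sq k)).choose_spec

theorem sq_ext {k k' : ℕ} (h : k ≤ k') : Ext (sq k) (sq k') := by
  induction k', h using Nat.le_induction with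
  | base => exact Ext.refl _
  | succ n _ ih => exact ih.trans (sq_spec n).1

theorem sq_len (k : ℕ) : k ≤ (sq (k + 1)).1.length ∧ k ≤ (sq (k + 1)).2.length :=
  ⟨(sq_spec k).2.1, (sq_spec k).2.2.1⟩

/-- the first sequence -/
noncomputable def sa (i : ℕ) : Bool := (sq (i + 2)).1.getD i false

/-- the second sequence -/
noncomputable def sb (i : ℕ) : Bool := (sq (i + 2)).2.getD i false

theorem sq_a {k i : ℕ} (h : i < (sq k).1.length) : (sq k).1[i]? = some (sa i) := by
  have h1 : i + 1 ≤ (sq (i + 2)).1.length := (sq_len (i + 1)).1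
  have h2 : (sq (i + 2)).1[i]? = some (sa i) := by
    unfold sa
    rw [List.getElem?_eq_getElem (by omega), List.getD_eq_getElem _ _ (by omega)]
  rcases le_total k (i + 2) with h3 | h3
  · rw [← h2, pre_get (sq_ext h3).a h]
  · rw [← h2, pre_get (sq_ext h3).a (by omega)]

theorem sq_b {k i : ℕ} (h : i < (sq k).2.length) : (sq k).2[i]? = some (sb i) := by
  have h1 : i + 1 ≤ (sq (i + 2)).2.length := (sq_len (i + 1)).2
  have h2 : (sq (i + 2)).2[i]? = some (sb i) := by
    unfold sb
    rw [List.getElem?_eq_getElem (by omega), List.getD_eq_getElem _ _ (by omega)]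
  rcases le_total k (i + 2) with h3 | h3
  · rw [← h2, pre_get (sq_ext h3).b h]
  · rw [← h2, pre_get (sq_ext h3).b (by omega)]

theorem good_ab : Good sa sb := by
  intro n
  have hl : n + 1 ≤ (sq (n + 2)).1.length ∧ n + 1 ≤ (sq (n + 2)).2.length := sq_len (n + 1)
  refine ⟨(sq (n + 2)).1.length + (sq (n + 2)).2.length, fun s hs => ?_⟩
  have h1 : s ≤ Nat.pair n s := Nat.right_le_pair _ _
  set i := 2 * Nat.pair n s + 1 with hi
  have h2 := sq_len (i + 1)
  have h3 : n + 2 ≤ i + 1 + 1 := by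
    have := Nat.left_le_pair n s
    omega
  have h4 := sq_ext h3
  constructor
  · have h5 := h4.fa n s (by omega) (by omega) (by omega)
    rw [sq_a (by omega), sq_b (by omega)] at h5
    exact Option.some_inj.1 h5
  · have h5 := h4.fb n s (by omega) (by omega) (by omega)
    rw [sq_b (by omega), sq_a (by omega)] at h5
    exact Option.some_inj.1 h5

theorem ol_pre {c : ℕ → Bool} {l : List Bool} (h : ∀ i < l.length, l[i]? = some (c i)) :
    ol l = pre (chi (setOf' c)) l.length := by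
  refine List.ext_getElem? fun i => ?_
  unfold ol
  rw [List.getElem?_map]
  by_cases hi : i < l.length
  · rw [h i hi, (getElem?_pre _ i _ _).2 ⟨hi, rfl⟩]
    simp only [Option.map_some, Option.some_inj]
    by_cases h1 : c i = true
    · rw [h1]
      exact (chi_one.2 h1).symm
    · have h2 : c i = false := by simpa using h1
      rw [h2]
      exact (chi_zero.2 h1).symm
  · rw [List.getElem?_eq_none (by omega), List.getElem?_eq_none (by rw [length_pre]; omega)]
    rfl

theorem not_red_aux {a b : ℕ → Bool} {q : ℕ → List Bool × List Bool}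
    (hext : ∀ k k', k ≤ k' → Ext (q k) (q k')) (hlen : ∀ k, k ≤ (q (k + 1)).1.length)
    (ha : ∀ k, ∀ i < (q k).1.length, (q k).1[i]? = some (a i))
    (hb : ∀ k, ∀ i < (q k).2.length, (q k).2[i]? = some (b i))
    (hmet : ∀ k, ∃ v0, Ext v0 (q (k + 1)) ∧ Met (Code.ofNatCode k) v0) :
    ¬ TRed (setOf' b) (setOf' a) := by
  intro h
  obtain ⟨F, hF, hM, hv⟩ := red_normal h
  have hFc : Computable fun z : List ℕ × ℕ => F z.1 z.2 := hF.to_comp
  obtain ⟨c, hc⟩ := Code.exists_code.1 hFc
  have hgv : ∀ l x m, gv c l x m ↔ F (ol l) x = some m := by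
    intro l x m
    unfold gv
    rw [hc]
    simp only [encodek, Part.coe_some, Part.bind_some, Part.map_some, PFun.coe_val]
    rw [Part.some_inj]
    constructor
    · intro h
      exact encode_injective h
    · intro h
      rw [h]
  obtain ⟨k, hk⟩ : ∃ k, Code.ofNatCode k = c := ⟨Code.encodeCode c, by
    have := Denumerable.ofNat_encode c
    exact this⟩
  obtain ⟨v0, h1, h2⟩ := hmet k
  rw [hk] at h2
  rcases h2 with ⟨x, m, h3, y, h4, h5⟩ | ⟨x, h3⟩
  · rw [hgv] at h3
    have hx : x < v0.2.length := by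
      by_contra h6
      rw [List.getElem?_eq_none (by omega)] at h4
      simp at h4
    have h6 : ol v0.1 = pre (chi (setOf' a)) v0.1.length := by
      refine ol_pre fun i hi => ?_
      rw [← ha (k + 1) i (lt_of_lt_of_le hi h1.a.length_le), pre_get h1.a hi]
    rw [h6] at h3
    have h7 := (hv x m).2 ⟨_, h3⟩
    have h8 : some y = some (b x) := by
      rw [← h4, ← pre_get h1.b hx]
      exact hb (k + 1) x (lt_of_lt_of_le hx h1.b.length_le)
    have h9 : y = b x := Option.some_inj.1 h8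
    apply h5
    rw [h7, h9]
    by_cases h10 : b x = true
    · rw [h10]
      exact chi_one.2 h10
    · have h11 : b x = false := by simpa using h10
      rw [h11]
      exact chi_zero.2 h10
  · obtain ⟨K, hK⟩ := (hv x (chi (setOf' b) x)).1 rfl
    have h4 : Ext v0 (q (max (k + 1) (K + 1))) := h1.trans (hext _ _ (le_max_left _ _))
    have h5 : K ≤ (q (max (k + 1) (K + 1))).1.length :=
      (hlen K).trans (hext _ _ (le_max_right _ _)).a.length_le
    apply h3 _ h4 (chi (setOf' b) x)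
    rw [hgv, ol_pre (ha _)]
    exact hM _ _ _ _ (pre_le _ h5) hK

theorem not_red_ba : ¬ TRed (setOf' sb) (setOf' sa) :=
  not_red_aux (q := sq) (fun _ _ h => sq_ext h) (fun k => (sq_len k).1) (fun _ _ h => sq_a h)
    (fun _ _ h => sq_b h) fun k => (sq_spec k).2.2.2.1

theorem not_red_ab : ¬ TRed (setOf' sa) (setOf' sb) :=
  not_red_aux (q := fun k => (sq k).swap) (fun _ _ h => (sq_ext h).swap)
    (fun k => (sq_len k).2) (fun _ _ h => sq_b h) (fun _ _ h => sq_a h) fun k => by
      obtain ⟨v1, h1, h2⟩ := (sq_spec k).2.2.2.2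
      exact ⟨v1.swap, h1.swap, h2⟩

/-! ### The spectrum -/

/-- the structure -/
noncomputable def AA : Strc TL := bst sa sb 1 ∅

theorem spec_sub {B : Strc TL} (h : BiEmb AA B) :
    deg (setOf' sa) ≤ deg B.diag ∨ deg (setOf' sb) ≤ deg B.diag :=
  decode_any good_ab le_rfl h

theorem spec_sup {X : Set ℕ} (h : TRed (setOf' sa) X ∨ TRed (setOf' sb) X) :
    ∃ B : Strc TL, B.univ = Set.univ ∧ BiEmb AA B ∧ deg B.diag = deg X := by
  rcases h with h | h
  · exact ⟨bst sa sb 1 X, rfl, biEmb_bst good_ab le_rfl (by omega) le_rfl (by omega) _ _,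
      deg_eq.2 ⟨bst_red h, param_red⟩⟩
  · exact ⟨bst sa sb 2 X, rfl, biEmb_bst good_ab le_rfl (by omega) (by omega) le_rfl _ _,
      deg_eq.2 ⟨bst_red h, param_red⟩⟩

theorem biSpec_AA : biSpec AA = {d | deg (setOf' sa) ≤ d} ∪ {d | deg (setOf' sb) ≤ d} := by
  ext d
  obtain ⟨X, rfl⟩ := exists_deg d
  constructor
  · rintro ⟨B, h1, h2⟩
    rw [← h2]
    exact spec_sub h1
  · intro h
    obtain ⟨B, _, h2, h3⟩ := spec_sup h
    exact ⟨B, h2, h3⟩

theorem biSpecOmega_AA :
    biSpecOmega AA = {d | deg (setOf' sa) ≤ d} ∪ {d | deg (setOf' sb) ≤ d} := by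
  ext d
  obtain ⟨X, rfl⟩ := exists_deg d
  constructor
  · rintro ⟨B, _, h1, h2⟩
    rw [← h2]
    exact spec_sub h1
  · intro h
    obtain ⟨B, h1, h2, h3⟩ := spec_sup h
    exact ⟨B, h1, h2, h3⟩

end Pool.Agent.R621.BE
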