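import Mathlib
import Pool.Agent.R621.HS.Bie7

/-!
# Isomorphic structures and their diagrams
-/

set_option autoImplicit false

namespace Pool.Agent.R621.BE

open Encodable Helper760.OracleNF

variable {L : Lng}

/-- an isomorphism -/
def IsoMap (A B : Strc L) (h : ℕ → ℕ) : Prop := Emb A B h ∧ ∀ y ∈ B.univ, ∃ x ∈ A.univ, h x = y

theorem tup_map {A B : Strc L} {h : ℕ → ℕ} (hh : Emb A B h) {k i : ℕ} {v : List ℕ}
    (hv : L.Tup k i A.univ v) : L.Tup k i B.univ (v.map h) := by
  refine ⟨hv.1, by rw [List.length_map]; exact hv.2.1, fun y hy => ?_⟩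
  obtain ⟨x, hx, rfl⟩ := List.mem_map.1 hy
  exact hh.mem x (hv.2.2 x hx)

theorem tup_unmap {A B : Strc L} {h : ℕ → ℕ} {k i : ℕ} {v : List ℕ} (hv : ∀ x ∈ v, x ∈ A.univ)
    (h' : L.Tup k i B.univ (v.map h)) : L.Tup k i A.univ v :=
  ⟨h'.1, by have := h'.2.1; rwa [List.length_map] at this, hv⟩

theorem map_inj_on {U : Set ℕ} {h : ℕ → ℕ} (hi : ∀ x ∈ U, ∀ y ∈ U, h x = h y → x = y)
    {v w : List ℕ} (hv : ∀ x ∈ v, x ∈ U) (hw : ∀ x ∈ w, x ∈ U) (he : v.map h = w.map h) :
    v = w := by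
  induction v generalizing w with
  | nil => cases w with
    | nil => rfl
    | cons y w => simp at he
  | cons x v ih => cases w with
    | nil => simp at he
    | cons y w =>
      rw [List.map_cons, List.map_cons, List.cons.injEq] at he
      rw [hi x (hv x (by simp)) y (hw y (by simp)) he.1,
        ih (fun z hz => hv z (by simp [hz])) (fun z hz => hw z (by simp [hz])) he.2]

theorem diag_fn {B : Strc L} {i : ℕ} {v : List ℕ} :
    Nat.pair (2 * i + 2) (encode v) ∈ B.diag ↔
      ∃ w, L.Tup 2 i B.univ w ∧ v = B.fn i w :: w := by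
  constructor
  · rintro (⟨y, hy, h⟩ | ⟨i', v', h1, h2, h⟩ | ⟨i', w, h1, h⟩)
    · have := (Nat.pair_eq_pair.1 h).1
      omega
    · have := (Nat.pair_eq_pair.1 h).1
      omega
    · have h3 := (Nat.pair_eq_pair.1 h).1
      have h4 := encode_injective (Nat.pair_eq_pair.1 h).2
      have h5 : i = i' := by omega
      subst h5
      exact ⟨w, h1, h4⟩
  · rintro ⟨w, h1, rfl⟩
    exact Or.inr (Or.inr ⟨i, w, h1, rfl⟩)

theorem diag_mem {B : Strc L} {j : ℕ} {v : List ℕ} (hv : Nat.pair (j + 1) (encode v) ∈ B.diag) :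
    ∀ x ∈ v, x ∈ B.univ := by
  rcases Nat.even_or_odd' j with ⟨i, rfl | rfl⟩
  · exact (diag_rel.1 hv).1.2.2
  · obtain ⟨w, h1, rfl⟩ := diag_fn.1 (show Nat.pair (2 * i + 2) (encode v) ∈ B.diag from hv)
    intro x hx
    rcases List.mem_cons.1 hx with rfl | hx
    · exact B.fn_mem i w h1
    · exact h1.2.2 x hx

theorem diag_transfer {A B : Strc L} {h : ℕ → ℕ} (hh : Emb A B h) {j : ℕ} {v : List ℕ}
    (hv : ∀ x ∈ v, x ∈ A.univ) :
    Nat.pair (j + 1) (encode (v.map h)) ∈ B.diag ↔ Nat.pair (j + 1) (encode v) ∈ A.diag := by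
  rcases Nat.even_or_odd' j with ⟨i, rfl | rfl⟩
  · rw [diag_rel, diag_rel]
    constructor
    · rintro ⟨h1, h2⟩
      have h3 := tup_unmap (A := A) (B := B) hv h1
      exact ⟨h3, (hh.rel i v h3).1 h2⟩
    · rintro ⟨h1, h2⟩
      exact ⟨tup_map hh h1, (hh.rel i v h1).2 h2⟩
  · show Nat.pair (2 * i + 2) (encode (v.map h)) ∈ B.diag ↔
      Nat.pair (2 * i + 2) (encode v) ∈ A.diag
    rw [diag_fn, diag_fn]
    constructor
    · rintro ⟨w, h1, h2⟩
      cases v with
      | nil => simp at h2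
      | cons y v =>
        rw [List.map_cons, List.cons.injEq] at h2
        obtain ⟨h3, h4⟩ := h2
        have hv' : ∀ x ∈ v, x ∈ A.univ := fun x hx => hv x (by simp [hx])
        have h5 : L.Tup 2 i A.univ v := tup_unmap (A := A) (B := B) (h := h) hv' (by rw [h4]; exact h1)
        refine ⟨v, h5, ?_⟩
        rw [← h4, hh.fn i v h5] at h3
        rw [hh.inj y (hv y (by simp)) _ (A.fn_mem i v h5) h3]
    · rintro ⟨w, h1, rfl⟩
      refine ⟨w.map h, tup_map hh h1, ?_⟩
      rw [List.map_cons, hh.fn i w h1]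

/-! ### Finite universes -/

/-- a finite part of `h` as a total function -/
def tabl (us hs : List ℕ) (x : ℕ) : ℕ := hs.getD (us.idxOf x) 0

theorem tabl_eq {us : List ℕ} {h : ℕ → ℕ} {x : ℕ} (hx : x ∈ us) : tabl us (us.map h) x = h x := by
  unfold tabl
  have h1 : us.idxOf x < us.length := List.idxOf_lt_length_of_mem hx
  rw [List.getD_eq_getElem _ _ (by rwa [List.length_map]), List.getElem_map,
    List.getElem_idxOf h1]

theorem p_tabl (us hs : List ℕ) : Primrec (tabl us hs) :=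
  (Primrec.list_getD 0).comp (Primrec.const hs) (Primrec.list_idxOf₁ us)

theorem finite_red {A B : Strc L} {h : ℕ → ℕ} (hh : IsoMap A B h) (hA : A.univ.Finite) :
    TRed A.diag B.diag := by
  classical
  set us := hA.toFinset.toList with hus
  have hmem : ∀ x, x ∈ us ↔ x ∈ A.univ := by
    intro x
    rw [hus, Finset.mem_toList, Set.Finite.mem_toFinset]
  have hmap : ∀ v : List ℕ, (∀ x ∈ v, x ∈ us) → v.map (tabl us (us.map h)) = v.map h :=
    fun v hv => List.map_congr_left fun x hx => tabl_eq (hv x hx)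
  let F : List ℕ → ℕ → Option ℕ := fun σ q =>
    if q.unpair.1 = 0 then some (if q.unpair.2 ∈ us then 1 else 0)
    else if ∀ x ∈ Denumerable.ofNat (List ℕ) q.unpair.2, x ∈ us then
      σ[Nat.pair q.unpair.1 (encode ((Denumerable.ofNat (List ℕ) q.unpair.2).map
        (tabl us (us.map h))))]?
    else some 0
  have hF : Primrec₂ F := by
    have hq : Primrec fun z : List ℕ × ℕ => z.2.unpair.1 :=
      Primrec.fst.comp (Primrec.unpair.comp Primrec.snd)
    have hq2 : Primrec fun z : List ℕ × ℕ => z.2.unpair.2 :=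
      Primrec.snd.comp (Primrec.unpair.comp Primrec.snd)
    have hv : Primrec fun z : List ℕ × ℕ => Denumerable.ofNat (List ℕ) z.2.unpair.2 :=
      (Primrec.ofNat (List ℕ)).comp hq2
    have hm : PrimrecPred fun x : ℕ => x ∈ us := by
      refine (Primrec.nat_lt.comp (Primrec.list_idxOf₁ us) (Primrec.const us.length)).of_eq
        fun x => ?_
      exact List.idxOf_lt_length_iff
    refine Primrec.ite (Primrec.eq.comp hq (Primrec.const 0)) (Primrec.option_some.comp
      (Primrec.ite (hm.comp hq2) (Primrec.const 1) (Primrec.const 0)))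
      (Primrec.ite (hm.forall_mem_list.comp hv) ?_ (Primrec.const (some 0)))
    refine Primrec.list_getElem?.comp Primrec.fst (Primrec₂.natPair.comp hq
      (Primrec.encode.comp (Primrec.list_map hv ?_)))
    exact (p_tabl us (us.map h)).comp Primrec.snd
  have hval : ∀ q, (q.unpair.1 = 0 → (q ∈ A.diag ↔ q.unpair.2 ∈ us)) ∧
      (q.unpair.1 ≠ 0 → (∀ x ∈ Denumerable.ofNat (List ℕ) q.unpair.2, x ∈ us) →
        (q ∈ A.diag ↔ Nat.pair q.unpair.1 (encode
          ((Denumerable.ofNat (List ℕ) q.unpair.2).map (tabl us (us.map h)))) ∈ B.diag)) ∧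
      (q.unpair.1 ≠ 0 → (¬ ∀ x ∈ Denumerable.ofNat (List ℕ) q.unpair.2, x ∈ us) →
        q ∉ A.diag) := by
    intro q
    refine ⟨fun h1 => ?_, fun h1 h2 => ?_, fun h1 h2 h3 => ?_⟩
    · rw [hmem, ← diag_univ, ← h1, Nat.pair_unpair]
    · obtain ⟨j, hj⟩ := Nat.exists_eq_succ_of_ne_zero h1
      rw [hmap _ h2, hj, diag_transfer hh.1 (fun x hx => (hmem x).1 (h2 x hx)),
        Denumerable.encode_ofNat, ← Nat.succ_eq_add_one, ← hj, Nat.pair_unpair]
    · obtain ⟨j, hj⟩ := Nat.exists_eq_succ_of_ne_zero h1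
      apply h2
      intro x hx
      rw [hmem]
      refine diag_mem (j := j) (v := Denumerable.ofNat (List ℕ) q.unpair.2) ?_ x hx
      rw [Denumerable.encode_ofNat, ← Nat.succ_eq_add_one, ← hj, Nat.pair_unpair]
      exact h3
  refine rec_tot hF ?_ ?_
  · intro q K v hv
    obtain ⟨c1, c2, c3⟩ := hval q
    simp only [F] at hv
    by_cases h1 : q.unpair.1 = 0
    · rw [if_pos h1] at hv
      rw [← Option.some_inj.1 hv]
      by_cases h2 : q ∈ A.diag
      · rw [if_pos ((c1 h1).1 h2), chi_one.2 h2]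
      · rw [if_neg fun h3 => h2 ((c1 h1).2 h3), chi_zero.2 h2]
    · rw [if_neg h1] at hv
      by_cases h2 : ∀ x ∈ Denumerable.ofNat (List ℕ) q.unpair.2, x ∈ us
      · rw [if_pos h2] at hv
        have h3 := ((getElem?_pre _ _ _ _).1 hv).2
        rw [← h3]
        by_cases h4 : q ∈ A.diag
        · rw [chi_one.2 h4, chi_one.2 ((c2 h1 h2).1 h4)]
        · rw [chi_zero.2 h4, chi_zero.2 fun h5 => h4 ((c2 h1 h2).2 h5)]
      · rw [if_neg h2] at hv
        rw [← Option.some_inj.1 hv, chi_zero.2 (c3 h1 h2)]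
  · intro q
    simp only [F]
    by_cases h1 : q.unpair.1 = 0
    · exact ⟨0, _, if_pos h1⟩
    · by_cases h2 : ∀ x ∈ Denumerable.ofNat (List ℕ) q.unpair.2, x ∈ us
      · refine ⟨Nat.pair q.unpair.1 (encode
          ((Denumerable.ofNat (List ℕ) q.unpair.2).map (tabl us (us.map h)))) + 1,
          chi B.diag (Nat.pair q.unpair.1 (encode
          ((Denumerable.ofNat (List ℕ) q.unpair.2).map (tabl us (us.map h))))), ?_⟩
        rw [if_neg h1, if_pos h2]
        exact (getElem?_pre _ _ _ _).2 ⟨Nat.lt_succ_self _, rfl⟩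
      · exact ⟨0, 0, by rw [if_neg h1, if_neg h2]⟩

end Pool.Agent.R621.BE
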