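import Mathlib
import Pool.Agent.R621.HS.Bie8

/-!
# No isomorphism spectrum is the union of two incomparable cones
-/

set_option autoImplicit false

namespace Pool.Agent.R621.BE

open Encodable Helper760.OracleNF Nat.Partrec

variable {L : Lng}

/-- the place of the diagram that decides the number `j` when the elements are named by `p` -/
def kc (p : List ℕ) (j : ℕ) : ℕ :=
  Nat.pair j.unpair.1 (encode ((Denumerable.ofNat (List ℕ) j.unpair.2).map fun x => p.getD x 0))

/-- the finite part of the diagram of the pulled back structure -/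
def prc (g : ℕ → ℕ) (p : List ℕ) : List ℕ :=
  (List.range p.length).map fun j => if j.unpair.1 = 0 then 1 else g (kc p j)

theorem length_prc (g : ℕ → ℕ) (p : List ℕ) : (prc g p).length = p.length := by simp [prc]

theorem lt_encode {x : ℕ} : ∀ {l : List ℕ}, x ∈ l → x < encode l
  | [], h => by simp at h
  | y :: l, h => by
    rw [encode_list_cons]
    rcases List.mem_cons.1 h with rfl | h
    · have := Nat.left_le_pair (encode x) (encode l)
      simp only [Encodable.encode_nat] at *
      omega
    · have h1 := lt_encode h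
      have := Nat.right_le_pair (encode y) (encode l)
      omega

theorem lt_of_mem_ofNat {x j : ℕ} (h : x ∈ Denumerable.ofNat (List ℕ) j.unpair.2) : x < j := by
  have h1 := lt_encode h
  rw [Denumerable.encode_ofNat] at h1
  exact lt_of_lt_of_le h1 (Nat.unpair_right_le j)

/-- a list of distinct elements of `U` -/
def Leg (U : Set ℕ) (p : List ℕ) : Prop := p.Nodup ∧ ∀ x ∈ p, x ∈ U

theorem getD_leg {U : Set ℕ} {p : List ℕ} (h : Leg U p) {i : ℕ} (hi : i < p.length) :
    p.getD i 0 ∈ U := by
  rw [List.getD_eq_getElem _ _ hi]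
  exact h.2 _ (List.getElem_mem hi)

theorem prc_map {A B : Strc L} {h : ℕ → ℕ} (hh : Emb A B h) {p : List ℕ} (hp : Leg A.univ p) :
    prc (chi B.diag) (p.map h) = prc (chi A.diag) p := by
  unfold prc
  rw [List.length_map]
  refine List.map_congr_left fun j hj => ?_
  have hj' := List.mem_range.1 hj
  by_cases h1 : j.unpair.1 = 0
  · rw [if_pos h1, if_pos h1]
  · rw [if_neg h1, if_neg h1]
    obtain ⟨i, hi⟩ := Nat.exists_eq_succ_of_ne_zero h1
    have h2 : (Denumerable.ofNat (List ℕ) j.unpair.2).map (fun x => (p.map h).getD x 0) =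
        ((Denumerable.ofNat (List ℕ) j.unpair.2).map fun x => p.getD x 0).map h := by
      rw [List.map_map]
      refine List.map_congr_left fun x hx => ?_
      have h3 : x < p.length := lt_trans (lt_of_mem_ofNat hx) hj'
      simp only [Function.comp]
      rw [List.getD_eq_getElem _ _ (by rwa [List.length_map]), List.getElem_map,
        List.getD_eq_getElem _ _ h3]
    have h4 : ∀ y ∈ (Denumerable.ofNat (List ℕ) j.unpair.2).map (fun x => p.getD x 0),
        y ∈ A.univ := by
      intro y hy
      obtain ⟨x, hx, rfl⟩ := List.mem_map.1 hy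
      exact getD_leg hp (lt_trans (lt_of_mem_ofNat hx) hj')
    have h5 := diag_transfer hh (j := i) h4
    unfold kc
    rw [h2, hi]
    show chi B.diag (Nat.pair (i + 1) _) = chi A.diag (Nat.pair (i + 1) _)
    by_cases h6 : Nat.pair (i + 1) (encode ((Denumerable.ofNat (List ℕ) j.unpair.2).map
        fun x => p.getD x 0)) ∈ A.diag
    · rw [chi_one.2 h6, chi_one.2 (h5.2 h6)]
    · rw [chi_zero.2 h6, chi_zero.2 fun h7 => h6 (h5.1 h7)]

/-! ### The search -/

/-- `w` codes a list of distinct elements of the universe that extends `p`, decided by `σ` -/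
def okw (p : List ℕ) (w : ℕ) (σ : List ℕ) : Prop :=
  (Denumerable.ofNat (List ℕ) w).take p.length = p ∧
  (∀ i ∈ List.range (Denumerable.ofNat (List ℕ) w).length,
    ∀ j ∈ List.range (Denumerable.ofNat (List ℕ) w).length, ¬ i < j ∨
      (Denumerable.ofNat (List ℕ) w).getD i 0 ≠ (Denumerable.ofNat (List ℕ) w).getD j 0) ∧
  (∀ x ∈ Denumerable.ofNat (List ℕ) w, σ[Nat.pair 0 x]? = some 1) ∧
  ∀ j ∈ List.range (Denumerable.ofNat (List ℕ) w).length,
    kc (Denumerable.ofNat (List ℕ) w) j < σ.length

instance (p : List ℕ) (w : ℕ) (σ : List ℕ) : Decidable (okw p w σ) := by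
  unfold okw
  infer_instance

theorem nodup_iff (H : List ℕ) : H.Nodup ↔ ∀ i ∈ List.range H.length,
    ∀ j ∈ List.range H.length, ¬ i < j ∨ H.getD i 0 ≠ H.getD j 0 := by
  unfold List.Nodup
  rw [List.pairwise_iff_getElem]
  constructor
  · intro h i hi j hj
    have hi' := List.mem_range.1 hi
    have hj' := List.mem_range.1 hj
    by_cases hij : i < j
    · right
      rw [List.getD_eq_getElem _ _ hi', List.getD_eq_getElem _ _ hj']
      exact h i j hi' hj' hij
    · exact Or.inl hij
  · intro h i j hi hj hij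
    rcases h i (List.mem_range.2 hi) j (List.mem_range.2 hj) with h1 | h1
    · exact absurd hij h1
    · rwa [List.getD_eq_getElem _ _ hi, List.getD_eq_getElem _ _ hj] at h1

theorem p_kc : Primrec₂ kc := by
  unfold kc
  refine Primrec₂.natPair.comp (Primrec.fst.comp (Primrec.unpair.comp Primrec.snd))
    (Primrec.encode.comp (Primrec.list_map ((Primrec.ofNat (List ℕ)).comp (Primrec.snd.comp
      (Primrec.unpair.comp Primrec.snd))) ?_))
  exact (Primrec.list_getD 0).comp (Primrec.fst.comp Primrec.fst) Primrec.snd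

theorem p_okw (p : List ℕ) : PrimrecRel (okw p) := by
  have hq : Primrec fun z : ℕ × List ℕ => Denumerable.ofNat (List ℕ) z.1 :=
    (Primrec.ofNat (List ℕ)).comp Primrec.fst
  have hr : Primrec fun z : ℕ × List ℕ =>
      List.range (Denumerable.ofNat (List ℕ) z.1).length :=
    Primrec.list_range.comp (Primrec.list_length.comp hq)
  unfold okw
  refine PrimrecPred.and ?_ (PrimrecPred.and ?_ (PrimrecPred.and ?_ ?_))
  · exact Primrec.eq.comp (Primrec.list_take.comp (Primrec.const p.length) hq) (Primrec.const p)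
  · have h1 : PrimrecRel fun (j : ℕ) (z : ℕ × List ℕ) =>
        ¬ z.1 < j ∨ z.2.getD z.1 0 ≠ z.2.getD j 0 := by
      refine PrimrecPred.or (PrimrecPred.not (Primrec.nat_lt.comp (Primrec.fst.comp Primrec.snd)
        Primrec.fst)) (PrimrecPred.not ?_)
      refine Primrec.eq.comp ?_ ?_
      · exact (Primrec.list_getD 0).comp (Primrec.snd.comp Primrec.snd)
          (Primrec.fst.comp Primrec.snd)
      · exact (Primrec.list_getD 0).comp (Primrec.snd.comp Primrec.snd) Primrec.fst
    have h3 : PrimrecRel fun (i : ℕ) (H : List ℕ) => ∀ j ∈ List.range H.length,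
        ¬ i < j ∨ H.getD i 0 ≠ H.getD j 0 :=
      h1.forall_mem_list.comp (Primrec.list_range.comp (Primrec.list_length.comp Primrec.snd))
        (Primrec.pair Primrec.fst Primrec.snd)
    have h5 : PrimrecPred fun H : List ℕ => ∀ i ∈ List.range H.length,
        ∀ j ∈ List.range H.length, ¬ i < j ∨ H.getD i 0 ≠ H.getD j 0 :=
      h3.forall_mem_list.comp (Primrec.list_range.comp Primrec.list_length) Primrec.id
    exact h5.comp hq
  · have h1 : PrimrecRel fun (x : ℕ) (σ : List ℕ) => σ[Nat.pair 0 x]? = some 1 :=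
      Primrec.eq.comp (Primrec.list_getElem?.comp Primrec.snd
        (Primrec₂.natPair.comp (Primrec.const 0) Primrec.fst)) (Primrec.const (some 1))
    exact h1.forall_mem_list.comp hq Primrec.snd
  · have h1 : PrimrecRel fun (j : ℕ) (z : List ℕ × List ℕ) => kc z.1 j < z.2.length :=
      Primrec.nat_lt.comp (p_kc.comp (Primrec.fst.comp Primrec.snd) Primrec.fst)
        (Primrec.list_length.comp (Primrec.snd.comp Primrec.snd))
    exact h1.forall_mem_list.comp hr (Primrec.pair hq Primrec.snd)

theorem p_prc : Primrec₂ fun (σ : List ℕ) (p : List ℕ) => prc (fun i => σ.getD i 0) p := by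
  unfold prc
  refine Primrec.list_map (Primrec.list_range.comp (Primrec.list_length.comp Primrec.snd)) ?_
  refine Primrec.ite (Primrec.eq.comp (Primrec.fst.comp (Primrec.unpair.comp Primrec.snd))
    (Primrec.const 0)) (Primrec.const 1) ?_
  exact (Primrec.list_getD 0).comp (Primrec.fst.comp Primrec.fst)
    (p_kc.comp (Primrec.snd.comp Primrec.fst) Primrec.snd)

/-- one step of the search -/
def stf (F : List ℕ → ℕ → Option ℕ) (p : List ℕ) (σ : List ℕ) (n w : ℕ) : Option ℕ :=
  if okw p w σ then F (prc (fun i => σ.getD i 0) (Denumerable.ofNat (List ℕ) w)) n else none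

/-- the search -/
def srf (F : List ℕ → ℕ → Option ℕ) (p : List ℕ) (σ : List ℕ) (n : ℕ) : Option ℕ :=
  ((List.range σ.length).filterMap (stf F p σ n)).head?

theorem p_srf {F : List ℕ → ℕ → Option ℕ} (hF : Primrec₂ F) (p : List ℕ) :
    Primrec₂ (srf F p) := by
  have h1 : PrimrecPred fun z : (List ℕ × ℕ) × ℕ => okw p z.2 z.1.1 :=
    (p_okw p).comp Primrec.snd (Primrec.fst.comp Primrec.fst)
  have h2 : Primrec fun z : (List ℕ × ℕ) × ℕ =>
      prc (fun i => z.1.1.getD i 0) (Denumerable.ofNat (List ℕ) z.2) :=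
    p_prc.comp (Primrec.fst.comp Primrec.fst) ((Primrec.ofNat (List ℕ)).comp Primrec.snd)
  have h3 : Primrec₂ fun (z : List ℕ × ℕ) (w : ℕ) => stf F p z.1 z.2 w :=
    Primrec.ite h1 (hF.comp h2 (Primrec.snd.comp Primrec.fst)) (Primrec.const none)
  exact Primrec.list_head?.comp (Primrec.listFilterMap
    (Primrec.list_range.comp (Primrec.list_length.comp Primrec.fst)) h3)

theorem prc_congr {g g' : ℕ → ℕ} {p : List ℕ}
    (h : ∀ j < p.length, g (kc p j) = g' (kc p j)) : prc g p = prc g' p := by
  unfold prc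
  refine List.map_congr_left fun j hj => ?_
  rw [h j (List.mem_range.1 hj)]

theorem okw_iff {D : Set ℕ} {p : List ℕ} {w K : ℕ} : okw p w (pre (chi D) K) ↔
    p <+: Denumerable.ofNat (List ℕ) w ∧ (Denumerable.ofNat (List ℕ) w).Nodup ∧
    (∀ x ∈ Denumerable.ofNat (List ℕ) w, Nat.pair 0 x < K ∧ Nat.pair 0 x ∈ D) ∧
    ∀ j < (Denumerable.ofNat (List ℕ) w).length, kc (Denumerable.ofNat (List ℕ) w) j < K := by
  unfold okw
  rw [← nodup_iff, length_pre]
  refine and_congr ?_ (and_congr Iff.rfl (and_congr ?_ ?_))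
  · rw [List.prefix_iff_eq_take]
    exact ⟨fun h => h.symm, fun h => h.symm⟩
  · refine forall₂_congr fun x _ => ?_
    rw [getElem?_pre, chi_one]
  · exact forall_congr' fun j => by rw [List.mem_range]

theorem search_red {D X : Set ℕ} {F : List ℕ → ℕ → Option ℕ} (hF : Primrec₂ F) {p : List ℕ}
    {U : Set ℕ} (hU : ∀ x, x ∈ U ↔ Nat.pair 0 x ∈ D)
    (h1 : ∀ q, Leg U q → p <+: q → ∀ n m, F (prc (chi D) q) n = some m → m = chi X n)
    (h2 : ∀ n, ∃ q, Leg U q ∧ p <+: q ∧ ∃ m, F (prc (chi D) q) n = some m) : TRed X D := by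
  have key : ∀ w K, okw p w (pre (chi D) K) →
      prc (fun i => (pre (chi D) K).getD i 0) (Denumerable.ofNat (List ℕ) w) =
        prc (chi D) (Denumerable.ofNat (List ℕ) w) := by
    intro w K h
    refine prc_congr fun j hj => ?_
    exact getD_pre ((okw_iff.1 h).2.2.2 j hj)
  refine rec_tot (p_srf hF p) ?_ ?_
  · intro n K v hv
    have h3 := List.mem_of_head? hv
    obtain ⟨w, _, h4⟩ := List.mem_filterMap.1 h3
    unfold stf at h4
    by_cases h5 : okw p w (pre (chi D) K)
    · rw [if_pos h5, key w K h5] at h4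
      obtain ⟨e1, e2, e3, _⟩ := okw_iff.1 h5
      exact h1 _ ⟨e2, fun x hx => (hU x).2 (e3 x hx).2⟩ e1 n v h4
    · rw [if_neg h5] at h4
      exact absurd h4 (by simp)
  · intro n
    obtain ⟨q, hq, hpq, m, hm⟩ := h2 n
    set w := encode q with hw
    have hqw : Denumerable.ofNat (List ℕ) w = q := Denumerable.ofNat_encode q
    obtain ⟨K, hK1, hK2, hK3⟩ : ∃ K, w < K ∧ (∀ x ∈ q, Nat.pair 0 x < K) ∧
        ∀ j < q.length, kc q j < K := by
      refine ⟨w + (q.map fun x => Nat.pair 0 x + 1).sum +
        ((List.range q.length).map fun j => kc q j + 1).sum + 1, by omega, fun x hx => ?_,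
        fun j hj => ?_⟩
      · have := List.le_sum_of_mem (List.mem_map.2 ⟨x, hx, rfl⟩ :
          Nat.pair 0 x + 1 ∈ q.map fun x => Nat.pair 0 x + 1)
        omega
      · have := List.le_sum_of_mem (List.mem_map.2 ⟨j, List.mem_range.2 hj, rfl⟩ :
          kc q j + 1 ∈ (List.range q.length).map fun j => kc q j + 1)
        omega
    have hok : okw p w (pre (chi D) K) := by
      rw [okw_iff, hqw]
      exact ⟨hpq, hq.1, fun x hx => ⟨hK2 x hx, (hU x).1 (hq.2 x hx)⟩, hK3⟩
    have hst : stf F p (pre (chi D) K) n w = some m := by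
      unfold stf
      rw [if_pos hok, key w K hok, hqw]
      exact hm
    have hmem : m ∈ (List.range (pre (chi D) K).length).filterMap (stf F p (pre (chi D) K) n) :=
      List.mem_filterMap.2 ⟨w, List.mem_range.2 (by rw [length_pre]; exact hK1), hst⟩
    refine ⟨K, ?_⟩
    unfold srf
    cases h5 : (List.range (pre (chi D) K).length).filterMap (stf F p (pre (chi D) K) n) with
    | nil =>
      rw [h5] at hmem
      simp at hmem
    | cons v l => exact ⟨v, rfl⟩

end Pool.Agent.R621.BE
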