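import Mathlib
import Pool.Agent.R621.HS.Bie9

/-!
# Generic copies
-/

set_option autoImplicit false

namespace Pool.Agent.R621.BE

open Encodable Helper760.OracleNF Nat.Partrec

variable {L : Lng}

theorem Leg.nil (U : Set ℕ) : Leg U [] := ⟨List.nodup_nil, by simp⟩

theorem Leg.map {A B : Strc L} {h : ℕ → ℕ} (hh : Emb A B h) {p : List ℕ} (hp : Leg A.univ p) :
    Leg B.univ (p.map h) := by
  refine ⟨hp.1.map_on fun x hx y hy hxy => hh.inj x (hp.2 x hx) y (hp.2 y hy) hxy, fun y hy => ?_⟩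
  obtain ⟨x, hx, rfl⟩ := List.mem_map.1 hy
  exact hh.mem x (hp.2 x hx)

theorem Leg.unmap {A B : Strc L} {h : ℕ → ℕ} (hh : IsoMap A B h) {q : List ℕ}
    (hq : Leg B.univ q) : ∃ v, v.map h = q ∧ Leg A.univ v := by
  classical
  let g : ℕ → ℕ := fun y => if hy : y ∈ B.univ then (hh.2 y hy).choose else 0
  have hg : ∀ y ∈ B.univ, g y ∈ A.univ ∧ h (g y) = y := by
    intro y hy
    simp only [g, dif_pos hy]
    exact (hh.2 y hy).choose_spec
  have h1 : (q.map g).map h = q := by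
    rw [List.map_map]
    conv_rhs => rw [← List.map_id q]
    exact List.map_congr_left fun y hy => (hg y (hq.2 y hy)).2
  refine ⟨q.map g, h1, List.Nodup.of_map h (by rw [h1]; exact hq.1), fun x hx => ?_⟩
  obtain ⟨y, hy, rfl⟩ := List.mem_map.1 hx
  exact (hg y (hq.2 y hy)).1

/-- the requirement of `F` and `X` is met -/
def MetF (B : Strc L) (F : List ℕ → ℕ → Option ℕ) (X : Set ℕ) (v : List ℕ) : Prop :=
  (∃ n m, F (prc (chi B.diag) v) n = some m ∧ m ≠ chi X n) ∨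
    ∃ n, ∀ w, Leg B.univ w → v <+: w → ∀ m, F (prc (chi B.diag) w) n ≠ some m

theorem exists_metF {B B' : Strc L} {h : ℕ → ℕ} (hh : IsoMap B B' h) {X : Set ℕ}
    (hX : ¬ TRed X B'.diag) {F : List ℕ → ℕ → Option ℕ} (hF : Primrec₂ F) {u : List ℕ}
    (hu : Leg B.univ u) : ∃ v, Leg B.univ v ∧ u <+: v ∧ MetF B F X v := by
  by_contra hcon
  push Not at hcon
  refine hX (search_red hF (p := u.map h) (U := B'.univ) (fun x => diag_univ.symm) ?_ ?_)
  · intro q hq hpq n m hm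
    obtain ⟨v, rfl, hv⟩ := Leg.unmap hh hq
    rw [prc_map hh.1 hv] at hm
    by_contra hne
    have h1 : u <+: v := by
      rw [List.prefix_iff_eq_take, List.length_map, ← List.map_take] at hpq
      rw [List.prefix_iff_eq_take]
      exact map_inj_on hh.1.inj hu.2 (fun x hx => hv.2 x (List.mem_of_mem_take hx)) hpq
    exact hcon v hv h1 (Or.inl ⟨n, m, hm, hne⟩)
  · intro n
    by_contra h1
    refine hcon u hu List.prefix_rfl (Or.inr ⟨n, fun w hw huw m hm => h1 ?_⟩)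
    refine ⟨w.map h, hw.map hh.1, ?_, m, by rw [prc_map hh.1 hw]; exact hm⟩
    obtain ⟨t, rfl⟩ := huw
    rw [List.map_append]
    exact List.prefix_append _ _

theorem MetF.mono {B : Strc L} {F : List ℕ → ℕ → Option ℕ} {X : Set ℕ} (hM : Mon F)
    {v w : List ℕ} (h : MetF B F X v) (hvw : v <+: w) (hp : prc (chi B.diag) v <+:
      prc (chi B.diag) w) : MetF B F X w := by
  rcases h with ⟨n, m, h1, h2⟩ | ⟨n, h1⟩
  · exact Or.inl ⟨n, m, hM _ _ _ _ hp h1, h2⟩
  · exact Or.inr ⟨n, fun w' hw' hww m => h1 w' hw' (hvw.trans hww) m⟩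

/-- the code `c` computes `F` -/
def CodeOf (c : Code) (F : List ℕ → ℕ → Option ℕ) : Prop :=
  ∀ l x, c.eval (encode (l, x)) = Part.some (encode (F l x))

theorem exists_codeOf {F : List ℕ → ℕ → Option ℕ} (hF : Primrec₂ F) : ∃ c, CodeOf c F := by
  have hFc : Computable fun z : List ℕ × ℕ => F z.1 z.2 := hF.to_comp
  obtain ⟨c, hc⟩ := Code.exists_code.1 hFc
  refine ⟨c, fun l x => ?_⟩
  rw [hc]
  simp only [encodek, Part.coe_some, Part.bind_some, Part.map_some, PFun.coe_val]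

theorem CodeOf.unique {c : Code} {F F' : List ℕ → ℕ → Option ℕ} (h : CodeOf c F)
    (h' : CodeOf c F') : F = F' := by
  funext l x
  have h1 := (h l x).symm.trans (h' l x)
  exact encode_injective (Part.some_inj.1 h1)

theorem exists_stepG {B B' : Strc L} {h : ℕ → ℕ} (hh : IsoMap B B' h) (hinf : B.univ.Infinite)
    {X Y : Set ℕ} (hX : ¬ TRed X B.diag) (hY : ¬ TRed Y B'.diag) (k : ℕ) {u : List ℕ}
    (hu : Leg B.univ u) : ∃ v, Leg B.univ v ∧ u <+: v ∧ u.length < v.length ∧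
      (k ∈ B.univ → k ∈ v) ∧ ∀ F, Primrec₂ F → CodeOf (Code.ofNatCode k) F →
        (∃ v0, v0 <+: v ∧ Leg B.univ v0 ∧ MetF B F X v0) ∧
          ∃ v1, v1 <+: v ∧ Leg B.univ v1 ∧ MetF B F Y v1 := by
  have hid : IsoMap B B id := by
    refine ⟨⟨fun x hx => hx, fun x _ y _ hxy => hxy, fun i v _ => by rw [List.map_id],
      fun i v _ => by rw [List.map_id]; rfl⟩, fun y hy => ⟨y, hy, rfl⟩⟩
  obtain ⟨v, hv, huv, hF⟩ : ∃ v, Leg B.univ v ∧ u <+: v ∧
      ∀ F, Primrec₂ F → CodeOf (Code.ofNatCode k) F →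
        (∃ v0, v0 <+: v ∧ Leg B.univ v0 ∧ MetF B F X v0) ∧
          ∃ v1, v1 <+: v ∧ Leg B.univ v1 ∧ MetF B F Y v1 := by
    by_cases hk : ∃ F, Primrec₂ F ∧ CodeOf (Code.ofNatCode k) F
    · obtain ⟨F, hF, hc⟩ := hk
      obtain ⟨v0, h1, h2, h3⟩ := exists_metF hid hX hF hu
      obtain ⟨v1, h4, h5, h6⟩ := exists_metF hh hY hF h1
      refine ⟨v1, h4, h2.trans h5, fun F' _ hc' => ?_⟩
      rw [← hc.unique hc']
      exact ⟨⟨v0, h5, h1, h3⟩, v1, List.prefix_rfl, h4, h6⟩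
    · refine ⟨u, hu, List.prefix_rfl, fun F hF hc => absurd ⟨F, hF, hc⟩ hk⟩
  obtain ⟨w, hw, hvw, hkw⟩ : ∃ w, Leg B.univ w ∧ v <+: w ∧ (k ∈ B.univ → k ∈ w) := by
    by_cases h1 : k ∈ B.univ ∧ k ∉ v
    · refine ⟨v ++ [k], ⟨?_, fun x hx => ?_⟩, List.prefix_append _ _, fun _ => by simp⟩
      · rw [List.nodup_append]
        refine ⟨hv.1, by simp, fun x hx y hy hxy => ?_⟩
        rw [List.mem_singleton.1 hy] at hxy
        exact h1.2 (hxy ▸ hx)
      · rcases List.mem_append.1 hx with hx | hx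
        · exact hv.2 x hx
        · rw [List.mem_singleton.1 hx]
          exact h1.1
    · refine ⟨v, hv, List.prefix_rfl, fun h2 => ?_⟩
      by_contra h3
      exact h1 ⟨h2, h3⟩
  obtain ⟨x, hx, hxw⟩ : ∃ x ∈ B.univ, x ∉ w := by
    by_contra h1
    push Not at h1
    exact hinf (Set.Finite.subset (List.finite_toSet w) h1)
  refine ⟨w ++ [x], ⟨?_, fun y hy => ?_⟩, (huv.trans hvw).trans (List.prefix_append _ _), ?_,
    fun h1 => List.mem_append_left _ (hkw h1), fun F hF1 hF2 => ?_⟩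
  · rw [List.nodup_append]
    refine ⟨hw.1, by simp, fun y hy z hz hyz => ?_⟩
    rw [List.mem_singleton.1 hz] at hyz
    exact hxw (hyz ▸ hy)
  · rcases List.mem_append.1 hy with hy | hy
    · exact hw.2 y hy
    · rw [List.mem_singleton.1 hy]
      exact hx
  · have h1 := (huv.trans hvw).length_le
    rw [List.length_append]
    simp only [List.length_singleton]
    omega
  · obtain ⟨⟨v0, e1, e2, e3⟩, v1, e4, e5, e6⟩ := hF F hF1 hF2
    exact ⟨⟨v0, (e1.trans hvw).trans (List.prefix_append _ _), e2, e3⟩, v1,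
      (e4.trans hvw).trans (List.prefix_append _ _), e5, e6⟩

/-- the pulled back structure -/
def pull (B : Strc L) (G Gi : ℕ → ℕ) : Strc L where
  univ := Set.univ
  nonempty := ⟨0, trivial⟩
  rel i v := B.rel i (v.map G)
  fn i v := Gi (B.fn i (v.map G))
  fn_mem _ _ _ := trivial

theorem pull_emb {B : Strc L} {G Gi : ℕ → ℕ} (h1 : ∀ i, G i ∈ B.univ) (h2 : ∀ i, Gi (G i) = i)
    (h3 : ∀ y ∈ B.univ, G (Gi y) = y) : Emb (pull B G Gi) B G where
  mem x _ := h1 x
  inj x _ y _ hxy := by rw [← h2 x, hxy, h2]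
  rel i v _ := Iff.rfl
  fn i v hv := by
    have h4 : L.Tup 2 i B.univ (v.map G) := by
      refine ⟨hv.1, by rw [List.length_map]; exact hv.2.1, fun y hy => ?_⟩
      obtain ⟨x, _, rfl⟩ := List.mem_map.1 hy
      exact h1 x
    exact (h3 _ (B.fn_mem i _ h4)).symm

theorem pull_iso {B : Strc L} {G Gi : ℕ → ℕ} (h1 : ∀ i, G i ∈ B.univ) (h2 : ∀ i, Gi (G i) = i)
    (h3 : ∀ y ∈ B.univ, G (Gi y) = y) : Iso B (pull B G Gi) := by
  have h4 : ∀ v : List ℕ, (∀ x ∈ v, x ∈ B.univ) → (v.map Gi).map G = v := by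
    intro v hv
    rw [List.map_map]
    conv_rhs => rw [← List.map_id v]
    exact List.map_congr_left fun x hx => h3 x (hv x hx)
  refine ⟨Gi, ⟨fun _ _ => trivial, fun x hx y hy hxy => ?_, fun i v hv => ?_, fun i v hv => ?_⟩,
    fun y _ => ⟨G y, h1 y, h2 y⟩⟩
  · rw [← h3 x hx, hxy, h3 y hy]
  · show B.rel i ((v.map Gi).map G) ↔ _
    rw [h4 v hv.2.2]
  · show Gi (B.fn i ((v.map Gi).map G)) = _
    rw [h4 v hv.2.2]

theorem prc_range {C : Strc L} (hC : C.univ = Set.univ) (K : ℕ) :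
    prc (chi C.diag) (List.range K) = pre (chi C.diag) K := by
  unfold prc pre
  rw [List.length_range]
  refine List.map_congr_left fun j hj => ?_
  have hj' := List.mem_range.1 hj
  by_cases h1 : j.unpair.1 = 0
  · rw [if_pos h1]
    symm
    rw [chi_one, ← Nat.pair_unpair j, h1, diag_univ, hC]
    trivial
  · rw [if_neg h1]
    congr 1
    unfold kc
    have h2 : (Denumerable.ofNat (List ℕ) j.unpair.2).map (fun x => (List.range K).getD x 0) =
        Denumerable.ofNat (List ℕ) j.unpair.2 := by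
      conv_rhs => rw [← List.map_id (Denumerable.ofNat (List ℕ) j.unpair.2)]
      refine List.map_congr_left fun x hx => ?_
      have h3 : x < K := lt_trans (lt_of_mem_ofNat hx) hj'
      rw [List.getD_eq_getElem _ _ (by rwa [List.length_range]), List.getElem_range]
      rfl
    rw [h2, Denumerable.encode_ofNat, Nat.pair_unpair]

theorem generic_copy {B B' : Strc L} {h : ℕ → ℕ} (hh : IsoMap B B' h) (hinf : B.univ.Infinite)
    {X Y : Set ℕ} (hX : ¬ TRed X B.diag) (hY : ¬ TRed Y B'.diag) :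
    ∃ C : Strc L, C.univ = Set.univ ∧ Iso B C ∧ ¬ TRed X C.diag ∧ ¬ TRed Y C.diag := by
  classical
  let st : ℕ → {u // Leg B.univ u} → {u // Leg B.univ u} := fun k u =>
    ⟨(exists_stepG hh hinf hX hY k u.2).choose, (exists_stepG hh hinf hX hY k u.2).choose_spec.1⟩
  let s : ℕ → {u // Leg B.univ u} := fun k => Nat.rec ⟨[], Leg.nil _⟩ (fun k u => st k u) k
  have hs : ∀ k, (s k).1 <+: (s (k + 1)).1 ∧ (s k).1.length < (s (k + 1)).1.length ∧
      (k ∈ B.univ → k ∈ (s (k + 1)).1) ∧ ∀ F, Primrec₂ F → CodeOf (Code.ofNatCode k) F →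
        (∃ v0, v0 <+: (s (k + 1)).1 ∧ Leg B.univ v0 ∧ MetF B F X v0) ∧
          ∃ v1, v1 <+: (s (k + 1)).1 ∧ Leg B.univ v1 ∧ MetF B F Y v1 := fun k =>
    (exists_stepG hh hinf hX hY k (s k).2).choose_spec.2
  have hmono : ∀ {k k'}, k ≤ k' → (s k).1 <+: (s k').1 := by
    intro k k' hkk
    induction k', hkk using Nat.le_induction with
    | base => exact List.prefix_rfl
    | succ n _ ih => exact ih.trans (hs n).1
  have hlen : ∀ k, k ≤ (s k).1.length := by
    intro k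
    induction k with
    | zero => exact Nat.zero_le _
    | succ k ih => exact lt_of_le_of_lt ih (hs k).2.1
  let G : ℕ → ℕ := fun i => (s (i + 1)).1.getD i 0
  have hG : ∀ k i, i < (s k).1.length → (s k).1[i]? = some (G i) := by
    intro k i hi
    have h1 : i < (s (i + 1)).1.length := hlen (i + 1)
    have h2 : (s (i + 1)).1[i]? = some (G i) := by
      simp only [G]
      rw [List.getElem?_eq_getElem h1, List.getD_eq_getElem _ _ h1]
    rcases le_total k (i + 1) with h3 | h3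
    · rw [← h2, pre_get (hmono h3) hi]
    · rw [← h2, pre_get (hmono h3) h1]
  have hGu : ∀ i, G i ∈ B.univ := by
    intro i
    have h1 := hG (i + 1) i (hlen (i + 1))
    exact (s (i + 1)).2.2 _ (List.mem_of_getElem? h1)
  have hGi : ∀ i j, G i = G j → i = j := by
    intro i j hij
    have h0 := hlen (i + j + 1)
    have h1 : i < (s (i + j + 1)).1.length := by omega
    have h2 : j < (s (i + j + 1)).1.length := by omega
    have h3 := hG (i + j + 1) i h1
    have h4 := hG (i + j + 1) j h2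
    rw [← hij] at h4
    rw [List.getElem?_eq_getElem h1] at h3
    rw [List.getElem?_eq_getElem h2] at h4
    have h5 : (s (i + j + 1)).1[i] = (s (i + j + 1)).1[j] := by
      rw [Option.some_inj.1 h3, Option.some_inj.1 h4]
    exact ((s (i + j + 1)).2.1.getElem_inj_iff).1 h5
  have hGs : ∀ y ∈ B.univ, ∃ i, G i = y := by
    intro y hy
    have h1 := (hs y).2.2.1 hy
    obtain ⟨i, hi, h2⟩ := List.mem_iff_getElem.1 h1
    refine ⟨i, ?_⟩
    have h3 := hG (y + 1) i hi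
    rw [List.getElem?_eq_getElem hi, h2] at h3
    exact (Option.some_inj.1 h3).symm
  let Gi : ℕ → ℕ := fun y => if hy : ∃ i, G i = y then hy.choose else 0
  have hGi1 : ∀ y ∈ B.univ, G (Gi y) = y := by
    intro y hy
    simp only [Gi, dif_pos (hGs y hy)]
    exact (hGs y hy).choose_spec
  have hGi2 : ∀ i, Gi (G i) = i := fun i => hGi _ _ (hGi1 _ (hGu i))
  set C := pull B G Gi with hC
  have hemb : Emb C B G := pull_emb hGu hGi2 hGi1
  have hpre : ∀ l : List ℕ, (∃ k, l <+: (s k).1) → prc (chi B.diag) l =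
      pre (chi C.diag) l.length := by
    rintro l ⟨k, hk⟩
    have h1 : l = (List.range l.length).map G := by
      refine List.ext_getElem? fun i => ?_
      rw [List.getElem?_map]
      by_cases hi : i < l.length
      · rw [List.getElem?_range hi, ← pre_get hk hi, hG k i (lt_of_lt_of_le hi hk.length_le)]
        rfl
      · rw [List.getElem?_eq_none (by omega), List.getElem?_eq_none (by simp; omega)]
        rfl
    have h2 : prc (chi B.diag) ((List.range l.length).map G) =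
        prc (chi C.diag) (List.range l.length) :=
      prc_map hemb ⟨List.nodup_range, fun _ _ => trivial⟩
    rw [← h1, prc_range rfl] at h2
    exact h2
  have hfinal : ∀ Z : Set ℕ, (∀ k F, Primrec₂ F → CodeOf (Code.ofNatCode k) F →
      ∃ v0, v0 <+: (s (k + 1)).1 ∧ Leg B.univ v0 ∧ MetF B F Z v0) → ¬ TRed Z C.diag := by
    intro Z hZ hred
    obtain ⟨F, hF, hM, hv⟩ := red_normal hred
    obtain ⟨c, hc⟩ := exists_codeOf hF
    obtain ⟨k, hk⟩ : ∃ k, Code.ofNatCode k = c := ⟨Code.encodeCode c, Denumerable.ofNat_encode c⟩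
    obtain ⟨v0, h1, h2, h3⟩ := hZ k F hF (by rw [hk]; exact hc)
    rcases h3 with ⟨n, m, h4, h5⟩ | ⟨n, h4⟩
    · rw [hpre v0 ⟨k + 1, h1⟩] at h4
      exact h5 ((hv n m).2 ⟨_, h4⟩)
    · obtain ⟨K, hK⟩ := (hv n (chi Z n)).1 rfl
      have h6 : (s (k + 1)).1 <+: (s (max (k + 1) K)).1 := hmono (le_max_left (k + 1) K)
      refine h4 (s (max (k + 1) K)).1 (s (max (k + 1) K)).2 (h1.trans h6) (chi Z n) ?_
      rw [hpre (s (max (k + 1) K)).1 ⟨max (k + 1) K, List.prefix_rfl⟩]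
      exact hM _ _ _ _ (pre_le _ ((le_max_right _ _).trans (hlen _))) hK
  exact ⟨C, rfl, pull_iso hGu hGi2 hGi1, hfinal X fun k F hF hc => ((hs k).2.2.2 F hF hc).1,
    hfinal Y fun k F hF hc => ((hs k).2.2.2 F hF hc).2⟩

theorem Iso.trans {A B C : Strc L} (h : Iso A B) (h' : Iso B C) : Iso A C := by
  obtain ⟨f, hf, hfs⟩ := h
  obtain ⟨g, hg, hgs⟩ := h'
  refine ⟨g ∘ f, ⟨fun x hx => hg.mem _ (hf.mem x hx), fun x hx y hy hxy => ?_,
    fun i v hv => ?_, fun i v hv => ?_⟩, fun z hz => ?_⟩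
  · exact hf.inj x hx y hy (hg.inj _ (hf.mem x hx) _ (hf.mem y hy) hxy)
  · rw [← List.map_map, hg.rel i _ (tup_map hf hv), hf.rel i v hv]
  · rw [← List.map_map, hg.fn i _ (tup_map hf hv), hf.fn i v hv]
    rfl
  · obtain ⟨y, hy, rfl⟩ := hgs z hz
    obtain ⟨x, hx, rfl⟩ := hfs y hy
    exact ⟨x, hx, rfl⟩

theorem Iso.symm' {A B : Strc L} (h : Iso A B) : ∃ g, IsoMap B A g := by
  classical
  obtain ⟨f, hf, hfs⟩ := h
  let g : ℕ → ℕ := fun y => if hy : y ∈ B.univ then (hfs y hy).choose else 0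
  have hg : ∀ y ∈ B.univ, g y ∈ A.univ ∧ f (g y) = y := by
    intro y hy
    simp only [g, dif_pos hy]
    exact (hfs y hy).choose_spec
  have hgf : ∀ x ∈ A.univ, g (f x) = x := fun x hx =>
    hf.inj _ (hg _ (hf.mem x hx)).1 _ hx (hg _ (hf.mem x hx)).2
  have hmap : ∀ v : List ℕ, (∀ y ∈ v, y ∈ B.univ) → (v.map g).map f = v := by
    intro v hv
    rw [List.map_map]
    conv_rhs => rw [← List.map_id v]
    exact List.map_congr_left fun y hy => (hg y (hv y hy)).2
  have htup : ∀ {k i v}, L.Tup k i B.univ v → L.Tup k i A.univ (v.map g) := by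
    intro k i v hv
    refine ⟨hv.1, by rw [List.length_map]; exact hv.2.1, fun x hx => ?_⟩
    obtain ⟨y, hy, rfl⟩ := List.mem_map.1 hx
    exact (hg y (hv.2.2 y hy)).1
  refine ⟨g, ⟨fun y hy => (hg y hy).1, fun x hx y hy hxy => ?_, fun i v hv => ?_,
    fun i v hv => ?_⟩, fun x hx => ⟨f x, hf.mem x hx, hgf x hx⟩⟩
  · rw [← (hg x hx).2, hxy, (hg y hy).2]
  · have h1 := hf.rel i (v.map g) (htup hv)
    rw [hmap v hv.2.2] at h1
    exact h1.symm
  · have h1 := hf.fn i (v.map g) (htup hv)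
    rw [hmap v hv.2.2] at h1
    rw [h1, hgf _ (A.fn_mem i _ (htup hv))]

theorem iso_not_union_aux {B B1 B2 : Strc L} (h1 : Iso B B1) (h2 : Iso B B2)
    (hab : ¬ deg B1.diag ≤ deg B2.diag) (hba : ¬ deg B2.diag ≤ deg B1.diag) :
    ∃ C : Strc L, C.univ = Set.univ ∧ Iso B C ∧ ¬ deg B1.diag ≤ deg C.diag ∧
      ¬ deg B2.diag ≤ deg C.diag := by
  obtain ⟨g, hg⟩ := h1.symm'
  obtain ⟨f, hf⟩ : Iso B1 B2 := Iso.trans ⟨g, hg⟩ h2
  by_cases hfin : B1.univ.Finite
  · exact absurd (finite_red hf hfin) hab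
  · obtain ⟨C, hC0, hC, hC1, hC2⟩ := generic_copy hf hfin (X := B2.diag) (Y := B1.diag) hba hab
    exact ⟨C, hC0, Iso.trans h1 hC, hC2, hC1⟩

/-- no isomorphism spectrum is the union of two incomparable cones -/
theorem iso_not_union (B : Strc L) {a b : TDeg} (hab : ¬ a ≤ b) (hba : ¬ b ≤ a) :
    isoSpec B ≠ {d | a ≤ d} ∪ {d | b ≤ d} := by
  intro heq
  have ha : a ∈ isoSpec B := by
    rw [heq]
    obtain ⟨X, rfl⟩ := exists_deg a
    exact Or.inl (TRed.refl X)
  have hb : b ∈ isoSpec B := by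
    rw [heq]
    obtain ⟨X, rfl⟩ := exists_deg b
    exact Or.inr (TRed.refl X)
  obtain ⟨B1, h1, rfl⟩ := ha
  obtain ⟨B2, h2, rfl⟩ := hb
  obtain ⟨C, _, hC, hC1, hC2⟩ := iso_not_union_aux h1 h2 hab hba
  have h3 : deg C.diag ∈ isoSpec B := ⟨C, hC, rfl⟩
  rw [heq] at h3
  rcases h3 with h3 | h3
  · exact hC1 h3
  · exact hC2 h3

/-- the same when all universes are required to be `ω` -/
theorem iso_not_union_omega (B : Strc L) {a b : TDeg} (hab : ¬ a ≤ b) (hba : ¬ b ≤ a) :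
    {d : TDeg | ∃ C : Strc L, C.univ = Set.univ ∧ Iso B C ∧ deg C.diag = d} ≠
      {d | a ≤ d} ∪ {d | b ≤ d} := by
  intro heq
  have ha : a ∈ {d : TDeg | ∃ C : Strc L, C.univ = Set.univ ∧ Iso B C ∧ deg C.diag = d} := by
    rw [heq]
    obtain ⟨X, rfl⟩ := exists_deg a
    exact Or.inl (TRed.refl X)
  have hb : b ∈ {d : TDeg | ∃ C : Strc L, C.univ = Set.univ ∧ Iso B C ∧ deg C.diag = d} := by
    rw [heq]
    obtain ⟨X, rfl⟩ := exists_deg b
    exact Or.inr (TRed.refl X)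
  obtain ⟨B1, _, h1, rfl⟩ := ha
  obtain ⟨B2, _, h2, rfl⟩ := hb
  obtain ⟨C, hC0, hC, hC1, hC2⟩ := iso_not_union_aux h1 h2 hab hba
  have h3 : deg C.diag ∈
      {d : TDeg | ∃ C : Strc L, C.univ = Set.univ ∧ Iso B C ∧ deg C.diag = d} :=
    ⟨C, hC0, hC, rfl⟩
  rw [heq] at h3
  rcases h3 with h3 | h3
  · exact hC1 h3
  · exact hC2 h3

end Pool.Agent.R621.BE
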