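import Mathlib
import Pool.Agent.Helper743.Oracle

/-!
# Relative computability of total functions between encodable types
-/

set_option autoImplicit false

namespace Pool.Agent.R621.DV

open Encodable Pool.Agent.Helper743

variable {α β γ δ : Type} [Primcodable α] [Primcodable β] [Primcodable γ] [Primcodable δ]

/-- the action of a function on codes -/
def lft (f : α → β) (n : ℕ) : ℕ := encode ((decode (α := α) n).map f)

/-- `f` is computable relative to the oracle `g` -/
def CI (g : ℕ → ℕ) (f : α → β) : Prop := RecT {(g : ℕ →. ℕ)} (lft f)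

theorem lft_pair_none {f : α × γ → β} {c n : ℕ} (h : decode (α := α) c = none) :
    lft f (Nat.pair c n) = 0 := by
  unfold lft
  rw [Encodable.decode_prod_val]
  simp [h]

theorem lft_pair {f : α × γ → β} {c n : ℕ} {a : α} {x : γ} (h : decode (α := α) c = some a)
    (h' : decode (α := γ) n = some x) : lft f (Nat.pair c n) = encode (f (a, x)) + 1 := by
  unfold lft
  rw [Encodable.decode_prod_val]
  simp [h, h']

theorem lft_some {f : α → β} {c : ℕ} {a : α} (h : decode (α := α) c = some a) :
    lft f c = encode (f a) + 1 := by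
  unfold lft
  simp [h]

theorem lft_none {f : α → β} {c : ℕ} (h : decode (α := α) c = none) :
    lft f c = 0 := by
  unfold lft
  simp [h]

variable {g : ℕ → ℕ}

theorem recT_congr {O : Set (ℕ →. ℕ)} {f f' : ℕ → ℕ} (h : RecT O f) (hf : ∀ n, f n = f' n) :
    RecT O f' := by
  have : f = f' := funext hf
  rwa [← this]

theorem CI.comput {f : α → β} (hf : Computable f) : CI g f := by
  refine Computable.recT ?_
  exact Computable.encode.comp (Computable.option_map Computable.decode (hf.comp Computable.snd).to₂)

theorem CI.prim {f : α → β} (hf : Primrec f) : CI g f := CI.comput hf.to_comp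

theorem CI.comp {f : β → γ} {h : α → β} (hf : CI g f) (hh : CI g h) : CI g fun a => f (h a) := by
  -- encode (some b) = encode b + 1
  have hp : Computable fun n : ℕ => n - 1 := (Primrec.nat_sub.comp Primrec.id (Primrec.const 1)).to_comp
  have h1 : RecT {(g : ℕ →. ℕ)} fun n => lft f (lft h n - 1) :=
    RecT.comp hf (RecT.comp (Computable.recT hp) hh)
  -- treat the undefined case separately
  have h2 : Computable fun z : ℕ => if z.unpair.1 = 0 then 0 else z.unpair.2 := by
    have : Primrec fun z : ℕ => if z.unpair.1 = 0 then 0 else z.unpair.2 :=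
      Primrec.ite (Primrec.eq.comp (Primrec.fst.comp Primrec.unpair) (Primrec.const 0))
        (Primrec.const 0) (Primrec.snd.comp Primrec.unpair)
    exact this.to_comp
  refine recT_congr (RecT.comp (Computable.recT h2) (RecT.pair hh h1)) ?_
  intro n
  simp only [Nat.unpair_pair]
  cases hd : (decode (α := α) n) with
  | none => simp [lft_none hd]
  | some a =>
    rw [lft_some hd, lft_some hd]
    simp only [Nat.add_sub_cancel]
    rw [lft_some (encodek (h a))]
    simp

theorem CI.pair {f : α → β} {h : α → γ} (hf : CI g f) (hh : CI g h) :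
    CI g fun a => (f a, h a) := by
  have h2 : Computable fun z : ℕ => if z.unpair.1 = 0 then 0
      else Nat.pair (z.unpair.1 - 1) (z.unpair.2 - 1) + 1 := by
    have : Primrec fun z : ℕ => if z.unpair.1 = 0 then 0
        else Nat.pair (z.unpair.1 - 1) (z.unpair.2 - 1) + 1 :=
      Primrec.ite (Primrec.eq.comp (Primrec.fst.comp Primrec.unpair) (Primrec.const 0))
        (Primrec.const 0) (Primrec.succ.comp (Primrec₂.natPair.comp
          (Primrec.nat_sub.comp (Primrec.fst.comp Primrec.unpair) (Primrec.const 1))
          (Primrec.nat_sub.comp (Primrec.snd.comp Primrec.unpair) (Primrec.const 1))))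
    exact this.to_comp
  refine recT_congr (RecT.comp (Computable.recT h2) (RecT.pair hf hh)) ?_
  intro n
  simp only [Nat.unpair_pair]
  cases hd : (decode (α := α) n) with
  | none => simp [lft_none hd]
  | some a =>
    rw [lft_some hd, lft_some hd, lft_some hd]
    simp [encode_prod_val]

theorem CI.of_eq {f f' : α → β} (h : CI g f) (hf : ∀ a, f a = f' a) : CI g f' := by
  have : f = f' := funext hf
  rwa [← this]

theorem CI.const (b : β) : CI g fun _ : α => b := CI.comput (Computable.const b)

theorem CI.id : CI g fun a : α => a := CI.comput Computable.id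

theorem CI.fst {f : α → β × γ} (h : CI g f) : CI g fun a => (f a).1 :=
  (CI.comput Computable.fst).comp h

theorem CI.snd {f : α → β × γ} (h : CI g f) : CI g fun a => (f a).2 :=
  (CI.comput Computable.snd).comp h

theorem CI.oracle : CI g g := by
  have h : Computable fun n : ℕ => n + 1 := Primrec.succ.to_comp
  refine recT_congr (RecT.comp (Computable.recT h) (TR.refl g)) ?_
  intro n
  rw [lft_some (Denumerable.decode_eq_ofNat ℕ n)]
  rfl

theorem ci_nat_iff {f : ℕ → ℕ} : CI g f ↔ RecT {(g : ℕ →. ℕ)} f := by
  constructor
  · intro h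
    have hp : Computable fun n : ℕ => n - 1 :=
      (Primrec.nat_sub.comp Primrec.id (Primrec.const 1)).to_comp
    refine recT_congr (RecT.comp (Computable.recT hp) h) ?_
    intro n
    rw [lft_some (Denumerable.decode_eq_ofNat ℕ n)]
    rfl
  · intro h
    have hs : Computable fun n : ℕ => n + 1 := Primrec.succ.to_comp
    refine recT_congr (RecT.comp (Computable.recT hs) h) ?_
    intro n
    rw [lft_some (Denumerable.decode_eq_ofNat ℕ n)]
    rfl

/-- primitive recursion -/
theorem CI.nat_rec {f : α → ℕ} {b : α → β} {h : α × ℕ × β → β} (hf : CI g f) (hb : CI g b)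
    (hh : CI g h) :
    CI g fun a => (Nat.rec (b a) (fun n ih => h (a, n, ih)) (f a) : β) := by
  -- work on codes; the step function
  have hst : RecT {(g : ℕ →. ℕ)} fun z => lft h (Nat.pair z.unpair.1
      (Nat.pair z.unpair.2.unpair.1 (z.unpair.2.unpair.2 - 1))) := by
    have h1 : Computable fun z : ℕ => Nat.pair z.unpair.1 (Nat.pair z.unpair.2.unpair.1
        (z.unpair.2.unpair.2 - 1)) := by
      have : Primrec fun z : ℕ => Nat.pair z.unpair.1 (Nat.pair z.unpair.2.unpair.1
        (z.unpair.2.unpair.2 - 1)) := by
        have h2 : Primrec fun z : ℕ => z.unpair.1 := Primrec.fst.comp Primrec.unpair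
        have h3 : Primrec fun z : ℕ => z.unpair.2 := Primrec.snd.comp Primrec.unpair
        exact Primrec₂.natPair.comp h2 (Primrec₂.natPair.comp (h2.comp h3)
          (Primrec.nat_sub.comp (h3.comp h3) (Primrec.const 1)))
      exact this.to_comp
    exact RecT.comp hh (Computable.recT h1)
  have hr := RecT.prec hb hst
  have h4 := RecT.comp hr (RecT.pair (Computable.recT (Computable.id : Computable fun n : ℕ => n))
    (RecT.comp (Computable.recT ((Primrec.nat_sub.comp Primrec.id (Primrec.const 1)).to_comp :
      Computable fun n : ℕ => n - 1)) hf))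
  have h2 : Computable fun z : ℕ => if z.unpair.1 = 0 then 0 else z.unpair.2 := by
    have : Primrec fun z : ℕ => if z.unpair.1 = 0 then 0 else z.unpair.2 :=
      Primrec.ite (Primrec.eq.comp (Primrec.fst.comp Primrec.unpair) (Primrec.const 0))
        (Primrec.const 0) (Primrec.snd.comp Primrec.unpair)
    exact this.to_comp
  refine recT_congr (RecT.comp (Computable.recT h2) (RecT.pair hf h4)) ?_
  intro n
  simp only [Nat.unpair_pair]
  cases hd : (decode (α := α) n) with
  | none => simp [lft_none hd]
  | some a =>
    rw [lft_some hd, lft_some hd]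
    have ha : ∀ m : ℕ, (Nat.rec (lft b n)
        (fun y ih => lft h (Nat.pair n (Nat.pair y (ih - 1)))) m : ℕ) =
        encode (Nat.rec (b a) (fun n ih => h (a, n, ih)) m : β) + 1 := by
      intro m
      induction m with
      | zero => exact lft_some hd
      | succ m ih =>
        simp only [ih]
        rw [Nat.add_sub_cancel]
        have h7 : ∀ y : β, decode (α := ℕ × β) (Nat.pair m (encode y)) = some (m, y) := by
          intro y
          rw [Encodable.decode_prod_val]
          simp
        exact lft_pair (f := h) hd (h7 _)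
    rw [if_neg (by omega)]
    exact ha (f a)

/-- unbounded search -/
theorem CI.find {p : α × ℕ → Prop} [DecidablePred p]
    (hp : CI g fun q : α × ℕ => decide (p q)) (hex : ∀ a, ∃ n, p (a, n)) :
    CI g fun a => Nat.find (hex a) := by
  -- the test fails exactly when the code of `false` appears
  have h2 : Computable fun z : ℕ => if z = encode false + 1 then 1 else 0 := by
    have : Primrec fun z : ℕ => if z = encode false + 1 then 1 else 0 :=
      Primrec.ite (Primrec.eq.comp Primrec.id (Primrec.const _)) (Primrec.const 1)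
        (Primrec.const 0)
    exact this.to_comp
  have ht : RecT {(g : ℕ →. ℕ)} fun z =>
      if lft (fun q : α × ℕ => decide (p q)) z = encode false + 1 then 1 else 0 :=
    RecT.comp (Computable.recT h2) hp
  have hv : ∀ c n, ((fun z => if lft (fun q : α × ℕ => decide (p q)) z = encode false + 1
      then 1 else 0) (Nat.pair c n) = 0 ↔ ∀ a, decode (α := α) c = some a → p (a, n)) := by
    intro c n
    cases hd : (decode (α := α) c) with
    | none =>
      simp only [lft_pair_none hd]
      simp
    | some a =>
      simp only [lft_pair hd (Denumerable.decode_eq_ofNat ℕ n)]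
      by_cases h3 : p (a, n)
      · have : decide (p (a, Denumerable.ofNat ℕ n)) = true := decide_eq_true h3
        rw [this]
        simp [h3]
      · have : decide (p (a, Denumerable.ofNat ℕ n)) = false := decide_eq_false h3
        rw [this]
        simp [h3]
  have hex' : ∀ c, ∃ n, (fun z => if lft (fun q : α × ℕ => decide (p q)) z = encode false + 1
      then 1 else 0) (Nat.pair c n) = 0 := by
    intro c
    cases hd : (decode (α := α) c) with
    | none => exact ⟨0, (hv c 0).2 (by simp [hd])⟩
    | some a =>
      obtain ⟨n, hn⟩ := hex a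
      refine ⟨n, (hv c n).2 ?_⟩
      intro a' h
      rw [hd] at h
      cases h
      exact hn
  have hF := RecT.find ht hex'
  have hd1 : Computable fun c : ℕ => lft (fun _ : α => ()) c := by
    exact Computable.encode.comp (Computable.option_map Computable.decode
      ((Computable.const ()).to₂))
  have h3 : Computable fun z : ℕ => if z.unpair.1 = 0 then 0 else z.unpair.2 + 1 := by
    have : Primrec fun z : ℕ => if z.unpair.1 = 0 then 0 else z.unpair.2 + 1 :=
      Primrec.ite (Primrec.eq.comp (Primrec.fst.comp Primrec.unpair) (Primrec.const 0))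
        (Primrec.const 0) (Primrec.succ.comp (Primrec.snd.comp Primrec.unpair))
    exact this.to_comp
  refine recT_congr (RecT.comp (Computable.recT h3) (RecT.pair (Computable.recT hd1) hF)) ?_
  intro c
  simp only [Nat.unpair_pair]
  cases hd : (decode (α := α) c) with
  | none => simp [lft_none hd]
  | some a =>
    have h5 : Nat.find (hex' c) = Nat.find (hex a) := by
      apply le_antisymm
      · apply Nat.find_min'
        refine (hv c _).2 ?_
        intro a' h
        rw [hd] at h
        cases h
        exact Nat.find_spec (hex a)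
      · apply Nat.find_min'
        exact (hv c _).1 (Nat.find_spec (hex' c)) a hd
    rw [lft_some hd, lft_some hd, h5]
    simp

/-! ### decidable predicates -/

/-- `p` is decidable relative to `g` -/
def DI (g : ℕ → ℕ) (p : α → Prop) : Prop := ∃ _ : DecidablePred p, CI g fun a => decide (p a)

theorem DI.ci {p : α → Prop} [DecidablePred p] (h : DI g p) : CI g fun a => decide (p a) := by
  obtain ⟨h1, h2⟩ := h
  exact h2.of_eq fun a => by congr

theorem DI.of_ci {p : α → Prop} {f : α → Bool} (h : CI g f) (hf : ∀ a, f a = Bool.true ↔ p a) :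
    DI g p := by
  classical
  refine ⟨fun a => Classical.dec _, h.of_eq fun a => ?_⟩
  by_cases h1 : p a
  · simp [h1, (hf a).2 h1]
  · simp only [h1, decide_false]
    by_contra h2
    exact h1 ((hf a).1 (by simpa using h2))

theorem DI.of_iff {p q : α → Prop} (h : DI g p) (hq : ∀ a, p a ↔ q a) : DI g q := by
  obtain ⟨h1, h2⟩ := h
  exact DI.of_ci h2 fun a => by simp [hq a]

theorem DI.not {p : α → Prop} (h : DI g p) : DI g fun a => ¬ p a := by
  obtain ⟨h1, h2⟩ := h
  refine DI.of_ci (f := fun a => !(decide (p a))) ((CI.prim Primrec.not).comp h2) ?_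
  intro a
  simp

theorem DI.and {p q : α → Prop} (h : DI g p) (h' : DI g q) : DI g fun a => p a ∧ q a := by
  obtain ⟨h1, h2⟩ := h
  obtain ⟨h3, h4⟩ := h'
  refine DI.of_ci (f := fun a => (decide (p a) && decide (q a)))
    ((CI.prim (f := fun z : Bool × Bool => (z.1 && z.2)) Primrec.and).comp (h2.pair h4)) ?_
  intro a
  simp

theorem DI.or {p q : α → Prop} (h : DI g p) (h' : DI g q) : DI g fun a => p a ∨ q a :=
  (DI.not ((DI.not h).and (DI.not h'))).of_iff fun a => by tauto

theorem DI.imp {p q : α → Prop} (h : DI g p) (h' : DI g q) : DI g fun a => p a → q a :=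
  ((DI.not h).or h').of_iff fun a => by tauto

theorem DI.iff {p q : α → Prop} (h : DI g p) (h' : DI g q) : DI g fun a => (p a ↔ q a) :=
  ((h.imp h').and (h'.imp h)).of_iff fun a => by tauto

theorem DI.comp {p : β → Prop} {f : α → β} (h : DI g p) (hf : CI g f) : DI g fun a => p (f a) := by
  obtain ⟨h1, h2⟩ := h
  exact DI.of_ci (h2.comp hf) fun a => by simp

theorem DI.prim {p : α → Prop} (h : PrimrecPred p) : DI g p := by
  obtain ⟨h1, h2⟩ := h
  exact ⟨h1, CI.prim h2⟩

theorem DI.eq {f h : α → ℕ} (hf : CI g f) (hh : CI g h) : DI g fun a => f a = h a :=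
  DI.comp (p := fun z : ℕ × ℕ => z.1 = z.2) (DI.prim (Primrec.eq.comp Primrec.fst Primrec.snd))
    (hf.pair hh)

theorem DI.lt {f h : α → ℕ} (hf : CI g f) (hh : CI g h) : DI g fun a => f a < h a :=
  DI.comp (p := fun z : ℕ × ℕ => z.1 < z.2) (DI.prim (Primrec.nat_lt.comp Primrec.fst Primrec.snd))
    (hf.pair hh)

theorem DI.le {f h : α → ℕ} (hf : CI g f) (hh : CI g h) : DI g fun a => f a ≤ h a :=
  DI.comp (p := fun z : ℕ × ℕ => z.1 ≤ z.2) (DI.prim (Primrec.nat_le.comp Primrec.fst Primrec.snd))
    (hf.pair hh)

theorem DI.triv : DI g fun _ : α => True := DI.of_ci (CI.const Bool.true) fun a => by simp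

/-- definition by cases -/
theorem CI.ite {p : α → Prop} [DecidablePred p] {f h : α → β} (hp : DI g p) (hf : CI g f)
    (hh : CI g h) : CI g fun a => if p a then f a else h a := by
  refine ((CI.prim (f := fun z : Bool × β × β => (if z.1 = true then z.2.1 else z.2.2))
    (Primrec.ite (Primrec.eq.comp Primrec.fst (Primrec.const true))
      (Primrec.fst.comp Primrec.snd) (Primrec.snd.comp Primrec.snd))).comp
    (hp.ci.pair (hf.pair hh))).of_eq ?_
  intro a
  simp

/-- bounded quantification -/
theorem DI.ball {p : α × ℕ → Prop} {f : α → ℕ} (h : DI g p) (hf : CI g f) :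
    DI g fun a => ∀ n < f a, p (a, n) := by
  classical
  obtain ⟨h1, h2⟩ := h
  have h3 : CI g fun a => (Nat.rec true (fun n ih => (decide (p (a, n)) && ih)) (f a) : Bool) := by
    refine CI.nat_rec (h := fun z : α × ℕ × Bool => (decide (p (z.1, z.2.1)) && z.2.2)) hf
      (CI.const true) ?_
    have h4 : CI g fun z : α × ℕ × Bool => decide (p (z.1, z.2.1)) :=
      h2.comp (CI.id.fst.pair CI.id.snd.fst)
    exact (CI.prim (f := fun z : Bool × Bool => (z.1 && z.2)) Primrec.and).comp
      (h4.pair CI.id.snd.snd)
  refine DI.of_ci h3 ?_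
  intro a
  generalize f a = m
  induction m with
  | zero => simp
  | succ m ih =>
    simp only [Bool.and_eq_true, decide_eq_true_eq, ih]
    constructor
    · rintro ⟨h4, h5⟩ n hn
      rcases Nat.lt_succ_iff_lt_or_eq.1 hn with h6 | h6
      · exact h5 n h6
      · rw [h6]
        exact h4
    · intro h4
      exact ⟨h4 m (Nat.lt_succ_self m), fun n hn => h4 n (Nat.lt_succ_of_lt hn)⟩

theorem DI.bex {p : α × ℕ → Prop} {f : α → ℕ} (h : DI g p) (hf : CI g f) :
    DI g fun a => ∃ n < f a, p (a, n) :=
  (DI.not (DI.ball (DI.not h) hf)).of_iff fun a => by push Not; exact Iff.rfl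

end Pool.Agent.R621.DV
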