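import Mathlib

/-!
# A retraction lemma for ordered rational vector spaces
-/

set_option autoImplicit false

namespace Pool.Agent.R621.DV

section retr

variable {W : Type} [AddCommGroup W] [LinearOrder W] [IsOrderedAddMonoid W] [Module ℚ W]
  [IsStrictOrderedModule ℚ W]

/-- an element of `U` strictly between two finite subsets of `U` -/
theorem exists_cut (U : Submodule ℚ W) {u : W} (hu : u ∈ U) (hu0 : u ≠ 0) (A B : Finset W)
    (hA : ∀ a ∈ A, a ∈ U) (hB : ∀ b ∈ B, b ∈ U) (hAB : ∀ a ∈ A, ∀ b ∈ B, a < b) :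
    ∃ y ∈ U, (∀ a ∈ A, a < y) ∧ ∀ b ∈ B, y < b := by
  have hv : ∃ v ∈ U, (0 : W) < v := by
    rcases lt_or_gt_of_ne hu0 with h | h
    · exact ⟨-u, U.neg_mem hu, by simpa using h⟩
    · exact ⟨u, hu, h⟩
  obtain ⟨v, hv, hv0⟩ := hv
  rcases A.eq_empty_or_nonempty with hA0 | hA0
  · subst hA0
    rcases B.eq_empty_or_nonempty with hB0 | hB0
    · subst hB0
      exact ⟨0, U.zero_mem, by simp, by simp⟩
    · refine ⟨B.min' hB0 - v, U.sub_mem (hB _ (B.min'_mem hB0)) hv, by simp, ?_⟩
      intro b hb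
      exact lt_of_lt_of_le (sub_lt_self _ hv0) (B.min'_le b hb)
  · rcases B.eq_empty_or_nonempty with hB0 | hB0
    · subst hB0
      refine ⟨A.max' hA0 + v, U.add_mem (hA _ (A.max'_mem hA0)) hv, ?_, by simp⟩
      intro a ha
      exact lt_of_le_of_lt (A.le_max' a ha) (lt_add_of_pos_right _ hv0)
    · have h1 := hAB _ (A.max'_mem hA0) _ (B.min'_mem hB0)
      have ha := hA _ (A.max'_mem hA0)
      have hb := hB _ (B.min'_mem hB0)
      have h2 : (0 : W) < (1 / 2 : ℚ) • (B.min' hB0 - A.max' hA0) :=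
        smul_pos (by norm_num) (sub_pos.2 h1)
      refine ⟨A.max' hA0 + (1 / 2 : ℚ) • (B.min' hB0 - A.max' hA0),
        U.add_mem ha (U.smul_mem _ (U.sub_mem hb ha)), ?_, ?_⟩
      · intro a h
        exact lt_of_le_of_lt (A.le_max' a h) (lt_add_of_pos_right _ h2)
      · intro b h
        refine lt_of_lt_of_le ?_ (B.min'_le b h)
        have h3 : B.min' hB0 = A.max' hA0 + (1 / 2 : ℚ) • (B.min' hB0 - A.max' hA0) +
            (1 / 2 : ℚ) • (B.min' hB0 - A.max' hA0) := by
          rw [add_assoc, ← add_smul]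
          norm_num
        calc A.max' hA0 + (1 / 2 : ℚ) • (B.min' hB0 - A.max' hA0) <
            A.max' hA0 + (1 / 2 : ℚ) • (B.min' hB0 - A.max' hA0) +
            (1 / 2 : ℚ) • (B.min' hB0 - A.max' hA0) := lt_add_of_pos_right _ h2
          _ = B.min' hB0 := h3.symm

/-- one step -/
theorem retr_one (U : Submodule ℚ W) {u : W} (hu : u ∈ U) (hu0 : u ≠ 0) (x : W) (S : Finset W)
    (hS : ∀ s ∈ S, s ∈ U ⊔ Submodule.span ℚ {x}) (hpos : ∀ s ∈ S, 0 < s) :
    ∃ ρ : W →ₗ[ℚ] W, (∀ w ∈ U, ρ w = w) ∧ (∀ w ∈ U ⊔ Submodule.span ℚ {x}, ρ w ∈ U) ∧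
      ∀ s ∈ S, 0 < ρ s := by
  classical
  by_cases hx : x ∈ U
  · refine ⟨LinearMap.id, fun w _ => rfl, ?_, fun s hs => by simpa using hpos s hs⟩
    intro w hw
    have : U ⊔ Submodule.span ℚ {x} = U := by
      rw [sup_eq_left, Submodule.span_le]
      simpa using hx
    rw [this] at hw
    exact hw
  · obtain ⟨f, hf, hfU⟩ := Submodule.exists_le_ker_of_notMem hx
    -- normalise the functional
    obtain ⟨φ, hφx, hφU⟩ : ∃ φ : W →ₗ[ℚ] ℚ, φ x = 1 ∧ ∀ w ∈ U, φ w = 0 := by
      refine ⟨(f x)⁻¹ • f, ?_, ?_⟩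
      · simp [hf]
      · intro w hw
        have : f w = 0 := hfU hw
        simp [this]
    have hdec : ∀ w ∈ U ⊔ Submodule.span ℚ {x}, w - φ w • x ∈ U := by
      intro w hw
      obtain ⟨a, ha, b, hb, rfl⟩ := Submodule.mem_sup.1 hw
      obtain ⟨c, rfl⟩ := Submodule.mem_span_singleton.1 hb
      have : a + c • x - φ (a + c • x) • x = a := by
        rw [map_add, hφU a ha, map_smul, hφx]
        simp
      rw [this]
      exact ha
    let E : W → W := fun s => x - (φ s)⁻¹ • s
    have hE : ∀ s ∈ S, φ s ≠ 0 → E s ∈ U := by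
      intro s hs h
      have h1 := U.smul_mem (-(φ s)⁻¹) (hdec s (hS s hs))
      have h2 : -(φ s)⁻¹ • (s - φ s • x) = E s := by
        simp only [E]
        rw [smul_sub, smul_smul, neg_mul, inv_mul_cancel₀ h, neg_smul, neg_smul, one_smul]
        abel
      rwa [h2] at h1
    obtain ⟨y, hy, hyA, hyB⟩ := exists_cut U hu hu0 ((S.filter fun s => 0 < φ s).image E)
      ((S.filter fun s => φ s < 0).image E) (by
        intro a ha
        obtain ⟨s, hs, rfl⟩ := Finset.mem_image.1 ha
        rw [Finset.mem_filter] at hs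
        exact hE s hs.1 hs.2.ne') (by
        intro a ha
        obtain ⟨s, hs, rfl⟩ := Finset.mem_image.1 ha
        rw [Finset.mem_filter] at hs
        exact hE s hs.1 hs.2.ne) (by
        intro a ha b hb
        obtain ⟨s, hs, rfl⟩ := Finset.mem_image.1 ha
        obtain ⟨t, ht, rfl⟩ := Finset.mem_image.1 hb
        rw [Finset.mem_filter] at hs ht
        have h1 : E s < x := by
          simp only [E]
          exact sub_lt_self _ (smul_pos (inv_pos.2 hs.2) (hpos s hs.1))
        have h2 : x < E t := by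
          simp only [E]
          have : (0 : W) < -((φ t)⁻¹ • t) := by
            rw [← neg_smul]
            exact smul_pos (by simpa using ht.2) (hpos t ht.1)
          rw [sub_eq_add_neg]
          exact lt_add_of_pos_right _ this
        exact h1.trans h2)
    refine ⟨LinearMap.id + φ.smulRight (y - x), ?_, ?_, ?_⟩
    · intro w hw
      simp [hφU w hw]
    · intro w hw
      have h1 : (LinearMap.id + φ.smulRight (y - x) : W →ₗ[ℚ] W) w =
          (w - φ w • x) + φ w • y := by
        simp only [LinearMap.add_apply, LinearMap.id_coe, id_eq, LinearMap.smulRight_apply,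
          smul_sub]
        abel
      rw [h1]
      exact U.add_mem (hdec w hw) (U.smul_mem _ hy)
    · intro s hs
      have h1 : (LinearMap.id + φ.smulRight (y - x) : W →ₗ[ℚ] W) s =
          s + φ s • (y - x) := by
        simp
      rw [h1]
      rcases lt_trichotomy (φ s) 0 with h | h | h
      · have h2 := hyB (E s) (Finset.mem_image_of_mem _ (Finset.mem_filter.2 ⟨hs, h⟩))
        have h3 : (0 : W) < (-(φ s)) • (E s - y) := smul_pos (by linarith) (sub_pos.2 h2)
        have h4 : (-(φ s)) • (E s - y) = s + φ s • (y - x) := by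
          simp only [E]
          rw [smul_sub, smul_sub, smul_smul, neg_mul, mul_inv_cancel₀ h.ne, smul_sub]
          simp only [neg_smul, one_smul]
          abel
        rwa [h4] at h3
      · rw [h]
        simpa using hpos s hs
      · have h2 := hyA (E s) (Finset.mem_image_of_mem _ (Finset.mem_filter.2 ⟨hs, h⟩))
        have h3 : (0 : W) < (φ s) • (y - E s) := smul_pos h (sub_pos.2 h2)
        have h4 : (φ s) • (y - E s) = s + φ s • (y - x) := by
          simp only [E]
          rw [smul_sub, smul_sub, smul_smul, mul_inv_cancel₀ h.ne', smul_sub]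
          simp only [one_smul]
          abel
        rwa [h4] at h3

/-- The retraction lemma. -/
theorem retr (U : Submodule ℚ W) {u : W} (hu : u ∈ U) (hu0 : u ≠ 0) (T : List W) :
    ∀ S : Finset W, (∀ s ∈ S, s ∈ U ⊔ Submodule.span ℚ {x | x ∈ T}) → (∀ s ∈ S, 0 < s) →
    ∃ ρ : W →ₗ[ℚ] W, (∀ w ∈ U, ρ w = w) ∧
      (∀ w ∈ U ⊔ Submodule.span ℚ {x | x ∈ T}, ρ w ∈ U) ∧ ∀ s ∈ S, 0 < ρ s := by
  classical
  induction T with
  | nil =>
    intro S hS hpos
    refine ⟨LinearMap.id, fun w _ => rfl, ?_, fun s hs => by simpa using hpos s hs⟩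
    intro w hw
    simpa using hw
  | cons x T ih =>
    intro S hS hpos
    have hsp : U ⊔ Submodule.span ℚ {y | y ∈ x :: T} =
        (U ⊔ Submodule.span ℚ {y | y ∈ T}) ⊔ Submodule.span ℚ {x} := by
      have : {y | y ∈ x :: T} = {y | y ∈ T} ∪ {x} := by
        ext y
        simp [or_comm]
      rw [this, Submodule.span_union, sup_assoc]
    rw [hsp]
    rw [hsp] at hS
    obtain ⟨ρ₁, h1, h2, h3⟩ := retr_one (U ⊔ Submodule.span ℚ {y | y ∈ T})
      (Submodule.mem_sup_left hu) hu0 x S hS hpos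
    obtain ⟨ρ₂, h4, h5, h6⟩ := ih (S.image ρ₁) (by
      intro s hs
      obtain ⟨t, ht, rfl⟩ := Finset.mem_image.1 hs
      exact h2 t (hS t ht)) (by
      intro s hs
      obtain ⟨t, ht, rfl⟩ := Finset.mem_image.1 hs
      exact h3 t ht)
    refine ⟨ρ₂.comp ρ₁, ?_, ?_, ?_⟩
    · intro w hw
      rw [LinearMap.comp_apply, h1 w (Submodule.mem_sup_left hw), h4 w hw]
    · intro w hw
      exact h5 _ (h2 w hw)
    · intro s hs
      exact h6 _ (Finset.mem_image_of_mem _ hs)

end retr

end Pool.Agent.R621.DV
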