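import Pool.Agent.R621.HS.Dv1
import Pool.Agent.R621.HS.Dv2

/-!
# Corrections: finding divisible elements in the same position as given ones
-/

set_option autoImplicit false

namespace Pool.Agent.R621.DV

open Encodable

section constr

/-- the entry with index `i` -/
def nt (L : List ℕ) (i : ℕ) : ℕ := L.getD i 0

theorem nt_append {L R : List ℕ} {i : ℕ} (h : i < L.length) : nt (L ++ R) i = nt L i := by
  unfold nt
  rw [List.getD_append _ _ _ _ h]

theorem nt_mem {L : List ℕ} {i : ℕ} (h : i < L.length) : nt L i ∈ L := by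
  unfold nt
  rw [List.getD_eq_getElem _ _ h]
  exact List.getElem_mem h

theorem exists_nt {L : List ℕ} {x : ℕ} (h : x ∈ L) : ∃ i < L.length, nt L i = x := by
  obtain ⟨i, hi, h1⟩ := List.mem_iff_getElem.1 h
  refine ⟨i, hi, ?_⟩
  unfold nt
  rw [List.getD_eq_getElem _ _ hi]
  exact h1

theorem nt_map_range {f : ℕ → ℕ} {n i : ℕ} (h : i < n) : nt ((List.range n).map f) i = f i := by
  unfold nt
  rw [List.getD_eq_getElem _ _ (by simpa using h)]
  simp

theorem nt_inj {L : List ℕ} (hL : L.Nodup) {i j : ℕ} (hi : i < L.length) (hj : j < L.length)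
    (h : nt L i = nt L j) : i = j := by
  unfold nt at h
  rw [List.getD_eq_getElem _ _ hi, List.getD_eq_getElem _ _ hj] at h
  exact (List.Nodup.getElem_inj_iff hL).1 h

theorem nodup_of_nt {L : List ℕ} (h : ∀ i < L.length, ∀ j < L.length, i ≠ j → nt L i ≠ nt L j) :
    L.Nodup := by
  rw [List.nodup_iff_injective_get]
  intro i j hij
  by_contra hne
  refine h i.1 i.2 j.1 j.2 (fun hh => hne (Fin.ext hh)) ?_
  unfold nt
  rw [List.getD_eq_getElem _ _ i.2, List.getD_eq_getElem _ _ j.2]
  exact hij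

variable {P : Type} [AddCommGroup P] [LinearOrder P] (e : ℕ ≃ P) (sc : P →+ ℤ)

/-- `x` is divisible by `1, …, s` -/
def test (s x : ℕ) : Prop := ∀ n < s, ∃ y : P, (n + 1) • y = e x

/-- `x` names an element of the kernel of `sc` -/
def good (x : ℕ) : Prop := sc (e x) = 0

/-- `w` codes a proof that a multiple of `x` is an integer combination of the first `k` entries
of `L` -/
def cert (L : List ℕ) (k x w : ℕ) : Prop :=
  ((Denumerable.ofNat (ℕ × List ℕ × List ℕ) w).1 + 1) • e x +
    ∑ i ∈ Finset.range k, nt (Denumerable.ofNat (ℕ × List ℕ × List ℕ) w).2.1 i • e (nt L i) =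
    ∑ i ∈ Finset.range k, nt (Denumerable.ofNat (ℕ × List ℕ × List ℕ) w).2.2 i • e (nt L i)

/-- an admissible correction of `L` -/
def Act (s : ℕ) (L : List ℕ) (k t N : ℕ) (L' : List ℕ) : Prop :=
  k < L.length ∧ ¬ test e t (nt L k) ∧ (∀ j < k, test e s (nt L j)) ∧
  L'.length = L.length ∧ (∀ j < k, nt L' j = nt L j) ∧
  (∀ a < L.length, ∀ b < L.length, e (nt L a) < e (nt L b) → e (nt L' a) < e (nt L' b)) ∧
  (∀ a < L.length, ∀ b < L.length, ∀ c < L.length, e (nt L a) + e (nt L b) = e (nt L c) →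
    e (nt L' a) + e (nt L' b) = e (nt L' c)) ∧
  (∀ j < L.length, ∃ w < N, cert e L k (nt L' j) w)

/-- some entry of `L` fails the test -/
def Bad (s : ℕ) (L : List ℕ) : Prop := ∃ j < L.length, ¬ test e s (nt L j)

theorem test_mono {s t x : ℕ} (h : s ≤ t) (ht : test e t x) : test e s x :=
  fun n hn => ht n (lt_of_lt_of_le hn h)

variable {e} {sc}

theorem good_iff (hdiv : ∀ x : P, sc x = 0 → ∀ n : ℕ, ∃ y : P, (n + 1) • y = x) {x : ℕ} :
    good e sc x ↔ ∀ s, test e s x := by
  constructor
  · intro h s n _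
    exact hdiv _ h n
  · intro h
    have h1 : ∀ n : ℕ, ((n : ℤ) + 1) ∣ sc (e x) := by
      intro n
      obtain ⟨y, hy⟩ := h (n + 1) n (Nat.lt_succ_self n)
      refine ⟨sc y, ?_⟩
      rw [← hy, map_nsmul]
      simp
    unfold good
    by_contra h2
    have h3 := Int.natAbs_dvd_natAbs.2 (h1 (sc (e x)).natAbs)
    have h4 := Nat.le_of_dvd (Int.natAbs_pos.2 h2) h3
    have h5 : (((sc (e x)).natAbs : ℤ) + 1).natAbs = (sc (e x)).natAbs + 1 := by
      omega
    omega

theorem cert_good {L : List ℕ} {k x w : ℕ} (h : cert e L k x w) (hL : ∀ i < k, good e sc (nt L i)) :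
    good e sc x := by
  unfold cert at h
  have h1 := congrArg sc h
  rw [map_add, map_nsmul, map_sum, map_sum] at h1
  rw [Finset.sum_eq_zero, Finset.sum_eq_zero] at h1
  · unfold good
    simp only [nsmul_eq_mul, add_zero, mul_eq_zero] at h1
    rcases h1 with h1 | h1
    · exfalso
      push_cast at h1
      omega
    · exact h1
  · intro i hi
    rw [map_nsmul, hL i (Finset.mem_range.1 hi)]
    simp
  · intro i hi
    rw [map_nsmul, hL i (Finset.mem_range.1 hi)]
    simp

end constr

/-- rational combinations as integer combinations -/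
theorem span_form {W : Type} [AddCommGroup W] [Module ℚ W] (f : ℕ → W) (k : ℕ) {w : W}
    (hw : w ∈ Submodule.span ℚ {x | ∃ i < k, x = f i}) :
    ∃ (n : ℕ) (A B : ℕ → ℕ), (n + 1) • w + ∑ i ∈ Finset.range k, A i • f i =
      ∑ i ∈ Finset.range k, B i • f i := by
  classical
  induction hw using Submodule.span_induction with
  | mem x hx =>
    obtain ⟨j, hj, rfl⟩ := hx
    refine ⟨0, 0, Pi.single j 1, ?_⟩
    simp only [zero_add, one_smul, Pi.zero_apply, zero_smul, Finset.sum_const_zero, add_zero]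
    rw [Finset.sum_eq_single j]
    · simp
    · intro b _ hb
      simp [hb]
    · intro h
      exact absurd (Finset.mem_range.2 hj) h
  | zero => exact ⟨0, 0, 0, by simp⟩
  | add x y _ _ hx hy =>
    obtain ⟨n, A, B, h⟩ := hx
    obtain ⟨m, A', B', h'⟩ := hy
    refine ⟨(n + 1) * (m + 1) - 1, fun i => (m + 1) * A i + (n + 1) * A' i,
      fun i => (m + 1) * B i + (n + 1) * B' i, ?_⟩
    have h1 : (n + 1) * (m + 1) - 1 + 1 = (n + 1) * (m + 1) :=
      Nat.sub_add_cancel (Nat.mul_pos (Nat.succ_pos n) (Nat.succ_pos m))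
    rw [h1]
    simp only [add_smul _ _ (_ : W), mul_smul, Finset.sum_add_distrib, ← Finset.smul_sum]
    rw [← h, ← h']
    simp only [smul_add, ← mul_smul]
    simp only [add_smul, one_smul, mul_add, mul_one, add_mul, one_mul]
    rw [Nat.mul_comm m n]
    abel
  | smul q x _ hx =>
    obtain ⟨n, A, B, h⟩ := hx
    have hq : (q.den : ℚ) • (q • x) = (q.num : ℚ) • x := by
      rw [smul_smul]
      congr 1
      exact Rat.den_mul_eq_num q
    have hd : 0 < q.den := q.den_pos
    have h1 : (n + 1) * q.den - 1 + 1 = (n + 1) * q.den :=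
      Nat.sub_add_cancel (Nat.mul_pos (Nat.succ_pos n) hd)
    rcases le_or_gt 0 q.num with h0 | h0
    · obtain ⟨p, hp⟩ := Int.eq_ofNat_of_zero_le h0
      refine ⟨(n + 1) * q.den - 1, fun i => p * A i, fun i => p * B i, ?_⟩
      rw [h1]
      simp only [mul_smul, ← Finset.smul_sum]
      rw [← h]
      have h2 : q.den • (q • x) = p • x := by
        rw [← Nat.cast_smul_eq_nsmul ℚ, hq, hp, ← Nat.cast_smul_eq_nsmul ℚ]
        simp
      rw [h2, smul_add, smul_smul, smul_smul p, Nat.mul_comm]
    · obtain ⟨p, hp⟩ := Int.eq_ofNat_of_zero_le (show 0 ≤ - q.num by omega)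
      refine ⟨(n + 1) * q.den - 1, fun i => p * B i, fun i => p * A i, ?_⟩
      rw [h1]
      simp only [mul_smul, ← Finset.smul_sum]
      rw [← h]
      have h2 : q.den • (q • x) = - (p • x) := by
        rw [← Nat.cast_smul_eq_nsmul ℚ, hq, ← Nat.cast_smul_eq_nsmul ℚ, ← neg_smul]
        congr 1
        have : q.num = - (p : ℤ) := by omega
        rw [this]
        push_cast
        rfl
      rw [h2, smul_add, smul_neg, smul_smul, smul_smul p, Nat.mul_comm p]
      abel

section constr2

variable {P : Type} [AddCommGroup P] [LinearOrder P] [IsOrderedAddMonoid P] {e : ℕ ≃ P}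
  {sc : P →+ ℤ}

/-- There is always a correction. -/
theorem exists_act (hdiv : ∀ x : P, sc x = 0 → ∀ n : ℕ, ∃ y : P, (n + 1) • y = x) {a0 : ℕ}
    (h0 : good e sc a0) (h00 : e a0 ≠ 0) {s : ℕ} {L : List ℕ} (hL0 : nt L 0 = a0)
    (hbad : Bad e s L) : ∃ k t N L', Act e s L k t N L' := by
  classical
  have hb : ∃ j, j < L.length ∧ ¬ good e sc (nt L j) := by
    obtain ⟨j, hj, hj'⟩ := hbad
    exact ⟨j, hj, fun h => hj' ((good_iff hdiv).1 h s)⟩
  obtain ⟨k, ⟨hk, hkb⟩, hmin⟩ : ∃ k, (k < L.length ∧ ¬ good e sc (nt L k)) ∧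
      ∀ j < k, ¬ (j < L.length ∧ ¬ good e sc (nt L j)) :=
    ⟨Nat.find hb, Nat.find_spec hb, fun j hj => Nat.find_min hb hj⟩
  have hgood : ∀ j < k, good e sc (nt L j) := by
    intro j hj
    by_contra h
    exact hmin j hj ⟨hj.trans hk, h⟩
  have hk0 : 0 < k := by
    rcases Nat.eq_zero_or_pos k with h | h
    · exfalso
      rw [h, hL0] at hkb
      exact hkb h0
    · exact h
  obtain ⟨t, ht⟩ : ∃ t, ¬ test e t (nt L k) := by
    by_contra h
    push Not at h
    exact hkb ((good_iff hdiv).2 h)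
  -- the rational hull
  let ι : P →+ DivisibleHull P := DivisibleHull.coeAddMonoidHom P
  have hι : ∀ a b, ι a < ι b ↔ a < b := by
    intro a b
    show DivisibleHull.mk a 1 < DivisibleHull.mk b 1 ↔ a < b
    rw [DivisibleHull.mk_lt_mk]
    simp
  have hιi : Function.Injective ι := by
    intro a b hab
    rcases lt_trichotomy a b with h | h | h
    · exact absurd ((hι a b).2 h) (by rw [hab]; exact lt_irrefl _)
    · exact h
    · exact absurd ((hι b a).2 h) (by rw [hab]; exact lt_irrefl _)
  let f : ℕ → DivisibleHull P := fun i => ι (e (nt L i))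
  let U : Submodule ℚ (DivisibleHull P) := Submodule.span ℚ {x | ∃ i < k, x = f i}
  let T : List (DivisibleHull P) := (List.range L.length).map f
  let S : Finset (DivisibleHull P) :=
    ((Finset.range L.length ×ˢ Finset.range L.length).filter
      fun p => e (nt L p.1) < e (nt L p.2)).image fun p => f p.2 - f p.1
  have hT : ∀ j < L.length, f j ∈ U ⊔ Submodule.span ℚ {x | x ∈ T} := by
    intro j hj
    refine Submodule.mem_sup_right (Submodule.subset_span ?_)
    show f j ∈ T
    exact List.mem_map_of_mem (List.mem_range.2 hj)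
  have hu : f 0 ∈ U := Submodule.subset_span ⟨0, hk0, rfl⟩
  have hu0 : f 0 ≠ 0 := by
    intro h
    apply h00
    rw [← hL0]
    exact hιi (h.trans (map_zero ι).symm)
  obtain ⟨ρ, h1, h2, h3⟩ := retr U hu hu0 T S (by
    intro s hs
    obtain ⟨p, hp, rfl⟩ := Finset.mem_image.1 hs
    rw [Finset.mem_filter, Finset.mem_product, Finset.mem_range, Finset.mem_range] at hp
    exact Submodule.sub_mem _ (hT _ hp.1.2) (hT _ hp.1.1)) (by
    intro s hs
    obtain ⟨p, hp, rfl⟩ := Finset.mem_image.1 hs
    rw [Finset.mem_filter] at hp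
    exact sub_pos.2 ((hι _ _).2 hp.2))
  -- the elements of `U` come from `V`
  have hU : ∀ w ∈ U, ∃ (x c : ℕ), ι (e x) = w ∧ cert e L k x c := by
    intro w hw
    obtain ⟨n, A, B, hn⟩ := span_form f k hw
    have h4 : (n + 1) • w = ι (∑ i ∈ Finset.range k, B i • e (nt L i) -
        ∑ i ∈ Finset.range k, A i • e (nt L i)) := by
      rw [map_sub, map_sum, map_sum]
      simp only [map_nsmul]
      rw [eq_sub_iff_add_eq]
      exact hn
    have hz : sc (∑ i ∈ Finset.range k, B i • e (nt L i) -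
        ∑ i ∈ Finset.range k, A i • e (nt L i)) = 0 := by
      rw [map_sub, map_sum, map_sum, Finset.sum_eq_zero, Finset.sum_eq_zero]
      · simp
      · intro i hi
        rw [map_nsmul, hgood i (Finset.mem_range.1 hi)]
        simp
      · intro i hi
        rw [map_nsmul, hgood i (Finset.mem_range.1 hi)]
        simp
    obtain ⟨v, hv⟩ := hdiv _ hz n
    refine ⟨e.symm v, encode ((n, (List.range k).map A, (List.range k).map B) :
      ℕ × List ℕ × List ℕ), ?_, ?_⟩
    · rw [Equiv.apply_symm_apply]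
      rw [← hv, map_nsmul] at h4
      have h5 : ((n + 1 : ℕ) : ℚ) • w = ((n + 1 : ℕ) : ℚ) • ι v := by
        rw [Nat.cast_smul_eq_nsmul, Nat.cast_smul_eq_nsmul]
        exact h4
      have h6 : ((n + 1 : ℕ) : ℚ) ≠ 0 := by
        exact_mod_cast Nat.succ_ne_zero n
      have h7 := congrArg (fun y => (((n + 1 : ℕ) : ℚ)⁻¹) • y) h5
      simp only [smul_smul, inv_mul_cancel₀ h6, one_smul] at h7
      exact h7.symm
    · unfold cert
      rw [Denumerable.ofNat_encode, Equiv.apply_symm_apply]
      simp only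
      rw [hv]
      have h8 : ∀ C : ℕ → ℕ, ∑ i ∈ Finset.range k, nt ((List.range k).map C) i • e (nt L i) =
          ∑ i ∈ Finset.range k, C i • e (nt L i) := by
        intro C
        apply Finset.sum_congr rfl
        intro i hi
        rw [nt_map_range (Finset.mem_range.1 hi)]
      rw [h8, h8]
      abel
  have hx : ∀ j, ∃ x c, j < L.length → ι (e x) = ρ (f j) ∧ cert e L k x c := by
    intro j
    by_cases hj : j < L.length
    · obtain ⟨x, c, h⟩ := hU _ (h2 _ (hT j hj))
      exact ⟨x, c, fun _ => h⟩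
    · exact ⟨0, 0, fun h => absurd h hj⟩
  choose x c hxc using hx
  refine ⟨k, t, (Finset.range L.length).sup c + 1, (List.range L.length).map x, hk, ht, ?_, ?_,
    ?_, ?_, ?_, ?_⟩
  · intro j hj
    exact (good_iff hdiv).1 (hgood j hj) s
  · simp
  · intro j hj
    rw [nt_map_range (hj.trans hk)]
    have h4 := (hxc j (hj.trans hk)).1
    rw [h1 _ (Submodule.subset_span ⟨j, hj, rfl⟩)] at h4
    exact e.injective (hιi h4)
  · intro a ha b hb hab
    rw [nt_map_range ha, nt_map_range hb, ← hι, (hxc a ha).1, (hxc b hb).1]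
    have h4 := h3 (f b - f a) (Finset.mem_image.2 ⟨(a, b), Finset.mem_filter.2
      ⟨Finset.mem_product.2 ⟨Finset.mem_range.2 ha, Finset.mem_range.2 hb⟩, hab⟩, rfl⟩)
    rw [map_sub] at h4
    exact sub_pos.1 h4
  · intro a ha b hb c hc habc
    rw [nt_map_range ha, nt_map_range hb, nt_map_range hc]
    apply hιi
    rw [map_add, (hxc a ha).1, (hxc b hb).1, (hxc c hc).1, ← map_add]
    congr 1
    show ι _ + ι _ = ι _
    rw [← map_add, habc]
  · intro j hj
    rw [nt_map_range hj]
    exact ⟨c j, Nat.lt_succ_of_le (Finset.le_sup (f := c) (Finset.mem_range.2 hj)),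
      (hxc j hj).2⟩

end constr2

end Pool.Agent.R621.DV
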