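import Pool.Agent.R621.HS.Dv3

/-!
# Analysis of the limit of the construction
-/

set_option autoImplicit false

namespace Pool.Agent.R621.DV

open Encodable

section limit

variable {P : Type} [AddCommGroup P] [LinearOrder P] [IsOrderedAddMonoid P] {e : ℕ ≃ P}
  {sc : P →+ ℤ}

open Classical in
/-- the extension of `L` by the numbers below `m` which pass the test -/
noncomputable def ext (e : ℕ ≃ P) (s : ℕ) (L : List ℕ) (m : ℕ) : List ℕ :=
  Nat.rec L (fun y ih => if test e s y ∧ y ∉ ih then ih ++ [y] else ih) m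

/-- one stage of the construction -/
def StepR (e : ℕ ≃ P) (s : ℕ) (L L' : List ℕ) : Prop :=
  (Bad e s L ∧ ∃ k t N, Act e s L k t N L') ∨ (¬ Bad e s L ∧ L' = ext e s L s)

open Classical in
theorem ext_succ (s : ℕ) (L : List ℕ) (m : ℕ) : ext e s L (m + 1) =
    if test e s m ∧ m ∉ ext e s L m then ext e s L m ++ [m] else ext e s L m := rfl

theorem ext_le (s : ℕ) (L : List ℕ) {m m' : ℕ} (h : m ≤ m') :
    ∃ R, ext e s L m' = ext e s L m ++ R := by
  induction m', h using Nat.le_induction with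
  | base => exact ⟨[], by simp⟩
  | succ n _ ih =>
    obtain ⟨R, hR⟩ := ih
    rw [ext_succ]
    split_ifs
    · exact ⟨R ++ [n], by rw [hR]; simp⟩
    · exact ⟨R, hR⟩

theorem ext_nodup {s : ℕ} {L : List ℕ} (h : L.Nodup) (m : ℕ) : (ext e s L m).Nodup := by
  induction m with
  | zero => exact h
  | succ m ih =>
    rw [ext_succ]
    split_ifs with h1
    · rw [List.nodup_append]
      refine ⟨ih, by simp, ?_⟩
      intro a ha b hb
      rw [List.mem_singleton.1 hb]
      intro hab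
      rw [hab] at ha
      exact h1.2 ha
    · exact ih

theorem ext_good {s : ℕ} {L : List ℕ} (h : ∀ x ∈ L, good e sc x) (m : ℕ)
    (hm : ∀ y < m, test e s y → good e sc y) : ∀ x ∈ ext e s L m, good e sc x := by
  induction m with
  | zero => exact h
  | succ m ih =>
    have ih' := ih fun y hy => hm y (Nat.lt_succ_of_lt hy)
    rw [ext_succ]
    split_ifs with h1
    · intro x hx
      rcases List.mem_append.1 hx with hx | hx
      · exact ih' x hx
      · rw [List.mem_singleton.1 hx]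
        exact hm m (Nat.lt_succ_self m) h1.1
    · exact ih'

theorem ext_mem {s : ℕ} {L : List ℕ} {y : ℕ} (h : test e s y) : y ∈ ext e s L (y + 1) := by
  rw [ext_succ]
  split_ifs with h1
  · simp
  · by_contra h2
    exact h1 ⟨h, h2⟩

/-- what is preserved -/
def Pres (e : ℕ ≃ P) (L L' : List ℕ) : Prop := L.length ≤ L'.length ∧
  (∀ a < L.length, ∀ b < L.length, e (nt L a) < e (nt L b) → e (nt L' a) < e (nt L' b)) ∧
  (∀ a < L.length, ∀ b < L.length, ∀ c < L.length, e (nt L a) + e (nt L b) = e (nt L c) →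
    e (nt L' a) + e (nt L' b) = e (nt L' c))

theorem Pres.refl (L : List ℕ) : Pres e L L :=
  ⟨le_refl _, fun _ _ _ _ h => h, fun _ _ _ _ _ _ h => h⟩

theorem Pres.trans {L L' L'' : List ℕ} (h : Pres e L L') (h' : Pres e L' L'') :
    Pres e L L'' := by
  refine ⟨h.1.trans h'.1, ?_, ?_⟩
  · intro a ha b hb hab
    exact h'.2.1 a (lt_of_lt_of_le ha h.1) b (lt_of_lt_of_le hb h.1) (h.2.1 a ha b hb hab)
  · intro a ha b hb c hc habc
    exact h'.2.2 a (lt_of_lt_of_le ha h.1) b (lt_of_lt_of_le hb h.1) c (lt_of_lt_of_le hc h.1)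
      (h.2.2 a ha b hb c hc habc)

theorem StepR.pres {s : ℕ} {L L' : List ℕ} (h : StepR e s L L') : Pres e L L' := by
  rcases h with ⟨_, k, t, N, h⟩ | ⟨_, h⟩
  · obtain ⟨_, _, _, h4, _, h6, h7, _⟩ := h
    exact ⟨h4.ge, h6, h7⟩
  · obtain ⟨R, hR⟩ := ext_le (e := e) s L (Nat.zero_le s)
    have h1 : L' = L ++ R := by rw [h, hR]; rfl
    refine ⟨by rw [h1]; simp, ?_, ?_⟩
    · intro a ha b hb hab
      rw [h1, nt_append ha, nt_append hb]
      exact hab
    · intro a ha b hb c hc habc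
      rw [h1, nt_append ha, nt_append hb, nt_append hc]
      exact habc

theorem StepR.fix (hdiv : ∀ x : P, sc x = 0 → ∀ n : ℕ, ∃ y : P, (n + 1) • y = x)
    {s : ℕ} {L L' : List ℕ} (h : StepR e s L L') {j : ℕ} (hj : j < L.length)
    (hg : ∀ i ≤ j, good e sc (nt L i)) : nt L' j = nt L j := by
  rcases h with ⟨_, k, t, N, h⟩ | ⟨_, h⟩
  · obtain ⟨_, h2, _, h4, h5, _⟩ := h
    apply h5
    by_contra hk
    exact h2 ((good_iff hdiv).1 (hg k (not_lt.1 hk)) t)
  · obtain ⟨R, hR⟩ := ext_le (e := e) s L (Nat.zero_le s)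
    have h1 : L' = L ++ R := by rw [h, hR]; rfl
    rw [h1, nt_append hj]

theorem StepR.nodup {s : ℕ} {L L' : List ℕ} (h : StepR e s L L') (hL : L.Nodup) :
    L'.Nodup := by
  have hp := h.pres
  rcases h with ⟨_, k, t, N, h⟩ | ⟨_, h⟩
  · obtain ⟨_, h2, _, h4, h5, _⟩ := h
    apply nodup_of_nt
    intro i hi j hj hij heq
    rw [h4] at hi hj
    have h6 : e (nt L i) ≠ e (nt L j) := fun h7 => hij (nt_inj hL hi hj (e.injective h7))
    rcases lt_or_gt_of_ne h6 with h7 | h7
    · have := hp.2.1 i hi j hj h7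
      rw [heq] at this
      exact lt_irrefl _ this
    · have := hp.2.1 j hj i hi h7
      rw [heq] at this
      exact lt_irrefl _ this
  · rw [h]
    exact ext_nodup hL s

variable (hdiv : ∀ x : P, sc x = 0 → ∀ n : ℕ, ∃ y : P, (n + 1) • y = x) {a0 : ℕ}
  {Ls : ℕ → List ℕ} (hL0 : Ls 0 = [a0]) (hLs : ∀ s, StepR e s (Ls s) (Ls (s + 1)))

include hLs in
theorem pres_le {s t : ℕ} (h : s ≤ t) : Pres e (Ls s) (Ls t) := by
  induction t, h using Nat.le_induction with
  | base => exact Pres.refl _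
  | succ n _ ih => exact ih.trans (hLs n).pres

include hLs hdiv in
theorem fix_le {s t : ℕ} (h : s ≤ t) : ∀ j < (Ls s).length, (∀ i ≤ j, good e sc (nt (Ls s) i)) →
    nt (Ls t) j = nt (Ls s) j := by
  induction t, h using Nat.le_induction with
  | base => exact fun _ _ _ => rfl
  | succ n hn ih =>
    intro j hj hg
    rw [← ih j hj hg]
    refine (hLs n).fix hdiv (lt_of_lt_of_le hj (pres_le hLs hn).1) ?_
    intro i hi
    rw [ih i (lt_of_le_of_lt hi hj) fun i' hi' => hg i' (hi'.trans hi)]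
    exact hg i hi

include hLs hL0 in
theorem nodup_all (s : ℕ) : (Ls s).Nodup := by
  induction s with
  | zero => rw [hL0]; simp
  | succ s ih => exact (hLs s).nodup ih

include hLs hdiv in
theorem eventually_good (s : ℕ) : ∃ t, s ≤ t ∧ ∀ x ∈ Ls t, good e sc x := by
  classical
  by_contra hcon
  push Not at hcon
  have hb : ∃ k, k < (Ls s).length ∧ ¬ good e sc (nt (Ls s) k) := by
    obtain ⟨x, hx, hx'⟩ := hcon s (le_refl s)
    obtain ⟨k, hk, hkx⟩ := exists_nt hx
    exact ⟨k, hk, by rwa [hkx]⟩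
  obtain ⟨k, ⟨hk, hkb⟩, hmin⟩ : ∃ k, (k < (Ls s).length ∧ ¬ good e sc (nt (Ls s) k)) ∧
      ∀ j < k, ¬ (j < (Ls s).length ∧ ¬ good e sc (nt (Ls s) j)) :=
    ⟨Nat.find hb, Nat.find_spec hb, fun j hj => Nat.find_min hb hj⟩
  have hgood : ∀ j < k, good e sc (nt (Ls s) j) := by
    intro j hj
    by_contra h
    exact hmin j hj ⟨hj.trans hk, h⟩
  have hpre : ∀ t, s ≤ t → ∀ j < k, good e sc (nt (Ls t) j) := by
    intro t ht j hj
    rw [fix_le hdiv hLs ht j (hj.trans hk) fun i hi => hgood i (lt_of_le_of_lt hi hj)]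
    exact hgood j hj
  -- an action with the index `k` makes everything good
  have hact : ∀ t, s ≤ t → ∀ t' N, ¬ Act e t (Ls t) k t' N (Ls (t + 1)) := by
    intro t ht t' N h
    obtain ⟨_, _, _, h4, _, _, _, h8⟩ := h
    obtain ⟨x, hx, hx'⟩ := hcon (t + 1) (Nat.le_succ_of_le ht)
    obtain ⟨j, hj, hjx⟩ := exists_nt hx
    rw [h4] at hj
    obtain ⟨w, _, hw⟩ := h8 j hj
    rw [hjx] at hw
    exact hx' (cert_good hw (hpre t ht))
  have hge : ∀ t, s ≤ t → ∀ k' t' N, Act e t (Ls t) k' t' N (Ls (t + 1)) → k < k' := by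
    intro t ht k' t' N h
    rcases lt_trichotomy k k' with h1 | h1 | h1
    · exact h1
    · rw [← h1] at h
      exact absurd h (hact t ht t' N)
    · obtain ⟨_, h2, _⟩ := h
      exact absurd ((good_iff hdiv).1 (hpre t ht k' h1) t') h2
  have hsame : ∀ t, s ≤ t → nt (Ls t) k = nt (Ls s) k := by
    intro t ht
    induction t, ht using Nat.le_induction with
    | base => rfl
    | succ n hn ih =>
      rcases hLs n with ⟨_, k', t', N, h⟩ | ⟨_, h⟩
      · have h1 := hge n hn k' t' N h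
        obtain ⟨_, _, _, _, h5, _⟩ := h
        rw [h5 k h1, ih]
      · obtain ⟨R, hR⟩ := ext_le (e := e) n (Ls n) (Nat.zero_le n)
        have h1 : Ls (n + 1) = Ls n ++ R := by rw [h, hR]; rfl
        rw [h1, nt_append (lt_of_lt_of_le hk (pres_le hLs hn).1), ih]
  obtain ⟨n, hn⟩ : ∃ n, ¬ test e n (nt (Ls s) k) := by
    by_contra h
    push Not at h
    exact hkb ((good_iff hdiv).2 h)
  have h1 : s ≤ max s n := le_max_left _ _
  have h2 : ¬ test e (max s n) (nt (Ls (max s n)) k) := by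
    rw [hsame _ h1]
    exact fun h => hn (test_mono e (le_max_right _ _) h)
  rcases hLs (max s n) with ⟨_, k', t', N, h⟩ | ⟨h, _⟩
  · have h3 := hge _ h1 k' t' N h
    obtain ⟨_, _, h4, _⟩ := h
    exact h2 (h4 k h3)
  · exact h ⟨k, lt_of_lt_of_le hk (pres_le hLs h1).1, h2⟩

include hLs hdiv in
theorem surj (y : ℕ) (hy : good e sc y) : ∃ j T, ∀ t, T ≤ t → j < (Ls t).length ∧
    nt (Ls t) j = y := by
  classical
  have h1 : ∀ x, ∃ τ, ¬ good e sc x → ¬ test e τ x := by
    intro x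
    by_cases hx : good e sc x
    · exact ⟨0, fun h => absurd hx h⟩
    · by_contra h
      push Not at h
      exact hx ((good_iff hdiv).2 fun s => (h s).2)
  choose τ hτ using h1
  obtain ⟨t, ht, htg⟩ := eventually_good hdiv hLs (max ((Finset.range (y + 1)).sup τ) (y + 1))
  have hnb : ¬ Bad e t (Ls t) := by
    rintro ⟨j, hj, hj'⟩
    exact hj' ((good_iff hdiv).1 (htg _ (nt_mem hj)) t)
  rcases hLs t with ⟨h, _⟩ | ⟨_, h⟩
  · exact absurd h hnb
  · have h2 : ∀ x ∈ ext e t (Ls t) (y + 1), good e sc x := by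
      apply ext_good htg
      intro x hx hxt
      by_contra hxg
      have h3 : τ x ≤ (Finset.range (y + 1)).sup τ := Finset.le_sup (Finset.mem_range.2 hx)
      exact hτ x hxg (test_mono e (h3.trans ((le_max_left _ _).trans ht)) hxt)
    obtain ⟨j, hj, hjy⟩ := exists_nt (ext_mem (e := e) (L := Ls t) ((good_iff hdiv).1 hy t))
    obtain ⟨R, hR⟩ := ext_le (e := e) t (Ls t) ((le_max_right _ _).trans ht)
    have h4 : Ls (t + 1) = ext e t (Ls t) (y + 1) ++ R := by rw [h, hR]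
    have h5 : j < (Ls (t + 1)).length := by
      rw [h4, List.length_append]
      omega
    refine ⟨j, t + 1, fun u hu => ⟨lt_of_lt_of_le h5 (pres_le hLs hu).1, ?_⟩⟩
    rw [fix_le hdiv hLs hu j h5]
    · rw [h4, nt_append hj, hjy]
    · intro i hi
      rw [h4, nt_append (lt_of_le_of_lt hi hj)]
      exact h2 _ (nt_mem (lt_of_le_of_lt hi hj))

include hLs hdiv hL0 in
theorem exists_limit (hinf : {y | good e sc y}.Infinite) : ∃ w : ℕ → ℕ,
    (∀ j, good e sc (w j)) ∧ Function.Injective w ∧ (∀ x, good e sc x → ∃ j, w j = x) ∧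
    ∀ j, ∃ T, ∀ t, T ≤ t → j < (Ls t).length ∧ nt (Ls t) j = w j := by
  classical
  have h1 : ∀ y, ∃ j T, good e sc y → ∀ t, T ≤ t → j < (Ls t).length ∧ nt (Ls t) j = y := by
    intro y
    by_cases hy : good e sc y
    · obtain ⟨j, T, h⟩ := surj hdiv hLs y hy
      exact ⟨j, T, fun _ => h⟩
    · exact ⟨0, 0, fun h => absurd h hy⟩
  choose idx T hT using h1
  have h2 : ∀ j, ∃ s, j < (Ls s).length := by
    intro j
    by_contra hcon
    push Not at hcon
    apply hinf
    refine Set.Finite.of_finite_image (f := idx) ((Set.finite_Iio j).subset ?_) ?_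
    · rintro _ ⟨y, hy, rfl⟩
      exact lt_of_lt_of_le (hT y hy (T y) (le_refl _)).1 (hcon _)
    · intro y hy z hz hyz
      have h3 := (hT y hy (max (T y) (T z)) (le_max_left _ _)).2
      have h4 := (hT z hz (max (T y) (T z)) (le_max_right _ _)).2
      calc y = nt (Ls (max (T y) (T z))) (idx y) := h3.symm
        _ = nt (Ls (max (T y) (T z))) (idx z) := by rw [hyz]
        _ = z := h4
  have h3 : ∀ j, ∃ y, good e sc y ∧ ∃ T, ∀ t, T ≤ t → j < (Ls t).length ∧ nt (Ls t) j = y := by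
    intro j
    obtain ⟨s, hs⟩ := h2 j
    obtain ⟨t, ht, htg⟩ := eventually_good hdiv hLs s
    have h4 : j < (Ls t).length := lt_of_lt_of_le hs (pres_le hLs ht).1
    refine ⟨nt (Ls t) j, htg _ (nt_mem h4), t, fun u hu => ⟨lt_of_lt_of_le h4
      (pres_le hLs hu).1, fix_le hdiv hLs hu j h4 ?_⟩⟩
    intro i hi
    exact htg _ (nt_mem (lt_of_le_of_lt hi h4))
  choose w hw T' hT' using h3
  refine ⟨w, hw, ?_, ?_, fun j => ⟨T' j, hT' j⟩⟩
  · intro j k hjk
    obtain ⟨h4, h5⟩ := hT' j (max (T' j) (T' k)) (le_max_left _ _)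
    obtain ⟨h6, h7⟩ := hT' k (max (T' j) (T' k)) (le_max_right _ _)
    exact nt_inj (nodup_all hL0 hLs _) h4 h6 (by rw [h5, h7, hjk])
  · intro x hx
    refine ⟨idx x, ?_⟩
    obtain ⟨_, h5⟩ := hT' (idx x) (max (T' (idx x)) (T x)) (le_max_left _ _)
    obtain ⟨_, h7⟩ := hT x hx (max (T' (idx x)) (T x)) (le_max_right _ _)
    rw [← h5, h7]

include hLs hL0 in
theorem limit_lt {w : ℕ → ℕ} (hw : ∀ j, ∃ T, ∀ t, T ≤ t → j < (Ls t).length ∧ nt (Ls t) j = w j)
    {s j k : ℕ} (hj : j < (Ls s).length) (hk : k < (Ls s).length) :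
    e (nt (Ls s) j) < e (nt (Ls s) k) ↔ e (w j) < e (w k) := by
  have key : ∀ j k, j < (Ls s).length → k < (Ls s).length →
      e (nt (Ls s) j) < e (nt (Ls s) k) → e (w j) < e (w k) := by
    intro j k hj hk h
    obtain ⟨T, hT⟩ := hw j
    obtain ⟨T', hT'⟩ := hw k
    have h1 : s ≤ max s (max T T') := le_max_left _ _
    have h2 : T ≤ max s (max T T') := (le_max_left _ _).trans (le_max_right _ _)
    have h3 : T' ≤ max s (max T T') := (le_max_right _ _).trans (le_max_right _ _)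
    have h4 := (pres_le hLs h1).2.1 j hj k hk h
    rwa [(hT _ h2).2, (hT' _ h3).2] at h4
  constructor
  · exact key j k hj hk
  · intro h
    rcases lt_trichotomy (e (nt (Ls s) j)) (e (nt (Ls s) k)) with h1 | h1 | h1
    · exact h1
    · exfalso
      have h2 : nt (Ls s) j = nt (Ls s) k := e.injective h1
      have h3 := nt_inj (nodup_all hL0 hLs s) hj hk h2
      rw [h3] at h
      exact lt_irrefl _ h
    · exact absurd (key k j hk hj h1) (lt_asymm h)

include hLs in
theorem limit_add {w : ℕ → ℕ}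
    (hw : ∀ j, ∃ T, ∀ t, T ≤ t → j < (Ls t).length ∧ nt (Ls t) j = w j)
    {s j k l : ℕ} (hj : j < (Ls s).length) (hk : k < (Ls s).length) (hl : l < (Ls s).length)
    (h : e (nt (Ls s) j) + e (nt (Ls s) k) = e (nt (Ls s) l)) :
    e (w j) + e (w k) = e (w l) := by
  obtain ⟨T, hT⟩ := hw j
  obtain ⟨T', hT'⟩ := hw k
  obtain ⟨T'', hT''⟩ := hw l
  have h1 : s ≤ s + T + T' + T'' := by omega
  have h4 := (pres_le hLs h1).2.2 j hj k hk l hl h
  rwa [(hT _ (by omega)).2, (hT' _ (by omega)).2, (hT'' _ (by omega)).2] at h4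

theorem limit_ex {w : ℕ → ℕ} (hg : ∀ j, good e sc (w j)) (hs : ∀ x, good e sc x → ∃ j, w j = x)
    (hw : ∀ j, ∃ T, ∀ t, T ≤ t → j < (Ls t).length ∧ nt (Ls t) j = w j) (j k : ℕ) :
    ∃ s l, j < (Ls s).length ∧ k < (Ls s).length ∧ l < (Ls s).length ∧
      e (nt (Ls s) j) + e (nt (Ls s) k) = e (nt (Ls s) l) := by
  obtain ⟨l, hl⟩ := hs (e.symm (e (w j) + e (w k))) (by
    unfold good
    rw [Equiv.apply_symm_apply, map_add, hg j, hg k, add_zero])
  obtain ⟨T, hT⟩ := hw j
  obtain ⟨T', hT'⟩ := hw k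
  obtain ⟨T'', hT''⟩ := hw l
  refine ⟨T + T' + T'', l, (hT _ (by omega)).1, (hT' _ (by omega)).1, (hT'' _ (by omega)).1, ?_⟩
  rw [(hT _ (by omega)).2, (hT' _ (by omega)).2, (hT'' _ (by omega)).2, hl,
    Equiv.apply_symm_apply]

end limit

end Pool.Agent.R621.DV
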