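import Pool.Agent.R621.HS.Dv4

/-!
# Computability of the construction
-/

set_option autoImplicit false

namespace Pool.Agent.R621.DV

open Encodable

section comp

variable {P : Type} [AddCommGroup P] [LinearOrder P] [IsOrderedAddMonoid P] {e : ℕ ≃ P}
  {sc : P →+ ℤ} {g : ℕ → ℕ} {α : Type} [Primcodable α]

theorem CI.nt {f : α → List ℕ} {h : α → ℕ} (hf : CI g f) (hh : CI g h) :
    CI g fun a => nt (f a) (h a) := by
  have h1 : Primrec fun z : List ℕ × ℕ => DV.nt z.1 z.2 :=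
    (Primrec.list_getD 0).comp Primrec.fst Primrec.snd
  exact (CI.prim h1).comp (hf.pair hh)

theorem CI.length {f : α → List ℕ} (hf : CI g f) : CI g fun a => (f a).length :=
  (CI.prim Primrec.list_length).comp hf

theorem CI.concat {f : α → List ℕ} {h : α → ℕ} (hf : CI g f) (hh : CI g h) :
    CI g fun a => f a ++ [h a] := by
  have h1 : Primrec fun z : List ℕ × ℕ => z.1 ++ [z.2] :=
    Primrec.list_concat.comp Primrec.fst Primrec.snd
  exact (CI.prim h1).comp (hf.pair hh)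

theorem CI.succ {f : α → ℕ} (hf : CI g f) : CI g fun a => f a + 1 :=
  (CI.prim Primrec.succ).comp hf

theorem DI.mem {f : α → List ℕ} {h : α → ℕ} (hf : CI g f) (hh : CI g h) :
    DI g fun a => h a ∈ f a := by
  have h1 : DI g fun a => ∃ j < (f a).length, DV.nt (f a) j = h a :=
    DI.bex (p := fun z : α × ℕ => DV.nt (f z.1) z.2 = h z.1)
      (DI.eq (CI.nt (hf.comp CI.id.fst) CI.id.snd) (hh.comp CI.id.fst)) (CI.length hf)
  refine h1.of_iff fun a => ?_
  constructor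
  · rintro ⟨j, hj, h2⟩
    rw [← h2]
    exact nt_mem hj
  · intro h2
    exact exists_nt h2

variable (hadd : CI g fun z : ℕ × ℕ => e.symm (e z.1 + e z.2))
  (hlt : DI g fun z : ℕ × ℕ => e z.1 < e z.2)

include hadd in
theorem ci_add {f h : α → ℕ} (hf : CI g f) (hh : CI g h) :
    CI g fun a => e.symm (e (f a) + e (h a)) := hadd.comp (hf.pair hh)

include hadd in
theorem ci_add' {f h : α → P} (hf : CI g fun a => e.symm (f a)) (hh : CI g fun a => e.symm (h a)) :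
    CI g fun a => e.symm (f a + h a) :=
  (ci_add hadd hf hh).of_eq fun a => by simp

include hlt in
theorem di_lt {f h : α → ℕ} (hf : CI g f) (hh : CI g h) :
    DI g fun a => e (f a) < e (h a) := DI.comp hlt (hf.pair hh)

theorem di_eq {f h : α → P} (hf : CI g fun a => e.symm (f a)) (hh : CI g fun a => e.symm (h a)) :
    DI g fun a => f a = h a :=
  (DI.eq hf hh).of_iff fun a => by simp

theorem ci_e {f : α → ℕ} (hf : CI g f) : CI g fun a => e.symm (e (f a)) :=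
  hf.of_eq fun a => by simp

include hadd in
theorem ci_nsmul {f : α → ℕ} {h : α → P} (hf : CI g f) (hh : CI g fun a => e.symm (h a)) :
    CI g fun a => e.symm (f a • h a) := by
  refine (CI.nat_rec (b := fun _ => e.symm 0)
    (h := fun z : α × ℕ × ℕ => e.symm (e z.2.2 + h z.1)) hf (CI.const _)
    (ci_add' hadd (ci_e CI.id.snd.snd) (hh.comp CI.id.fst))).of_eq ?_
  intro a
  generalize f a = m
  induction m with
  | zero => simp
  | succ m ih =>
    simp only [ih]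
    rw [Equiv.apply_symm_apply, succ_nsmul]

include hadd in
theorem ci_sum {f : α → ℕ} {A L : α → List ℕ} (hf : CI g f) (hA : CI g A) (hL : CI g L) :
    CI g fun a => e.symm (∑ i ∈ Finset.range (f a), nt (A a) i • e (nt (L a) i)) := by
  refine (CI.nat_rec (b := fun _ => e.symm 0)
    (h := fun z : α × ℕ × ℕ => e.symm (e z.2.2 + nt (A z.1) z.2.1 • e (nt (L z.1) z.2.1))) hf
    (CI.const _) (ci_add' hadd (ci_e CI.id.snd.snd) (ci_nsmul hadd
      (CI.nt (hA.comp CI.id.fst) CI.id.snd.fst)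
      (ci_e (CI.nt (hL.comp CI.id.fst) CI.id.snd.fst))))).of_eq ?_
  intro a
  generalize f a = m
  induction m with
  | zero => simp
  | succ m ih =>
    simp only [ih]
    rw [Equiv.apply_symm_apply, Finset.sum_range_succ]

variable (hdiv : ∀ x : P, sc x = 0 → ∀ n : ℕ, ∃ y : P, (n + 1) • y = x) {u : P} (hu : sc u = 1)

include hdiv hu in
theorem exists_rem (n : ℕ) (x : P) : ∃ c : ℕ, c.unpair.2 ≤ n ∧
    x = (n + 1) • e c.unpair.1 + c.unpair.2 • u := by
  have hn : (0 : ℤ) < (n : ℤ) + 1 := by omega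
  obtain ⟨y, hy⟩ := hdiv (x - sc x • u) (by
    rw [map_sub, map_zsmul, hu]
    simp) n
  obtain ⟨r, hr⟩ := Int.eq_ofNat_of_zero_le (Int.emod_nonneg (sc x) hn.ne')
  have hr2 := Int.emod_lt_of_pos (sc x) hn
  refine ⟨Nat.pair (e.symm (y + (sc x / ((n : ℤ) + 1)) • u)) r, ?_, ?_⟩
  · rw [Nat.unpair_pair]
    simp only
    omega
  · rw [Nat.unpair_pair]
    simp only
    rw [Equiv.apply_symm_apply, smul_add, hy]
    have h1 : (n + 1) • (sc x / ((n : ℤ) + 1)) • u + r • u = sc x • u := by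
      rw [← natCast_zsmul u r, ← natCast_zsmul _ (n + 1), smul_smul, ← add_smul, ← hr]
      congr 1
      push_cast
      exact Int.mul_ediv_add_emod (sc x) ((n : ℤ) + 1)
    rw [add_assoc, h1]
    abel

include hadd hdiv hu in
theorem di_dv : DI g fun z : ℕ × ℕ => ∃ y : P, (z.1 + 1) • y = e z.2 := by
  classical
  have hp : DI g fun q : (ℕ × ℕ) × ℕ => q.2.unpair.2 ≤ q.1.1 ∧
      e q.1.2 = (q.1.1 + 1) • e q.2.unpair.1 + q.2.unpair.2 • u := by
    have h1 : CI g fun q : (ℕ × ℕ) × ℕ => q.2.unpair := (CI.prim Primrec.unpair).comp CI.id.snd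
    refine DI.and (DI.le h1.snd CI.id.fst.fst) (di_eq (ci_e CI.id.fst.snd) (ci_add' hadd
      (ci_nsmul hadd (CI.succ CI.id.fst.fst) (ci_e h1.fst))
      (ci_nsmul hadd h1.snd (CI.const _))))
  have hex : ∀ z : ℕ × ℕ, ∃ c : ℕ, c.unpair.2 ≤ z.1 ∧
      e z.2 = (z.1 + 1) • e c.unpair.1 + c.unpair.2 • u :=
    fun z => exists_rem hdiv hu z.1 (e z.2)
  have hf := CI.find (p := fun q : (ℕ × ℕ) × ℕ => q.2.unpair.2 ≤ q.1.1 ∧
      e q.1.2 = (q.1.1 + 1) • e q.2.unpair.1 + q.2.unpair.2 • u) hp.ci hex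
  have h2 : DI g fun z : ℕ × ℕ => (Nat.find (hex z)).unpair.2 = 0 :=
    DI.eq ((CI.prim Primrec.unpair).comp hf).snd (CI.const 0)
  refine h2.of_iff fun z => ?_
  obtain ⟨h3, h4⟩ := Nat.find_spec (hex z)
  constructor
  · intro h
    rw [h, zero_smul, add_zero] at h4
    exact ⟨_, h4.symm⟩
  · rintro ⟨y, hy⟩
    rw [h4] at hy
    have h5 := congrArg sc hy
    rw [map_add, map_nsmul, map_nsmul, map_nsmul, hu] at h5
    generalize (Nat.find (hex z)).unpair.2 = r at h3 h5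
    generalize sc (e (Nat.find (hex z)).unpair.1) = a at h5
    generalize sc y = b at h5
    simp only [nsmul_eq_mul, mul_one] at h5
    push_cast at h5
    have h6 : ((z.1 : ℤ) + 1) * (b - a) = r := by linarith
    have h7 : ((z.1 : ℤ) + 1) ∣ (r : ℤ) := ⟨b - a, h6.symm⟩
    have h8 : (z.1 + 1) ∣ r := by exact_mod_cast h7
    exact Nat.eq_zero_of_dvd_of_lt h8 (by omega)

include hadd hdiv hu in
theorem di_test {f h : α → ℕ} (hf : CI g f) (hh : CI g h) : DI g fun a => test e (f a) (h a) := by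
  have h1 := di_dv hadd hdiv hu
  exact DI.ball (p := fun q : α × ℕ => ∃ y : P, (q.2 + 1) • y = e (h q.1))
    (h1.comp (CI.id.snd.pair (hh.comp CI.id.fst))) hf

include hadd in
theorem di_cert {L : α → List ℕ} {k x w : α → ℕ} (hL : CI g L) (hk : CI g k) (hx : CI g x)
    (hw : CI g w) : DI g fun a => cert e (L a) (k a) (x a) (w a) := by
  have h1 : CI g fun a => Denumerable.ofNat (ℕ × List ℕ × List ℕ) (w a) :=
    (CI.prim (Primrec.ofNat _)).comp hw
  exact di_eq (ci_add' hadd (ci_nsmul hadd (CI.succ h1.fst) (ci_e hx))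
    (ci_sum hadd hk h1.snd.fst hL)) (ci_sum hadd hk h1.snd.snd hL)

include hadd hdiv hu in
theorem di_bad {s : α → ℕ} {L : α → List ℕ} (hs : CI g s) (hL : CI g L) :
    DI g fun a => Bad e (s a) (L a) :=
  DI.bex (p := fun q : α × ℕ => ¬ test e (s q.1) (nt (L q.1) q.2))
    (DI.not (di_test hadd hdiv hu (hs.comp CI.id.fst) (CI.nt (hL.comp CI.id.fst) CI.id.snd)))
    (CI.length hL)

include hadd hlt hdiv hu in
theorem di_act {s k t N : α → ℕ} {L L' : α → List ℕ} (hs : CI g s) (hk : CI g k) (ht : CI g t)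
    (hN : CI g N) (hL : CI g L) (hL' : CI g L') :
    DI g fun a => Act e (s a) (L a) (k a) (t a) (N a) (L' a) := by
  have l1 : ∀ {β γ : Type} [Primcodable β] [Primcodable γ] {F : β → γ}, CI g F →
      CI g fun q : β × ℕ => F q.1 := fun h => h.comp CI.id.fst
  refine DI.and (DI.lt hk (CI.length hL)) ?_
  refine DI.and (DI.not (di_test hadd hdiv hu ht (CI.nt hL hk))) ?_
  refine DI.and (DI.ball (p := fun q : α × ℕ => test e (s q.1) (nt (L q.1) q.2))
    (di_test hadd hdiv hu (l1 hs) (CI.nt (l1 hL) CI.id.snd)) hk) ?_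
  refine DI.and (DI.eq (CI.length hL') (CI.length hL)) ?_
  refine DI.and (DI.ball (p := fun q : α × ℕ => nt (L' q.1) q.2 = nt (L q.1) q.2)
    (DI.eq (CI.nt (l1 hL') CI.id.snd) (CI.nt (l1 hL) CI.id.snd)) hk) ?_
  refine DI.and (DI.ball (p := fun q : α × ℕ => ∀ b < (L q.1).length,
    e (nt (L q.1) q.2) < e (nt (L q.1) b) → e (nt (L' q.1) q.2) < e (nt (L' q.1) b))
    (DI.ball (p := fun r : (α × ℕ) × ℕ =>
      e (nt (L r.1.1) r.1.2) < e (nt (L r.1.1) r.2) →
      e (nt (L' r.1.1) r.1.2) < e (nt (L' r.1.1) r.2))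
      (DI.imp (di_lt hlt (CI.nt (l1 (l1 hL)) CI.id.fst.snd) (CI.nt (l1 (l1 hL)) CI.id.snd))
        (di_lt hlt (CI.nt (l1 (l1 hL')) CI.id.fst.snd) (CI.nt (l1 (l1 hL')) CI.id.snd)))
      (CI.length (l1 hL))) (CI.length hL)) ?_
  refine DI.and (DI.ball (p := fun q : α × ℕ => ∀ b < (L q.1).length, ∀ c < (L q.1).length,
    e (nt (L q.1) q.2) + e (nt (L q.1) b) = e (nt (L q.1) c) →
    e (nt (L' q.1) q.2) + e (nt (L' q.1) b) = e (nt (L' q.1) c))
    (DI.ball (p := fun r : (α × ℕ) × ℕ => ∀ c < (L r.1.1).length,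
      e (nt (L r.1.1) r.1.2) + e (nt (L r.1.1) r.2) = e (nt (L r.1.1) c) →
      e (nt (L' r.1.1) r.1.2) + e (nt (L' r.1.1) r.2) = e (nt (L' r.1.1) c))
      (DI.ball (p := fun r : ((α × ℕ) × ℕ) × ℕ =>
        e (nt (L r.1.1.1) r.1.1.2) + e (nt (L r.1.1.1) r.1.2) = e (nt (L r.1.1.1) r.2) →
        e (nt (L' r.1.1.1) r.1.1.2) + e (nt (L' r.1.1.1) r.1.2) = e (nt (L' r.1.1.1) r.2))
        (DI.imp
          (di_eq (ci_add' hadd (ci_e (CI.nt (l1 (l1 (l1 hL))) CI.id.fst.fst.snd))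
            (ci_e (CI.nt (l1 (l1 (l1 hL))) CI.id.fst.snd)))
            (ci_e (CI.nt (l1 (l1 (l1 hL))) CI.id.snd)))
          (di_eq (ci_add' hadd (ci_e (CI.nt (l1 (l1 (l1 hL'))) CI.id.fst.fst.snd))
            (ci_e (CI.nt (l1 (l1 (l1 hL'))) CI.id.fst.snd)))
            (ci_e (CI.nt (l1 (l1 (l1 hL'))) CI.id.snd))))
        (CI.length (l1 (l1 hL)))) (CI.length (l1 hL))) (CI.length hL)) ?_
  exact DI.ball (p := fun q : α × ℕ => ∃ w < N q.1, cert e (L q.1) (k q.1) (nt (L' q.1) q.2) w)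
    (DI.bex (p := fun r : (α × ℕ) × ℕ => cert e (L r.1.1) (k r.1.1) (nt (L' r.1.1) r.1.2) r.2)
      (di_cert hadd (l1 (l1 hL)) (l1 (l1 hk)) (CI.nt (l1 (l1 hL')) CI.id.fst.snd) CI.id.snd)
      (l1 hN)) (CI.length hL)

include hadd hdiv hu in
theorem ci_ext {s m : α → ℕ} {L : α → List ℕ} (hs : CI g s) (hm : CI g m) (hL : CI g L) :
    CI g fun a => ext e (s a) (L a) (m a) := by
  classical
  refine (CI.nat_rec (b := L) (h := fun z : α × ℕ × List ℕ =>
    if test e (s z.1) z.2.1 ∧ z.2.1 ∉ z.2.2 then z.2.2 ++ [z.2.1] else z.2.2) hm hL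
    (CI.ite (DI.and (di_test hadd hdiv hu (hs.comp CI.id.fst) CI.id.snd.fst)
      (DI.not (DI.mem CI.id.snd.snd CI.id.snd.fst))) (CI.concat CI.id.snd.snd CI.id.snd.fst)
      CI.id.snd.snd)).of_eq ?_
  intro a
  generalize m a = n
  induction n with
  | zero => rfl
  | succ n ih =>
    simp only [ih]
    rw [ext_succ]

/-! ### the construction itself -/

variable {a0 : ℕ}

/-- what is searched for -/
def ExP (e : ℕ ≃ P) (a0 : ℕ) (z : (ℕ × List ℕ) × ℕ) : Prop :=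
  Bad e z.1.1 z.1.2 ∧ nt z.1.2 0 = a0 →
    Act e z.1.1 z.1.2 (Denumerable.ofNat (ℕ × ℕ × ℕ × List ℕ) z.2).1
      (Denumerable.ofNat (ℕ × ℕ × ℕ × List ℕ) z.2).2.1
      (Denumerable.ofNat (ℕ × ℕ × ℕ × List ℕ) z.2).2.2.1
      (Denumerable.ofNat (ℕ × ℕ × ℕ × List ℕ) z.2).2.2.2

include hdiv in
theorem exists_ExP (h0 : good e sc a0) (h00 : e a0 ≠ 0) (z : ℕ × List ℕ) :
    ∃ n, ExP e a0 (z, n) := by
  by_cases h : Bad e z.1 z.2 ∧ nt z.2 0 = a0
  · obtain ⟨k, t, N, L', h1⟩ := exists_act hdiv h0 h00 h.2 h.1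
    refine ⟨encode ((k, t, N, L') : ℕ × ℕ × ℕ × List ℕ), fun _ => ?_⟩
    rw [Denumerable.ofNat_encode]
    exact h1
  · exact ⟨0, fun h1 => absurd h1 h⟩

include hadd hlt hdiv hu in
theorem di_ExP : DI g (ExP e a0) := by
  have h1 : CI g fun z : (ℕ × List ℕ) × ℕ => Denumerable.ofNat (ℕ × ℕ × ℕ × List ℕ) z.2 :=
    (CI.prim (Primrec.ofNat _)).comp CI.id.snd
  exact DI.imp (DI.and (di_bad hadd hdiv hu CI.id.fst.fst CI.id.fst.snd)
    (DI.eq (CI.nt CI.id.fst.snd (CI.const 0)) (CI.const a0)))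
    (di_act hadd hlt hdiv hu CI.id.fst.fst h1.fst h1.snd.fst h1.snd.snd.fst CI.id.fst.snd
      h1.snd.snd.snd)

include hadd hlt hdiv hu in
/-- The construction: there is a sequence of stages computable from the oracle. -/
theorem exists_stages (h0 : good e sc a0) (h00 : e a0 ≠ 0) : ∃ Ls : ℕ → List ℕ, CI g Ls ∧
    Ls 0 = [a0] ∧ ∀ s, StepR e s (Ls s) (Ls (s + 1)) := by
  classical
  have hex := exists_ExP hdiv h0 h00
  have hfind : CI g fun z : ℕ × List ℕ => Nat.find (hex z) :=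
    CI.find (p := ExP e a0) (di_ExP hadd hlt hdiv hu).ci hex
  have hcor : CI g fun z : ℕ × List ℕ =>
      (Denumerable.ofNat (ℕ × ℕ × ℕ × List ℕ) (Nat.find (hex z))).2.2.2 :=
    ((CI.prim (Primrec.ofNat (ℕ × ℕ × ℕ × List ℕ))).comp hfind).snd.snd.snd
  have hstep : CI g fun z : ℕ × List ℕ => if Bad e z.1 z.2 then
      (Denumerable.ofNat (ℕ × ℕ × ℕ × List ℕ) (Nat.find (hex z))).2.2.2
      else ext e z.1 z.2 z.1 :=
    CI.ite (di_bad hadd hdiv hu CI.id.fst CI.id.snd) hcor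
      (ci_ext hadd hdiv hu CI.id.fst CI.id.fst CI.id.snd)
  have hLs := CI.nat_rec (α := ℕ) (f := fun a => a) (b := fun _ => [a0])
    (h := fun q : ℕ × ℕ × List ℕ => if Bad e q.2.1 q.2.2 then
      (Denumerable.ofNat (ℕ × ℕ × ℕ × List ℕ) (Nat.find (hex q.2))).2.2.2
      else ext e q.2.1 q.2.2 q.2.1) CI.id (CI.const _) (hstep.comp CI.id.snd)
  obtain ⟨Ls, hgen⟩ : ∃ Ls : ℕ → List ℕ, (fun a : ℕ => (Nat.rec [a0] (fun n ih => if Bad e n ih then
      (Denumerable.ofNat (ℕ × ℕ × ℕ × List ℕ) (Nat.find (hex (n, ih)))).2.2.2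
      else ext e n ih n) a : List ℕ)) = Ls := ⟨_, rfl⟩
  refine ⟨Ls, by rw [← hgen]; exact hLs, by rw [← hgen]; rfl, ?_⟩
  have hsucc : ∀ s, Ls (s + 1) = if Bad e s (Ls s) then
      (Denumerable.ofNat (ℕ × ℕ × ℕ × List ℕ) (Nat.find (hex (s, Ls s)))).2.2.2
      else ext e s (Ls s) s := by
    intro s
    rw [← hgen]
  have hst : ∀ s, nt (Ls s) 0 = a0 → StepR e s (Ls s) (Ls (s + 1)) := by
    intro s hs
    rw [hsucc]
    by_cases hb : Bad e s (Ls s)
    · rw [if_pos hb]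
      exact Or.inl ⟨hb, _, _, _, Nat.find_spec (hex (s, Ls s)) ⟨hb, hs⟩⟩
    · rw [if_neg hb]
      exact Or.inr ⟨hb, rfl⟩
  have hinv : ∀ s, 0 < (Ls s).length ∧ nt (Ls s) 0 = a0 := by
    intro s
    induction s with
    | zero =>
      rw [← hgen]
      exact ⟨Nat.one_pos, rfl⟩
    | succ s ih =>
      have h1 := hst s ih.2
      refine ⟨lt_of_lt_of_le ih.1 h1.pres.1, ?_⟩
      rw [h1.fix hdiv ih.1]
      · exact ih.2
      · intro i hi
        rw [Nat.le_zero.1 hi, ih.2]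
        exact h0
  exact fun s => hst s (hinv s).2

end comp

end Pool.Agent.R621.DV
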