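import Pool.Agent.R621.HS.Dv5
import Pool.Agent.R621.HS.Bie1

/-!
# Degree spectra of ordered groups
-/

set_option autoImplicit false

namespace Pool.Agent.R621.DV

open Encodable BE

/-- A structure with domain `ℕ` for the language `(+, <, c₀, …, c_{k-1})`. -/
structure Str (k : ℕ) where
  add : ℕ → ℕ → ℕ
  lt : ℕ → ℕ → Prop
  cst : Fin k → ℕ

/-- The atomic diagram, as a set of natural numbers: `⟨0, a, b, c⟩` stands for `a + b = c`,
`⟨1, a, b⟩` stands for `a < b`, and `⟨i + 2, a⟩` stands for `cᵢ = a`. -/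
def Str.diag {k : ℕ} (M : Str k) : Set ℕ :=
  {n | (∃ a b, n = Nat.pair 0 (Nat.pair a (Nat.pair b (M.add a b)))) ∨
    (∃ a b, M.lt a b ∧ n = Nat.pair 1 (Nat.pair a b)) ∨
    ∃ i : Fin k, n = Nat.pair (i + 2) (M.cst i)}

/-- `M` is isomorphic to `(G, +, <, c₀, …, c_{k-1})` -/
def Str.IsCopy {k : ℕ} (M : Str k) {G : Type} [Add G] [LT G] (c : Fin k → G) : Prop :=
  ∃ e : ℕ ≃ G, (∀ a b, e (M.add a b) = e a + e b) ∧ (∀ a b, M.lt a b ↔ e a < e b) ∧
    ∀ i, e (M.cst i) = c i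

/-- The degree spectrum of `(G, +, <, c₀, …, c_{k-1})`: the set of the Turing degrees of (the
atomic diagrams of) its copies. -/
def DgSp {k : ℕ} (G : Type) [Add G] [LT G] (c : Fin k → G) : Set TDeg :=
  {d | ∃ M : Str k, M.IsCopy c ∧ deg M.diag = d}

theorem mem_diag_add {k : ℕ} {M : Str k} {a b c : ℕ} :
    Nat.pair 0 (Nat.pair a (Nat.pair b c)) ∈ M.diag ↔ M.add a b = c := by
  constructor
  · rintro (⟨a', b', h⟩ | ⟨a', b', _, h⟩ | ⟨i, h⟩)
    · have h1 := (Nat.pair_eq_pair.1 h).2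
      have h2 := (Nat.pair_eq_pair.1 h1).2
      rw [(Nat.pair_eq_pair.1 h1).1, (Nat.pair_eq_pair.1 h2).1, (Nat.pair_eq_pair.1 h2).2]
    · have h1 := (Nat.pair_eq_pair.1 h).1
      omega
    · have h1 := (Nat.pair_eq_pair.1 h).1
      omega
  · intro h
    exact Or.inl ⟨a, b, by rw [h]⟩

theorem mem_diag_lt {k : ℕ} {M : Str k} {a b : ℕ} :
    Nat.pair 1 (Nat.pair a b) ∈ M.diag ↔ M.lt a b := by
  constructor
  · rintro (⟨a', b', h⟩ | ⟨a', b', h', h⟩ | ⟨i, h⟩)
    · have h1 := (Nat.pair_eq_pair.1 h).1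
      omega
    · have h1 := (Nat.pair_eq_pair.1 h).2
      rw [(Nat.pair_eq_pair.1 h1).1, (Nat.pair_eq_pair.1 h1).2]
      exact h'
    · have h1 := (Nat.pair_eq_pair.1 h).1
      omega
  · intro h
    exact Or.inr (Or.inl ⟨a, b, h, rfl⟩)

theorem di_oracle {α : Type} [Primcodable α] {X : Set ℕ} {f : α → ℕ} (hf : CI (chi X) f) :
    DI (chi X) fun a => f a ∈ X :=
  (DI.eq (CI.oracle.comp hf) (CI.const 1)).of_iff fun _ => chi_one

theorem CI.mkpair {α : Type} [Primcodable α] {g : ℕ → ℕ} {f h : α → ℕ} (hf : CI g f)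
    (hh : CI g h) : CI g fun a => Nat.pair (f a) (h a) := by
  have h1 : Primrec fun z : ℕ × ℕ => Nat.pair z.1 z.2 :=
    Primrec₂.natPair.comp Primrec.fst Primrec.snd
  exact (CI.prim h1).comp (hf.pair hh)

/-- from a copy to computable operations -/
theorem copy_ci {k : ℕ} {M : Str k} {G : Type} [Add G] [LT G] {e : ℕ ≃ G}
    (h1 : ∀ a b, e (M.add a b) = e a + e b) (h2 : ∀ a b, M.lt a b ↔ e a < e b) :
    (CI (chi M.diag) fun z : ℕ × ℕ => e.symm (e z.1 + e z.2)) ∧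
      DI (chi M.diag) fun z : ℕ × ℕ => e z.1 < e z.2 := by
  classical
  constructor
  · have hex : ∀ z : ℕ × ℕ, ∃ c, Nat.pair 0 (Nat.pair z.1 (Nat.pair z.2 c)) ∈ M.diag :=
      fun z => ⟨_, mem_diag_add.2 rfl⟩
    have h3 := CI.find (p := fun q : (ℕ × ℕ) × ℕ =>
      Nat.pair 0 (Nat.pair q.1.1 (Nat.pair q.1.2 q.2)) ∈ M.diag)
      (di_oracle (CI.mkpair (CI.const 0) (CI.mkpair CI.id.fst.fst
        (CI.mkpair CI.id.fst.snd CI.id.snd)))).ci hex
    refine h3.of_eq fun z => ?_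
    have h4 := mem_diag_add.1 (Nat.find_spec (hex z))
    rw [← h1, Equiv.symm_apply_apply]
    exact h4.symm
  · refine (di_oracle (X := M.diag) (f := fun z : ℕ × ℕ => Nat.pair 1 (Nat.pair z.1 z.2))
      (CI.mkpair (CI.const 1) (CI.mkpair CI.id.fst CI.id.snd))).of_iff fun z => ?_
    rw [mem_diag_lt, h2]

theorem tred_of_di {X Y : Set ℕ} (h : DI (chi X) fun n => n ∈ Y) : TRed Y X := by
  classical
  have h1 : CI (chi X) (chi Y) := by
    refine (CI.ite h (CI.const 1) (CI.const 0)).of_eq fun n => ?_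
    unfold chi
    congr
  exact Helper743.TR_iff.1 (ci_nat_iff.1 h1)

theorem diag_tred {k : ℕ} {M : Str k} {X : Set ℕ}
    (hadd : CI (chi X) fun z : ℕ × ℕ => M.add z.1 z.2)
    (hlt : DI (chi X) fun z : ℕ × ℕ => M.lt z.1 z.2) {l : List ℕ}
    (hl : ∀ i : Fin k, nt l i = M.cst i) : TRed M.diag X := by
  apply tred_of_di
  have hu : CI (chi X) fun n : ℕ => n.unpair := CI.prim Primrec.unpair
  have hu1 : CI (chi X) fun n : ℕ => n.unpair.1 := hu.fst
  have hu2 : CI (chi X) fun n : ℕ => n.unpair.2.unpair := hu.comp hu.snd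
  have hu3 : CI (chi X) fun n : ℕ => n.unpair.2.unpair.2.unpair := hu.comp hu2.snd
  have d1 : DI (chi X) fun n : ℕ => n.unpair.1 = 0 ∧
      M.add n.unpair.2.unpair.1 n.unpair.2.unpair.2.unpair.1 =
        n.unpair.2.unpair.2.unpair.2 :=
    DI.and (DI.eq hu1 (CI.const 0)) (DI.eq (hadd.comp (hu2.fst.pair hu3.fst)) hu3.snd)
  have d2 : DI (chi X) fun n : ℕ => n.unpair.1 = 1 ∧
      M.lt n.unpair.2.unpair.1 n.unpair.2.unpair.2 :=
    DI.and (DI.eq hu1 (CI.const 1)) (hlt.comp (hu2.fst.pair hu2.snd))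
  have e1 : CI (chi X) fun z : ℕ × ℕ => z.2 + 2 := CI.succ (CI.succ CI.id.snd)
  have e2 : CI (chi X) fun z : ℕ × ℕ => nt l z.2 := CI.nt (CI.const l) CI.id.snd
  have d3 : DI (chi X) fun n : ℕ => ∃ i < k, n = Nat.pair (i + 2) (nt l i) :=
    DI.bex (p := fun z : ℕ × ℕ => z.1 = Nat.pair (z.2 + 2) (nt l z.2))
      (DI.eq CI.id.fst (CI.mkpair e1 e2)) (CI.const k)
  refine (DI.or d1 (DI.or d2 d3)).of_iff fun n => ?_
  constructor
  · rintro (⟨h1, h2⟩ | ⟨h1, h2⟩ | ⟨i, h1, h2⟩)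
    · refine Or.inl ⟨n.unpair.2.unpair.1, n.unpair.2.unpair.2.unpair.1, ?_⟩
      rw [h2, Nat.pair_unpair, Nat.pair_unpair, ← h1, Nat.pair_unpair]
    · refine Or.inr (Or.inl ⟨n.unpair.2.unpair.1, n.unpair.2.unpair.2, h2, ?_⟩)
      rw [Nat.pair_unpair, ← h1, Nat.pair_unpair]
    · refine Or.inr (Or.inr ⟨⟨i, h1⟩, ?_⟩)
      rw [← hl ⟨i, h1⟩]
      exact h2
  · rintro (⟨a, b, rfl⟩ | ⟨a, b, h, rfl⟩ | ⟨i, rfl⟩)
    · left
      simp
    · right; left
      simpa using h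
    · right; right
      exact ⟨i, i.2, by rw [hl]⟩

section exact

variable {G : Type} [Add G] [LinearOrder G] (e : ℕ ≃ G) (X : Set ℕ)

/-- exchange the names `2m` and `2m+1` so that their order codes `X` -/
def Keep (m : ℕ) : Prop := e (2 * m) < e (2 * m + 1) ↔ m ∈ X

open Classical in
noncomputable def swp (n : ℕ) : ℕ :=
  if Keep e X (n / 2) then n else if n % 2 = 0 then n + 1 else n - 1

theorem swp_div (n : ℕ) : swp e X n / 2 = n / 2 := by
  unfold swp
  split_ifs <;> omega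

open Classical in
theorem swp_eq (n m : ℕ) (h : n / 2 = m) : swp e X n =
    if Keep e X m then n else if n % 2 = 0 then n + 1 else n - 1 := by
  rw [← h]
  rfl

theorem swp_swp (n : ℕ) : swp e X (swp e X n) = n := by
  classical
  rw [swp_eq e X (swp e X n) (n / 2) (swp_div e X n)]
  by_cases hk : Keep e X (n / 2)
  · rw [if_pos hk]
    unfold swp
    rw [if_pos hk]
  · rw [if_neg hk]
    unfold swp
    rw [if_neg hk]
    split_ifs <;> omega

/-- the exchange as a permutation -/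
noncomputable def swpE : ℕ ≃ ℕ := ⟨swp e X, swp e X, swp_swp e X, swp_swp e X⟩

theorem swp_lt (m : ℕ) : e (swp e X (2 * m)) < e (swp e X (2 * m + 1)) ↔ m ∈ X := by
  classical
  have h1 : (2 * m) / 2 = m := by omega
  have h2 : (2 * m + 1) / 2 = m := by omega
  unfold swp
  rw [h1, h2]
  by_cases hk : Keep e X m
  · rw [if_pos hk, if_pos hk]
    exact hk
  · rw [if_neg hk, if_neg hk, if_pos (by omega), if_neg (by omega)]
    have h3 : 2 * m + 1 - 1 = 2 * m := by omega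
    rw [h3]
    have h4 : e (2 * m) ≠ e (2 * m + 1) := fun h => by
      have := e.injective h
      omega
    unfold Keep at hk
    rcases lt_or_gt_of_ne h4 with h5 | h5
    · have h6 : m ∉ X := fun h => hk ⟨fun _ => h, fun _ => h5⟩
      exact ⟨fun h => absurd h5 (lt_asymm h), fun h => absurd h h6⟩
    · have h6 : m ∈ X := by
        by_contra h
        exact hk ⟨fun h' => absurd h5 (lt_asymm h'), fun h' => absurd h' h⟩
      exact ⟨fun _ => h6, fun _ => h5⟩

variable {e X}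

/-- copies computable from `X` give copies of the degree of `X` -/
theorem exact_copy {k : ℕ} (c : Fin k → G)
    (hadd : CI (chi X) fun z : ℕ × ℕ => e.symm (e z.1 + e z.2))
    (hlt : DI (chi X) fun z : ℕ × ℕ => e z.1 < e z.2) :
    deg X ∈ DgSp G c := by
  classical
  -- the exchange is computable
  have hsw : CI (chi X) (swp e X) := by
    have hd : CI (chi X) fun n : ℕ => n / 2 :=
      CI.prim (Primrec.nat_div.comp Primrec.id (Primrec.const 2))
    have hm : CI (chi X) fun n : ℕ => n % 2 :=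
      CI.prim (Primrec.nat_mod.comp Primrec.id (Primrec.const 2))
    have hp : CI (chi X) fun n : ℕ => n - 1 :=
      CI.prim (Primrec.nat_sub.comp Primrec.id (Primrec.const 1))
    have h2 : CI (chi X) fun n : ℕ => 2 * n :=
      CI.prim (Primrec.nat_mul.comp (Primrec.const 2) Primrec.id)
    have hk : DI (chi X) fun n : ℕ => Keep e X (n / 2) :=
      DI.iff (hlt.comp ((h2.comp hd).pair (CI.succ (h2.comp hd)))) (di_oracle hd)
    refine (CI.ite hk CI.id (CI.ite (DI.eq hm (CI.const 0)) (CI.succ CI.id) hp)).of_eq ?_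
    intro n
    unfold swp
    congr
  have hadd' : CI (chi X) fun z : ℕ × ℕ =>
      swp e X (e.symm (e (swp e X z.1) + e (swp e X z.2))) :=
    hsw.comp (hadd.comp ((hsw.comp CI.id.fst).pair (hsw.comp CI.id.snd)))
  have hlt' : DI (chi X) fun z : ℕ × ℕ => e (swp e X z.1) < e (swp e X z.2) :=
    hlt.comp ((hsw.comp CI.id.fst).pair (hsw.comp CI.id.snd))
  obtain ⟨M, hM1, hM2, hM3⟩ : ∃ M : Str k,
      (∀ a b, M.add a b = swp e X (e.symm (e (swp e X a) + e (swp e X b)))) ∧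
      (∀ a b, M.lt a b ↔ e (swp e X a) < e (swp e X b)) ∧
      ∀ i, M.cst i = swp e X (e.symm (c i)) :=
    ⟨⟨fun a b => swp e X (e.symm (e (swp e X a) + e (swp e X b))),
      fun a b => e (swp e X a) < e (swp e X b), fun i => swp e X (e.symm (c i))⟩,
      fun _ _ => rfl, fun _ _ => Iff.rfl, fun _ => rfl⟩
  refine ⟨M, ⟨(swpE e X).trans e, ?_, ?_, ?_⟩, deg_eq.2 ⟨?_, ?_⟩⟩
  · intro a b
    show e (swp e X (M.add a b)) = _
    rw [hM1, swp_swp, Equiv.apply_symm_apply]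
    rfl
  · exact hM2
  · intro i
    show e (swp e X (M.cst i)) = _
    rw [hM3, swp_swp, Equiv.apply_symm_apply]
  · obtain ⟨l, hl⟩ : ∃ l : List ℕ, ∀ i : Fin k, nt l i = M.cst i := by
      refine ⟨List.ofFn M.cst, fun i => ?_⟩
      unfold nt
      rw [List.getD_eq_getElem _ _ (by simp)]
      simp
    have hadd2 : CI (chi X) fun z : ℕ × ℕ => M.add z.1 z.2 :=
      hadd'.of_eq fun z => (hM1 _ _).symm
    have hlt2 : DI (chi X) fun z : ℕ × ℕ => M.lt z.1 z.2 :=
      hlt'.of_iff fun z => (hM2 _ _).symm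
    exact diag_tred hadd2 hlt2 hl
  · refine tred_of_di ?_
    have h2 : CI (chi M.diag) fun m : ℕ => 2 * m :=
      CI.prim (Primrec.nat_mul.comp (Primrec.const 2) Primrec.id)
    refine (di_oracle (X := M.diag) (f := fun m : ℕ => Nat.pair 1 (Nat.pair (2 * m) (2 * m + 1)))
      (CI.mkpair (CI.const 1) (CI.mkpair h2 (CI.succ h2)))).of_iff fun m => ?_
    rw [mem_diag_lt, hM2]
    exact swp_lt e X m

end exact

end Pool.Agent.R621.DV
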