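import Pool.Agent.R621.HS.Dv6

/-!
# Copies of `V` and of `V × ℤ`
-/

set_option autoImplicit false

namespace Pool.Agent.R621.DV

open Encodable BE

/-! ### from copies of `V × ℤ` to copies of `V` -/

section hard

variable {V : Type} [AddCommGroup V] [LinearOrder V] [IsOrderedAddMonoid V]

/-- the integer coordinate -/
def scV : (V ×ₗ ℤ) →+ ℤ where
  toFun p := (ofLex p).2
  map_zero' := rfl
  map_add' _ _ := rfl

theorem hdivV (hdiv : ∀ n : ℕ, 0 < n → ∀ v : V, ∃ w, n • w = v) (x : V ×ₗ ℤ)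
    (hx : scV x = 0) (n : ℕ) : ∃ y : V ×ₗ ℤ, (n + 1) • y = x := by
  obtain ⟨w, hw⟩ := hdiv (n + 1) (Nat.succ_pos n) (ofLex x).1
  refine ⟨toLex (w, 0), (ofLex (α := V × ℤ)).injective ?_⟩
  have h1 : ofLex x = ((ofLex x).1, 0) := Prod.ext rfl hx
  rw [h1, ← hw]
  show (n + 1) • ((w, 0) : V × ℤ) = _
  simp

theorem lex_lt {x y : V ×ₗ ℤ} (hx : scV x = 0) (hy : scV y = 0) :
    x < y ↔ (ofLex x).1 < (ofLex y).1 := by
  rw [Prod.Lex.lt_iff]
  have h1 : (ofLex x).2 = 0 := hx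
  have h2 : (ofLex y).2 = 0 := hy
  constructor
  · rintro (h | ⟨_, h⟩)
    · exact h
    · rw [h1, h2] at h
      exact absurd h (lt_irrefl _)
  · exact fun h => Or.inl h

theorem to_V (hdiv : ∀ n : ℕ, 0 < n → ∀ v : V, ∃ w, n • w = v) [Nontrivial V] {g : ℕ → ℕ}
    (e : ℕ ≃ V ×ₗ ℤ) (hadd : CI g fun z : ℕ × ℕ => e.symm (e z.1 + e z.2))
    (hlt : DI g fun z : ℕ × ℕ => e z.1 < e z.2) :
    ∃ e' : ℕ ≃ V, (CI g fun z : ℕ × ℕ => e'.symm (e' z.1 + e' z.2)) ∧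
      DI g fun z : ℕ × ℕ => e' z.1 < e' z.2 := by
  classical
  obtain ⟨v0, hv0⟩ := exists_ne (0 : V)
  have hu : scV (toLex ((0 : V), (1 : ℤ))) = 1 := rfl
  have ha0 : good e scV (e.symm (toLex (v0, 0))) := by
    unfold good
    rw [Equiv.apply_symm_apply]
    rfl
  have ha00 : e (e.symm (toLex (v0, 0))) ≠ 0 := by
    rw [Equiv.apply_symm_apply]
    intro h
    exact hv0 (congrArg (fun x => (ofLex x).1) h)
  obtain ⟨Ls, hLs, hL0, hst⟩ := exists_stages hadd hlt (hdivV hdiv) hu ha0 ha00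
  have hinfV : Infinite V := inferInstance
  have hinf : {y | good e scV y}.Infinite := by
    refine Set.infinite_of_injective_forall_mem (f := fun v : V => e.symm (toLex (v, (0 : ℤ))))
      ?_ ?_
    · intro v v' h
      have h1 := e.symm.injective h
      exact congrArg (fun x => (ofLex x).1) h1
    · intro v
      show scV _ = 0
      rw [Equiv.apply_symm_apply]
      rfl
  obtain ⟨w, hg, hinj, hsurj, hlim⟩ := exists_limit (hdivV hdiv) hL0 hst hinf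
  have hbij : Function.Bijective fun j => (ofLex (e (w j))).1 := by
    constructor
    · intro j k hjk
      apply hinj
      apply e.injective
      refine (ofLex (α := V × ℤ)).injective (Prod.ext hjk ?_)
      have h1 : (ofLex (e (w j))).2 = 0 := hg j
      have h2 : (ofLex (e (w k))).2 = 0 := hg k
      rw [h1, h2]
    · intro v
      obtain ⟨j, hj⟩ := hsurj (e.symm (toLex (v, 0))) (by
        unfold good
        rw [Equiv.apply_symm_apply]
        rfl)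
      refine ⟨j, ?_⟩
      show (ofLex (e (w j))).1 = v
      rw [hj, Equiv.apply_symm_apply]
      rfl
  obtain ⟨e', he'⟩ : ∃ e' : ℕ ≃ V, ∀ j, e' j = (ofLex (e (w j))).1 :=
    ⟨Equiv.ofBijective _ hbij, fun _ => rfl⟩
  refine ⟨e', ?_, ?_⟩
  · -- addition
    have hp : DI g fun q : (ℕ × ℕ) × ℕ => q.1.1 < (Ls q.2.unpair.1).length ∧
        q.1.2 < (Ls q.2.unpair.1).length ∧ q.2.unpair.2 < (Ls q.2.unpair.1).length ∧
        e (nt (Ls q.2.unpair.1) q.1.1) + e (nt (Ls q.2.unpair.1) q.1.2) =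
          e (nt (Ls q.2.unpair.1) q.2.unpair.2) := by
      have h1 : CI g fun q : (ℕ × ℕ) × ℕ => q.2.unpair := (CI.prim Primrec.unpair).comp CI.id.snd
      have h2 : CI g fun q : (ℕ × ℕ) × ℕ => Ls q.2.unpair.1 := hLs.comp h1.fst
      have h3 : CI g fun q : (ℕ × ℕ) × ℕ => (Ls q.2.unpair.1).length := CI.length h2
      exact DI.and (DI.lt CI.id.fst.fst h3) (DI.and (DI.lt CI.id.fst.snd h3)
        (DI.and (DI.lt h1.snd h3) (di_eq (ci_add' hadd (ci_e (CI.nt h2 CI.id.fst.fst))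
          (ci_e (CI.nt h2 CI.id.fst.snd))) (ci_e (CI.nt h2 h1.snd)))))
    have hex : ∀ z : ℕ × ℕ, ∃ c : ℕ, z.1 < (Ls c.unpair.1).length ∧
        z.2 < (Ls c.unpair.1).length ∧ c.unpair.2 < (Ls c.unpair.1).length ∧
        e (nt (Ls c.unpair.1) z.1) + e (nt (Ls c.unpair.1) z.2) =
          e (nt (Ls c.unpair.1) c.unpair.2) := by
      intro z
      obtain ⟨s, l, h⟩ := limit_ex hg hsurj hlim z.1 z.2
      refine ⟨Nat.pair s l, ?_⟩
      rw [Nat.unpair_pair]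
      exact h
    have hf := CI.find (p := fun q : (ℕ × ℕ) × ℕ => q.1.1 < (Ls q.2.unpair.1).length ∧
        q.1.2 < (Ls q.2.unpair.1).length ∧ q.2.unpair.2 < (Ls q.2.unpair.1).length ∧
        e (nt (Ls q.2.unpair.1) q.1.1) + e (nt (Ls q.2.unpair.1) q.1.2) =
          e (nt (Ls q.2.unpair.1) q.2.unpair.2)) hp.ci hex
    refine (((CI.prim Primrec.unpair).comp hf).snd).of_eq fun z => ?_
    obtain ⟨h1, h2, h3, h4⟩ := Nat.find_spec (hex z)
    have h5 := limit_add hst hlim h1 h2 h3 h4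
    rw [Equiv.eq_symm_apply, he', he', he']
    exact (congrArg (fun x => (ofLex x).1) h5).symm
  · have hp : DI g fun q : (ℕ × ℕ) × ℕ => q.1.1 < (Ls q.2).length ∧ q.1.2 < (Ls q.2).length := by
      have h2 : CI g fun q : (ℕ × ℕ) × ℕ => Ls q.2 := hLs.comp CI.id.snd
      exact DI.and (DI.lt CI.id.fst.fst (CI.length h2)) (DI.lt CI.id.fst.snd (CI.length h2))
    have hex : ∀ z : ℕ × ℕ, ∃ s : ℕ, z.1 < (Ls s).length ∧ z.2 < (Ls s).length := by
      intro z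
      obtain ⟨s, _, h1, h2, _⟩ := limit_ex hg hsurj hlim z.1 z.2
      exact ⟨s, h1, h2⟩
    have hf := CI.find (p := fun q : (ℕ × ℕ) × ℕ => q.1.1 < (Ls q.2).length ∧
      q.1.2 < (Ls q.2).length) hp.ci hex
    have hL := hLs.comp hf
    refine (di_lt hlt (CI.nt hL CI.id.fst) (CI.nt hL CI.id.snd)).of_iff fun z => ?_
    obtain ⟨h1, h2⟩ := Nat.find_spec (hex z)
    rw [limit_lt hL0 hst hlim h1 h2, he', he', lex_lt (hg _) (hg _)]

end hard

/-! ### from copies of `V` to copies of `V × ℤ` -/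

/-- the integer with a given code -/
def zc : ℕ ≃ ℤ where
  toFun b := if b % 2 = 0 then ((b / 2 : ℕ) : ℤ) else -((b / 2 : ℕ) : ℤ) - 1
  invFun z := if 0 ≤ z then 2 * z.toNat else 2 * (-z - 1).toNat + 1
  left_inv b := by
    beta_reduce
    split_ifs <;> omega
  right_inv z := by
    beta_reduce
    split_ifs <;> omega

/-- positive and negative parts -/
def zp (b : ℕ) : ℕ := if b % 2 = 0 then b / 2 else 0

def zm (b : ℕ) : ℕ := if b % 2 = 0 then 0 else b / 2 + 1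

theorem zc_eq (b : ℕ) : zc b = (zp b : ℤ) - zm b := by
  show (if b % 2 = 0 then ((b / 2 : ℕ) : ℤ) else -((b / 2 : ℕ) : ℤ) - 1) = _
  unfold zp zm
  split_ifs <;> push_cast <;> omega

theorem prim_zp : Primrec zp :=
  Primrec.ite (Primrec.eq.comp (Primrec.nat_mod.comp Primrec.id (Primrec.const 2))
    (Primrec.const 0)) (Primrec.nat_div.comp Primrec.id (Primrec.const 2)) (Primrec.const 0)

theorem prim_zm : Primrec zm :=
  Primrec.ite (Primrec.eq.comp (Primrec.nat_mod.comp Primrec.id (Primrec.const 2))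
    (Primrec.const 0)) (Primrec.const 0)
    (Primrec.succ.comp (Primrec.nat_div.comp Primrec.id (Primrec.const 2)))

section easy

variable {g : ℕ → ℕ}

theorem ci_natadd {α : Type} [Primcodable α] {f h : α → ℕ} (hf : CI g f) (hh : CI g h) :
    CI g fun a => f a + h a := by
  have h1 : Primrec fun z : ℕ × ℕ => z.1 + z.2 := Primrec.nat_add.comp Primrec.fst Primrec.snd
  exact (CI.prim h1).comp (hf.pair hh)

/-- addition of codes of integers -/
theorem ci_zadd : CI g fun z : ℕ × ℕ => zc.symm (zc z.1 + zc z.2) := by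
  classical
  have hp : DI g fun q : (ℕ × ℕ) × ℕ => zp q.1.1 + zp q.1.2 + zm q.2 =
      zm q.1.1 + zm q.1.2 + zp q.2 :=
    DI.eq (ci_natadd (ci_natadd ((CI.prim prim_zp).comp CI.id.fst.fst)
      ((CI.prim prim_zp).comp CI.id.fst.snd)) ((CI.prim prim_zm).comp CI.id.snd))
      (ci_natadd (ci_natadd ((CI.prim prim_zm).comp CI.id.fst.fst)
      ((CI.prim prim_zm).comp CI.id.fst.snd)) ((CI.prim prim_zp).comp CI.id.snd))
  have key : ∀ (z : ℕ × ℕ) (c : ℕ), zp z.1 + zp z.2 + zm c = zm z.1 + zm z.2 + zp c ↔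
      zc c = zc z.1 + zc z.2 := by
    intro z c
    rw [zc_eq, zc_eq, zc_eq]
    omega
  have hex : ∀ z : ℕ × ℕ, ∃ c, zp z.1 + zp z.2 + zm c = zm z.1 + zm z.2 + zp c := by
    intro z
    refine ⟨zc.symm (zc z.1 + zc z.2), (key _ _).2 ?_⟩
    rw [Equiv.apply_symm_apply]
  refine (CI.find (p := fun q : (ℕ × ℕ) × ℕ => zp q.1.1 + zp q.1.2 + zm q.2 =
      zm q.1.1 + zm q.1.2 + zp q.2) hp.ci hex).of_eq fun z => ?_
  rw [Equiv.eq_symm_apply]
  exact (key _ _).1 (Nat.find_spec (hex z))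

theorem di_zlt : DI g fun z : ℕ × ℕ => zc z.1 < zc z.2 := by
  have hp : DI g fun q : ℕ × ℕ => zp q.1 + zm q.2 < zp q.2 + zm q.1 :=
    DI.lt (ci_natadd ((CI.prim prim_zp).comp CI.id.fst) ((CI.prim prim_zm).comp CI.id.snd))
      (ci_natadd ((CI.prim prim_zp).comp CI.id.snd) ((CI.prim prim_zm).comp CI.id.fst))
  refine hp.of_iff fun z => ?_
  rw [zc_eq, zc_eq]
  omega

variable {V : Type} [AddCommGroup V] [LinearOrder V] [IsOrderedAddMonoid V]

theorem to_P_aux (e : ℕ ≃ V) (ζ : ℕ ≃ ℤ) (hadd : CI g fun z : ℕ × ℕ => e.symm (e z.1 + e z.2))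
    (hlt : DI g fun z : ℕ × ℕ => e z.1 < e z.2)
    (zadd : CI g fun z : ℕ × ℕ => ζ.symm (ζ z.1 + ζ z.2))
    (zlt : DI g fun z : ℕ × ℕ => ζ z.1 < ζ z.2) :
    ∃ e' : ℕ ≃ V ×ₗ ℤ, (CI g fun z : ℕ × ℕ => e'.symm (e' z.1 + e' z.2)) ∧
      DI g fun z : ℕ × ℕ => e' z.1 < e' z.2 := by
  obtain ⟨e', he'⟩ : ∃ e' : ℕ ≃ V ×ₗ ℤ, ∀ n, e' n = toLex (e n.unpair.1, ζ n.unpair.2) :=
    ⟨Nat.pairEquiv.symm.trans ((e.prodCongr ζ).trans toLex), fun _ => rfl⟩
  have hu : CI g fun n : ℕ => n.unpair := CI.prim Primrec.unpair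
  have hu1 : CI g fun z : ℕ × ℕ => z.1.unpair := hu.comp CI.id.fst
  have hu2 : CI g fun z : ℕ × ℕ => z.2.unpair := hu.comp CI.id.snd
  have a1 : CI g fun z : ℕ × ℕ => (z.1.unpair.1, z.2.unpair.1) := hu1.fst.pair hu2.fst
  have a2 : CI g fun z : ℕ × ℕ => (z.1.unpair.2, z.2.unpair.2) := hu1.snd.pair hu2.snd
  refine ⟨e', ?_, ?_⟩
  · have b1 : CI g fun z : ℕ × ℕ => e.symm (e z.1.unpair.1 + e z.2.unpair.1) := hadd.comp a1
    have b2 : CI g fun z : ℕ × ℕ => ζ.symm (ζ z.1.unpair.2 + ζ z.2.unpair.2) := zadd.comp a2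
    have h1 : CI g fun z : ℕ × ℕ => Nat.pair (e.symm (e z.1.unpair.1 + e z.2.unpair.1))
        (ζ.symm (ζ z.1.unpair.2 + ζ z.2.unpair.2)) := CI.mkpair b1 b2
    refine h1.of_eq fun z => ?_
    rw [Equiv.eq_symm_apply, he' (Nat.pair _ _), Nat.unpair_pair, he' z.1, he' z.2]
    generalize z.1.unpair = p
    generalize z.2.unpair = q
    simp only [Equiv.apply_symm_apply]
    rfl
  · have b1 : DI g fun z : ℕ × ℕ => e z.1.unpair.1 < e z.2.unpair.1 := hlt.comp a1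
    have b2 : DI g fun z : ℕ × ℕ => ζ z.1.unpair.2 < ζ z.2.unpair.2 := zlt.comp a2
    have b3 : DI g fun z : ℕ × ℕ => z.1.unpair.1 = z.2.unpair.1 := DI.eq hu1.fst hu2.fst
    have h1 : DI g fun z : ℕ × ℕ => e z.1.unpair.1 < e z.2.unpair.1 ∨
        (z.1.unpair.1 = z.2.unpair.1 ∧ ζ z.1.unpair.2 < ζ z.2.unpair.2) :=
      DI.or b1 (DI.and b3 b2)
    refine h1.of_iff fun z => ?_
    rw [he' z.1, he' z.2, Prod.Lex.lt_iff]
    generalize z.1.unpair = p
    generalize z.2.unpair = q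
    show _ ↔ e p.1 < e q.1 ∨ (e p.1 = e q.1 ∧ ζ p.2 < ζ q.2)
    rw [e.injective.eq_iff]

theorem to_P (e : ℕ ≃ V) (hadd : CI g fun z : ℕ × ℕ => e.symm (e z.1 + e z.2))
    (hlt : DI g fun z : ℕ × ℕ => e z.1 < e z.2) :
    ∃ e' : ℕ ≃ V ×ₗ ℤ, (CI g fun z : ℕ × ℕ => e'.symm (e' z.1 + e' z.2)) ∧
      DI g fun z : ℕ × ℕ => e' z.1 < e' z.2 :=
  to_P_aux e zc hadd hlt ci_zadd di_zlt

end easy

/-- The theorem. -/
theorem spectra_eq {V : Type} [AddCommGroup V] [LinearOrder V] [IsOrderedAddMonoid V]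
    [Nontrivial V] (hdiv : ∀ n : ℕ, 0 < n → ∀ v : V, ∃ w, n • w = v) {k k' : ℕ} (c : Fin k → V)
    (c' : Fin k' → V ×ₗ ℤ) : DgSp V c = DgSp (V ×ₗ ℤ) c' := by
  ext d
  constructor
  · rintro ⟨M, ⟨e, h1, h2, _⟩, rfl⟩
    obtain ⟨hadd, hlt⟩ := copy_ci h1 h2
    obtain ⟨e', h3, h4⟩ := to_P e hadd hlt
    exact exact_copy c' h3 h4
  · rintro ⟨M, ⟨e, h1, h2, _⟩, rfl⟩
    obtain ⟨hadd, hlt⟩ := copy_ci h1 h2
    obtain ⟨e', h3, h4⟩ := to_V hdiv e hadd hlt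
    exact exact_copy c h3 h4

end Pool.Agent.R621.DV
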